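import Pool.Agent.Lib.MP_293cc0_an.R.Spec

/-!
# MP_293cc0_an, the reduction (R): the block argument, section 10

Pure combinatorics of the times `tm`. Blocks: `B_a = [a t², (a+1) t²)`, `a < t`. CLAIM: either the conclusion holds or for all
`n ≤ t` there are `q 0, …, q (n-1)`, `q a ∈ B_a`, with `tm (q a) (q b) < (b+1) t²` for all `a < b < n`. STEP: if no element `x` of `B_n`
satisfies `tm (q a) x < (n+1) t²` for all `a < n`, every `x ∈ B_n` has an `a < n ≤ t` with `tm (q a) x ≥ (n+1) t²`; pigeonhole: one
`a` for a set `C` of `t` elements of `B_n` (`t²` elements, fewer than `t` values... `n ≤ t - 1` values: `≥ t` elements); for `x < x'`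
in `C`: `tri (q a) x x'` (last index `x' < (n+1) t²`): `tm (q a) x ≤ x'` and `tm (q a) x' ≤ x'` are false, so `tm x x' ≤ x'`, which
is `<` the next element of `C`. In the first case (`n = t`): `tm (q a) (q b) < (b+1) t² ≤ q c` for `a < b < c`.
-/

set_option autoImplicit false

namespace Pool.Agent.Lib.MP_293cc0_an.R

open Finset
open scoped Classical

/-- **Blocks.** -/
theorem blocks (t : ℕ) (ht : 1 ≤ t) (tm : ℕ → ℕ → ℕ)
    (tri : ∀ i j l, i < j → j < l → l < t ^ 3 → tm i j ≤ l ∨ tm i l ≤ l ∨ tm j l ≤ l) :
    ∃ q : ℕ → ℕ, (∀ a, a < t → q a < t ^ 3) ∧ (∀ a b, a < b → b < t → q a < q b) ∧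
      ∀ a b c, a < b → b < c → c < t → tm (q a) (q b) < q c := by
  obtain ⟨T, hT⟩ : ∃ T, T = t ^ 2 := ⟨_, rfl⟩
  have hT1 : 1 ≤ T := by rw [hT]; exact Nat.one_le_pow _ _ ht
  have hT3 : t * T = t ^ 3 := by rw [hT]; ring
  rw [← hT3] at tri ⊢
  by_contra hcon
  have claim : ∀ n, n ≤ t → ∃ q : ℕ → ℕ, (∀ a, a < n → a * T ≤ q a ∧ q a < (a + 1) * T) ∧
      ∀ a b, a < b → b < n → tm (q a) (q b) < (b + 1) * T := by
    intro n
    induction n with
    | zero => exact fun _ => ⟨fun _ => 0, by intro a ha; omega, by intro a b _ hb; omega⟩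
    | succ n ih =>
      intro hn
      obtain ⟨q, hq, hqt⟩ := ih (by omega)
      have hnT : (n + 1) * T ≤ t * T := Nat.mul_le_mul_right _ hn
      by_cases hx : ∃ x, n * T ≤ x ∧ x < (n + 1) * T ∧ ∀ a, a < n → tm (q a) x < (n + 1) * T
      · obtain ⟨x, hx1, hx2, hx3⟩ := hx
        refine ⟨fun a => if a < n then q a else x, ?_, ?_⟩
        · intro a ha
          by_cases h : a < n
          · simp only [if_pos h]; exact hq a h
          · have : a = n := by omega
            subst this
            simp only [if_neg h]; exact ⟨hx1, hx2⟩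
        · intro a b hab hb
          have han : a < n := by omega
          simp only [if_pos han]
          by_cases h : b < n
          · simp only [if_pos h]; exact hqt a b hab h
          · have : b = n := by omega
            subst this
            simp only [if_neg h]; exact hx3 a han
      · exfalso
        apply hcon
        push Not at hx
        have hx' : ∀ x ∈ Finset.Ico (n * T) ((n + 1) * T), ∃ a, a < n ∧ (n + 1) * T ≤ tm (q a) x := by
          intro x hxm
          rw [Finset.mem_Ico] at hxm
          exact hx x hxm.1 hxm.2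
        choose! f hf using hx'
        have hmaps : ∀ x ∈ Finset.Ico (n * T) ((n + 1) * T), f x ∈ Finset.range n := fun x hxm =>
          Finset.mem_range.2 (hf x hxm).1
        have hcard : (Finset.range n).card * (t - 1) < (Finset.Ico (n * T) ((n + 1) * T)).card := by
          rw [Finset.card_range, Nat.card_Ico]
          have h1 : (n + 1) * T - n * T = T := by
            rw [add_mul, one_mul]; omega
          rw [h1, hT]
          obtain ⟨t', rfl⟩ : ∃ t', t = t' + 1 := ⟨t - 1, by omega⟩
          have h2 : n ≤ t' := by omega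
          have h3 : n * (t' + 1 - 1) ≤ t' * t' := by
            rw [Nat.add_sub_cancel]
            exact Nat.mul_le_mul_right _ h2
          nlinarith
        obtain ⟨a, ha, hfib⟩ := Finset.exists_lt_card_fiber_of_mul_lt_card_of_maps_to hmaps hcard
        rw [Finset.mem_range] at ha
        obtain ⟨C, hC, hCc⟩ := Finset.exists_subset_card_eq
          (show t ≤ ((Finset.Ico (n * T) ((n + 1) * T)).filter (fun x => f x = a)).card by omega)
        have hCm : ∀ x ∈ C, n * T ≤ x ∧ x < (n + 1) * T ∧ (n + 1) * T ≤ tm (q a) x := by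
          intro x hxC
          have h1 := Finset.mem_filter.1 (hC hxC)
          have h2 := (hf x h1.1).2
          rw [h1.2] at h2
          exact ⟨(Finset.mem_Ico.1 h1.1).1, (Finset.mem_Ico.1 h1.1).2, h2⟩
        have hqa : q a < n * T := lt_of_lt_of_le (hq a ha).2 (Nat.mul_le_mul_right _ (by omega))
        let e := C.orderEmbOfFin hCc
        refine ⟨fun i => if h : i < t then e ⟨i, h⟩ else 0, ?_, ?_, ?_⟩
        · intro i hi
          simp only [dif_pos hi]
          exact lt_of_lt_of_le (hCm _ (Finset.orderEmbOfFin_mem C hCc _)).2.1 hnT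
        · intro i j hij hj
          have hi : i < t := by omega
          simp only [dif_pos hi, dif_pos hj]
          exact e.strictMono (by exact hij)
        · intro i j k hij hjk hk
          have hj : j < t := by omega
          have hi : i < t := by omega
          simp only [dif_pos hi, dif_pos hj, dif_pos hk]
          have m1 := hCm _ (Finset.orderEmbOfFin_mem C hCc ⟨i, hi⟩)
          have m2 := hCm _ (Finset.orderEmbOfFin_mem C hCc ⟨j, hj⟩)
          have l1 : e ⟨i, hi⟩ < e ⟨j, hj⟩ := e.strictMono (by exact hij)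
          have l2 : e ⟨j, hj⟩ < e ⟨k, hk⟩ := e.strictMono (by exact hjk)
          rcases tri (q a) (e ⟨i, hi⟩) (e ⟨j, hj⟩) (lt_of_lt_of_le hqa m1.1) l1
            (lt_of_lt_of_le m2.2.1 hnT) with h | h | h
          · exact absurd (m1.2.2.trans h) (not_le.2 m2.2.1)
          · exact absurd (m2.2.2.trans h) (not_le.2 m2.2.1)
          · exact lt_of_le_of_lt h l2
  obtain ⟨q, hq, hqt⟩ := claim t le_rfl
  apply hcon
  refine ⟨q, ?_, ?_, ?_⟩
  · intro a ha
    exact lt_of_lt_of_le (hq a ha).2 (Nat.mul_le_mul_right _ (by omega))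
  · intro a b hab hb
    exact lt_of_lt_of_le (hq a (by omega)).2
      (le_trans (Nat.mul_le_mul_right _ (by omega)) (hq b hb).1)
  · intro a b c hab hbc hc
    exact lt_of_lt_of_le (hqt a b hab (by omega))
      (le_trans (Nat.mul_le_mul_right _ (by omega)) (hq c hc).1)

end Pool.Agent.Lib.MP_293cc0_an.R
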