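import Pool.Agent.Lib.MP_293cc0_an.R.SpecC

/-!
# MP_293cc0_an, the reduction: the chain
-/

set_option autoImplicit false

namespace Pool.Agent.Lib.MP_293cc0_an.R

open Finset
open scoped Classical

theorem StOK.congr {X : Type} [MetricSpace X] {E : Type} {m cS cI : ℕ} {P : E → X → ℝ} {f f' : ℕ → St X E} {l : ℕ}
    (h : StOK m cS cI P f l) (hf : ∀ i, i ≤ l → f' i = f i) : StOK m cS cI P f' l := by
  have h0 : f' l = f l := hf l le_rfl
  have h1 : f' (l - 1) = f (l - 1) := hf _ (Nat.sub_le _ _)
  have hacc := h.acc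
  constructor
  · rw [h0, h1]; exact h.cost
  · rw [h0]; exact h.inc
  · rw [h0, h1]; exact h.tau
  · rw [h0, h1]; exact h.memT
  · rw [h0]; exact h.injT
  · rw [h0]; exact h.notV
  · rw [h0]; exact h.acc
  · rw [h0, h1]; exact h.pair
  · rw [h0]
    intro i hi x hx
    have h2 := h.row i hi x hx
    refine ⟨?_, ?_⟩
    · have h3 := h2.1
      simp only at h3 ⊢
      rw [hf _ hacc]
      exact h3
    · intro ha
      have h3 := h2.2 ha
      simp only at h3 ⊢
      rw [hf _ (by omega)]
      exact h3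
  · intro l' h2 h3
    rw [h0, hf l' (by omega)]
    exact h.serv l' h2 h3
  · intro l' h2 h3
    rw [h0, hf l' (by omega)]
    exact h.ord l' h2 h3
  · intro i j k hi1 hi2 hj1 hj2 hk1 hk2
    rw [h0, hf i hi2, hf j hj2, hf k hk2]
    exact h.hom i j k hi1 hi2 hj1 hj2 hk1 hk2
  · rw [h0]; exact h.sign

theorem PinC.nonempty {X : Type} [MetricSpace X] {E : Type} {m p0 cB : ℕ} {P : E → X → ℝ} {V0 W : Finset X}
    {g : X → ℝ} {δ : ℝ} (hpin : PinC m P V0 cB) (hWc : Cost p0 W V0) (hWl : Level m W g δ) (hWcard : 2 ≤ W.card)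
    (hc : p0 + 1 ≤ cB) {x0 : X} (hx0 : x0 ∈ V0) : Nonempty E := by
  by_contra hcon
  rw [not_nonempty_iff] at hcon
  have h1 := hpin.p2 W g δ hWc.1 hWl x0 hx0
  have h4 : W.card - 1 ≤ (W.erase x0).card := Finset.pred_card_le_card_erase
  have h5 := hWc.2
  have h6 : 2 ^ p0 * 2 ≤ 2 ^ cB := by
    rw [← pow_succ]
    exact Nat.pow_le_pow_right (by norm_num) hc
  have h7 : 2 ^ p0 * (2 * (W.card - 1)) < 2 ^ p0 * W.card := by
    refine lt_of_le_of_lt ?_ (lt_of_lt_of_le h1 h5)
    have h9 : 2 ^ p0 * (2 * (W.card - 1)) = 2 ^ p0 * 2 * (W.card - 1) := by ring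
    rw [h9]
    refine Nat.mul_le_mul h6 (h4.trans (Finset.card_le_card ?_))
    intro w hw
    rw [Finset.mem_erase] at hw
    rw [Finset.mem_filter]
    exact ⟨hw.2, hw.1, fun e => (IsEmpty.false e).elim⟩
  have h8 := Nat.lt_of_mul_lt_mul_left h7
  omega

theorem chain (hStage : StageStmt) (hStep : StepStmt) : ChainStmt := by
  intro X _ E _ m PD qD nD nZ a Lm κ μ cT cW p0 cI cS cV cB nW P V0 par hD hN hpin hE hbig
  have p5 := par.hp0
  have p7 := par.hI
  have p8 := par.hS
  have p9 := par.hV
  have p10 := par.hB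
  have p11 := par.hn
  intro L
  induction L with
  | zero =>
    intro _
    obtain ⟨W, g, δ, hWc, hWl, hmin⟩ := hN p0 V0 (by omega)
      (le_trans (Nat.pow_le_pow_right (by norm_num) (by omega)) hbig)
    have hδ0 : 0 < δ := hWl.pos
    obtain ⟨V3, hV3, hinc3⟩ := hStage X E m PD qD nD a cB 0 0 cI p0 P V0 V0 V0 δ hD hpin hE hδ0
      (Finset.Subset.refl _) (Cost.refl V0) (Cost.refl V0) hmin (by omega) (by omega)
      (le_trans (Nat.pow_le_pow_right (by norm_num) (by omega)) hbig)
    -- `E` is non-empty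
    have hV0 : 2 ≤ V0.card := by
      have h1 : 2 ^ 1 ≤ V0.card := le_trans (Nat.pow_le_pow_right (by norm_num) (by omega)) hbig
      simpa using h1
    have hWcard : 2 ≤ W.card := by
      have h1 : 2 ^ 1 ≤ W.card := hWc.large (le_trans (Nat.pow_le_pow_right (by norm_num) (by omega)) hbig)
      simpa using h1
    obtain ⟨x0, hx0⟩ : V0.Nonempty := by rw [← Finset.card_pos]; omega
    have hEne : Nonempty E := hpin.nonempty hWc hWl hWcard (by omega) hx0
    obtain ⟨e0⟩ := hEne
    refine ⟨fun _ => ⟨V3, fun _ => x0, e0, 0, true, 5 * δ⟩, hV3.mono (by omega), ?_, ?_, ?_⟩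
    · simp only
      linarith
    · have : 4 / 5 * (5 * δ) = 4 * δ := by ring
      simp only [this]
      exact hinc3
    · intro l h1 h2
      omega
  | succ L ih =>
    intro hL
    obtain ⟨f, hf0, hf1, hf2, hf3⟩ := ih (by omega)
    -- costs
    have hcost : ∀ l, l ≤ L → Cost ((l + 1) * cS) (f l).V V0 := by
      intro l
      induction l with
      | zero => intro _; simpa using hf0
      | succ l ihl =>
        intro hl
        have h1 := ihl (by omega)
        have h2 := (hf3 (l + 1) (by omega) hl).cost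
        rw [Nat.add_sub_cancel] at h2
        have h3 := h1.trans h2
        have h4 : (l + 1) * cS + cS = (l + 1 + 1) * cS := by ring
        rwa [h4] at h3
    have hpos : ∀ l, l ≤ L → 0 < (f l).τ := by
      intro l
      induction l with
      | zero => intro _; exact hf1
      | succ l ihl =>
        intro hl
        have h1 := ihl (by omega)
        have h2 := (hf3 (l + 1) (by omega) hl).tau
        rw [Nat.add_sub_cancel] at h2
        linarith
    have hinc : ∀ l, l ≤ L → Inc m cI (f l).V (4 / 5 * (f l).τ) := by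
      intro l hl
      rcases Nat.eq_zero_or_pos l with h | h
      · rw [h]; exact hf2
      · exact (hf3 l h hl).inc
    obtain ⟨s, hs⟩ := hStep X E m PD qD nD nZ a Lm κ μ cT cW p0 cI cS cV cB nW P V0 f (L + 1) par hD hN hpin hE
      hbig (by omega) hL (by rw [Nat.add_sub_cancel]; exact hcost L le_rfl)
      (by rw [Nat.add_sub_cancel]; exact hpos L le_rfl) (by rw [Nat.add_sub_cancel]; exact hinc L le_rfl)
    have h0 : Function.update f (L + 1) s 0 = f 0 := Function.update_of_ne (by omega) _ _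
    refine ⟨Function.update f (L + 1) s, ?_, ?_, ?_, ?_⟩
    · rw [h0]; exact hf0
    · rw [h0]; exact hf1
    · rw [h0]; exact hf2
    · intro l h1 h2
      rcases Nat.lt_or_ge l (L + 1) with h3 | h3
      · exact (hf3 l h1 (by omega)).congr (fun i hi => Function.update_of_ne (by omega) _ _)
      · have : l = L + 1 := by omega
        rw [this]; exact hs

end Pool.Agent.Lib.MP_293cc0_an.R
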