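import Pool.Agent.Lib.MP_293cc0_an.R.SpecC

/-!
# MP_293cc0_an, the reduction: unclassified points are rare (`ClsStmt`)
-/

set_option autoImplicit false

open Finset
open scoped Classical

namespace Pool.Agent.Lib.MP_293cc0_an.R

theorem cls : ClsStmt := by
  intro X _ E _ m a c cB cV P V0 W W' g δ hP hE hW hL hW' hC hle x hx
  have hLW' : Level m W' g δ := hL.subset hW'
  have hW'V : W' ⊆ V0 := hW'.trans hW
  set S : Finset X := W'.filter (fun w => w ≠ x ∧ ∀ e, 5 * δ < |MG (P e) w x|) with hS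
  set S2 : Finset X := W'.filter (fun w => w ≠ x ∧ ∀ e, 5 / 2 * δ < |dist x w - g w - P e x|) with hS2
  set S1 : E → Finset X := fun e => W'.filter (fun w => 5 / 2 * δ < |P e w - g w|) with hS1
  have h1 : ∀ e, 2 ^ cB * (S1 e).card ≤ V0.card := fun e => (hP.p1 W' g δ hW'V hLW' e).le
  have h2 : 2 ^ cB * S2.card ≤ V0.card := by
    have h0 := (hP.p2 W' g δ hW'V hLW' x hx).le
    refine le_trans (Nat.mul_le_mul_left _ (Finset.card_le_card ?_)) h0
    intro w hw
    simp only [hS2, Finset.mem_filter] at hw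
    simp only [Finset.mem_filter]
    exact hw
  have hsub : S ⊆ S2 ∪ (Finset.univ : Finset E).biUnion S1 := by
    intro w hw
    rw [hS, Finset.mem_filter] at hw
    obtain ⟨hwW, hwx, hwe⟩ := hw
    by_cases h : ∀ e, 5 / 2 * δ < |dist x w - g w - P e x|
    · exact Finset.mem_union_left _ (by rw [hS2, Finset.mem_filter]; exact ⟨hwW, hwx, h⟩)
    · push Not at h
      obtain ⟨e, he⟩ := h
      refine Finset.mem_union_right _ (Finset.mem_biUnion.2 ⟨e, Finset.mem_univ _, ?_⟩)
      rw [hS1]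
      simp only [Finset.mem_filter]
      refine ⟨hwW, ?_⟩
      have h3 := hwe e
      have h4 : MG (P e) w x = (dist x w - g w - P e x) - (P e w - g w) := by
        unfold MG
        rw [dist_comm w x]
        ring
      have h5 : |MG (P e) w x| ≤ |dist x w - g w - P e x| + |P e w - g w| := by
        rw [h4]
        exact abs_sub _ _
      linarith
  have hcard : S.card ≤ S2.card + ∑ e : E, (S1 e).card :=
    (Finset.card_le_card hsub).trans ((Finset.card_union_le _ _).trans (Nat.add_le_add_left Finset.card_biUnion_le _))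
  have h6 : 2 ^ cB * S.card ≤ (1 + Fintype.card E) * V0.card := by
    calc 2 ^ cB * S.card ≤ 2 ^ cB * (S2.card + ∑ e : E, (S1 e).card) := Nat.mul_le_mul_left _ hcard
      _ = 2 ^ cB * S2.card + ∑ e : E, 2 ^ cB * (S1 e).card := by rw [mul_add, Finset.mul_sum]
      _ ≤ V0.card + ∑ _e : E, V0.card := Nat.add_le_add h2 (Finset.sum_le_sum fun e _ => h1 e)
      _ = (1 + Fintype.card E) * V0.card := by
        rw [Finset.sum_const, Finset.card_univ, smul_eq_mul]
        ring
  have h7 : (1 + Fintype.card E) ≤ 2 ^ (a + 1) := by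
    have : 1 ≤ 2 ^ a := Nat.one_le_two_pow
    rw [pow_succ]
    omega
  have h8 : 2 ^ cB * S.card ≤ 2 ^ (a + 1) * (2 ^ cV * W'.card) :=
    h6.trans (Nat.mul_le_mul h7 hC.2)
  have h9 : 2 ^ (cV + c + a + 1) * S.card ≤ 2 ^ (a + 1) * (2 ^ cV * W'.card) :=
    (Nat.mul_le_mul_right _ (Nat.pow_le_pow_right (by norm_num) hle)).trans h8
  have h10 : 2 ^ (a + 1 + cV) * (2 ^ c * S.card) ≤ 2 ^ (a + 1 + cV) * W'.card := by
    calc 2 ^ (a + 1 + cV) * (2 ^ c * S.card) = 2 ^ (cV + c + a + 1) * S.card := by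
          rw [← mul_assoc, ← pow_add]
          congr 2
          omega
      _ ≤ 2 ^ (a + 1) * (2 ^ cV * W'.card) := h9
      _ = 2 ^ (a + 1 + cV) * W'.card := by rw [← mul_assoc, ← pow_add]
  exact Nat.le_of_mul_le_mul_left h10 (by positivity)

end Pool.Agent.Lib.MP_293cc0_an.R
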