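import Pool.Agent.Lib.MP_293cc0_an.R.NH

/-!
# MP_293cc0_an, reduction: the cluster lemma

Let `B` be a dense subset of a near-hyperbolic set. If at least half of the points `v ∈ B` have many partners `w ∈ B` with
`MG g v w < T`, then there is a dense subset of `B` in which all pairs are below `T + 4 ε`.
-/

set_option autoImplicit false

namespace Pool.Agent.Lib.MP_293cc0_an.R

open Finset
open scoped Classical

variable {X : Type} [MetricSpace X]

/-- Double counting: an average vertex of `G` is exceptional for few pairs. -/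
theorem exists_few {g : X → ℝ} {ε : ℝ} {s c : ℕ} {U₁ B G : Finset X} (hNH : NH g ε s U₁)
    (hB : Cost c B U₁) (hG : B.card ≤ 2 * G.card) (hne : B.Nonempty) :
    ∃ v ∈ G, 2 ^ s * ((B ×ˢ B).filter (fun p => p.1 ≠ p.2 ∧ v ∈ Exc g ε U₁ p.1 p.2)).card ≤
      2 ^ (c + 1) * (B.card * B.card) := by
  classical
  by_contra hno
  push Not at hno
  have hBpos : 0 < B.card := Finset.card_pos.2 hne
  have hGpos : 0 < G.card := by omega
  -- the sum over `G`
  have h1 : G.card * (2 ^ (c + 1) * (B.card * B.card)) <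
      ∑ v ∈ G, 2 ^ s * ((B ×ˢ B).filter (fun p => p.1 ≠ p.2 ∧ v ∈ Exc g ε U₁ p.1 p.2)).card := by
    rw [← smul_eq_mul (a := G.card), ← Finset.sum_const]
    exact Finset.sum_lt_sum_of_nonempty (Finset.card_pos.1 hGpos) hno
  have h2 : ∑ v ∈ G, 2 ^ s * ((B ×ˢ B).filter (fun p => p.1 ≠ p.2 ∧ v ∈ Exc g ε U₁ p.1 p.2)).card ≤
      B.card * B.card * (2 ^ c * B.card) := by
    rw [← Finset.mul_sum]
    have h3 : ∑ v ∈ G, ((B ×ˢ B).filter (fun p => p.1 ≠ p.2 ∧ v ∈ Exc g ε U₁ p.1 p.2)).card =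
        ∑ p ∈ B ×ˢ B, (G.filter (fun v => p.1 ≠ p.2 ∧ v ∈ Exc g ε U₁ p.1 p.2)).card := by
      have := Finset.sum_card_bipartiteAbove_eq_sum_card_bipartiteBelow
        (s := G) (t := B ×ˢ B) (fun (v : X) (p : X × X) => p.1 ≠ p.2 ∧ v ∈ Exc g ε U₁ p.1 p.2)
      simpa [Finset.bipartiteAbove, Finset.bipartiteBelow] using this
    rw [h3, Finset.mul_sum]
    calc ∑ p ∈ B ×ˢ B, 2 ^ s * (G.filter (fun v => p.1 ≠ p.2 ∧ v ∈ Exc g ε U₁ p.1 p.2)).card
        ≤ ∑ _p ∈ B ×ˢ B, U₁.card := by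
          refine Finset.sum_le_sum fun p hp => ?_
          obtain ⟨hp1, hp2⟩ := Finset.mem_product.1 hp
          by_cases hpp : p.1 = p.2
          · have h4 : G.filter (fun v => p.1 ≠ p.2 ∧ v ∈ Exc g ε U₁ p.1 p.2) = ∅ := by
              rw [Finset.filter_eq_empty_iff]
              intro v _ h
              exact h.1 hpp
            rw [h4, Finset.card_empty, Nat.mul_zero]
            exact Nat.zero_le _
          · have h5 := hNH p.1 (hB.1 hp1) p.2 (hB.1 hp2) hpp
            refine le_trans (Nat.mul_le_mul_left _ (Finset.card_le_card ?_)) h5.le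
            intro v hv
            exact (Finset.mem_filter.1 hv).2.2
      _ = B.card * B.card * U₁.card := by
          rw [Finset.sum_const, Finset.card_product, smul_eq_mul]
      _ ≤ B.card * B.card * (2 ^ c * B.card) := Nat.mul_le_mul_left _ hB.2
  have h6 : B.card * B.card * (2 ^ c * B.card) ≤ G.card * (2 ^ (c + 1) * (B.card * B.card)) := by
    calc B.card * B.card * (2 ^ c * B.card) ≤ B.card * B.card * (2 ^ c * (2 * G.card)) :=
          Nat.mul_le_mul_left _ (Nat.mul_le_mul_left _ hG)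
      _ = G.card * (2 ^ (c + 1) * (B.card * B.card)) := by rw [pow_succ]; ring
  omega

/-- **Cluster lemma.** -/
theorem cluster {g : X → ℝ} {ε T : ℝ} {s c r : ℕ} {U₁ B : Finset X} (hNH : NH g ε s U₁)
    (hB : Cost c B U₁) (hs : c + 2 * r + 6 ≤ s) (hbig : 2 ^ (r + 2) ≤ B.card)
    (hG : B.card ≤ 2 * (B.filter (fun v => B.card ≤
      2 ^ r * (B.filter (fun w => w ≠ v ∧ MG g v w < T)).card)).card) :
    ∃ B', Cost (r + 1) B' B ∧ ∀ a ∈ B', ∀ b ∈ B', a ≠ b → MG g a b < T + 4 * ε := by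
  classical
  have hne : B.Nonempty := by
    rw [← Finset.card_pos]
    exact lt_of_lt_of_le (by positivity) hbig
  obtain ⟨v, hv, hE⟩ := exists_few hNH hB hG hne
  rw [Finset.mem_filter] at hv
  obtain ⟨hvB, hvN⟩ := hv
  obtain ⟨N, hN⟩ : ∃ N, N = B.filter (fun w => w ≠ v ∧ MG g v w < T) := ⟨_, rfl⟩
  rw [← hN] at hvN
  have hNB : N ⊆ B := by rw [hN]; exact Finset.filter_subset _ _
  have hNspec : ∀ w ∈ N, w ≠ v ∧ MG g v w < T := by
    intro w hw
    rw [hN, Finset.mem_filter] at hw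
    exact hw.2
  have hN4 : 4 ≤ N.card := by
    have h1 : 2 ^ r * 4 ≤ 2 ^ r * N.card := by
      calc 2 ^ r * 4 = 2 ^ (r + 2) := by rw [pow_add]; norm_num
        _ ≤ B.card := hbig
        _ ≤ 2 ^ r * N.card := hvN
    exact Nat.le_of_mul_le_mul_left h1 (by positivity)
  -- the exceptional pairs
  obtain ⟨E, hEd⟩ : ∃ E, E = (B ×ˢ B).filter (fun p => p.1 ≠ p.2 ∧ v ∈ Exc g ε U₁ p.1 p.2) :=
    ⟨_, rfl⟩
  rw [← hEd] at hE
  have hE2 : 2 ^ 5 * E.card ≤ N.card * N.card := by
    have h1 : 2 ^ (c + 2 * r + 1) * (2 ^ 5 * E.card) ≤ 2 ^ (c + 2 * r + 1) * (N.card * N.card) := by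
      calc 2 ^ (c + 2 * r + 1) * (2 ^ 5 * E.card) = 2 ^ (c + 2 * r + 6) * E.card := by
            rw [show c + 2 * r + 6 = c + 2 * r + 1 + 5 by ring, pow_add _ (c + 2 * r + 1) 5]; ring
        _ ≤ 2 ^ s * E.card := Nat.mul_le_mul_right _ (Nat.pow_le_pow_right (by norm_num) hs)
        _ ≤ 2 ^ (c + 1) * (B.card * B.card) := hE
        _ ≤ 2 ^ (c + 1) * ((2 ^ r * N.card) * (2 ^ r * N.card)) :=
            Nat.mul_le_mul_left _ (Nat.mul_le_mul hvN hvN)
        _ = 2 ^ (c + 2 * r + 1) * (N.card * N.card) := by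
            rw [show c + 2 * r + 1 = c + 1 + (r + r) by ring, pow_add _ (c + 1), pow_add _ r r]; ring
    exact Nat.le_of_mul_le_mul_left h1 (by positivity)
  -- partners
  obtain ⟨F, hF⟩ : ∃ F : X → Finset X, F = fun a => N.filter (fun b => a ≠ b ∧ v ∈ Exc g ε U₁ a b) :=
    ⟨_, rfl⟩
  obtain ⟨B', hB'⟩ : ∃ B', B' = N.filter (fun a => 8 * (F a).card ≤ N.card) := ⟨_, rfl⟩
  have hcount : (N \ B').card * N.card ≤ 8 * E.card := by
    have h1 : ∑ a ∈ N \ B', (F a).card ≤ E.card := by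
      have h2 : ((N \ B').sigma F).card ≤ E.card := by
        apply Finset.card_le_card_of_injOn (fun x => (x.1, x.2))
        · intro x hx
          rw [Finset.mem_coe, Finset.mem_sigma] at hx
          obtain ⟨hx1, hx2⟩ := hx
          rw [hF, Finset.mem_filter] at hx2
          rw [Finset.mem_coe, hEd, Finset.mem_filter, Finset.mem_product]
          exact ⟨⟨hNB (Finset.mem_sdiff.1 hx1).1, hNB hx2.1⟩, hx2.2⟩
        · intro x _ y _ hxy
          simp only [Prod.mk.injEq] at hxy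
          obtain ⟨x1, x2⟩ := x
          obtain ⟨y1, y2⟩ := y
          simp only at hxy
          obtain ⟨rfl, rfl⟩ := hxy
          rfl
      rwa [Finset.card_sigma] at h2
    have h3 : ∑ _a ∈ N \ B', N.card ≤ ∑ a ∈ N \ B', 8 * (F a).card := by
      refine Finset.sum_le_sum fun a ha => ?_
      rw [Finset.mem_sdiff, hB', Finset.mem_filter] at ha
      by_contra h4
      push Not at h4
      exact ha.2 ⟨ha.1, h4.le⟩
    rw [Finset.sum_const, smul_eq_mul, ← Finset.mul_sum] at h3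
    omega
  have hB'c : 3 * N.card ≤ 4 * B'.card := by
    have h1 : (N \ B').card = N.card - B'.card := by
      apply Finset.card_sdiff_of_subset
      rw [hB']; exact Finset.filter_subset _ _
    have h2 : B'.card ≤ N.card := by
      rw [hB']; exact Finset.card_filter_le _ _
    have h3 : (4 * (N \ B').card) * N.card ≤ N.card * N.card := by nlinarith
    have h4 : 4 * (N \ B').card ≤ N.card := Nat.le_of_mul_le_mul_right h3 (by omega)
    omega
  refine ⟨B', ⟨?_, ?_⟩, ?_⟩
  · rw [hB']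
    exact (Finset.filter_subset _ _).trans hNB
  · calc B.card ≤ 2 ^ r * N.card := hvN
      _ ≤ 2 ^ r * (2 * B'.card) := Nat.mul_le_mul_left _ (by omega)
      _ = 2 ^ (r + 1) * B'.card := by rw [pow_succ]; ring
  · intro a ha b hb hab
    rw [hB', Finset.mem_filter] at ha hb
    -- the exceptional set of the pair `a, b`
    have hX : 2 ^ 6 * (Exc g ε U₁ a b).card ≤ N.card := by
      have h1 := hNH a (hB.1 (hNB ha.1)) b (hB.1 (hNB hb.1)) hab
      have h2 : 2 ^ (c + r) * (2 ^ 6 * (Exc g ε U₁ a b).card) ≤ 2 ^ (c + r) * N.card := by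
        calc 2 ^ (c + r) * (2 ^ 6 * (Exc g ε U₁ a b).card) = 2 ^ (c + r + 6) * (Exc g ε U₁ a b).card := by
              rw [pow_add _ (c + r) 6]; ring
          _ ≤ 2 ^ s * (Exc g ε U₁ a b).card :=
              Nat.mul_le_mul_right _ (Nat.pow_le_pow_right (by norm_num) (by omega))
          _ ≤ U₁.card := h1.le
          _ ≤ 2 ^ c * B.card := hB.2
          _ ≤ 2 ^ c * (2 ^ r * N.card) := Nat.mul_le_mul_left _ hvN
          _ = 2 ^ (c + r) * N.card := by rw [pow_add]; ring
      exact Nat.le_of_mul_le_mul_left h2 (by positivity)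
    -- a common good partner
    have hpos : 0 < (N \ (F a ∪ F b ∪ Exc g ε U₁ a b ∪ {a, b})).card := by
      have h1 := Finset.le_card_sdiff (F a ∪ F b ∪ Exc g ε U₁ a b ∪ {a, b}) N
      have h2 := Finset.card_union_le (F a ∪ F b ∪ Exc g ε U₁ a b) {a, b}
      have h3 := Finset.card_union_le (F a ∪ F b) (Exc g ε U₁ a b)
      have h4 := Finset.card_union_le (F a) (F b)
      have h5 : ({a, b} : Finset X).card ≤ 2 := Finset.card_le_two
      have h6 := ha.2
      have h7 := hb.2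
      omega
    obtain ⟨w, hw⟩ := Finset.card_pos.1 hpos
    rw [Finset.mem_sdiff, Finset.mem_union, Finset.mem_union, Finset.mem_union,
      Finset.mem_insert, Finset.mem_singleton] at hw
    push Not at hw
    obtain ⟨hwN, ⟨⟨hwa, hwb⟩, hwE⟩, hwa', hwb'⟩ := hw
    obtain ⟨hav, haT⟩ := hNspec a ha.1
    obtain ⟨hbv, hbT⟩ := hNspec b hb.1
    obtain ⟨hwv, hwT⟩ := hNspec w hwN
    have key : ∀ x ∈ N, x ≠ w → w ∉ F x → MG g v x < T → MG g x w < T + 2 * ε := by
      intro x hx hxw hxF hxT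
      by_contra h1
      push Not at h1
      apply hxF
      rw [hF, Finset.mem_filter]
      refine ⟨hwN, hxw, ?_⟩
      unfold Exc
      rw [Finset.mem_filter]
      obtain ⟨hxv, _⟩ := hNspec x hx
      refine ⟨hB.1 hvB, hxv.symm, hwv.symm, ?_, ?_⟩
      · rw [MG.comm g x v]; linarith
      · rw [MG.comm g w v]; linarith
    have k1 := key a ha.1 (fun e => hwa' e.symm) hwa haT
    have k2 := key b hb.1 (fun e => hwb' e.symm) hwb hbT
    by_contra h1
    push Not at h1
    apply hwE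
    unfold Exc
    rw [Finset.mem_filter]
    exact ⟨hB.1 (hNB hwN), hwa', hwb', by linarith, by linarith⟩

end Pool.Agent.Lib.MP_293cc0_an.R
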