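import Pool.Agent.Lib.MP_293cc0_an.Comb

/-!
# MP_293cc0_an, the reduction (R): definitions

* `MG g v w = dist v w - g v - g w` (used for `v ≠ w` only);
* `Low g s v w`: `MG g v w < -s`;
* `Cost c A' A`: `A' ⊆ A` and `card A ≤ 2 ^ c * card A'`;
* `Rk G m n A`: the rank of `A` with respect to the graph `G` (with `m` colours) is at most `n`;
* `Level m A g s`: `0 < s`, `MG g ≤ 0` on the pairs of `A`, and the graph `Low g s` has rank `≤ m` on `A`.
-/

set_option autoImplicit false

namespace Pool.Agent.Lib.MP_293cc0_an.R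

open Finset
open scoped Classical

section Graph

variable {X : Type}

/-- The rank of `A` with respect to `G`: rank `0` is the empty set; the rank is at most `n + 1`, if for every `v ∈ A`
the `G`-neighbours of `v` in `A` can be partitioned into `m` sets of rank at most `n`. -/
def Rk (G : X → X → Prop) (m : ℕ) : ℕ → Finset X → Prop
  | 0, A => A = ∅
  | (n + 1), A => ∀ v ∈ A, ∃ f : X → Fin m, ∀ c, Rk G m n (A.filter (fun w => w ≠ v ∧ G v w ∧ f w = c))

theorem Rk.subset {G : X → X → Prop} {m : ℕ} : ∀ {n : ℕ} {A A' : Finset X}, A' ⊆ A → Rk G m n A → Rk G m n A' := by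
  intro n
  induction n with
  | zero =>
    intro A A' h hA
    have hA' : A = ∅ := hA
    subst hA'
    exact Finset.subset_empty.1 h
  | succ n ih =>
    intro A A' h hA v hv
    obtain ⟨f, hf⟩ := hA v (h hv)
    exact ⟨f, fun c => ih (Finset.filter_subset_filter _ h) (hf c)⟩

theorem Rk.empty (G : X → X → Prop) (m n : ℕ) : Rk G m n (∅ : Finset X) := by
  cases n with
  | zero => rfl
  | succ n => intro v hv; exact absurd hv (Finset.notMem_empty v)

theorem Rk.succ {G : X → X → Prop} {m : ℕ} : ∀ {n : ℕ} {A : Finset X}, Rk G m n A → Rk G m (n + 1) A := by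
  intro n
  induction n with
  | zero =>
    intro A hA
    have hA' : A = ∅ := hA
    subst hA'
    exact Rk.empty G m 1
  | succ n ih =>
    intro A hA v hv
    obtain ⟨f, hf⟩ := hA v hv
    exact ⟨f, fun c => ih (hf c)⟩

theorem Rk.le {G : X → X → Prop} {m n n' : ℕ} {A : Finset X} (h : Rk G m n A) (hn : n ≤ n') : Rk G m n' A := by
  induction hn with
  | refl => exact h
  | step _ ih => exact ih.succ

/-- The rank is monotone in the graph. -/
theorem Rk.anti {G G' : X → X → Prop} {m : ℕ} :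
    ∀ {n : ℕ} {A : Finset X}, (∀ v ∈ A, ∀ w ∈ A, v ≠ w → G' v w → G v w) → Rk G m n A → Rk G' m n A := by
  intro n
  induction n with
  | zero => intro A _ hA; exact hA
  | succ n ih =>
    intro A h hA v hv
    obtain ⟨f, hf⟩ := hA v hv
    refine ⟨f, fun c => ?_⟩
    have h1 : Rk G' m n (A.filter (fun w => w ≠ v ∧ G v w ∧ f w = c)) := by
      refine ih ?_ (hf c)
      intro x hx y hy hxy hG
      exact h x (Finset.mem_of_mem_filter x hx) y (Finset.mem_of_mem_filter y hy) hxy hG
    refine h1.subset ?_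
    intro w hw
    rw [Finset.mem_filter] at hw ⊢
    exact ⟨hw.1, hw.2.1, h v hv w hw.1 (fun e => hw.2.1 e.symm) hw.2.2.1, hw.2.2.2⟩

/-- `A'` is a subset of `A` of cost at most `c`. -/
def Cost (c : ℕ) (A' A : Finset X) : Prop := A' ⊆ A ∧ A.card ≤ 2 ^ c * A'.card

theorem Cost.refl (A : Finset X) : Cost 0 A A := ⟨Finset.Subset.refl A, by simp⟩

theorem Cost.trans {c c' : ℕ} {A A' A'' : Finset X} (h : Cost c A' A) (h' : Cost c' A'' A') :
    Cost (c + c') A'' A := by
  refine ⟨h'.1.trans h.1, h.2.trans ?_⟩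
  calc 2 ^ c * A'.card ≤ 2 ^ c * (2 ^ c' * A''.card) := Nat.mul_le_mul_left _ h'.2
    _ = 2 ^ (c + c') * A''.card := by rw [pow_add]; ring

theorem Cost.mono {c c' : ℕ} {A A' : Finset X} (h : Cost c A' A) (hc : c ≤ c') : Cost c' A' A :=
  ⟨h.1, h.2.trans (Nat.mul_le_mul_right _ (Nat.pow_le_pow_right (by norm_num) hc))⟩

theorem Cost.card_le {c : ℕ} {A A' : Finset X} (h : Cost c A' A) : A.card ≤ 2 ^ c * A'.card := h.2

/-- A subset of small cost of a large set is large. -/
theorem Cost.large {c k : ℕ} {A A' : Finset X} (h : Cost c A' A) (hA : 2 ^ (c + k) ≤ A.card) :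
    2 ^ k ≤ A'.card := by
  have h1 := hA.trans h.2
  rw [pow_add] at h1
  exact Nat.le_of_mul_le_mul_left h1 (by positivity)

end Graph

section Metric

variable {X : Type} [MetricSpace X]

/-- `MG g v w = dist v w - g v - g w`. -/
def MG (g : X → ℝ) (v w : X) : ℝ := dist v w - g v - g w

theorem MG.comm (g : X → ℝ) (v w : X) : MG g v w = MG g w v := by
  unfold MG; rw [dist_comm]; ring

/-- The low graph. -/
def Low (g : X → ℝ) (s : ℝ) (v w : X) : Prop := MG g v w < -s

theorem Low.comm {g : X → ℝ} {s : ℝ} {v w : X} : Low g s v w ↔ Low g s w v := by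
  unfold Low; rw [MG.comm]

theorem MG.sum_le {g : X → ℝ} {a b c d : X} (h : MG g a c + MG g b d ≤ MG g a b + MG g c d) :
    dist a c + dist b d ≤ dist a b + dist c d := by
  unfold MG at h; linarith

/-- A level: `A` is a set with a gauge `g` and a scale `s`. -/
structure Level (m : ℕ) (A : Finset X) (g : X → ℝ) (s : ℝ) : Prop where
  pos : 0 < s
  nonpos : ∀ v ∈ A, ∀ w ∈ A, v ≠ w → MG g v w ≤ 0
  rk : Rk (Low g s) m m A

theorem Level.subset {m : ℕ} {A A' : Finset X} {g : X → ℝ} {s : ℝ} (h : Level m A g s) (hA : A' ⊆ A) :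
    Level m A' g s :=
  ⟨h.pos, fun v hv w hw hvw => h.nonpos v (hA hv) w (hA hw) hvw, h.rk.subset hA⟩

theorem Level.mono {m : ℕ} {A : Finset X} {g : X → ℝ} {s s' : ℝ} (h : Level m A g s) (hs : s ≤ s') :
    Level m A g s' :=
  ⟨lt_of_lt_of_le h.pos hs, h.nonpos, h.rk.anti (fun v _ w _ _ hG => by
    unfold Low at hG ⊢; linarith)⟩

end Metric

end Pool.Agent.Lib.MP_293cc0_an.R
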