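import Pool.Agent.Lib.MP_293cc0_an.R.SpecC

/-!
# MP_293cc0_an, the reduction: the dichotomy (Dic) of section 7.3
-/

set_option autoImplicit false

namespace Pool.Agent.Lib.MP_293cc0_an.R

open Finset
open scoped Classical

theorem dic : DicStmt := by
  intro X _ m PD qD nD cD cI V A t θ f hD hI hθ hθt hA hc hn
  by_contra hne
  push Not at hne
  have hlt : ∀ σ : Bool, ∀ x ∈ A,
      2 ^ (qD + 1) * (A.filter (fun w => w ≠ x ∧ Side σ θ (MG f x w))).card < A.card := by
    intro σ x hx
    by_contra h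
    exact hne σ x hx ⟨Finset.filter_subset _ _, not_lt.1 h⟩
  obtain ⟨A', g', hA', hL⟩ := hD A f θ hθ hn (by
    intro v hv
    have h1 := hlt true v hv
    have h2 := hlt false v hv
    have hsub : A.filter (fun w => w ≠ v ∧ θ < |MG f v w|) ⊆
        A.filter (fun w => w ≠ v ∧ Side true θ (MG f v w)) ∪
          A.filter (fun w => w ≠ v ∧ Side false θ (MG f v w)) := by
      intro w hw
      rw [Finset.mem_filter] at hw
      rw [Finset.mem_union, Finset.mem_filter, Finset.mem_filter]
      rcases lt_abs.1 hw.2.2 with h | h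
      · exact Or.inl ⟨hw.1, hw.2.1, Or.inl ⟨rfl, h⟩⟩
      · exact Or.inr ⟨hw.1, hw.2.1, Or.inr ⟨rfl, by linarith⟩⟩
    have h3 := (Finset.card_le_card hsub).trans (Finset.card_union_le _ _)
    have h4 := Nat.mul_le_mul_left (2 ^ qD) h3
    rw [pow_succ] at h1 h2
    rw [mul_add] at h4
    have h5 : 2 ^ qD * 2 * (A.filter (fun w => w ≠ v ∧ Side true θ (MG f v w))).card =
        2 * (2 ^ qD * (A.filter (fun w => w ≠ v ∧ Side true θ (MG f v w))).card) := by ring
    have h6 : 2 ^ qD * 2 * (A.filter (fun w => w ≠ v ∧ Side false θ (MG f v w))).card =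
        2 * (2 ^ qD * (A.filter (fun w => w ≠ v ∧ Side false θ (MG f v w))).card) := by ring
    rw [h5] at h1
    rw [h6] at h2
    omega)
  have h7 := hI A' g' (θ / 128) ((hA.trans hA').mono hc) hL
  linarith

end Pool.Agent.Lib.MP_293cc0_an.R
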