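import Pool.Agent.Lib.MP_293cc0_an.Comb

/-!
# MP_293cc0_an, reduction: double stars and hosts in a metric space

* `PF.double`: the double star with the centre edge `u v`: the points of `A` are attached to `v`, those of `B` to `u`;
* `PF.host2`: two stars with centres `l`, `z` on the same side;
* `sav_of_pf_family`: savings from a family of partial potentials which covers all pairs of a finite set.
-/

set_option autoImplicit false

namespace Pool.Agent.Lib.MP_293cc0_an.R

open Finset

variable {X : Type} [MetricSpace X]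

/-- The double star: `u ∈ A`, `v ∈ B`, all points of `A` are attached to `v`, all points of `B` to `u`. -/
theorem double {u v : X} (A B : Finset X) (hu : u ∈ A) (hv : v ∈ B) (hAB : Disjoint A B)
    (h : ∀ x ∈ A, ∀ y ∈ B, dist x v + dist u y ≤ dist u v + dist x y) :
    ∃ f : PF X, (∀ x ∈ A, f.cov x v) ∧ ∀ y ∈ B, f.cov u y := by
  classical
  have hnA : ∀ y ∈ B, y ∉ A := fun y hy hy' => (Finset.disjoint_left.1 hAB) hy' hy
  obtain ⟨p, hp⟩ : ∃ p : X → ℝ, p = fun x => if x ∈ A then dist x v else dist u x - dist u v :=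
    ⟨_, rfl⟩
  obtain ⟨s, hs⟩ : ∃ s : X → Bool, s = fun x => decide (x ∈ A) := ⟨_, rfl⟩
  have pA : ∀ x ∈ A, p x = dist x v := by intro x hx; rw [hp]; simp [hx]
  have pB : ∀ y ∈ B, p y = dist u y - dist u v := by intro y hy; rw [hp]; simp [hnA y hy]
  have sA : ∀ x ∈ A, s x = true := by intro x hx; rw [hs]; simp [hx]
  have sB : ∀ y ∈ B, s y = false := by intro y hy; rw [hs]; simp [hnA y hy]
  have pv : p v = 0 := by rw [pB v hv]; ring
  have tA : ∀ x ∈ A, s x ≠ s v ∧ p x + p v = dist x v := by
    intro x hx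
    rw [sA x hx, sB v hv, pA x hx, pv]
    simp
  have tB : ∀ y ∈ B, s u ≠ s y ∧ p u + p y = dist u y := by
    intro y hy
    rw [sA u hu, sB y hy, pA u hu, pB y hy]
    simp
  refine ⟨⟨A ∪ B, s, p, ?_, ?_⟩, ?_, ?_⟩
  · intro x hx y hy hxy
    rcases Finset.mem_union.1 hx with hx | hx
    · rcases Finset.mem_union.1 hy with hy | hy
      · exact absurd (by rw [sA x hx, sA y hy]) hxy
      · rw [pA x hx, pB y hy]
        have := h x hx y hy
        linarith
    · rcases Finset.mem_union.1 hy with hy | hy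
      · rw [pA y hy, pB x hx, dist_comm x y]
        have := h y hy x hx
        linarith
      · exact absurd (by rw [sB x hx, sB y hy]) hxy
  · intro x hx
    rcases Finset.mem_union.1 hx with hx | hx
    · exact ⟨v, Finset.mem_union_right _ hv, tA x hx⟩
    · refine ⟨u, Finset.mem_union_left _ hu, fun e => (tB x hx).1 e.symm, ?_⟩
      rw [add_comm, dist_comm]
      exact (tB x hx).2
  · intro x hx
    exact ⟨Finset.mem_union_left _ hx, Finset.mem_union_right _ hv, tA x hx⟩
  · intro y hy
    exact ⟨Finset.mem_union_left _ hu, Finset.mem_union_right _ hy, tB y hy⟩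

/-- Two stars with centres `l`, `z` on the same side. -/
theorem host2 {l z : X} (A B : Finset X) (hlz : l ≠ z) (hA : A.Nonempty) (hB : B.Nonempty)
    (hAB : Disjoint A B) (hlA : l ∉ A) (hzA : z ∉ A) (hlB : l ∉ B) (hzB : z ∉ B)
    (h : ∀ x ∈ A, ∀ y ∈ B, dist x l + dist y z ≤ dist x z + dist y l) :
    ∃ f : PF X, (∀ x ∈ A, f.cov x l) ∧ ∀ y ∈ B, f.cov y z := by
  classical
  obtain ⟨x₀, hx₀, hmax⟩ := Finset.exists_max_image A (fun x => dist x l - dist x z) hA
  obtain ⟨t, ht⟩ : ∃ t : ℝ, t = dist x₀ l - dist x₀ z := ⟨_, rfl⟩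
  have h1 : ∀ x ∈ A, dist x l - dist x z ≤ t := by
    intro x hx; rw [ht]; exact hmax x hx
  have h2 : ∀ y ∈ B, t ≤ dist y l - dist y z := by
    intro y hy
    have := h x₀ hx₀ y hy
    rw [ht]; linarith
  have hnA : ∀ y ∈ B, y ∉ A := fun y hy hy' => (Finset.disjoint_left.1 hAB) hy' hy
  have neA : ∀ x ∈ A, x ≠ l ∧ x ≠ z := fun x hx =>
    ⟨fun e => hlA (e ▸ hx), fun e => hzA (e ▸ hx)⟩
  have neB : ∀ x ∈ B, x ≠ l ∧ x ≠ z := fun x hx =>
    ⟨fun e => hlB (e ▸ hx), fun e => hzB (e ▸ hx)⟩
  obtain ⟨p, hp⟩ : ∃ p : X → ℝ, p = fun x => if x = l then t else if x = z then 0 else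
    if x ∈ A then dist x l - t else dist x z := ⟨_, rfl⟩
  obtain ⟨s, hs⟩ : ∃ s : X → Bool, s = fun x => decide (x = l ∨ x = z) := ⟨_, rfl⟩
  have pl : p l = t := by rw [hp]; simp
  have pz : p z = 0 := by rw [hp]; simp [hlz.symm]
  have pA : ∀ x ∈ A, p x = dist x l - t := by
    intro x hx; rw [hp]; simp [hx, (neA x hx).1, (neA x hx).2]
  have pB : ∀ y ∈ B, p y = dist y z := by
    intro y hy; rw [hp]; simp [hnA y hy, (neB y hy).1, (neB y hy).2]
  have sl : s l = true := by rw [hs]; simp
  have sz : s z = true := by rw [hs]; simp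
  have sA : ∀ x ∈ A, s x = false := by
    intro x hx; rw [hs]; simp [(neA x hx).1, (neA x hx).2]
  have sB : ∀ y ∈ B, s y = false := by
    intro y hy; rw [hs]; simp [(neB y hy).1, (neB y hy).2]
  have tA : ∀ x ∈ A, s x ≠ s l ∧ p x + p l = dist x l := by
    intro x hx
    rw [sA x hx, sl, pA x hx, pl]
    simp
  have tB : ∀ y ∈ B, s y ≠ s z ∧ p y + p z = dist y z := by
    intro y hy
    rw [sB y hy, sz, pB y hy, pz]
    simp
  obtain ⟨y₀, hy₀⟩ := hB
  refine ⟨⟨insert l (insert z (A ∪ B)), s, p, ?_, ?_⟩, ?_, ?_⟩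
  · have key : ∀ c, (c = l ∨ c = z) → ∀ y ∈ A ∪ B, p c + p y ≤ dist c y := by
      intro c hc y hy
      rcases hc with rfl | rfl
      · rcases Finset.mem_union.1 hy with hy | hy
        · have := (tA y hy).2
          rw [dist_comm]; linarith
        · have h3 := (tB y hy).2
          have h4 := h2 y hy
          rw [dist_comm c y, pl]
          rw [pz] at h3
          linarith
      · rcases Finset.mem_union.1 hy with hy | hy
        · have h3 := (tA y hy).2
          have h4 := h1 y hy
          rw [dist_comm c y, pz]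
          rw [pl] at h3
          linarith
        · have := (tB y hy).2
          rw [dist_comm]; linarith
    have side : ∀ c ∈ insert l (insert z (A ∪ B)), s c = true → c = l ∨ c = z := by
      intro c _ hc
      rw [hs] at hc
      simpa using hc
    have side2 : ∀ c ∈ insert l (insert z (A ∪ B)), s c = false → c ∈ A ∪ B := by
      intro c hc hc'
      rcases Finset.mem_insert.1 hc with rfl | hc
      · rw [sl] at hc'; exact absurd hc' (by simp)
      · rcases Finset.mem_insert.1 hc with rfl | hc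
        · rw [sz] at hc'; exact absurd hc' (by simp)
        · exact hc
    intro x hx y hy hxy
    cases hsx : s x
    · cases hsy : s y
      · rw [hsx, hsy] at hxy; exact absurd rfl hxy
      · rw [add_comm, dist_comm]
        exact key y (side y hy hsy) x (side2 x hx hsx)
    · cases hsy : s y
      · exact key x (side x hx hsx) y (side2 y hy hsy)
      · rw [hsx, hsy] at hxy; exact absurd rfl hxy
  · intro x hx
    rcases Finset.mem_insert.1 hx with rfl | hx
    · refine ⟨x₀, ?_, fun e => (tA x₀ hx₀).1 e.symm, ?_⟩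
      · exact Finset.mem_insert_of_mem (Finset.mem_insert_of_mem (Finset.mem_union_left _ hx₀))
      · rw [add_comm, dist_comm]; exact (tA x₀ hx₀).2
    · rcases Finset.mem_insert.1 hx with rfl | hx
      · refine ⟨y₀, ?_, fun e => (tB y₀ hy₀).1 e.symm, ?_⟩
        · exact Finset.mem_insert_of_mem (Finset.mem_insert_of_mem (Finset.mem_union_right _ hy₀))
        · rw [add_comm, dist_comm]; exact (tB y₀ hy₀).2
      · rcases Finset.mem_union.1 hx with hx | hx
        · exact ⟨l, Finset.mem_insert_self _ _, tA x hx⟩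
        · exact ⟨z, Finset.mem_insert_of_mem (Finset.mem_insert_self _ _), tB x hx⟩
  · intro x hx
    exact ⟨Finset.mem_insert_of_mem (Finset.mem_insert_of_mem (Finset.mem_union_left _ hx)),
      Finset.mem_insert_self _ _, tA x hx⟩
  · intro y hy
    exact ⟨Finset.mem_insert_of_mem (Finset.mem_insert_of_mem (Finset.mem_union_right _ hy)),
      Finset.mem_insert_of_mem (Finset.mem_insert_self _ _), tB y hy⟩

/-- Savings from a family of partial potentials. -/
theorem sav_of_pf_family (S : Finset X) {ι : Type} [Fintype ι] (p : ℕ)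
    (hcard : S.card = Fintype.card ι + p) (f : ι → PF X)
    (hcov : ∀ u ∈ S, ∀ v ∈ S, u ≠ v → ∃ i, (f i).cov u v) : Sav X p := by
  refine ⟨S, Fintype.card ι, hcard, fun i => f ((Fintype.equivFin ι).symm i), ?_⟩
  intro a ha b hb hab
  obtain ⟨k, hk⟩ := hcov a ha b hb hab
  refine ⟨Fintype.equivFin ι k, ?_⟩
  simp only [Equiv.symm_apply_apply]
  exact hk

end Pool.Agent.Lib.MP_293cc0_an.R
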