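import Pool.Agent.Lib.MP_293cc0_an.R.Defs

/-!
# MP_293cc0_an, the reduction (R): serviceable cliques and halving

* `not_rk`: a set of large rank contains a serviceable clique for every set of at most `m` roots;
* `halving`, `halving_list`: functions become comparable on halves of the cells.
-/

set_option autoImplicit false

namespace Pool.Agent.Lib.MP_293cc0_an.R

open Finset
open scoped Classical

variable {X : Type}

/-- Halving: a function is comparable on halves of two sets. -/
theorem halving {α : Type*} (D : α → ℝ) (W V : Finset α) :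
    ∃ W' ⊆ W, ∃ V' ⊆ V, W.card ≤ 2 * W'.card ∧ V.card ≤ 2 * V'.card ∧
      ((∀ w ∈ W', ∀ x ∈ V', D w ≤ D x) ∨ (∀ w ∈ W', ∀ x ∈ V', D x ≤ D w)) := by
  classical
  rcases W.eq_empty_or_nonempty with hW | hW
  · subst hW
    exact ⟨∅, Finset.Subset.refl _, V, Finset.Subset.refl _, by simp, by omega, Or.inl (by simp)⟩
  obtain ⟨wm, hwm, hmax⟩ := Finset.exists_max_image W D hW
  have hne : (W.filter (fun w => W.card ≤ 2 * (W.filter (fun u => D u ≤ D w)).card)).Nonempty := by
    refine ⟨wm, Finset.mem_filter.2 ⟨hwm, ?_⟩⟩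
    rw [Finset.filter_true_of_mem hmax]
    omega
  obtain ⟨w₀, hw₀, hmin⟩ := Finset.exists_min_image _ D hne
  rw [Finset.mem_filter] at hw₀
  have hup : W.card ≤ 2 * (W.filter (fun u => D w₀ ≤ D u)).card := by
    by_contra hcon
    have h1 : (W.filter (fun u => D w₀ ≤ D u)).card + (W.filter (fun u => ¬ D w₀ ≤ D u)).card
        = W.card := Finset.card_filter_add_card_filter_not _
    have h2 : (W.filter (fun u => ¬ D w₀ ≤ D u)).Nonempty := by
      rw [← Finset.card_pos]; omega
    obtain ⟨w₁, hw₁, hm1⟩ := Finset.exists_max_image _ D h2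
    rw [Finset.mem_filter] at hw₁
    have h3 : W.filter (fun u => ¬ D w₀ ≤ D u) ⊆ W.filter (fun u => D u ≤ D w₁) := by
      intro u hu
      exact Finset.mem_filter.2 ⟨(Finset.mem_filter.1 hu).1, hm1 u hu⟩
    have h4 := Finset.card_le_card h3
    have h5 := hmin w₁ (Finset.mem_filter.2 ⟨hw₁.1, by omega⟩)
    exact hw₁.2 h5
  have hV : (V.filter (fun x => D w₀ ≤ D x)).card + (V.filter (fun x => ¬ D w₀ ≤ D x)).card
      = V.card := Finset.card_filter_add_card_filter_not _
  by_cases hc : V.card ≤ 2 * (V.filter (fun x => D w₀ ≤ D x)).card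
  · refine ⟨W.filter (fun u => D u ≤ D w₀), Finset.filter_subset _ _,
      V.filter (fun x => D w₀ ≤ D x), Finset.filter_subset _ _, hw₀.2, hc, Or.inl ?_⟩
    intro w hw x hx
    exact (Finset.mem_filter.1 hw).2.trans (Finset.mem_filter.1 hx).2
  · refine ⟨W.filter (fun u => D w₀ ≤ D u), Finset.filter_subset _ _,
      V.filter (fun x => ¬ D w₀ ≤ D x), Finset.filter_subset _ _, hup, by omega, Or.inr ?_⟩
    intro w hw x hx
    exact (le_of_not_ge (Finset.mem_filter.1 hx).2).trans (Finset.mem_filter.1 hw).2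

/-- Halving for a list of tasks. -/
theorem halving_list {ι α : Type*} [DecidableEq ι] (Ts : List (ι × ι × (α → ℝ)))
    (hT : ∀ T ∈ Ts, T.1 ≠ T.2.1) (C : ι → Finset α) :
    ∃ C' : ι → Finset α, (∀ i, C' i ⊆ C i) ∧ (∀ i, (C i).card ≤ 2 ^ Ts.length * (C' i).card) ∧
      ∀ T ∈ Ts, (∀ w ∈ C' T.1, ∀ x ∈ C' T.2.1, T.2.2 w ≤ T.2.2 x) ∨
        (∀ w ∈ C' T.1, ∀ x ∈ C' T.2.1, T.2.2 x ≤ T.2.2 w) := by
  classical
  induction Ts generalizing C with
  | nil => exact ⟨C, fun _ => Finset.Subset.refl _, by simp, by simp⟩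
  | cons T Ts ih =>
    obtain ⟨W', hW', V', hV', hcW, hcV, hTT⟩ := halving T.2.2 (C T.1) (C T.2.1)
    have hne := hT T (List.mem_cons_self)
    obtain ⟨C₁, hC₁⟩ : ∃ C₁ : ι → Finset α, ∀ i, C₁ i =
        if i = T.1 then W' else if i = T.2.1 then V' else C i := ⟨_, fun _ => rfl⟩
    have hs : ∀ i, C₁ i ⊆ C i ∧ (C i).card ≤ 2 * (C₁ i).card := by
      intro i
      rw [hC₁]
      by_cases h1 : i = T.1
      · rw [if_pos h1, h1]; exact ⟨hW', hcW⟩
      · rw [if_neg h1]
        by_cases h2 : i = T.2.1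
        · rw [if_pos h2, h2]; exact ⟨hV', hcV⟩
        · rw [if_neg h2]; exact ⟨Finset.Subset.refl _, by omega⟩
    have e1 : C₁ T.1 = W' := by rw [hC₁, if_pos rfl]
    have e2 : C₁ T.2.1 = V' := by rw [hC₁, if_neg (Ne.symm hne), if_pos rfl]
    obtain ⟨C', hsub, hcard, hprop⟩ := ih (fun S hS => hT S (List.mem_cons_of_mem _ hS)) C₁
    refine ⟨C', fun i => (hsub i).trans (hs i).1, ?_, ?_⟩
    · intro i
      have h1 := (hs i).2
      have h2 := hcard i
      calc (C i).card ≤ 2 * (C₁ i).card := h1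
        _ ≤ 2 * (2 ^ Ts.length * (C' i).card) := by omega
        _ = 2 ^ (T :: Ts).length * (C' i).card := by
            rw [List.length_cons, pow_succ]; ring
    · intro S hS
      rcases List.mem_cons.1 hS with rfl | hS
      · rcases hTT with h | h
        · exact Or.inl fun w hw x hx => h w (e1 ▸ hsub _ hw) x (e2 ▸ hsub _ hx)
        · exact Or.inr fun w hw x hx => h w (e1 ▸ hsub _ hw) x (e2 ▸ hsub _ hx)
      · exact hprop S hS

/-- A set of large rank contains a serviceable clique for every set of roots. -/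
theorem not_rk {G : X → X → Prop} {m : ℕ} (n : ℕ) (A L : Finset X) (φ : X → X → ℝ)
    (hL : L.card ≤ m) (hn : n ≤ L.card) (hA : ¬ Rk G m n A) :
    ∃ v u : ℕ → X, (∀ i, i < n → v i ∈ A) ∧ (∀ i j, i < j → j < n → v i ≠ v j ∧ G (v i) (v j)) ∧
      (∀ i, i < n → u i ∈ L) ∧ (∀ i j, i < j → j < n → u i ≠ u j) ∧
      ∀ k t, k < t → t < n → ∀ l ∈ L, (∀ j, j < k → l ≠ u j) →
        φ l (v k) - φ l (v t) ≤ φ (u k) (v k) - φ (u k) (v t) := by
  classical
  induction n generalizing A L with
  | zero =>
    have hne : A.Nonempty := by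
      rw [Finset.nonempty_iff_ne_empty]; exact hA
    obtain ⟨x, hx⟩ := hne
    exact ⟨fun _ => x, fun _ => x, by intro i hi; omega, by intro i j _ hj; omega,
      by intro i hi; omega, by intro i j _ hj; omega, by intro k t _ ht; omega⟩
  | succ n ih =>
    have hA' : ∃ v ∈ A, ∀ f : X → Fin m, ∃ c,
        ¬ Rk G m n (A.filter (fun w => w ≠ v ∧ G v w ∧ f w = c)) := by
      by_contra hcon
      push Not at hcon
      exact hA hcon
    obtain ⟨v₀, hv₀, hf⟩ := hA'
    have hLne : L.Nonempty := by rw [← Finset.card_pos]; omega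
    -- maximisers
    have hmax : ∀ w : X, ∃ u ∈ L, ∀ l ∈ L, φ l v₀ - φ l w ≤ φ u v₀ - φ u w := fun w =>
      Finset.exists_max_image L (fun l => φ l v₀ - φ l w) hLne
    choose μ hμL hμ using hmax
    let e := L.equivFin
    obtain ⟨c, hc⟩ := hf (fun w => Fin.castLE hL (e ⟨μ w, hμL w⟩))
    set B := A.filter (fun w => w ≠ v₀ ∧ G v₀ w ∧ Fin.castLE hL (e ⟨μ w, hμL w⟩) = c) with hB
    have hBne : B.Nonempty := by
      rw [Finset.nonempty_iff_ne_empty]
      intro h
      rw [h] at hc
      exact hc (Rk.empty G m n)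
    obtain ⟨w₀, hw₀⟩ := hBne
    have hw₀' := (Finset.mem_filter.1 hw₀).2
    have hsame : ∀ w ∈ B, μ w = μ w₀ := by
      intro w hw
      have h1 := (Finset.mem_filter.1 hw).2.2.2
      rw [← hw₀'.2.2] at h1
      have h2 := Fin.castLE_injective hL h1
      have h3 := e.injective h2
      exact congrArg Subtype.val h3
    obtain ⟨v, u, h1, h2, h3, h4, h5⟩ := ih B (L.erase (μ w₀))
      ((Finset.card_erase_le).trans hL)
      (by rw [Finset.card_erase_of_mem (hμL w₀)]; omega) hc
    refine ⟨fun k => if k = 0 then v₀ else v (k - 1), fun k => if k = 0 then μ w₀ else u (k - 1),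
      ?_, ?_, ?_, ?_, ?_⟩
    · intro i hi
      by_cases h : i = 0
      · simp only [if_pos h]; exact hv₀
      · simp only [if_neg h]; exact (Finset.mem_filter.1 (h1 (i - 1) (by omega))).1
    · intro i j hij hj
      have hj0 : j ≠ 0 := by omega
      by_cases h : i = 0
      · simp only [if_pos h, if_neg hj0]
        have := (Finset.mem_filter.1 (h1 (j - 1) (by omega))).2
        exact ⟨Ne.symm this.1, this.2.1⟩
      · simp only [if_neg h, if_neg hj0]
        exact h2 (i - 1) (j - 1) (by omega) (by omega)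
    · intro i hi
      by_cases h : i = 0
      · simp only [if_pos h]; exact hμL w₀
      · simp only [if_neg h]; exact (Finset.mem_erase.1 (h3 (i - 1) (by omega))).2
    · intro i j hij hj
      have hj0 : j ≠ 0 := by omega
      by_cases h : i = 0
      · simp only [if_pos h, if_neg hj0]
        exact Ne.symm (Finset.mem_erase.1 (h3 (j - 1) (by omega))).1
      · simp only [if_neg h, if_neg hj0]
        exact h4 (i - 1) (j - 1) (by omega) (by omega)
    · intro k t hkt ht l hl hlu
      have ht0 : t ≠ 0 := by omega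
      by_cases h : k = 0
      · simp only [if_pos h, if_neg ht0]
        have hm := h1 (t - 1) (by omega)
        have := hμ (v (t - 1)) l hl
        rw [hsame _ hm] at this
        exact this
      · simp only [if_neg h, if_neg ht0]
        have hl0 : l ≠ μ w₀ := by
          have := hlu 0 (by omega)
          simpa using this
        refine h5 (k - 1) (t - 1) (by omega) (by omega) l (Finset.mem_erase.2 ⟨hl0, hl⟩) ?_
        intro j hj
        have := hlu (j + 1) (by omega)
        simpa using this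

end Pool.Agent.Lib.MP_293cc0_an.R
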