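import Pool.Agent.Lib.MP_293cc0_an.R.FourCell
import Pool.Agent.Lib.MP_293cc0_an.R.Serv

/-!
# MP_293cc0_an, the reduction (R): extraction of a level (Lemma E)

A set `U` with `M ≤ 0` on all pairs and few pairs `M < - s` contains a dense part on which the graph `M < - 2 s` has small
rank, or there are `b` savings (four-cell lemma).
-/

set_option autoImplicit false

namespace Pool.Agent.Lib.MP_293cc0_an.R

open Finset
open scoped Classical

variable {X : Type} [MetricSpace X]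

/-- Four-cell lemma with cross values in `[- s, 0]` and low pairs `M ≤ - 2 s`. -/
theorem four_cell_nonpos (b : ℕ) (hb : 1 ≤ b) (g : X → ℝ) (s : ℝ) (hs : 0 ≤ s) (L : Finset X)
    (hL : L.card = 12 * b) (V u : Fin 3 → ℕ → X)
    (hV : ∀ a i j, i < 7 * b → j < 7 * b → V a i = V a j → i = j)
    (hVL : ∀ a i, i < 7 * b → V a i ∉ L)
    (hVV : ∀ a c, a ≠ c → ∀ i j, i < 7 * b → j < 7 * b → V a i ≠ V c j)
    (hu : ∀ a k, k < 6 * b → u a k ∈ L)
    (hui : ∀ a i j, i < 6 * b → j < 6 * b → u a i = u a j → i = j)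
    (hS : ∀ a k t, k < 6 * b → k < t → t < 7 * b → ∀ l ∈ L, (∀ j, j < k → l ≠ u a j) →
      dist l (V a k) + dist (u a k) (V a t) ≤ dist (u a k) (V a k) + dist l (V a t))
    (hO : ∀ a c, a ≠ c → ∀ r ∈ L, ∀ y ∈ L,
      (∀ i, i < 7 * b → ∀ j, j < 7 * b →
        dist y (V a i) + dist r (V c j) ≤ dist r (V a i) + dist y (V c j)) ∨
      (∀ i, i < 7 * b → ∀ j, j < 7 * b →
        dist r (V a i) + dist y (V c j) ≤ dist y (V a i) + dist r (V c j)))
    (lowL : ∀ x ∈ L, ∀ y ∈ L, x ≠ y → MG g x y ≤ -(2 * s))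
    (lowV : ∀ a i j, i < 7 * b → j < 7 * b → i ≠ j → MG g (V a i) (V a j) ≤ -(2 * s))
    (crL : ∀ a i, i < 7 * b → ∀ x ∈ L, -s ≤ MG g x (V a i) ∧ MG g x (V a i) ≤ 0)
    (crV : ∀ a c, a ≠ c → ∀ i j, i < 7 * b → j < 7 * b →
      -s ≤ MG g (V a i) (V c j) ∧ MG g (V a i) (V c j) ≤ 0) : Sav X b := by
  unfold MG at lowL lowV crL crV
  refine four_cell b hb L hL V u hV hVL hVV hu hui hS hO ?_ ?_ ?_
  · intro a c hac t k i ht hk htk hi r hr
    have h1 := lowV a t k ht hk htk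
    have h2 := crL c i hi r hr
    have h3 := crL a k hk r hr
    have h4 := crV a c hac t i ht hi
    linarith [h1, h2.1, h2.2, h3.1, h3.2, h4.1, h4.2]
  · intro a c hac x hx l hl hxl k i hk hi
    have h1 := lowL x hx l hl hxl
    have h2 := crV a c hac k i hk hi
    have h3 := crL c i hi x hx
    have h4 := crL a k hk l hl
    rw [dist_comm (V a k) l]
    linarith [h1, h2.1, h2.2, h3.1, h3.2, h4.1, h4.2]
  · intro c x hx l hl hxl j i hj hi hji
    have h1 := lowL x hx l hl hxl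
    have h2 := lowV c j i hj hi hji
    have h3 := crL c i hi x hx
    have h4 := crL c j hj l hl
    rw [dist_comm (V c j) l]
    linarith [h1, h2, h3.1, h3.2, h4.1, h4.2]

/-- number of halving tasks -/
def tE (m : ℕ) : ℕ := 9 * m ^ 2

/-- cost of Lemma E -/
def cE (b : ℕ) : ℕ := tE (12 * b) + 6

/-- typicality needed in Lemma E -/
def qE (b : ℕ) : ℕ := tE (12 * b) + 12 * b + 12

theorem exists_disjoint_three {α : Type*} (S : Finset α) (k : ℕ) (h : 3 * k ≤ S.card) :
    ∃ C : Fin 3 → Finset α, (∀ a, C a ⊆ S) ∧ (∀ a, (C a).card = k) ∧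
      ∀ a c, a ≠ c → Disjoint (C a) (C c) := by
  obtain ⟨A, hA, hAc⟩ := Finset.exists_subset_card_eq (show k ≤ S.card by omega)
  have h1 := Finset.card_sdiff_of_subset hA
  obtain ⟨B, hB, hBc⟩ := Finset.exists_subset_card_eq (show k ≤ (S \ A).card by omega)
  have h2 := Finset.card_sdiff_of_subset hB
  obtain ⟨C, hC, hCc⟩ := Finset.exists_subset_card_eq (show k ≤ ((S \ A) \ B).card by omega)
  have dAB : Disjoint A B := by
    rw [Finset.disjoint_left]
    intro x hx hx'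
    exact (Finset.mem_sdiff.1 (hB hx')).2 hx
  have dAC : Disjoint A C := by
    rw [Finset.disjoint_left]
    intro x hx hx'
    exact (Finset.mem_sdiff.1 (Finset.mem_sdiff.1 (hC hx')).1).2 hx
  have dBC : Disjoint B C := by
    rw [Finset.disjoint_left]
    intro x hx hx'
    exact (Finset.mem_sdiff.1 (hC hx')).2 hx
  refine ⟨![A, B, C], ?_, ?_, ?_⟩
  · intro a
    fin_cases a
    · exact hA
    · exact fun x hx => (Finset.mem_sdiff.1 (hB hx)).1
    · exact fun x hx => (Finset.mem_sdiff.1 (Finset.mem_sdiff.1 (hC hx)).1).1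
  · intro a
    fin_cases a
    · exact hAc
    · exact hBc
    · exact hCc
  · intro a c hac
    fin_cases a <;> fin_cases c
    · exact absurd rfl hac
    · exact dAB
    · exact dAC
    · exact dAB.symm
    · exact absurd rfl hac
    · exact dBC
    · exact dAC.symm
    · exact dBC.symm
    · exact absurd rfl hac

/-- Removing the atypical partners of few points. -/
theorem card_typical {α : Type*} (U P C : Finset α) (B : α → α → Prop) (q n c : ℕ)
    (hP : P ⊆ U) (hC : C ⊆ U) (hPc : P.card ≤ n)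
    (hdeg : ∀ v ∈ U, 2 ^ q * (U.filter (fun w => w ≠ v ∧ B v w)).card ≤ U.card)
    (hcost : U.card ≤ 2 ^ c * C.card) (hq : 2 * n * 2 ^ c ≤ 2 ^ q) :
    C.card ≤ 2 * (C.filter (fun w => ∀ v ∈ P, w ≠ v → ¬ B v w)).card := by
  have h1 : (C.filter (fun w => ¬ ∀ v ∈ P, w ≠ v → ¬ B v w)) ⊆
      P.biUnion (fun v => U.filter (fun w => w ≠ v ∧ B v w)) := by
    intro w hw
    rw [Finset.mem_filter] at hw
    obtain ⟨hwC, hw⟩ := hw
    push Not at hw
    obtain ⟨v, hv, hwv, hB⟩ := hw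
    exact Finset.mem_biUnion.2 ⟨v, hv, Finset.mem_filter.2 ⟨hC hwC, hwv, hB⟩⟩
  have h2 : 2 ^ q * (P.biUnion (fun v => U.filter (fun w => w ≠ v ∧ B v w))).card ≤ n * U.card := by
    calc 2 ^ q * (P.biUnion (fun v => U.filter (fun w => w ≠ v ∧ B v w))).card
        ≤ 2 ^ q * ∑ v ∈ P, (U.filter (fun w => w ≠ v ∧ B v w)).card :=
          Nat.mul_le_mul_left _ Finset.card_biUnion_le
      _ = ∑ v ∈ P, 2 ^ q * (U.filter (fun w => w ≠ v ∧ B v w)).card := by rw [Finset.mul_sum]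
      _ ≤ ∑ v ∈ P, U.card := Finset.sum_le_sum (fun v hv => hdeg v (hP hv))
      _ = P.card * U.card := by rw [Finset.sum_const, smul_eq_mul]
      _ ≤ n * U.card := Nat.mul_le_mul_right _ hPc
  have h3 := Finset.card_le_card h1
  have h4 : 2 ^ q * (2 * (C.filter (fun w => ¬ ∀ v ∈ P, w ≠ v → ¬ B v w)).card) ≤
      2 ^ q * C.card := by
    calc 2 ^ q * (2 * (C.filter (fun w => ¬ ∀ v ∈ P, w ≠ v → ¬ B v w)).card)
        = 2 * (2 ^ q * (C.filter (fun w => ¬ ∀ v ∈ P, w ≠ v → ¬ B v w)).card) := by ring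
      _ ≤ 2 * (2 ^ q * (P.biUnion (fun v => U.filter (fun w => w ≠ v ∧ B v w))).card) :=
          Nat.mul_le_mul_left _ (Nat.mul_le_mul_left _ h3)
      _ ≤ 2 * (n * U.card) := Nat.mul_le_mul_left _ h2
      _ ≤ 2 * (n * (2 ^ c * C.card)) :=
          Nat.mul_le_mul_left _ (Nat.mul_le_mul_left _ hcost)
      _ = (2 * n * 2 ^ c) * C.card := by ring
      _ ≤ 2 ^ q * C.card := Nat.mul_le_mul_right _ hq
  have h5 := Nat.le_of_mul_le_mul_left h4 (by positivity)
  have h6 : (C.filter (fun w => ∀ v ∈ P, w ≠ v → ¬ B v w)).card +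
      (C.filter (fun w => ¬ ∀ v ∈ P, w ≠ v → ¬ B v w)).card = C.card :=
    Finset.card_filter_add_card_filter_not _
  omega

/-- **Lemma E** (extraction of a level). -/
theorem extract (b : ℕ) (hb : 1 ≤ b) (U : Finset X) (g : X → ℝ) (s : ℝ) (hs : 0 ≤ s)
    (hU : 2 ^ qE b ≤ U.card)
    (hM : ∀ v ∈ U, ∀ w ∈ U, v ≠ w → MG g v w ≤ 0)
    (hdeg : ∀ v ∈ U, 2 ^ qE b * (U.filter (fun w => w ≠ v ∧ Low g s v w)).card ≤ U.card) :
    Sav X b ∨ ∃ Q, Cost (cE b) Q U ∧ Rk (Low g (2 * s)) (12 * b) (12 * b) Q := by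
  obtain ⟨m, hm⟩ : ∃ m, m = 12 * b := ⟨_, rfl⟩
  rw [← hm]
  have hm12 : 12 ≤ m := by omega
  by_cases hrk : Rk (Low g (2 * s)) m m U
  · exact Or.inr ⟨U, (Cost.refl U).mono (Nat.zero_le _), hrk⟩
  have hqm : m * 2 ^ 12 ≤ 2 ^ qE b := by
    have h1 : m ≤ 2 ^ (12 * b) := hm ▸ (Nat.lt_two_pow_self).le
    calc m * 2 ^ 12 ≤ 2 ^ (12 * b) * 2 ^ 12 := Nat.mul_le_mul_right _ h1
      _ = 2 ^ (12 * b + 12) := by rw [pow_add]
      _ ≤ 2 ^ qE b := Nat.pow_le_pow_right (by norm_num) (by unfold qE; omega)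
  have hmU : m * 2 ^ 12 ≤ U.card := hqm.trans hU
  have hmU' : m ≤ U.card := by omega
  -- the clique `L`
  obtain ⟨L₀, hL₀, hL₀c⟩ := Finset.exists_subset_card_eq hmU'
  obtain ⟨l, _, hlU, hlow, _, _, _⟩ := not_rk m U L₀ (fun _ _ => 0) hL₀c.le hL₀c.ge hrk
  obtain ⟨L, hLdef⟩ : ∃ L : Finset X, L = (Finset.range m).image l := ⟨_, rfl⟩
  have hlinj : ∀ i j, i < m → j < m → l i = l j → i = j := by
    intro i j hi hj hij
    rcases Nat.lt_trichotomy i j with h | h | h
    · exact absurd hij (hlow i j h hj).1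
    · exact h
    · exact absurd hij.symm (hlow j i h hi).1
  have hLU : L ⊆ U := by
    intro x hx
    rw [hLdef] at hx
    obtain ⟨i, hi, rfl⟩ := Finset.mem_image.1 hx
    exact hlU i (Finset.mem_range.1 hi)
  have hLc : L.card = m := by
    rw [hLdef, Finset.card_image_of_injOn, Finset.card_range]
    intro i hi j hj hij
    rw [Finset.coe_range, Set.mem_Iio] at hi hj
    exact hlinj i j hi hj hij
  have hLlow : ∀ x ∈ L, ∀ y ∈ L, x ≠ y → MG g x y ≤ -(2 * s) := by
    intro x hx y hy hxy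
    rw [hLdef] at hx hy
    obtain ⟨i, hi, rfl⟩ := Finset.mem_image.1 hx
    obtain ⟨j, hj, rfl⟩ := Finset.mem_image.1 hy
    rw [Finset.mem_range] at hi hj
    rcases Nat.lt_trichotomy i j with h | h | h
    · exact (hlow i j h hj).2.le
    · exact absurd (congrArg l h) hxy
    · rw [MG.comm]
      exact (hlow j i h hi).2.le
  -- the typical part `U'`
  have hUL : U.card ≤ 2 ^ 1 * (U \ L).card := by
    rw [Finset.card_sdiff_of_subset hLU, hLc]
    omega
  obtain ⟨U', hU'⟩ : ∃ U' : Finset X, U' = (U \ L).filter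
      (fun w => ∀ v ∈ L, w ≠ v → ¬ Low g s v w) := ⟨_, rfl⟩
  have hU'sub : U' ⊆ U := by
    rw [hU']
    exact (Finset.filter_subset _ _).trans Finset.sdiff_subset
  have hU'c : U.card ≤ 4 * U'.card := by
    have h1 := card_typical U L (U \ L) (Low g s) (qE b) m 1 hLU Finset.sdiff_subset hLc.le hdeg
      hUL (le_trans (by nlinarith) hqm)
    rw [← hU'] at h1
    omega
  -- three cells
  obtain ⟨k, hk⟩ : ∃ k, k = U.card / 16 := ⟨_, rfl⟩
  have hk1 : 1 ≤ k := by omega
  have hk2 : U.card ≤ 32 * k := by omega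
  obtain ⟨C, hCU, hCc, hCd⟩ := exists_disjoint_three U' k (by omega)
  -- the tasks
  obtain ⟨Ts, hTs⟩ : ∃ Ts : List (Fin 3 × Fin 3 × (X → ℝ)), Ts =
      ((((Finset.univ : Finset (Fin 3 × Fin 3)) ×ˢ (Finset.range m ×ˢ Finset.range m)).toList.filter
        (fun p => p.1.1 ≠ p.1.2)).map (fun p => (p.1.1, p.1.2, fun v => dist (l p.2.1) v - dist (l p.2.2) v))) :=
    ⟨_, rfl⟩
  have hTlen : Ts.length ≤ tE m := by
    rw [hTs, List.length_map]
    refine (List.length_filter_le _ _).trans ?_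
    rw [Finset.length_toList, Finset.card_product, Finset.card_product, Finset.card_range,
      Finset.card_univ]
    unfold tE
    simp only [Fintype.card_prod, Fintype.card_fin]
    nlinarith
  have hTne : ∀ T ∈ Ts, T.1 ≠ T.2.1 := by
    intro T hT
    rw [hTs] at hT
    obtain ⟨p, hp, rfl⟩ := List.mem_map.1 hT
    have := (List.mem_filter.1 hp).2
    simpa using this
  obtain ⟨C', hC'C, hC'c, hC'T⟩ := halving_list Ts hTne C
  have hC'U' : ∀ a, C' a ⊆ U' := fun a => (hC'C a).trans (hCU a)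
  have hcost : ∀ a, U.card ≤ 2 ^ (tE m + 5) * (C' a).card := by
    intro a
    have h1 := hC'c a
    rw [hCc] at h1
    have h2 : 2 ^ Ts.length * (C' a).card ≤ 2 ^ tE m * (C' a).card :=
      Nat.mul_le_mul_right _ (Nat.pow_le_pow_right (by norm_num) hTlen)
    calc U.card ≤ 32 * k := hk2
      _ ≤ 32 * (2 ^ tE m * (C' a).card) := Nat.mul_le_mul_left _ (h1.trans h2)
      _ = 2 ^ (tE m + 5) * (C' a).card := by rw [pow_add]; ring
  have horder : ∀ a c, a ≠ c → ∀ r ∈ L, ∀ y ∈ L,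
      (∀ v ∈ C' a, ∀ z ∈ C' c, dist r v - dist y v ≤ dist r z - dist y z) ∨
      (∀ v ∈ C' a, ∀ z ∈ C' c, dist r z - dist y z ≤ dist r v - dist y v) := by
    intro a c hac r hr y hy
    rw [hLdef] at hr hy
    obtain ⟨i, hi, rfl⟩ := Finset.mem_image.1 hr
    obtain ⟨j, hj, rfl⟩ := Finset.mem_image.1 hy
    have hT : (a, c, fun v => dist (l i) v - dist (l j) v) ∈ Ts := by
      rw [hTs]
      refine List.mem_map.2 ⟨((a, c), (i, j)), ?_, rfl⟩
      rw [List.mem_filter, Finset.mem_toList]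
      refine ⟨Finset.mem_product.2 ⟨Finset.mem_univ _, Finset.mem_product.2 ⟨hi, hj⟩⟩, ?_⟩
      simpa using hac
    exact hC'T _ hT
  by_contra hcon
  push Not at hcon
  obtain ⟨hnS, hnR⟩ := hcon
  have hC'U : ∀ a, C' a ⊆ U := fun a => (hC'U' a).trans hU'sub
  have h7m : 7 * b ≤ m := by omega
  -- serviceable cliques in the cells
  have hex : ∀ P : Finset X, P ⊆ U → P.card ≤ 14 * b → ∀ a, ∃ v u : ℕ → X,
      (∀ i, i < m → v i ∈ C' a ∧ ∀ x ∈ P, v i ≠ x → ¬ Low g s x (v i)) ∧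
      (∀ i j, i < j → j < m → v i ≠ v j ∧ Low g (2 * s) (v i) (v j)) ∧
      (∀ i, i < m → u i ∈ L) ∧ (∀ i j, i < j → j < m → u i ≠ u j) ∧
      ∀ k t, k < t → t < m → ∀ l ∈ L, (∀ j, j < k → l ≠ u j) →
        dist l (v k) - dist l (v t) ≤ dist (u k) (v k) - dist (u k) (v t) := by
    intro P hP hPc a
    have hpow : 2 * (14 * b) * 2 ^ (tE m + 5) ≤ 2 ^ qE b := by
      have h1 : 12 * b ≤ 2 ^ (12 * b) := (Nat.lt_two_pow_self).le
      have h2 : qE b = (tE m + 5) + (12 * b + 7) := by rw [hm]; unfold qE; omega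
      rw [h2, pow_add (2 : ℕ) (tE m + 5) (12 * b + 7), mul_comm]
      refine Nat.mul_le_mul_left _ ?_
      rw [pow_add]
      omega
    have hD := card_typical U P (C' a) (Low g s) (qE b) (14 * b) (tE m + 5) hP (hC'U a) hPc hdeg
      (hcost a) hpow
    have hDrk := hnR _ (show Cost (cE b)
      ((C' a).filter (fun w => ∀ v ∈ P, w ≠ v → ¬ Low g s v w)) U from
      ⟨(Finset.filter_subset _ _).trans (hC'U a), by
        calc U.card ≤ 2 ^ (tE m + 5) * (C' a).card := hcost a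
          _ ≤ 2 ^ (tE m + 5) * (2 * ((C' a).filter (fun w => ∀ v ∈ P, w ≠ v → ¬ Low g s v w)).card)
              := Nat.mul_le_mul_left _ hD
          _ = 2 ^ cE b * ((C' a).filter (fun w => ∀ v ∈ P, w ≠ v → ¬ Low g s v w)).card := by
              rw [show cE b = (tE m + 5) + 1 by rw [hm]; unfold cE; ring, pow_succ]; ring⟩)
    obtain ⟨v, u, h1, h2, h3, h4, h5⟩ := not_rk m _ L (fun l v => dist l v) hLc.le hLc.ge hDrk
    exact ⟨v, u, fun i hi => Finset.mem_filter.1 (h1 i hi), h2, h3, h4, h5⟩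
  obtain ⟨v₀, u₀, a1, a2, a3, a4, a5⟩ := hex ∅ (Finset.empty_subset _) (by simp) 0
  obtain ⟨P₀, hP₀⟩ : ∃ P₀ : Finset X, P₀ = (Finset.range (7 * b)).image v₀ := ⟨_, rfl⟩
  have hP₀U : P₀ ⊆ U := by
    intro x hx
    rw [hP₀] at hx
    obtain ⟨i, hi, rfl⟩ := Finset.mem_image.1 hx
    exact hC'U 0 (a1 i (lt_of_lt_of_le (Finset.mem_range.1 hi) h7m)).1
  have hP₀c : P₀.card ≤ 7 * b := by
    rw [hP₀]
    exact Finset.card_image_le.trans (Finset.card_range _).le
  obtain ⟨v₁, u₁, b1, b2, b3, b4, b5⟩ := hex P₀ hP₀U (by omega) 1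
  obtain ⟨P₁, hP₁⟩ : ∃ P₁ : Finset X, P₁ = (Finset.range (7 * b)).image v₁ := ⟨_, rfl⟩
  have hP₁U : P₁ ⊆ U := by
    intro x hx
    rw [hP₁] at hx
    obtain ⟨i, hi, rfl⟩ := Finset.mem_image.1 hx
    exact hC'U 1 (b1 i (lt_of_lt_of_le (Finset.mem_range.1 hi) h7m)).1
  have hP₁c : P₁.card ≤ 7 * b := by
    rw [hP₁]
    exact Finset.card_image_le.trans (Finset.card_range _).le
  obtain ⟨v₂, u₂, c1, c2, c3, c4, c5⟩ := hex (P₀ ∪ P₁) (Finset.union_subset hP₀U hP₁U)
    ((Finset.card_union_le _ _).trans (by omega)) 2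
  obtain ⟨V, hVdef⟩ : ∃ V : Fin 3 → ℕ → X, V = ![v₀, v₁, v₂] := ⟨_, rfl⟩
  obtain ⟨u, hudef⟩ : ∃ u : Fin 3 → ℕ → X, u = ![u₀, u₁, u₂] := ⟨_, rfl⟩
  have V0 : V 0 = v₀ := by rw [hVdef]; rfl
  have V1 : V 1 = v₁ := by rw [hVdef]; rfl
  have V2 : V 2 = v₂ := by rw [hVdef]; rfl
  have u0 : u 0 = u₀ := by rw [hudef]; rfl
  have u1 : u 1 = u₁ := by rw [hudef]; rfl
  have u2 : u 2 = u₂ := by rw [hudef]; rfl
  have f3 : ∀ a : Fin 3, a = 0 ∨ a = 1 ∨ a = 2 := by decide
  have hVC : ∀ a i, i < m → V a i ∈ C' a := by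
    intro a i hi
    rcases f3 a with rfl | rfl | rfl
    · rw [V0]; exact (a1 i hi).1
    · rw [V1]; exact (b1 i hi).1
    · rw [V2]; exact (c1 i hi).1
  have hVlow : ∀ a i j, i < j → j < m → V a i ≠ V a j ∧ Low g (2 * s) (V a i) (V a j) := by
    intro a
    rcases f3 a with rfl | rfl | rfl
    · rw [V0]; exact a2
    · rw [V1]; exact b2
    · rw [V2]; exact c2
  have huL : ∀ a i, i < m → u a i ∈ L := by
    intro a
    rcases f3 a with rfl | rfl | rfl
    · rw [u0]; exact a3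
    · rw [u1]; exact b3
    · rw [u2]; exact c3
  have hune : ∀ a i j, i < j → j < m → u a i ≠ u a j := by
    intro a
    rcases f3 a with rfl | rfl | rfl
    · rw [u0]; exact a4
    · rw [u1]; exact b4
    · rw [u2]; exact c4
  have hserv : ∀ a k t, k < t → t < m → ∀ l ∈ L, (∀ j, j < k → l ≠ u a j) →
      dist l (V a k) - dist l (V a t) ≤ dist (u a k) (V a k) - dist (u a k) (V a t) := by
    intro a
    rcases f3 a with rfl | rfl | rfl
    · rw [u0, V0]; exact a5
    · rw [u1, V1]; exact b5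
    · rw [u2, V2]; exact c5
  have hVV : ∀ a c, a ≠ c → ∀ i j, i < m → j < m → V a i ≠ V c j := by
    intro a c hac i j hi hj h
    have h1 := hC'C a (hVC a i hi)
    have h2 := hC'C c (hVC c j hj)
    rw [← h] at h2
    exact (Finset.disjoint_left.1 (hCd a c hac)) h1 h2
  have hnL : ∀ a i, i < m → V a i ∉ L := by
    intro a i hi
    have h1 := hC'U' a (hVC a i hi)
    rw [hU', Finset.mem_filter, Finset.mem_sdiff] at h1
    exact h1.1.2
  have hLtyp : ∀ a i, i < m → ∀ x ∈ L, ¬ Low g s x (V a i) := by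
    intro a i hi x hx
    have h1 := hC'U' a (hVC a i hi)
    rw [hU', Finset.mem_filter] at h1
    exact h1.2 x hx (fun e => hnL a i hi (e ▸ hx))
  have mem0 : ∀ i, i < 7 * b → v₀ i ∈ P₀ := fun i hi => by
    rw [hP₀]; exact Finset.mem_image_of_mem _ (Finset.mem_range.2 hi)
  have mem1 : ∀ i, i < 7 * b → v₁ i ∈ P₁ := fun i hi => by
    rw [hP₁]; exact Finset.mem_image_of_mem _ (Finset.mem_range.2 hi)
  have t01 : ∀ i j, i < 7 * b → j < 7 * b → ¬ Low g s (V 0 i) (V 1 j) := by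
    intro i j hi hj
    have hne := hVV 1 0 (by decide) j i (by omega) (by omega)
    rw [V0, V1] at hne ⊢
    exact (b1 j (by omega)).2 _ (mem0 i hi) hne
  have t02 : ∀ i j, i < 7 * b → j < 7 * b → ¬ Low g s (V 0 i) (V 2 j) := by
    intro i j hi hj
    have hne := hVV 2 0 (by decide) j i (by omega) (by omega)
    rw [V0, V2] at hne ⊢
    exact (c1 j (by omega)).2 _ (Finset.mem_union_left _ (mem0 i hi)) hne
  have t12 : ∀ i j, i < 7 * b → j < 7 * b → ¬ Low g s (V 1 i) (V 2 j) := by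
    intro i j hi hj
    have hne := hVV 2 1 (by decide) j i (by omega) (by omega)
    rw [V1, V2] at hne ⊢
    exact (c1 j (by omega)).2 _ (Finset.mem_union_right _ (mem1 i hi)) hne
  have tcr : ∀ a c, a ≠ c → ∀ i j, i < 7 * b → j < 7 * b → ¬ Low g s (V a i) (V c j) := by
    intro a c hac i j hi hj
    rcases f3 a with rfl | rfl | rfl <;> rcases f3 c with rfl | rfl | rfl
    · exact absurd rfl hac
    · exact t01 i j hi hj
    · exact t02 i j hi hj
    · rw [Low.comm]; exact t01 j i hj hi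
    · exact absurd rfl hac
    · exact t12 i j hi hj
    · rw [Low.comm]; exact t02 j i hj hi
    · rw [Low.comm]; exact t12 j i hj hi
    · exact absurd rfl hac
  refine hnS (four_cell_nonpos b hb g s hs L (hLc.trans hm) V u ?_ ?_ ?_ ?_ ?_ ?_ ?_ hLlow ?_ ?_ ?_)
  · intro a i j hi hj hij
    rcases Nat.lt_trichotomy i j with h | h | h
    · exact absurd hij (hVlow a i j h (by omega)).1
    · exact h
    · exact absurd hij.symm (hVlow a j i h (by omega)).1
  · intro a i hi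
    exact hnL a i (by omega)
  · intro a c hac i j hi hj
    exact hVV a c hac i j (by omega) (by omega)
  · intro a k hk
    exact huL a k (by omega)
  · intro a i j hi hj hij
    rcases Nat.lt_trichotomy i j with h | h | h
    · exact absurd hij (hune a i j h (by omega))
    · exact h
    · exact absurd hij.symm (hune a j i h (by omega))
  · intro a k t hk hkt ht l hl hlu
    have := hserv a k t hkt (by omega) l hl hlu
    linarith
  · intro a c hac r hr y hy
    rcases horder a c hac r hr y hy with h | h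
    · right
      intro i hi j hj
      have := h _ (hVC a i (by omega)) _ (hVC c j (by omega))
      linarith
    · left
      intro i hi j hj
      have := h _ (hVC a i (by omega)) _ (hVC c j (by omega))
      linarith
  · intro a i j hi hj hij
    rcases Nat.lt_trichotomy i j with h | h | h
    · exact (hVlow a i j h (by omega)).2.le
    · exact absurd h hij
    · rw [MG.comm]
      exact (hVlow a j i h (by omega)).2.le
  · intro a i hi x hx
    refine ⟨not_lt.1 (hLtyp a i (by omega) x hx), ?_⟩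
    exact hM x (hLU hx) _ (hC'U a (hVC a i (by omega))) (fun e => hnL a i (by omega) (e ▸ hx))
  · intro a c hac i j hi hj
    refine ⟨not_lt.1 (tcr a c hac i j hi hj), ?_⟩
    exact hM _ (hC'U a (hVC a i (by omega))) _ (hC'U c (hVC c j (by omega)))
      (hVV a c hac i j (by omega) (by omega))

end Pool.Agent.Lib.MP_293cc0_an.R
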