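import Pool.Agent.Lib.MP_293cc0_an.R.SpecC

/-!
# MP_293cc0_an, the reduction (R): the interface of the modules

Proof: team notes 2107 / 2108 with `m = 12 p` and the rank `Rk` instead of `Cont`. All parameters are hidden:
`∃ k, … (k * p ^ k) …`; every statement is monotone in its parameter.
-/

set_option autoImplicit false

namespace Pool.Agent.Lib.MP_293cc0_an.R

open Finset
open scoped Classical

variable {X : Type} [MetricSpace X]

/-- The conclusion of the drop lemma with one parameter `D`. Monotone in `D`. -/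
def Drop (X : Type) [MetricSpace X] (p D : ℕ) : Prop := DropH X (12 * p) D D D

theorem Drop.mono {p D D' : ℕ} (h : Drop X p D) (hD : D ≤ D') : Drop X p D' := by
  intro U g d hd hU hdeg
  obtain ⟨A, g', hA, hL⟩ := h U g d hd ((Nat.pow_le_pow_right (by norm_num) hD).trans hU) (fun v hv =>
    (Nat.mul_le_mul_right _ (Nat.pow_le_pow_right (by norm_num) hD)).trans (hdeg v hv))
  exact ⟨A, g', hA.mono hD, hL⟩

/-- The median point function of `i, j`. -/
noncomputable def Pot (i j y : X) : ℝ := (dist i y + dist j y - dist i j) / 2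

theorem Pot.comm (i j y : X) : Pot i j y = Pot j i y := by unfold Pot; rw [dist_comm i j]; ring

/-- The pair `i, j` is L-decided on the level `(A, g, s)`. -/
def DecL (i j : X) (A : Finset X) (g : X → ℝ) (s : ℝ) : Prop :=
  ∀ v ∈ A, ∀ w ∈ A, dist i j + s ≤ (dist i v - g v) + (dist j w - g w)

/-- The pair `i, j` is U-decided on the level `(A, g, s)`. -/
def DecU (i j : X) (A : Finset X) (g : X → ℝ) (s : ℝ) : Prop :=
  ∀ v ∈ A, ∀ w ∈ A, (dist i v - g v) + (dist j w - g w) ≤ dist i j - 2 * s

/-- The pair `i, j` is undecidable on `V` (implies `V ≠ ∅`, since every pair is decided on the empty level). -/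
def Und (m : ℕ) (i j : X) (V : Finset X) : Prop :=
  ¬ ∃ (A : Finset X) (g : X → ℝ) (s : ℝ), Cost 5 A V ∧ Level m A g s ∧ (DecL i j A g s ∨ DecU i j A g s)

theorem Und.comm {m : ℕ} {i j : X} {V : Finset X} (h : Und m i j V) : Und m j i V := by
  rintro ⟨A, g, s, hA, hL, hD⟩
  refine h ⟨A, g, s, hA, hL, ?_⟩
  rcases hD with hD | hD
  · left; intro v hv w hw; have := hD w hw v hv; rw [dist_comm i j]; linarith
  · right; intro v hv w hw; have := hD w hw v hv; rw [dist_comm i j]; linarith

theorem Und.nonempty {m : ℕ} {i j : X} {V : Finset X} (h : Und m i j V) : V.Nonempty := by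
  rw [Finset.nonempty_iff_ne_empty]
  rintro rfl
  refine h ⟨∅, fun _ => 0, 1, ⟨Finset.Subset.refl _, by simp⟩, ⟨one_pos, by simp, Rk.empty _ _ _⟩, Or.inl ?_⟩
  intro v hv; exact absurd hv (Finset.notMem_empty v)

/-- `(x, V')` is a good pick with respect to the earlier points `S`. -/
def Good (m : ℕ) (S : Finset X) (x : X) (V' : Finset X) : Prop :=
  ∀ i ∈ S, ∀ j ∈ S, i ≠ j → ∀ V'' ⊆ V', ¬ (Und m i j V'' ∧ Und m i x V'' ∧ Und m j x V'')

/-- The result of the process with `N` picks. `tm i j` is the time at which the pair `i < j` is decided (at the end of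
the step of the pick `tm i j`; a large number, if it is never decided), `ty i j` its type (`true` = U). -/
structure Picks (X : Type) [MetricSpace X] (N : ℕ) where
  x : ℕ → X
  inj : ∀ i j, i < N → j < N → x i = x j → i = j
  tm : ℕ → ℕ → ℕ
  ty : ℕ → ℕ → Bool
  typU : ∀ i j s t, i < j → tm i j < s → tm i j < t → s < N → t < N → s ≠ t → ty i j = true →
    dist (x i) (x s) + dist (x j) (x t) ≤ dist (x i) (x j) + dist (x s) (x t)
  typL : ∀ i j s t, i < j → tm i j < s → tm i j < t → s < N → t < N → s ≠ t → ty i j = false →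
    dist (x i) (x j) + dist (x s) (x t) ≤ dist (x i) (x s) + dist (x j) (x t)
  late : ∀ i j, i < j → j ≤ tm i j
  tri : ∀ i j l, i < j → j < l → l < N → tm i j ≤ l ∨ tm i l ≤ l ∨ tm j l ≤ l
  hom : ∀ i j l t t', i < t → j < t → l < t → i < t' → j < t' → l < t' → t < N → t' < N →
    (dist (x i) (x j) + dist (x l) (x t) ≤ dist (x i) (x l) + dist (x j) (x t) ↔
      dist (x i) (x j) + dist (x l) (x t') ≤ dist (x i) (x l) + dist (x j) (x t'))

end Pool.Agent.Lib.MP_293cc0_an.R
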