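import Pool.Agent.Lib.MP_293cc0_an.R.Cluster
import Pool.Agent.Lib.MP_293cc0_an.R.Extract
import Pool.Agent.Lib.MP_293cc0_an.R.Spec

/-!
# MP_293cc0_an, the reduction (R): the drop lemma, section 5

Note 2107, section 5. `ε = d / 1280`, `J = 1280`, `r = q_E + 1`; a near-hyperbolic `U₁` from `exists_nh`; the bound `T` for all
pairs is lowered by `ε` with the cluster lemma as long as possible (`descend`); then delete the vertices with many low
partners; gauge `g + T/2`; Lemma E with `s0 = 5 ε`.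
-/

set_option autoImplicit false

namespace Pool.Agent.Lib.MP_293cc0_an.R

open Finset
open scoped Classical

section

variable {X : Type} [MetricSpace X]

/-- Lower the bound for all pairs as long as possible. -/
theorem descend {g : X → ℝ} {ε T : ℝ} {s r n : ℕ} {U₁ : Finset X} (hNH : NH g ε s U₁)
    (hs : n * (r + 1) + 2 * r + 6 ≤ s) (hbig : 2 ^ (n * (r + 1) + (r + 2)) ≤ U₁.card)
    (hT : ∀ a ∈ U₁, ∀ b ∈ U₁, a ≠ b → MG g a b ≤ T) :
    ∀ j, j ≤ n → (∃ (B : Finset X) (T' : ℝ), Cost (n * (r + 1)) B U₁ ∧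
        (∀ a ∈ B, ∀ b ∈ B, a ≠ b → MG g a b ≤ T') ∧
        2 * (B.filter (fun v => B.card ≤
          2 ^ r * (B.filter (fun w => w ≠ v ∧ MG g v w < T' - 5 * ε)).card)).card < B.card) ∨
      ∃ B : Finset X, Cost (j * (r + 1)) B U₁ ∧ ∀ a ∈ B, ∀ b ∈ B, a ≠ b → MG g a b ≤ T - j * ε := by
  intro j
  induction j with
  | zero =>
    intro _
    right
    refine ⟨U₁, (Cost.refl U₁).mono (Nat.zero_le _), ?_⟩
    intro a ha b hb hab
    have := hT a ha b hb hab
    push_cast
    linarith
  | succ j ih =>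
    intro hj
    rcases ih (by omega) with h | ⟨B, hB, hBT⟩
    · exact Or.inl h
    · by_cases hG : 2 * (B.filter (fun v => B.card ≤
          2 ^ r * (B.filter (fun w => w ≠ v ∧ MG g v w < T - j * ε - 5 * ε)).card)).card < B.card
      · left
        exact ⟨B, T - j * ε, hB.mono (Nat.mul_le_mul_right _ (by omega)), hBT, hG⟩
      · right
        push Not at hG
        have hjn : j * (r + 1) ≤ n * (r + 1) := Nat.mul_le_mul_right _ (by omega)
        obtain ⟨B', h1, h2⟩ := cluster hNH hB (by omega) (hB.large (le_trans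
          (Nat.pow_le_pow_right (by norm_num) (by omega)) hbig)) hG
        refine ⟨B', (hB.trans h1).mono (by rw [Nat.succ_mul]), ?_⟩
        intro a ha b hb hab
        have := h2 a ha b hb hab
        push_cast
        linarith

omit [MetricSpace X] in
theorem card_pow_sub {q c k : ℕ} {U A D : Finset X} (hD : 2 ^ q * D.card ≤ U.card)
    (hA : U.card ≤ 2 ^ c * A.card) (hq : c + k ≤ q) : 2 ^ k * D.card ≤ A.card := by
  have h : 2 ^ c * (2 ^ k * D.card) ≤ 2 ^ c * A.card := by
    calc 2 ^ c * (2 ^ k * D.card) = 2 ^ (c + k) * D.card := by rw [pow_add]; ring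
      _ ≤ 2 ^ q * D.card := Nat.mul_le_mul_right _ (Nat.pow_le_pow_right (by norm_num) hq)
      _ ≤ U.card := hD
      _ ≤ 2 ^ c * A.card := hA
  exact Nat.le_of_mul_le_mul_left h (by positivity)

/-- The drop lemma with explicit costs. -/
theorem drop_explicit {p r C s cN q : ℕ} (hp : 1 ≤ p) (hr : r = qE p + 1)
    (hC : C = 2563 * (r + 1)) (hs : s = C + 2 * r + 6)
    (hcN : cN = (2 * 1280 + 1) ^ 2 * p * (s + 1 + 23))
    (hq : cN + C + s + r + cE p + 10 ≤ q) (hnS : ¬ Sav X p) : Drop X p q := by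
  classical
  intro U g d hd hU hdeg
  obtain ⟨ε, hε⟩ : ∃ ε : ℝ, ε = d / 1280 := ⟨_, rfl⟩
  have hε0 : 0 < ε := by rw [hε]; positivity
  have hdε : d = 1280 * ε := by rw [hε]; ring
  have hUne : U.Nonempty := by
    rw [← Finset.card_pos]
    exact lt_of_lt_of_le (by positivity) hU
  have hr1 : 1 ≤ r := by omega
  rcases exists_nh p 1280 23 s q (by norm_num) hε0 (by rw [hdε]; push_cast; linarith) U hUne hdeg
    (by rw [← hcN]; omega) with h | ⟨U₁, hU₁, hNH⟩
  · exact absurd h hnS
  rw [← hcN] at hU₁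
  -- all pairs of `U₁` are at most `d + 2 ε`
  have hU₁c : 2 ^ 4 ≤ U₁.card := hU₁.large (le_trans (Nat.pow_le_pow_right (by norm_num) (by omega)) hU)
  have hT : ∀ a ∈ U₁, ∀ b ∈ U₁, a ≠ b → MG g a b ≤ d + 2 * ε := by
    intro a ha b hb hab
    have h1 := card_pow_sub (hdeg a (hU₁.1 ha)) hU₁.2 (k := 3) (by omega)
    have h2 := card_pow_sub (hdeg b (hU₁.1 hb)) hU₁.2 (k := 3) (by omega)
    have h3 : 2 ^ 3 * (Exc g ε U₁ a b).card ≤ U₁.card :=
      le_trans (Nat.mul_le_mul_right _ (Nat.pow_le_pow_right (by norm_num) (by omega)))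
        (hNH a ha b hb hab).le
    have hpos : 0 < (U₁ \ ((U.filter (fun w => w ≠ a ∧ d < |MG g a w|)) ∪
        (U.filter (fun w => w ≠ b ∧ d < |MG g b w|)) ∪ Exc g ε U₁ a b ∪ {a, b})).card := by
      have k1 := Finset.le_card_sdiff ((U.filter (fun w => w ≠ a ∧ d < |MG g a w|)) ∪
        (U.filter (fun w => w ≠ b ∧ d < |MG g b w|)) ∪ Exc g ε U₁ a b ∪ {a, b}) U₁
      have k2 := Finset.card_union_le ((U.filter (fun w => w ≠ a ∧ d < |MG g a w|)) ∪
        (U.filter (fun w => w ≠ b ∧ d < |MG g b w|)) ∪ Exc g ε U₁ a b) {a, b}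
      have k3 := Finset.card_union_le ((U.filter (fun w => w ≠ a ∧ d < |MG g a w|)) ∪
        (U.filter (fun w => w ≠ b ∧ d < |MG g b w|))) (Exc g ε U₁ a b)
      have k4 := Finset.card_union_le (U.filter (fun w => w ≠ a ∧ d < |MG g a w|))
        (U.filter (fun w => w ≠ b ∧ d < |MG g b w|))
      have k5 : ({a, b} : Finset X).card ≤ 2 := Finset.card_le_two
      omega
    obtain ⟨w, hw⟩ := Finset.card_pos.1 hpos
    rw [Finset.mem_sdiff, Finset.mem_union, Finset.mem_union, Finset.mem_union,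
      Finset.mem_insert, Finset.mem_singleton, Finset.mem_filter, Finset.mem_filter] at hw
    push Not at hw
    obtain ⟨hwU, ⟨⟨hwa, hwb⟩, hwE⟩, hwa', hwb'⟩ := hw
    have m1 := le_of_abs_le (hwa (hU₁.1 hwU) hwa')
    have m2 := le_of_abs_le (hwb (hU₁.1 hwU) hwb')
    by_contra h4
    push Not at h4
    apply hwE
    unfold Exc
    rw [Finset.mem_filter]
    exact ⟨hwU, hwa', hwb', by linarith, by linarith⟩
  -- descend
  rcases descend hNH (n := 2563) (r := r) (by omega) (hU₁.large (le_trans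
    (Nat.pow_le_pow_right (by norm_num) (by omega)) hU)) hT 2563 le_rfl with
    ⟨B, T, hB, hBT, hG⟩ | ⟨B, hB, hBT⟩
  · rw [← hC] at hB
    obtain ⟨B₂, hB₂⟩ : ∃ B₂, B₂ = B \ (B.filter (fun v => B.card ≤
          2 ^ r * (B.filter (fun w => w ≠ v ∧ MG g v w < T - 5 * ε)).card)) := ⟨_, rfl⟩
    have hB₂c : B.card ≤ 2 * B₂.card := by
      rw [hB₂]
      have k1 := Finset.le_card_sdiff (B.filter (fun v => B.card ≤
          2 ^ r * (B.filter (fun w => w ≠ v ∧ MG g v w < T - 5 * ε)).card)) B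
      omega
    have hB₂B : B₂ ⊆ B := by rw [hB₂]; exact Finset.sdiff_subset
    have hcost : Cost (cN + C + 1) B₂ U := by
      refine (hU₁.trans hB).trans ⟨hB₂B, ?_⟩
      rw [pow_one]
      exact hB₂c
    have hM : ∀ v w, MG (fun x => g x + T / 2) v w = MG g v w - T := by
      intro v w
      unfold MG
      ring
    rcases extract p hp B₂ (fun x => g x + T / 2) (5 * ε) (by linarith)
      (hcost.large (le_trans (Nat.pow_le_pow_right (by norm_num) (by omega)) hU))
      (by
        intro v hv w hw hvw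
        rw [hM]
        have := hBT v (hB₂B hv) w (hB₂B hw) hvw
        linarith)
      (by
        intro v hv
        have hv' := hv
        rw [hB₂, Finset.mem_sdiff, Finset.mem_filter] at hv'
        have k1 : 2 ^ r * (B.filter (fun w => w ≠ v ∧ MG g v w < T - 5 * ε)).card < B.card := by
          by_contra k2
          push Not at k2
          exact hv'.2 ⟨hv'.1, k2⟩
        have k3 : (B₂.filter (fun w => w ≠ v ∧ Low (fun x => g x + T / 2) (5 * ε) v w)).card ≤
            (B.filter (fun w => w ≠ v ∧ MG g v w < T - 5 * ε)).card := by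
          apply Finset.card_le_card
          intro w hw
          rw [Finset.mem_filter] at hw ⊢
          refine ⟨hB₂B hw.1, hw.2.1, ?_⟩
          have := hw.2.2
          unfold Low at this
          rw [hM] at this
          linarith
        have k4 : 2 ^ r = 2 * 2 ^ qE p := by rw [hr, pow_succ]; ring
        rw [k4] at k1
        have k5 := Nat.mul_le_mul_left (2 ^ qE p) k3
        have k6 : 2 * (2 ^ qE p * (B.filter (fun w => w ≠ v ∧ MG g v w < T - 5 * ε)).card) < B.card := by
          rw [← mul_assoc]; exact k1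
        omega) with h | ⟨Q, hQ, hQr⟩
    · exact absurd h hnS
    · refine ⟨Q, fun x => g x + T / 2, (hcost.trans hQ).mono (by omega), ?_, ?_, ?_⟩
      · positivity
      · intro v hv w hw hvw
        rw [hM]
        have := hBT v (hB₂B (hQ.1 hv)) w (hB₂B (hQ.1 hw)) hvw
        linarith
      · refine hQr.anti ?_
        intro v _ w _ _ hG
        unfold Low at hG ⊢
        have : d / 128 = 2 * (5 * ε) := by rw [hdε]; ring
        rw [this] at hG
        exact hG
  · exfalso
    rw [← hC] at hB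
    have hBU := hU₁.trans hB
    have hBc : 2 ^ 2 ≤ B.card := hBU.large (le_trans (Nat.pow_le_pow_right (by norm_num) (by omega)) hU)
    obtain ⟨v, hv⟩ : B.Nonempty := by
      rw [← Finset.card_pos]
      omega
    have h1 := card_pow_sub (hdeg v (hBU.1 hv)) hBU.2 (k := 2) (by omega)
    have hpos : 0 < (B \ ((U.filter (fun w => w ≠ v ∧ d < |MG g v w|)) ∪ {v})).card := by
      have k1 := Finset.le_card_sdiff ((U.filter (fun w => w ≠ v ∧ d < |MG g v w|)) ∪ {v}) B
      have k2 := Finset.card_union_le (U.filter (fun w => w ≠ v ∧ d < |MG g v w|)) {v}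
      rw [Finset.card_singleton] at k2
      omega
    obtain ⟨w, hw⟩ := Finset.card_pos.1 hpos
    rw [Finset.mem_sdiff, Finset.mem_union, Finset.mem_singleton, Finset.mem_filter] at hw
    push Not at hw
    obtain ⟨hwB, hwd, hwv⟩ := hw
    have m1 := neg_le_of_abs_le (hwd (hBU.1 hwB) hwv)
    have m2 := hBT v hv w hwB (fun e => hwv e.symm)
    push_cast at m2
    linarith

end

/-- **Drop lemma.** -/
theorem drop : ∃ k : ℕ, 1 ≤ k ∧ ∀ (X : Type) [MetricSpace X] (p : ℕ), 1 ≤ p → ¬ Sav X p → Drop X p (k * p ^ k) := by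
  refine ⟨10 ^ 14, by norm_num, ?_⟩
  intro X _ p hp hnS
  refine Drop.mono (drop_explicit (p := p) hp rfl rfl rfl rfl le_rfl hnS) ?_
  have h1 : p ≤ p ^ 3 := by
    calc p = p ^ 1 := (pow_one p).symm
      _ ≤ p ^ 3 := Nat.pow_le_pow_right hp (by norm_num)
  have h2 : p ^ 2 ≤ p ^ 3 := Nat.pow_le_pow_right hp (by norm_num)
  have h3 : 1 ≤ p ^ 3 := Nat.one_le_pow _ _ hp
  have h4 : p ^ 3 ≤ p ^ (10 ^ 14) := Nat.pow_le_pow_right hp (by norm_num)
  have h5 : 10 ^ 14 * p ^ 3 ≤ 10 ^ 14 * p ^ (10 ^ 14) := Nat.mul_le_mul_left _ h4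
  refine le_trans ?_ h5
  unfold qE cE tE
  have e1 : p * (12 * p) ^ 2 = 144 * p ^ 3 := by ring
  have e2 : (12 * p) ^ 2 = 144 * p ^ 2 := by ring
  have e3 : p * p = p ^ 2 := by ring
  have e4 : p * p ^ 2 = p ^ 3 := by ring
  ring_nf
  nlinarith [h1, h2, h3]

end Pool.Agent.Lib.MP_293cc0_an.R
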