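import Pool.Agent.Lib.MP_293cc0_an.R.Blocks
import Pool.Agent.Lib.MP_293cc0_an.E.Sav

/-!
# MP_293cc0_an, the reduction (R): the end, section 10

`N = t ^ 3` picks, `t = 4 (1024 p ^ 10) ^ 10 + 1`: by `blocks` there are `t` picks all of whose pairs are decided before the next
one; they form a comb of class E.
-/

set_option autoImplicit false

namespace Pool.Agent.Lib.MP_293cc0_an.R

open Finset
open scoped Classical

variable {X : Type} [MetricSpace X]

/-- Picks whose pairs are decided before the next pick give savings. -/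
theorem sav_of_decided {p t N : ℕ} (hp : 1 ≤ p) (ht : 4 * (1024 * p ^ 10) ^ 10 ≤ t) (P : Picks X N) (q : ℕ → ℕ)
    (hqN : ∀ a, a < t + 1 → q a < N) (hq : ∀ a b, a < b → b < t + 1 → q a < q b)
    (hdec : ∀ a b c, a < b → b < c → c < t + 1 → P.tm (q a) (q b) < q c) : Sav X p := by
  classical
  obtain ⟨z, hz⟩ : ∃ z, z = P.x (q t) := ⟨_, rfl⟩
  let C : Comb X t :=
    { x := fun a => P.x (q a)
      inj := by
        intro i j hi hj h
        have h1 := P.inj _ _ (hqN i (by omega)) (hqN j (by omega)) h
        rcases lt_trichotomy i j with h2 | h2 | h2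
        · exact absurd h1 (ne_of_lt (hq i j h2 (by omega)))
        · exact h2
        · exact absurd h1.symm (ne_of_lt (hq j i h2 (by omega)))
      e := fun a b => dist (P.x (q a)) (P.x (q b)) - dist (P.x (q a)) z - dist (P.x (q b)) z
      symm := by
        intro i j
        rw [dist_comm (P.x (q i)) (P.x (q j))]
        ring
      key := by
        intro a b c s ha hb hc hs _ _ _ he
        have h1 := P.hom (q a) (q b) (q c) (q s) (q t) (hq a s ha (by omega)) (hq b s hb (by omega))
          (hq c s hc (by omega)) (hq a t (by omega) (by omega)) (hq b t (by omega) (by omega))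
          (hq c t (by omega) (by omega)) (hqN s (by omega)) (hqN t (by omega))
        rw [h1, ← hz]
        have h2 : dist (P.x (q a)) (P.x (q b)) - dist (P.x (q a)) z - dist (P.x (q b)) z ≤
          dist (P.x (q a)) (P.x (q c)) - dist (P.x (q a)) z - dist (P.x (q c)) z := he
        linarith }
  refine C.savE (τ := fun a b => if P.ty (q a) (q b) = true then t + 1 else 0) ?_ hp ht
  intro a b c hab hbc hc
  have hab' := hq a b hab (by omega)
  have hct := hq c t (by omega) (by omega)
  have hne : q c ≠ q t := hct.ne
  have d1 := hdec a b c hab hbc (by omega)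
  have d2 := hdec a b t hab (by omega) (by omega)
  have cN := hqN c (by omega)
  have tN := hqN t (by omega)
  constructor
  · intro h
    have hty : P.ty (q a) (q b) = true := by
      by_contra hcon
      simp only [if_neg hcon] at h
      omega
    have k1 := P.typU (q a) (q b) (q c) (q t) hab' d1 d2 cN tN hne hty
    have k2 := P.typU (q a) (q b) (q t) (q c) hab' d2 d1 tN cN hne.symm hty
    rw [← hz] at k1 k2
    rw [dist_comm z (P.x (q c))] at k2
    constructor
    · show dist (P.x (q a)) (P.x (q c)) - dist (P.x (q a)) z - dist (P.x (q c)) z ≤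
        dist (P.x (q a)) (P.x (q b)) - dist (P.x (q a)) z - dist (P.x (q b)) z
      linarith
    · show dist (P.x (q b)) (P.x (q c)) - dist (P.x (q b)) z - dist (P.x (q c)) z ≤
        dist (P.x (q a)) (P.x (q b)) - dist (P.x (q a)) z - dist (P.x (q b)) z
      linarith
  · intro h
    have hty : P.ty (q a) (q b) = false := by
      by_contra hcon
      have hcon' : P.ty (q a) (q b) = true := by simpa using hcon
      simp only [if_pos hcon'] at h
      omega
    have k1 := P.typL (q a) (q b) (q c) (q t) hab' d1 d2 cN tN hne hty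
    have k2 := P.typL (q a) (q b) (q t) (q c) hab' d2 d1 tN cN hne.symm hty
    rw [← hz] at k1 k2
    rw [dist_comm z (P.x (q c))] at k2
    constructor
    · show dist (P.x (q a)) (P.x (q b)) - dist (P.x (q a)) z - dist (P.x (q b)) z ≤
        dist (P.x (q a)) (P.x (q c)) - dist (P.x (q a)) z - dist (P.x (q c)) z
      linarith
    · show dist (P.x (q a)) (P.x (q b)) - dist (P.x (q a)) z - dist (P.x (q b)) z ≤
        dist (P.x (q b)) (P.x (q c)) - dist (P.x (q b)) z - dist (P.x (q c)) z
      linarith

/-- **The end.** -/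
theorem sav_of_picks {p : ℕ} (hp : 1 ≤ p) (P : Picks X ((4 * (1024 * p ^ 10) ^ 10 + 1) ^ 3)) : Sav X p := by
  obtain ⟨t, ht⟩ : ∃ t, t = 4 * (1024 * p ^ 10) ^ 10 := ⟨_, rfl⟩
  rw [← ht] at P
  obtain ⟨q, h1, h2, h3⟩ := blocks (t + 1) (by omega) P.tm P.tri
  exact sav_of_decided hp ht.symm.le P q h1 h2 h3

end Pool.Agent.Lib.MP_293cc0_an.R
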