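import Pool.Agent.Lib.MP_293cc0_an.R.SpecC

/-!
# MP_293cc0_an, the reduction (R): the end of the chain (`EndStmt`, section 7.4)
-/

set_option autoImplicit false

namespace Pool.Agent.Lib.MP_293cc0_an.R

open Finset
open scoped Classical

/-- **The end of the chain.** -/
theorem end_ (h1 : SplitStmt) (h2 : HiStmt) (h3 : LoStmt) (h4 : IncrStmt) : EndStmt := by
  classical
  intro X _ E _ L p a P τ T col acc sg hD hp hE hL
  obtain ⟨n, hn⟩ : ∃ n, n = 4 * (1024 * p ^ 10 + 4) + 1 := ⟨_, rfl⟩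
  rw [← hn] at hL
  have hn1 : 1 ≤ n := by omega
  have hL1 : 1 ≤ L := by
    refine le_trans ?_ hL
    exact Nat.mul_pos (by positivity) (Nat.mul_pos (by omega) (by omega))
  -- the popular colour
  obtain ⟨c, -, hc⟩ := Finset.exists_le_card_fiber_of_mul_le_card_of_maps_to
    (s := Finset.Icc 1 L) (t := (Finset.univ : Finset E)) (f := col) (n := (p + 3) * n)
    (fun _ _ => Finset.mem_univ _) ⟨col 1, Finset.mem_univ _⟩ (by
      rw [Finset.card_univ, Nat.card_Icc]
      calc Fintype.card E * ((p + 3) * n) ≤ 2 ^ a * ((p + 3) * n) := Nat.mul_le_mul_right _ hE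
        _ ≤ L := hL
        _ = L + 1 - 1 := by omega)
  obtain ⟨Λ, hΛ⟩ : ∃ Λ, Λ = (Finset.Icc 1 L).filter (fun l => col l = c) := ⟨_, rfl⟩
  rw [← hΛ] at hc
  have hΛs : ∀ l ∈ Λ, 1 ≤ l ∧ l ≤ L ∧ col l = c := by
    intro l hl
    rw [hΛ, Finset.mem_filter, Finset.mem_Icc] at hl
    exact ⟨hl.1.1, hl.1.2, hl.2⟩
  rcases h1 Λ acc (p + 3) n (by omega) hc with ⟨b, B, hB, hBc, hBs⟩ | ⟨q, hq1, hq2⟩
  · by_cases h5 : p ≤ (B.filter (fun l => sg l = true)).card
    · refine h2 X E (12 * p) L p P τ T col acc sg c b (B.filter (fun l => sg l = true)) hD (by omega)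
        h5 ?_
      intro l hl
      rw [Finset.mem_filter] at hl
      obtain ⟨_, h7, h8⟩ := hΛs l (hB hl.1)
      exact ⟨(hBs l hl.1).1, h7, (hBs l hl.1).2, h8, hl.2⟩
    · have h6 : 4 ≤ (B.filter (fun l => ¬ sg l = true)).card := by
        have := Finset.card_filter_add_card_filter_not (s := B) (fun l => sg l = true)
        omega
      refine h3 X E L p P τ T col acc sg c b (B.filter (fun l => ¬ sg l = true)) hD hp h6 ?_
      intro l hl
      rw [Finset.mem_filter] at hl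
      obtain ⟨_, h7, h8⟩ := hΛs l (hB hl.1)
      exact ⟨(hBs l hl.1).1, h7, (hBs l hl.1).2, h8, by simpa using hl.2⟩
  · exact h4 X E (12 * p) L p n P τ T col acc sg c q hD (by omega) hp (by rw [hn])
      (fun i hi => hΛs _ (hq1 i hi)) hq2

end Pool.Agent.Lib.MP_293cc0_an.R
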