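import Pool.Agent.Lib.MP_293cc0_an.R.SpecC

/-!
# MP_293cc0_an, the reduction (R): from the chain to the static data
-/

set_option autoImplicit false

open Finset
open scoped Classical

namespace Pool.Agent.Lib.MP_293cc0_an.R

/-- The pools are decreasing. -/
theorem endOf_pool {X : Type} [MetricSpace X] {E : Type} {m cS cI L : ℕ} {P : E → X → ℝ}
    {f : ℕ → St X E} (h : ∀ l, 1 ≤ l → l ≤ L → StOK m cS cI P f l) {l : ℕ} :
    ∀ {l' : ℕ}, l ≤ l' → l' ≤ L → (f l').V ⊆ (f l).V := by
  intro l' hl
  induction hl with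
  | refl => exact fun _ => Finset.Subset.refl _
  | step hl ih =>
    intro hL
    exact (h _ (Nat.succ_pos _) hL).cost.1.trans (ih (Nat.le_of_succ_le hL))

/-- The points of the later stages are in the pool. -/
theorem endOf_mem {X : Type} [MetricSpace X] {E : Type} {m cS cI L : ℕ} {P : E → X → ℝ}
    {f : ℕ → St X E} (h : ∀ l, 1 ≤ l → l ≤ L → StOK m cS cI P f l) {l l' i : ℕ} (hl : l < l')
    (hL : l' ≤ L) (hi : i < m) : (f l').T i ∈ (f l).V :=
  endOf_pool h (l := l) (l' := l' - 1) (by omega) (by omega)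
    ((h l' (by omega) hL).memT i hi)

theorem endOf : EndOfStmt := by
  intro X _ E m cS cI L P f hm h0 h
  refine ⟨h0, ?_, ?_, ?_, ?_, ?_, ?_, ?_, ?_, ?_, ?_⟩
  · intro l hl
    exact (h (l + 1) (by omega) hl).tau
  · intro l i j h1 hL hij hj
    exact (h l h1 hL).injT i j hij hj
  · intro l l' i j h1 hl hL hi hj heq
    have h2 : (f l').T j ∈ (f l).V := endOf_mem h hl hL hj
    refine (h l h1 (by omega)).notV i hi ?_
    have h3 : (f l).T i = (f l').T j := heq
    rw [h3]
    exact h2
  · intro l h1 hL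
    exact (h l h1 hL).acc
  · intro l h1 hL i j hij hj
    exact (h l h1 hL).pair i j hij hj
  · intro l l' h1 hl hL i j hi hj
    exact (h l h1 (by omega)).row i hi _ (endOf_mem h hl hL hj)
  · intro l' l h1 hl hL
    exact (h l (by omega) hL).serv l' h1 hl
  · intro l0 l l' h1 hl hl' hL r y hr hy
    rcases (h l (by omega) (by omega)).ord l0 h1 hl r y hr hy with h2 | h2
    · exact Or.inl fun i j hi hj => h2 i hi _ (endOf_mem h hl' hL hj)
    · exact Or.inr fun i j hi hj => h2 i hi _ (endOf_mem h hl' hL hj)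
  · intro i j k t t' hi hj hk hit hjt hkt htL hit' hjt' hkt' htL'
    have h2 := (h (max i (max j k)) (by omega) (by omega)).hom i j k hi (by omega) hj (by omega)
      hk (by omega) ((f t).T 0) (endOf_mem h (by omega) htL hm) ((f t').T 0)
      (endOf_mem h (by omega) htL' hm)
    exact h2
  · intro l t t' h1 hlt htL hlt' htL'
    exact (h l h1 (by omega)).sign _ (endOf_mem h hlt htL hm) _ (endOf_mem h hlt' htL' hm)

end Pool.Agent.Lib.MP_293cc0_an.R
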