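import Pool.Agent.Lib.MP_293cc0_an.R.SpecC

/-!
# MP_293cc0_an, the reduction: extension of a partial sequence by one point
-/

set_option autoImplicit false

namespace Pool.Agent.Lib.MP_293cc0_an.R

open Finset
open scoped Classical

/-- The most popular maximiser. -/
private theorem ext_pop {X : Type} (Q : Finset ℕ) (hQ : Q.Nonempty) (μ : ℕ) (hc : Q.card ≤ 2 ^ μ)
    (D : ℕ → X → ℝ) (W : Finset X) :
    ∃ r0 ∈ Q, ∃ W2 : Finset X, Cost μ W2 W ∧ ∀ w ∈ W2, ∀ r ∈ Q, D r w ≤ D r0 w := by
  have h1 : ∀ w : X, ∃ r0 ∈ Q, ∀ r ∈ Q, D r w ≤ D r0 w := fun w =>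
    Finset.exists_max_image Q (fun r => D r w) hQ
  choose f hfQ hf using h1
  obtain ⟨r0, hr0, hmax⟩ := Finset.exists_max_image Q
    (fun r => (W.filter (fun w => f w = r)).card) hQ
  refine ⟨r0, hr0, W.filter (fun w => f w = r0), ⟨Finset.filter_subset _ _, ?_⟩, ?_⟩
  · calc W.card = ∑ r ∈ Q, (W.filter (fun w => f w = r)).card :=
        Finset.card_eq_sum_card_fiberwise fun w _ => hfQ w
      _ ≤ Q.card • (W.filter (fun w => f w = r0)).card := Finset.sum_le_card_nsmul _ _ _ hmax
      _ ≤ 2 ^ μ * (W.filter (fun w => f w = r0)).card := by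
        rw [smul_eq_mul]
        exact Nat.mul_le_mul_right _ hc
  · intro w hw r hr
    rw [← (Finset.mem_filter.1 hw).2]
    exact hf w r hr

/-- All the previous cliques, one after the other. -/
private theorem ext_all {X : Type} (m μ n : ℕ) (hn : n < m) (hm : m ≤ 2 ^ μ) (u : ℕ → ℕ → ℕ)
    (D : ℕ → ℕ → X → ℝ) (W : Finset X) (L : ℕ) :
    ∃ (W2 : Finset X) (v : ℕ → ℕ), Cost (L * μ) W2 W ∧ ∀ l', l' < L →
      v l' < m ∧ (∀ q, q < n → v l' ≠ u l' q) ∧
      ∀ w ∈ W2, ∀ r, r < m → (∀ q, q < n → r ≠ u l' q) → D l' r w ≤ D l' (v l') w := by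
  induction L with
  | zero => exact ⟨W, fun _ => 0, by rw [Nat.zero_mul]; exact Cost.refl W, by intro l' h; omega⟩
  | succ L ih =>
    obtain ⟨W2, v, hW2, hv⟩ := ih
    set Q := (Finset.range m).filter (fun r => ∀ q, q < n → r ≠ u L q) with hQ
    have hQne : Q.Nonempty := by
      rw [Finset.nonempty_iff_ne_empty]
      intro h
      have h1 : Finset.range m ⊆ (Finset.range n).image (u L) := by
        intro r hr
        by_contra h2
        have h3 : r ∈ Q := by
          rw [hQ, Finset.mem_filter]
          refine ⟨hr, fun q hq he => h2 ?_⟩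
          rw [Finset.mem_image]
          exact ⟨q, Finset.mem_range.2 hq, he.symm⟩
        rw [h] at h3
        exact Finset.notMem_empty _ h3
      have h2 := (Finset.card_le_card h1).trans Finset.card_image_le
      rw [Finset.card_range, Finset.card_range] at h2
      omega
    have hQc : Q.card ≤ 2 ^ μ := by
      refine le_trans ?_ hm
      refine (Finset.card_filter_le _ _).trans ?_
      rw [Finset.card_range]
    obtain ⟨r0, hr0, W3, hW3, hmax⟩ := ext_pop Q hQne μ hQc (D L) W2
    rw [hQ, Finset.mem_filter, Finset.mem_range] at hr0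
    refine ⟨W3, fun l' => if l' = L then r0 else v l', ?_, fun l' hl' => ?_⟩
    · rw [Nat.succ_mul]
      exact hW2.trans hW3
    · by_cases h : l' = L
      · subst h
        simp only [if_true]
        refine ⟨hr0.1, hr0.2, fun w hw r hr hq => hmax w hw r ?_⟩
        rw [hQ, Finset.mem_filter, Finset.mem_range]
        exact ⟨hr, hq⟩
      · simp only [if_neg h]
        obtain ⟨a, b, c⟩ := hv l' (by omega)
        exact ⟨a, b, fun w hw => c w (hW3.1 hw)⟩

theorem ext : ExtStmt := by
  intro X _ E m μ P τ θ l T' e k σ n T u W V W1 V1 t h hn hm ht hW1 hV1 hs hc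
  obtain ⟨W2, v, hW2, hv⟩ := ext_all m μ n hn hm u
    (fun l' r w => dist (T' l' r) t - dist (T' l' r) w) W1 l
  have hTn : Function.update T n t n = t := Function.update_self _ _ _
  have hTi : ∀ i, i < n → Function.update T n t i = T i := fun i hi =>
    Function.update_of_ne (by omega) _ _
  have hun : ∀ l', Function.update (u l') n (v l') n = v l' := fun l' =>
    Function.update_self _ _ _
  have hui : ∀ l' i, i < n → Function.update (u l') n (v l') i = u l' i := fun l' i hi =>
    Function.update_of_ne (by omega) _ _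
  refine ⟨W2, fun l' => Function.update (u l') n (v l'), hW2, ?_⟩
  constructor
  · intro i j hij hj
    rcases Nat.lt_succ_iff_lt_or_eq.1 hj with hj | rfl
    · rw [hTi i (by omega), hTi j hj]
      exact h.inj i j hij hj
    · rw [hTi i hij, hTn]
      rintro rfl
      exact h.notW i hij ht
  · intro i hi
    rcases Nat.lt_succ_iff_lt_or_eq.1 hi with hi | rfl
    · rw [hTi i hi]
      exact fun hm => h.notW i hi (hW1 (hW2.1 hm))
    · rw [hTn]
      exact fun hm => (hs t (hW2.1 hm)).1 rfl
  · intro i hi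
    rcases Nat.lt_succ_iff_lt_or_eq.1 hi with hi | rfl
    · rw [hTi i hi]
      exact fun hm => h.notV i hi (hV1 hm)
    · rw [hTn]
      exact fun hm => (hc t hm).1 rfl
  · intro i j hij hj
    rcases Nat.lt_succ_iff_lt_or_eq.1 hj with hj | rfl
    · rw [hTi i (by omega), hTi j hj]
      exact h.side i j hij hj
    · rw [hTi i hij, hTn]
      exact h.sideW i hij t ht
  · intro i hi w hw
    rcases Nat.lt_succ_iff_lt_or_eq.1 hi with hi | rfl
    · rw [hTi i hi]
      exact h.sideW i hi w (hW1 (hW2.1 hw))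
    · rw [hTn]
      exact (hs w (hW2.1 hw)).2
  · intro i hi x hx
    rcases Nat.lt_succ_iff_lt_or_eq.1 hi with hi | rfl
    · rw [hTi i hi]
      exact h.cl i hi x (hV1 hx)
    · rw [hTn]
      exact (hc x hx).2
  · intro l' h1 h2 i hi
    rcases Nat.lt_succ_iff_lt_or_eq.1 hi with hi | rfl
    · simp only [hui l' i hi]
      exact h.ult l' h1 h2 i hi
    · simp only [hun l']
      exact (hv l' h2).1
  · intro l' h1 h2 i j hij hj
    rcases Nat.lt_succ_iff_lt_or_eq.1 hj with hj | rfl
    · simp only [hui l' i (by omega), hui l' j hj]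
      exact h.uinj l' h1 h2 i j hij hj
    · simp only [hui l' i hij, hun l']
      exact fun he => (hv l' h2).2.1 i hij he.symm
  · intro l' h1 h2 i j hij hj r hr hq
    have hi : i < n := by omega
    have hq' : ∀ q, q < i → r ≠ u l' q := fun q hqi => by
      have h3 := hq q hqi
      simp only [hui l' q (by omega)] at h3
      exact h3
    simp only [hui l' i hi]
    rcases Nat.lt_succ_iff_lt_or_eq.1 hj with hj | rfl
    · rw [hTi i hi, hTi j hj]
      exact h.serv l' h1 h2 i j hij hj r hr hq'
    · rw [hTi i hi, hTn]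
      exact h.servW l' h1 h2 i hi t ht r hr hq'
  · intro l' h1 h2 i hi w hw r hr hq
    have hq' : ∀ q, q < i → r ≠ u l' q := fun q hqi => by
      have h3 := hq q hqi
      simp only [hui l' q (by omega)] at h3
      exact h3
    rcases Nat.lt_succ_iff_lt_or_eq.1 hi with hi | rfl
    · simp only [hui l' i hi]
      rw [hTi i hi]
      exact h.servW l' h1 h2 i hi w (hW1 (hW2.1 hw)) r hr hq'
    · simp only [hun l']
      rw [hTn]
      have h3 := (hv l' h2).2.2 w hw r hr hq'
      linarith

end Pool.Agent.Lib.MP_293cc0_an.R
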