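import Pool.Agent.Lib.MP_293cc0_an.R.Half

/-!
# MP_293cc0_an, reduction: the four-cell lemma

`L` is a low clique with `12 b` points, `V a` (`a = 0, 1, 2`) are low cliques with `7 b` points in three other cells such
that `6 b` roots of `L` are served inside `V a`; for two cells the order of the roots of `L` is constant. Savings `b`.
-/

set_option autoImplicit false

namespace Pool.Agent.Lib.MP_293cc0_an.R

open Finset

variable {X : Type} [MetricSpace X]

theorem exists_enum {α : Type*} (S : Finset α) (k : ℕ) (hk : 1 ≤ k) (h : k ≤ S.card) :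
    ∃ f : ℕ → α, (∀ i, i < k → f i ∈ S) ∧ ∀ i j, i < k → j < k → f i = f j → i = j := by
  classical
  obtain ⟨T, hT, hc⟩ := Finset.exists_subset_card_eq h
  let e := T.equivFinOfCardEq hc
  refine ⟨fun i => if h : i < k then (e.symm ⟨i, h⟩ : α) else e.symm ⟨0, hk⟩, ?_, ?_⟩
  · intro i hi
    simp only [dif_pos hi]
    exact hT (e.symm ⟨i, hi⟩).2
  · intro i j hi hj hij
    simp only [dif_pos hi, dif_pos hj] at hij
    have h1 := e.symm.injective (Subtype.ext hij)
    simpa using h1

/-- A total preorder has a lower set of every size. -/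
theorem exists_lower {α : Type*} [DecidableEq α] (L : Finset α) (Ab : α → α → Prop)
    (htot : ∀ x ∈ L, ∀ y ∈ L, Ab x y ∨ Ab y x)
    (htr : ∀ x ∈ L, ∀ y ∈ L, ∀ w ∈ L, Ab x y → Ab y w → Ab x w) (k : ℕ) (hk : k ≤ L.card) :
    ∃ H : Finset α, H ⊆ L ∧ H.card = k ∧ ∀ x ∈ H, ∀ y ∈ L, y ∉ H → Ab y x := by
  classical
  induction k with
  | zero => exact ⟨∅, Finset.empty_subset _, rfl, by simp⟩
  | succ k ih =>
    obtain ⟨H, hHL, hHc, hH⟩ := ih (by omega)
    have hne : (L \ H).Nonempty := by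
      rw [← Finset.card_pos, Finset.card_sdiff_of_subset hHL]
      omega
    obtain ⟨x₀, hx₀, hmin⟩ := Finset.exists_min_image (L \ H)
      (fun y => (L.filter (fun w => Ab y w)).card) hne
    rw [Finset.mem_sdiff] at hx₀
    refine ⟨insert x₀ H, ?_, ?_, ?_⟩
    · intro x hx
      rcases Finset.mem_insert.1 hx with rfl | hx
      · exact hx₀.1
      · exact hHL hx
    · rw [Finset.card_insert_of_notMem hx₀.2, hHc]
    · intro x hx y hy hyH
      have hy1 : y ∉ H := fun h => hyH (Finset.mem_insert_of_mem h)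
      rcases Finset.mem_insert.1 hx with rfl | hx
      · rcases htot y hy x hx₀.1 with h1 | h1
        · exact h1
        · -- `Ab x y`, and the counts give equality
          have h2 := hmin y (Finset.mem_sdiff.2 ⟨hy, hy1⟩)
          have h3 : L.filter (fun w => Ab y w) ⊆ L.filter (fun w => Ab x w) := by
            intro w hw
            rw [Finset.mem_filter] at hw ⊢
            exact ⟨hw.1, htr x hx₀.1 y hy w hw.1 h1 hw.2⟩
          have h4 := Finset.eq_of_subset_of_card_le h3 h2
          have h5 : x ∈ L.filter (fun w => Ab x w) := by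
            rw [Finset.mem_filter]
            refine ⟨hx₀.1, ?_⟩
            rcases htot x hx₀.1 x hx₀.1 with h | h <;> exact h
          rw [← h4, Finset.mem_filter] at h5
          exact h5.2
      · exact hH x hx y hy hy1

/-- **Four-cell lemma.** -/
theorem four_cell (b : ℕ) (hb : 1 ≤ b) (L : Finset X) (hL : L.card = 12 * b)
    (V u : Fin 3 → ℕ → X)
    (hV : ∀ a i j, i < 7 * b → j < 7 * b → V a i = V a j → i = j)
    (hVL : ∀ a i, i < 7 * b → V a i ∉ L)
    (hVV : ∀ a c, a ≠ c → ∀ i j, i < 7 * b → j < 7 * b → V a i ≠ V c j)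
    (hu : ∀ a k, k < 6 * b → u a k ∈ L)
    (hui : ∀ a i j, i < 6 * b → j < 6 * b → u a i = u a j → i = j)
    (hS : ∀ a k t, k < 6 * b → k < t → t < 7 * b → ∀ l ∈ L, (∀ j, j < k → l ≠ u a j) →
      dist l (V a k) + dist (u a k) (V a t) ≤ dist (u a k) (V a k) + dist l (V a t))
    (hO : ∀ a c, a ≠ c → ∀ r ∈ L, ∀ y ∈ L,
      (∀ i, i < 7 * b → ∀ j, j < 7 * b →
        dist y (V a i) + dist r (V c j) ≤ dist r (V a i) + dist y (V c j)) ∨
      (∀ i, i < 7 * b → ∀ j, j < 7 * b →
        dist r (V a i) + dist y (V c j) ≤ dist y (V a i) + dist r (V c j)))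
    (hF : ∀ a c, a ≠ c → ∀ t k i, t < 7 * b → k < 7 * b → t ≠ k → i < 7 * b → ∀ r ∈ L,
      dist (V a t) (V a k) + dist r (V c i) ≤ dist r (V a k) + dist (V a t) (V c i))
    (hH1 : ∀ a c, a ≠ c → ∀ x ∈ L, ∀ l ∈ L, x ≠ l → ∀ k i, k < 7 * b → i < 7 * b →
      dist x l + dist (V a k) (V c i) ≤ dist x (V c i) + dist (V a k) l)
    (hH2 : ∀ c, ∀ x ∈ L, ∀ l ∈ L, x ≠ l → ∀ j i, j < 7 * b → i < 7 * b → j ≠ i →
      dist x l + dist (V c j) (V c i) ≤ dist x (V c i) + dist (V c j) l) : Sav X b := by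
  classical
  -- the order of the roots
  obtain ⟨Ab, hAb⟩ : ∃ Ab : Fin 3 → Fin 3 → X → X → Prop, ∀ a c r y, Ab a c r y ↔
      ∀ i, i < 7 * b → ∀ j, j < 7 * b →
        dist y (V a i) + dist r (V c j) ≤ dist r (V a i) + dist y (V c j) :=
    ⟨fun a c r y => ∀ i, i < 7 * b → ∀ j, j < 7 * b →
        dist y (V a i) + dist r (V c j) ≤ dist r (V a i) + dist y (V c j), fun _ _ _ _ => Iff.rfl⟩
  have hrev : ∀ a c r y, Ab a c r y → Ab c a y r := by
    intro a c r y h
    rw [hAb] at h ⊢
    intro i hi j hj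
    have := h j hj i hi
    linarith
  have htot : ∀ a c, a ≠ c → ∀ x ∈ L, ∀ y ∈ L, Ab a c x y ∨ Ab a c y x := by
    intro a c hac x hx y hy
    rw [hAb, hAb]
    exact hO a c hac x hx y hy
  have htr : ∀ a c, ∀ x ∈ L, ∀ y ∈ L, ∀ w ∈ L, Ab a c x y → Ab a c y w → Ab a c x w := by
    intro a c x _ y _ w _ h1 h2
    rw [hAb] at h1 h2 ⊢
    intro i hi j hj
    have h3 := h1 i hi j hj
    have h4 := h2 i hi j hj
    linarith
  -- the served roots
  obtain ⟨U, hU⟩ : ∃ U : Fin 3 → Finset X, ∀ a, U a = (Finset.range (6 * b)).image (u a) :=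
    ⟨fun a => (Finset.range (6 * b)).image (u a), fun _ => rfl⟩
  have hUL : ∀ a, U a ⊆ L := by
    intro a x hx
    rw [hU] at hx
    obtain ⟨k, hk, rfl⟩ := Finset.mem_image.1 hx
    exact hu a k (Finset.mem_range.1 hk)
  have hUc : ∀ a, (U a).card = 6 * b := by
    intro a
    rw [hU, Finset.card_image_of_injOn, Finset.card_range]
    intro i hi j hj hij
    rw [Finset.coe_range, Set.mem_Iio] at hi hj
    exact hui a i j hi hj hij
  -- the good pair of cells
  have claim : ∃ a c, a ≠ c ∧ ∃ R Y : Finset X, R ⊆ U a ∧ Y ⊆ L \ U a ∧ R.card = b ∧ Y.card = b ∧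
      ∀ r ∈ R, ∀ y ∈ Y, Ab a c r y := by
    by_contra hcon
    -- for a lower half `H` of `(a, c)` few elements of `U a` are above
    have few : ∀ a c, a ≠ c → ∀ H : Finset X, H ⊆ L → H.card = 6 * b →
        (∀ x ∈ H, ∀ y ∈ L, y ∉ H → Ab a c y x) → (U a \ H).card ≤ b - 1 := by
      intro a c hac H hHL hHc hH
      by_contra h1
      have h2 : b ≤ (U a \ H).card := by omega
      have h3 : (H \ U a).card = (U a \ H).card := by
        have e1 := Finset.card_sdiff_add_card_inter (U a) H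
        have e2 := Finset.card_sdiff_add_card_inter H (U a)
        rw [Finset.inter_comm] at e2
        rw [hUc] at e1
        rw [hHc] at e2
        omega
      obtain ⟨R, hR, hRc⟩ := Finset.exists_subset_card_eq h2
      obtain ⟨Y, hY, hYc⟩ := Finset.exists_subset_card_eq (show b ≤ (H \ U a).card by omega)
      refine hcon ⟨a, c, hac, R, Y, fun x hx => (Finset.mem_sdiff.1 (hR hx)).1, ?_, hRc, hYc, ?_⟩
      · intro y hy
        have := Finset.mem_sdiff.1 (hY hy)
        exact Finset.mem_sdiff.2 ⟨hHL this.1, this.2⟩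
      · intro r hr y hy
        have h4 := Finset.mem_sdiff.1 (hR hr)
        have h5 := Finset.mem_sdiff.1 (hY hy)
        exact hH y h5.1 r (hUL a h4.1) h4.2
    have inter : ∀ a c, a ≠ c → (U a ∩ U c).card ≤ 2 * (b - 1) := by
      intro a c hac
      obtain ⟨H, hHL, hHc, hH⟩ := exists_lower L (Ab a c) (htot a c hac) (htr a c) (6 * b)
        (by omega)
      have h1 := few a c hac H hHL hHc hH
      have h2 := few c a (Ne.symm hac) (L \ H) Finset.sdiff_subset
        (by rw [Finset.card_sdiff_of_subset hHL]; omega)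
        (by
          intro x hx y hy hyH
          have hyH' : y ∈ H := by
            by_contra h
            exact hyH (Finset.mem_sdiff.2 ⟨hy, h⟩)
          rw [Finset.mem_sdiff] at hx
          exact hrev a c x y (hH y hyH' x hx.1 hx.2))
      have h3 : U a ∩ U c ⊆ (U a \ H) ∪ (U c \ (L \ H)) := by
        intro x hx
        rw [Finset.mem_inter] at hx
        by_cases hxH : x ∈ H
        · refine Finset.mem_union_right _ (Finset.mem_sdiff.2 ⟨hx.2, ?_⟩)
          rw [Finset.mem_sdiff]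
          exact fun h => h.2 hxH
        · exact Finset.mem_union_left _ (Finset.mem_sdiff.2 ⟨hx.1, hxH⟩)
      have h4 := Finset.card_le_card h3
      have h5 := Finset.card_union_le (U a \ H) (U c \ (L \ H))
      omega
    have i01 := inter 0 1 (by decide)
    have i02 := inter 0 2 (by decide)
    have i12 := inter 1 2 (by decide)
    have e1 := Finset.card_union_add_card_inter (U 0) (U 1)
    have e2 := Finset.card_union_add_card_inter (U 0 ∪ U 1) (U 2)
    have e3 : ((U 0 ∪ U 1) ∩ U 2).card ≤ (U 0 ∩ U 2).card + (U 1 ∩ U 2).card := by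
      rw [Finset.union_inter_distrib_right]
      exact Finset.card_union_le _ _
    have e4 : ((U 0 ∪ U 1) ∪ U 2).card ≤ L.card :=
      Finset.card_le_card (Finset.union_subset (Finset.union_subset (hUL 0) (hUL 1)) (hUL 2))
    rw [hUc, hUc] at e1
    rw [hUc] at e2
    omega
  obtain ⟨a, c, hac, R, Y, hR, hY, hRc, hYc, hRY⟩ := claim
  -- enumerations
  obtain ⟨y, hyY, hyi⟩ := exists_enum Y b hb (by omega)
  obtain ⟨KR, hKR⟩ : ∃ KR : Finset ℕ, KR = (Finset.range (6 * b)).filter (fun k => u a k ∈ R) :=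
    ⟨_, rfl⟩
  have hKc : KR.card = b := by
    have h1 : KR.image (u a) = R := by
      apply Finset.Subset.antisymm
      · intro x hx
        obtain ⟨k, hk, rfl⟩ := Finset.mem_image.1 hx
        rw [hKR, Finset.mem_filter] at hk
        exact hk.2
      · intro x hx
        have h2 := hR hx
        rw [hU] at h2
        obtain ⟨k, hk, rfl⟩ := Finset.mem_image.1 h2
        exact Finset.mem_image_of_mem _ (by rw [hKR, Finset.mem_filter]; exact ⟨hk, hx⟩)
    rw [← hRc, ← h1, Finset.card_image_of_injOn]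
    intro i hi j hj hij
    rw [Finset.mem_coe, hKR, Finset.mem_filter, Finset.mem_range] at hi hj
    exact hui a i j hi.1 hj.1 hij
  have hKsub : KR ⊆ Finset.range (7 * b) := by
    intro k hk
    rw [hKR, Finset.mem_filter, Finset.mem_range] at hk
    exact Finset.mem_range.2 (by omega)
  obtain ⟨e1, he1, he1i⟩ := exists_enum KR b hb (by omega)
  obtain ⟨e2, he2, he2i⟩ := exists_enum (Finset.range (7 * b) \ KR) (6 * b) (by omega)
    (by rw [Finset.card_sdiff_of_subset hKsub, Finset.card_range, hKc]; omega)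
  obtain ⟨σ, hσ⟩ : ∃ σ : ℕ → ℕ, ∀ k, σ k = if k < 6 * b then e2 k else e1 (k - 6 * b) :=
    ⟨fun k => if k < 6 * b then e2 k else e1 (k - 6 * b), fun _ => rfl⟩
  obtain ⟨l, hl⟩ : ∃ l : ℕ → X, ∀ i, l i = if i < 6 * b then u a i else y (i - 6 * b) :=
    ⟨fun i => if i < 6 * b then u a i else y (i - 6 * b), fun _ => rfl⟩
  have l1 : ∀ i, i < 6 * b → l i = u a i := fun i hi => by rw [hl, if_pos hi]
  have l2 : ∀ i, 6 * b ≤ i → l i = y (i - 6 * b) := fun i hi => by rw [hl, if_neg (by omega)]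
  have hlL : ∀ i, i < 7 * b → l i ∈ L := by
    intro i hi
    by_cases h : i < 6 * b
    · rw [l1 i h]; exact hu a i h
    · rw [l2 i (by omega)]
      exact (Finset.mem_sdiff.1 (hY (hyY _ (by omega)))).1
  have hlY : ∀ i, 6 * b ≤ i → i < 7 * b → l i ∈ Y ∧ l i ∉ U a := by
    intro i h1 h2
    rw [l2 i h1]
    exact ⟨hyY _ (by omega), (Finset.mem_sdiff.1 (hY (hyY _ (by omega)))).2⟩
  have huU : ∀ k, k < 6 * b → u a k ∈ U a := by
    intro k hk
    rw [hU]
    exact Finset.mem_image_of_mem _ (Finset.mem_range.2 hk)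
  have hli : ∀ i j, i < 7 * b → j < 7 * b → l i = l j → i = j := by
    intro i j hi hj hij
    by_cases h1 : i < 6 * b
    · by_cases h2 : j < 6 * b
      · rw [l1 i h1, l1 j h2] at hij
        exact hui a i j h1 h2 hij
      · exfalso
        apply (hlY j (by omega) hj).2
        rw [← hij, l1 i h1]
        exact huU i h1
    · by_cases h2 : j < 6 * b
      · exfalso
        apply (hlY i (by omega) hi).2
        rw [hij, l1 j h2]
        exact huU j h2
      · rw [l2 i (by omega), l2 j (by omega)] at hij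
        have := hyi _ _ (by omega) (by omega) hij
        omega
  have hσ1 : ∀ k, k < 6 * b → σ k < 7 * b ∧ σ k ∉ KR := by
    intro k hk
    rw [hσ, if_pos hk]
    have := Finset.mem_sdiff.1 (he2 k hk)
    exact ⟨Finset.mem_range.1 this.1, this.2⟩
  have hσ2 : ∀ k, 6 * b ≤ k → k < 7 * b → σ k ∈ KR := by
    intro k h1 h2
    rw [hσ, if_neg (by omega)]
    exact he1 _ (by omega)
  refine half_service b (6 * b) (7 * b) hb (by ring) l (V a) (V c) σ ?_ ?_ hli (hV a) ?_ ?_ ?_ ?_
    ?_ ?_ ?_ ?_ ?_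
  · intro k hk
    by_cases h : k < 6 * b
    · exact (hσ1 k h).1
    · exact Finset.mem_range.1 (hKsub (hσ2 k (by omega) hk))
  · intro k k' hk hk' hkk
    by_cases h : k < 6 * b
    · by_cases h' : k' < 6 * b
      · rw [hσ, hσ, if_pos h, if_pos h'] at hkk
        exact he2i k k' h h' hkk
      · exact absurd (hkk ▸ hσ2 k' (by omega) hk') (hσ1 k h).2
    · by_cases h' : k' < 6 * b
      · exact absurd (hkk ▸ hσ2 k (by omega) hk) (hσ1 k' h').2
      · rw [hσ, hσ, if_neg h, if_neg h'] at hkk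
        have := he1i _ _ (by omega) (by omega) hkk
        omega
  · intro i j hi hj hij
    exact hV c i j (by omega) (by omega) hij
  · intro i j hi hj hij
    exact hVL a j hj (hij ▸ hlL i hi)
  · intro i j hi hj hij
    exact hVL c j (by omega) (hij ▸ hlL i hi)
  · intro i j hi hj
    exact hVV a c hac i j hi (by omega)
  · -- (S)
    intro k t j hk hkt ht hkj hj
    rw [l1 k hk]
    refine hS a k t hk hkt ht (l j) (hlL j hj) ?_
    intro j' hj' hjj
    have h1 : l j = l j' := by rw [hjj, l1 j' (by omega)]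
    have := hli j j' hj (by omega) h1
    omega
  · -- (F)
    intro k t j i hk ht htk hj hi
    exact hF a c hac t k i ht hk htk (by omega) (l j) (hlL j hj)
  · -- (O)
    intro k j i h1 hk h2 hj hi
    have h3 := hσ2 k h1 hk
    rw [hKR, Finset.mem_filter, Finset.mem_range] at h3
    have h4 : l (σ k) ∈ R := by rw [l1 _ h3.1]; exact h3.2
    have h5 := hRY _ h4 _ (hlY j h2 hj).1
    rw [hAb] at h5
    exact h5 k hk i (by omega)
  · intro x w k i hx hw hxw hk hi
    exact hH1 a c hac (l x) (hlL x hx) (l w) (hlL w hw) (fun e => hxw (hli x w hx hw e)) k i hk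
      (by omega)
  · intro x w j i hx hw hxw hj hi hji
    exact hH2 c (l x) (hlL x hx) (l w) (hlL w hw) (fun e => hxw (hli x w hx hw e)) j i (by omega)
      (by omega) hji

/-- Four-cell lemma in a gauge `g` with cross values `|M| ≤ d` and low pairs `M < - 3 d`. -/
theorem four_cell_gauge (b : ℕ) (hb : 1 ≤ b) (g : X → ℝ) (d : ℝ) (L : Finset X)
    (hL : L.card = 12 * b) (V u : Fin 3 → ℕ → X)
    (hV : ∀ a i j, i < 7 * b → j < 7 * b → V a i = V a j → i = j)
    (hVL : ∀ a i, i < 7 * b → V a i ∉ L)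
    (hVV : ∀ a c, a ≠ c → ∀ i j, i < 7 * b → j < 7 * b → V a i ≠ V c j)
    (hu : ∀ a k, k < 6 * b → u a k ∈ L)
    (hui : ∀ a i j, i < 6 * b → j < 6 * b → u a i = u a j → i = j)
    (hS : ∀ a k t, k < 6 * b → k < t → t < 7 * b → ∀ l ∈ L, (∀ j, j < k → l ≠ u a j) →
      dist l (V a k) + dist (u a k) (V a t) ≤ dist (u a k) (V a k) + dist l (V a t))
    (hO : ∀ a c, a ≠ c → ∀ r ∈ L, ∀ y ∈ L,
      (∀ i, i < 7 * b → ∀ j, j < 7 * b →
        dist y (V a i) + dist r (V c j) ≤ dist r (V a i) + dist y (V c j)) ∨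
      (∀ i, i < 7 * b → ∀ j, j < 7 * b →
        dist r (V a i) + dist y (V c j) ≤ dist y (V a i) + dist r (V c j)))
    (lowL : ∀ x ∈ L, ∀ y ∈ L, x ≠ y → dist x y - g x - g y ≤ -(3 * d))
    (lowV : ∀ a i j, i < 7 * b → j < 7 * b → i ≠ j →
      dist (V a i) (V a j) - g (V a i) - g (V a j) ≤ -(3 * d))
    (crL : ∀ a i, i < 7 * b → ∀ x ∈ L, |dist x (V a i) - g x - g (V a i)| ≤ d)
    (crV : ∀ a c, a ≠ c → ∀ i j, i < 7 * b → j < 7 * b →
      |dist (V a i) (V c j) - g (V a i) - g (V c j)| ≤ d) : Sav X b := by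
  have hd : 0 ≤ d := by
    have := crV 0 1 (by decide) 0 0 (by omega) (by omega)
    exact le_trans (abs_nonneg _) this
  refine four_cell b hb L hL V u hV hVL hVV hu hui hS hO ?_ ?_ ?_
  · intro a c hac t k i ht hk htk hi r hr
    have h1 := lowV a t k ht hk htk
    have h2 := abs_le.1 (crL c i hi r hr)
    have h3 := abs_le.1 (crL a k hk r hr)
    have h4 := abs_le.1 (crV a c hac t i ht hi)
    linarith [h1, h2.1, h2.2, h3.1, h3.2, h4.1, h4.2]
  · intro a c hac x hx l hl hxl k i hk hi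
    have h1 := lowL x hx l hl hxl
    have h2 := abs_le.1 (crV a c hac k i hk hi)
    have h3 := abs_le.1 (crL c i hi x hx)
    have h4 := abs_le.1 (crL a k hk l hl)
    rw [dist_comm (V a k) l]
    linarith [h1, h2.1, h2.2, h3.1, h3.2, h4.1, h4.2]
  · intro c x hx l hl hxl j i hj hi hji
    have h1 := lowL x hx l hl hxl
    have h2 := lowV c j i hj hi hji
    have h3 := abs_le.1 (crL c i hi x hx)
    have h4 := abs_le.1 (crL c j hj l hl)
    rw [dist_comm (V c j) l]
    linarith [h1, h2, h3.1, h3.2, h4.1, h4.2]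

end Pool.Agent.Lib.MP_293cc0_an.R
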