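import Pool.Agent.Lib.MP_293cc0_an.R.Rank

/-!
# MP_293cc0_an, reduction: greedy choice of pairs

* `greedy_pairs`: if every bad pool contains a pair and a dense subpool which is in relation `R` to the pair, then some dense pool is
  good, or there are `n` pairs such that all later pairs are in relation `R` to the earlier ones;
* `exists_const_sub`: a colouring of `{0, …, N-1}` has a monochromatic subsequence of length `p`, if `card C * p ≤ N`.
-/

set_option autoImplicit false

namespace Pool.Agent.Lib.MP_293cc0_an.R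

open Finset
open scoped Classical

variable {X : Type}

theorem greedy_pairs [Nonempty X] {C : Type} [Nonempty C] (P : C → X → X → Prop) (R : C → X → X → X → Prop)
    (Good : Finset X → Prop) (c K : ℕ) (U : Finset X)
    (hstep : ∀ A, Cost K A U → ¬ Good A → ∃ a ∈ A, ∃ b ∈ A, ∃ γ : C, P γ a b ∧ ∃ A', Cost c A' A ∧
      ∀ w ∈ A', R γ a b w) :
    ∀ (n k : ℕ) (A : Finset X), Cost k A U → k + n * c ≤ K →
      (∃ A', Cost (n * c) A' A ∧ Good A') ∨ ∃ (a b : ℕ → X) (γ : ℕ → C),
        (∀ i, i < n → a i ∈ A ∧ b i ∈ A ∧ P (γ i) (a i) (b i)) ∧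
        ∀ i j, i < j → j < n → R (γ i) (a i) (b i) (a j) ∧ R (γ i) (a i) (b i) (b j) := by
  intro n
  induction n with
  | zero =>
    intro k A _ _
    right
    exact ⟨fun _ => Classical.arbitrary X, fun _ => Classical.arbitrary X,
      fun _ => Classical.arbitrary C, fun i hi => absurd hi (Nat.not_lt_zero _),
      fun i j _ hj => absurd hj (Nat.not_lt_zero _)⟩
  | succ n ih =>
    intro k A hA hk
    by_cases hG : Good A
    · left
      exact ⟨A, (Cost.refl A).mono (Nat.zero_le _), hG⟩
    · obtain ⟨a, ha, b, hb, γ, hP, A', hA', hR⟩ := hstep A (hA.mono (by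
        refine le_trans ?_ hk
        omega)) hG
      have e1 : (n + 1) * c = n * c + c := by ring
      rcases ih (k + c) A' (hA.trans hA') (by omega) with h | ⟨a', b', γ', h1, h2⟩
      · left
        obtain ⟨A'', h3, h4⟩ := h
        exact ⟨A'', (hA'.trans h3).mono (by omega), h4⟩
      · right
        refine ⟨fun i => Nat.casesOn i a a', fun i => Nat.casesOn i b b',
          fun i => Nat.casesOn i γ γ', ?_, ?_⟩
        · intro i hi
          cases i with
          | zero => exact ⟨ha, hb, hP⟩
          | succ i =>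
            obtain ⟨h3, h4, h5⟩ := h1 i (by omega)
            exact ⟨hA'.1 h3, hA'.1 h4, h5⟩
        · intro i j hij hj
          cases j with
          | zero => exact absurd hij (Nat.not_lt_zero _)
          | succ j =>
            cases i with
            | zero =>
              obtain ⟨h3, h4, _⟩ := h1 j (by omega)
              exact ⟨hR _ h3, hR _ h4⟩
            | succ i => exact h2 i j (by omega) (by omega)

theorem exists_const_sub {C : Type} [Fintype C] [Nonempty C] (N p : ℕ) (γ : ℕ → C)
    (h : Fintype.card C * p ≤ N) :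
    ∃ (c : C) (q : ℕ → ℕ), (∀ i j, i < j → j < p → q i < q j) ∧
      ∀ i, i < p → q i < N ∧ γ (q i) = c := by
  classical
  obtain ⟨c, hc⟩ := Fintype.exists_le_card_fiber_of_mul_le_card (f := fun i : Fin N => γ i.1)
    (n := p) (by rw [Fintype.card_fin]; exact h)
  obtain ⟨T, hT, hTc⟩ := Finset.exists_subset_card_eq hc
  refine ⟨c, fun i => if hi : i < p then (T.orderEmbOfFin hTc ⟨i, hi⟩).1 else 0, ?_, ?_⟩
  · intro i j hij hj
    simp only [dif_pos hj, dif_pos (lt_trans hij hj)]
    exact (T.orderEmbOfFin hTc).strictMono (show (⟨i, lt_trans hij hj⟩ : Fin p) < ⟨j, hj⟩ from hij)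
  · intro i hi
    simp only [dif_pos hi]
    refine ⟨(T.orderEmbOfFin hTc ⟨i, hi⟩).2, ?_⟩
    exact (Finset.mem_filter.1 (hT (Finset.orderEmbOfFin_mem T hTc ⟨i, hi⟩))).2

end Pool.Agent.Lib.MP_293cc0_an.R
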