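import Pool.Agent.Lib.MP_293cc0_an.R.Double

/-!
# MP_293cc0_an, reduction: half service

Roots `l 0 … l (n-1)`, a window `v 0 … v (n-1)`, later points `z 0 … z (n-2)`, `n = h + b`. The roots `l 0 … l (h-1)` are
served inside the window by `v 0 … v (h-1)`, the roots `l h … l (n-1)` are not; at the later points every root is served by
its own column, the last `b` columns serve roots which are above the unserved ones. Savings `b`.
-/

set_option autoImplicit false

namespace Pool.Agent.Lib.MP_293cc0_an.R

open Finset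

variable {X : Type} [MetricSpace X]

theorem half_service (b h n : ℕ) (hb : 1 ≤ b) (hn : n = h + b) (l v z : ℕ → X) (σ : ℕ → ℕ)
    (hσ : ∀ k, k < n → σ k < n) (hσi : ∀ k k', k < n → k' < n → σ k = σ k' → k = k')
    (hl : ∀ i j, i < n → j < n → l i = l j → i = j)
    (hv : ∀ i j, i < n → j < n → v i = v j → i = j)
    (hz : ∀ i j, i < n - 1 → j < n - 1 → z i = z j → i = j)
    (hlv : ∀ i j, i < n → j < n → l i ≠ v j)
    (hlz : ∀ i j, i < n → j < n - 1 → l i ≠ z j)
    (hvz : ∀ i j, i < n → j < n - 1 → v i ≠ z j)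
    (hS : ∀ k t j, k < h → k < t → t < n → k ≤ j → j < n →
      dist (l j) (v k) + dist (l k) (v t) ≤ dist (l k) (v k) + dist (l j) (v t))
    (hF : ∀ k t j i, k < n → t < n → t ≠ k → j < n → i < n - 1 →
      dist (v t) (v k) + dist (l j) (z i) ≤ dist (l j) (v k) + dist (v t) (z i))
    (hO : ∀ k j i, h ≤ k → k < n → h ≤ j → j < n → i < n - 1 →
      dist (l j) (v k) + dist (l (σ k)) (z i) ≤ dist (l (σ k)) (v k) + dist (l j) (z i))
    (hH1 : ∀ a c k i, a < n → c < n → a ≠ c → k < n → i < n - 1 →
      dist (l a) (l c) + dist (v k) (z i) ≤ dist (l a) (z i) + dist (v k) (l c))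
    (hH2 : ∀ a c j i, a < n → c < n → a ≠ c → j < n - 1 → i < n - 1 → j ≠ i →
      dist (l a) (l c) + dist (z j) (z i) ≤ dist (l a) (z i) + dist (z j) (l c)) : Sav X b := by
  classical
  have hn0 : 0 < n := by omega
  -- the functions `E k`
  have hE : ∀ k : Fin h, ∃ f : PF X, (∀ j, k.1 ≤ j → j < n → f.cov (l j) (v k.1)) ∧
      ∀ t, k.1 ≤ t → t < n → f.cov (l k.1) (v t) := by
    intro k
    have hk := k.2
    obtain ⟨f, hf1, hf2⟩ := double (u := l k.1) (v := v k.1) ((Finset.Ico k.1 n).image l)
      ((Finset.Ico k.1 n).image v)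
      (Finset.mem_image_of_mem _ (Finset.mem_Ico.2 ⟨le_rfl, by omega⟩))
      (Finset.mem_image_of_mem _ (Finset.mem_Ico.2 ⟨le_rfl, by omega⟩))
      (by
        rw [Finset.disjoint_left]
        intro x hx hx'
        obtain ⟨i, hi, rfl⟩ := Finset.mem_image.1 hx
        obtain ⟨j, hj, hij⟩ := Finset.mem_image.1 hx'
        exact hlv i j (Finset.mem_Ico.1 hi).2 (Finset.mem_Ico.1 hj).2 hij.symm)
      (by
        intro x hx y hy
        obtain ⟨j, hj, rfl⟩ := Finset.mem_image.1 hx
        obtain ⟨t, ht, rfl⟩ := Finset.mem_image.1 hy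
        rw [Finset.mem_Ico] at hj ht
        rcases Nat.eq_or_lt_of_le ht.1 with h1 | h1
        · rw [← h1]; linarith
        · exact hS k.1 t j hk h1 ht.2 hj.1 hj.2)
    exact ⟨f, fun j h1 h2 => hf1 _ (Finset.mem_image_of_mem _ (Finset.mem_Ico.2 ⟨h1, h2⟩)),
      fun t h1 h2 => hf2 _ (Finset.mem_image_of_mem _ (Finset.mem_Ico.2 ⟨h1, h2⟩))⟩
  -- the functions `f k`
  have hf : ∀ k : Fin n, ∃ f : PF X, (∀ t, t < n → t ≠ k.1 → f.cov (v t) (v k.1)) ∧
      (∀ i, i < n - 1 → f.cov (l (σ k.1)) (z i)) ∧
      (h ≤ k.1 → ∀ j, h ≤ j → j < n → f.cov (l j) (v k.1)) := by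
    intro k
    have hk := k.2
    obtain ⟨f, hf1, hf2⟩ := double (u := l (σ k.1)) (v := v k.1)
      (insert (l (σ k.1)) (((Finset.range n).erase k.1).image v ∪
        (if h ≤ k.1 then (Finset.Ico h n).image l else ∅)))
      (insert (v k.1) ((Finset.range (n - 1)).image z))
      (Finset.mem_insert_self _ _) (Finset.mem_insert_self _ _)
      (by
        rw [Finset.disjoint_left]
        intro x hx hx'
        rcases Finset.mem_insert.1 hx' with rfl | hx'
        · rcases Finset.mem_insert.1 hx with h1 | hx
          · exact hlv _ _ (hσ _ hk) hk h1.symm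
          · rcases Finset.mem_union.1 hx with hx | hx
            · obtain ⟨t, ht, h2⟩ := Finset.mem_image.1 hx
              rw [Finset.mem_erase, Finset.mem_range] at ht
              exact ht.1 (hv _ _ ht.2 hk h2)
            · by_cases hhk : h ≤ k.1
              · rw [if_pos hhk] at hx
                obtain ⟨j, hj, h2⟩ := Finset.mem_image.1 hx
                exact hlv _ _ (Finset.mem_Ico.1 hj).2 hk h2
              · rw [if_neg hhk] at hx
                exact absurd hx (Finset.notMem_empty _)
        · obtain ⟨i, hi, rfl⟩ := Finset.mem_image.1 hx'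
          rw [Finset.mem_range] at hi
          rcases Finset.mem_insert.1 hx with h1 | hx
          · exact hlz _ _ (hσ _ hk) hi h1.symm
          · rcases Finset.mem_union.1 hx with hx | hx
            · obtain ⟨t, ht, h2⟩ := Finset.mem_image.1 hx
              rw [Finset.mem_erase, Finset.mem_range] at ht
              exact hvz _ _ ht.2 hi h2
            · by_cases hhk : h ≤ k.1
              · rw [if_pos hhk] at hx
                obtain ⟨j, hj, h2⟩ := Finset.mem_image.1 hx
                exact hlz _ _ (Finset.mem_Ico.1 hj).2 hi h2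
              · rw [if_neg hhk] at hx
                exact absurd hx (Finset.notMem_empty _))
      (by
        intro x hx y hy
        rcases Finset.mem_insert.1 hy with rfl | hy
        · linarith
        · obtain ⟨i, hi, rfl⟩ := Finset.mem_image.1 hy
          rw [Finset.mem_range] at hi
          rcases Finset.mem_insert.1 hx with rfl | hx
          · linarith
          · rcases Finset.mem_union.1 hx with hx | hx
            · obtain ⟨t, ht, rfl⟩ := Finset.mem_image.1 hx
              rw [Finset.mem_erase, Finset.mem_range] at ht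
              exact hF k.1 t (σ k.1) i hk ht.2 ht.1 (hσ _ hk) hi
            · by_cases hhk : h ≤ k.1
              · rw [if_pos hhk] at hx
                obtain ⟨j, hj, rfl⟩ := Finset.mem_image.1 hx
                rw [Finset.mem_Ico] at hj
                exact hO k.1 j i hhk hk hj.1 hj.2 hi
              · rw [if_neg hhk] at hx
                exact absurd hx (Finset.notMem_empty _))
    refine ⟨f, ?_, ?_, ?_⟩
    · intro t ht htk
      exact hf1 _ (Finset.mem_insert_of_mem (Finset.mem_union_left _ (Finset.mem_image_of_mem _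
        (Finset.mem_erase.2 ⟨htk, Finset.mem_range.2 ht⟩))))
    · intro i hi
      exact hf2 _ (Finset.mem_insert_of_mem (Finset.mem_image_of_mem _ (Finset.mem_range.2 hi)))
    · intro hhk j h1 h2
      refine hf1 _ (Finset.mem_insert_of_mem (Finset.mem_union_right _ ?_))
      rw [if_pos hhk]
      exact Finset.mem_image_of_mem _ (Finset.mem_Ico.2 ⟨h1, h2⟩)
  -- the hosts
  have hG : ∀ i : Fin (n - 1), ∃ f : PF X, (∀ a, a ≤ i.1 → f.cov (l a) (l (i.1 + 1))) ∧
      (∀ k, k < n → f.cov (v k) (z i.1)) ∧ ∀ j, j < i.1 → f.cov (z j) (z i.1) := by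
    intro i
    have hi := i.2
    obtain ⟨f, hf1, hf2⟩ := host2 (l := l (i.1 + 1)) (z := z i.1)
      ((Finset.range (i.1 + 1)).image l)
      ((Finset.range n).image v ∪ (Finset.range i.1).image z)
      (hlz _ _ (by omega) hi)
      ⟨l 0, Finset.mem_image_of_mem _ (Finset.mem_range.2 (by omega))⟩
      ⟨v 0, Finset.mem_union_left _ (Finset.mem_image_of_mem _ (Finset.mem_range.2 hn0))⟩
      (by
        rw [Finset.disjoint_left]
        intro x hx hx'
        obtain ⟨a, ha, rfl⟩ := Finset.mem_image.1 hx
        rw [Finset.mem_range] at ha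
        rcases Finset.mem_union.1 hx' with hx' | hx'
        · obtain ⟨k, hk, h2⟩ := Finset.mem_image.1 hx'
          exact hlv _ _ (by omega) (Finset.mem_range.1 hk) h2.symm
        · obtain ⟨j, hj, h2⟩ := Finset.mem_image.1 hx'
          rw [Finset.mem_range] at hj
          exact hlz _ _ (by omega) (by omega) h2.symm)
      (by
        intro hx
        obtain ⟨a, ha, h2⟩ := Finset.mem_image.1 hx
        rw [Finset.mem_range] at ha
        have := hl _ _ (by omega) (by omega) h2
        omega)
      (by
        intro hx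
        obtain ⟨a, ha, h2⟩ := Finset.mem_image.1 hx
        rw [Finset.mem_range] at ha
        exact hlz _ _ (by omega) hi h2)
      (by
        intro hx
        rcases Finset.mem_union.1 hx with hx | hx
        · obtain ⟨k, hk, h2⟩ := Finset.mem_image.1 hx
          exact hlv _ _ (by omega) (Finset.mem_range.1 hk) h2.symm
        · obtain ⟨j, hj, h2⟩ := Finset.mem_image.1 hx
          rw [Finset.mem_range] at hj
          exact hlz _ _ (by omega) (by omega) h2.symm)
      (by
        intro hx
        rcases Finset.mem_union.1 hx with hx | hx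
        · obtain ⟨k, hk, h2⟩ := Finset.mem_image.1 hx
          exact hvz _ _ (Finset.mem_range.1 hk) hi h2
        · obtain ⟨j, hj, h2⟩ := Finset.mem_image.1 hx
          rw [Finset.mem_range] at hj
          have := hz _ _ (by omega) hi h2
          omega)
      (by
        intro x hx y hy
        obtain ⟨a, ha, rfl⟩ := Finset.mem_image.1 hx
        rw [Finset.mem_range] at ha
        rcases Finset.mem_union.1 hy with hy | hy
        · obtain ⟨k, hk, rfl⟩ := Finset.mem_image.1 hy
          exact hH1 a (i.1 + 1) k i.1 (by omega) (by omega) (by omega) (Finset.mem_range.1 hk) hi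
        · obtain ⟨j, hj, rfl⟩ := Finset.mem_image.1 hy
          rw [Finset.mem_range] at hj
          exact hH2 a (i.1 + 1) j i.1 (by omega) (by omega) (by omega) (by omega) hi (by omega))
    refine ⟨f, ?_, ?_, ?_⟩
    · intro a ha
      exact hf1 _ (Finset.mem_image_of_mem _ (Finset.mem_range.2 (by omega)))
    · intro k hk
      exact hf2 _ (Finset.mem_union_left _ (Finset.mem_image_of_mem _ (Finset.mem_range.2 hk)))
    · intro j hj
      exact hf2 _ (Finset.mem_union_right _ (Finset.mem_image_of_mem _ (Finset.mem_range.2 hj)))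
  choose E hE1 hE2 using hE
  choose f hf1 hf2 hf3 using hf
  choose G hG1 hG2 hG3 using hG
  -- `σ` is onto
  have hσs : ∀ j, j < n → ∃ k, k < n ∧ σ k = j := by
    intro j hj
    have h1 : (Finset.range n).image σ = Finset.range n := by
      apply Finset.eq_of_subset_of_card_le
      · intro x hx
        obtain ⟨k, hk, rfl⟩ := Finset.mem_image.1 hx
        exact Finset.mem_range.2 (hσ k (Finset.mem_range.1 hk))
      · rw [Finset.card_image_of_injOn]
        intro k hk k' hk' hkk
        rw [Finset.coe_range, Set.mem_Iio] at hk hk'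
        exact hσi k k' hk hk' hkk
    have h2 : j ∈ (Finset.range n).image σ := by rw [h1]; exact Finset.mem_range.2 hj
    obtain ⟨k, hk, h3⟩ := Finset.mem_image.1 h2
    exact ⟨k, Finset.mem_range.1 hk, h3⟩
  refine sav_of_pf_family (((Finset.range n).image l ∪ (Finset.range n).image v) ∪
    (Finset.range (n - 1)).image z) (ι := (Fin h ⊕ Fin n) ⊕ Fin (n - 1)) b ?_
    (Sum.elim (Sum.elim E f) G) ?_
  · rw [Finset.card_union_of_disjoint, Finset.card_union_of_disjoint, Finset.card_image_of_injOn,
      Finset.card_image_of_injOn, Finset.card_image_of_injOn]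
    · simp only [Finset.card_range, Fintype.card_sum, Fintype.card_fin]
      omega
    · intro i hi j hj hij
      rw [Finset.coe_range, Set.mem_Iio] at hi hj
      exact hz i j hi hj hij
    · intro i hi j hj hij
      rw [Finset.coe_range, Set.mem_Iio] at hi hj
      exact hv i j hi hj hij
    · intro i hi j hj hij
      rw [Finset.coe_range, Set.mem_Iio] at hi hj
      exact hl i j hi hj hij
    · rw [Finset.disjoint_left]
      intro x hx hx'
      obtain ⟨i, hi, rfl⟩ := Finset.mem_image.1 hx
      obtain ⟨j, hj, h2⟩ := Finset.mem_image.1 hx'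
      exact hlv _ _ (Finset.mem_range.1 hi) (Finset.mem_range.1 hj) h2.symm
    · rw [Finset.disjoint_left]
      intro x hx hx'
      obtain ⟨j, hj, h2⟩ := Finset.mem_image.1 hx'
      rcases Finset.mem_union.1 hx with hx | hx
      · obtain ⟨i, hi, rfl⟩ := Finset.mem_image.1 hx
        exact hlz _ _ (Finset.mem_range.1 hi) (Finset.mem_range.1 hj) h2.symm
      · obtain ⟨i, hi, rfl⟩ := Finset.mem_image.1 hx
        exact hvz _ _ (Finset.mem_range.1 hi) (Finset.mem_range.1 hj) h2.symm
  · -- the pairs
    have cll : ∀ a c, a < c → c < n → ∃ i, (Sum.elim (Sum.elim E f) G i).cov (l a) (l c) := by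
      intro a c hac hc
      have h1 : c - 1 < n - 1 := by omega
      refine ⟨Sum.inr ⟨c - 1, h1⟩, ?_⟩
      have h2 := hG1 ⟨c - 1, h1⟩ a (by show a ≤ c - 1; omega)
      have h3 : c - 1 + 1 = c := by omega
      simp only [h3] at h2
      exact h2
    have clv : ∀ j k, j < n → k < n → ∃ i, (Sum.elim (Sum.elim E f) G i).cov (l j) (v k) := by
      intro j k hj hk
      by_cases h1 : j < k ∧ j < h
      · exact ⟨Sum.inl (Sum.inl ⟨j, h1.2⟩), hE2 ⟨j, h1.2⟩ k h1.1.le hk⟩
      · by_cases h2 : k < h
        · exact ⟨Sum.inl (Sum.inl ⟨k, h2⟩), hE1 ⟨k, h2⟩ j (by show k ≤ j; omega) hj⟩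
        · exact ⟨Sum.inl (Sum.inr ⟨k, hk⟩), hf3 ⟨k, hk⟩ (by show h ≤ k; omega) j (by omega) hj⟩
    have cvv : ∀ t k, t < n → k < n → t ≠ k →
        ∃ i, (Sum.elim (Sum.elim E f) G i).cov (v t) (v k) := by
      intro t k ht hk htk
      exact ⟨Sum.inl (Sum.inr ⟨k, hk⟩), hf1 ⟨k, hk⟩ t ht htk⟩
    have clz : ∀ j i, j < n → i < n - 1 →
        ∃ i', (Sum.elim (Sum.elim E f) G i').cov (l j) (z i) := by
      intro j i hj hi
      obtain ⟨k, hk, rfl⟩ := hσs j hj
      exact ⟨Sum.inl (Sum.inr ⟨k, hk⟩), hf2 ⟨k, hk⟩ i hi⟩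
    have cvz : ∀ k i, k < n → i < n - 1 →
        ∃ i', (Sum.elim (Sum.elim E f) G i').cov (v k) (z i) := by
      intro k i hk hi
      exact ⟨Sum.inr ⟨i, hi⟩, hG2 ⟨i, hi⟩ k hk⟩
    have czz : ∀ j i, j < i → i < n - 1 →
        ∃ i', (Sum.elim (Sum.elim E f) G i').cov (z j) (z i) := by
      intro j i hji hi
      exact ⟨Sum.inr ⟨i, hi⟩, hG3 ⟨i, hi⟩ j hji⟩
    have sw : ∀ x y, (∃ i, (Sum.elim (Sum.elim E f) G i).cov x y) →
        ∃ i, (Sum.elim (Sum.elim E f) G i).cov y x := by
      rintro x y ⟨i, hi⟩
      exact ⟨i, PF.cov_symm hi⟩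
    intro x hx y hy hxy
    rcases Finset.mem_union.1 hx with hx | hx
    · rcases Finset.mem_union.1 hx with hx | hx
      · obtain ⟨i, hi, rfl⟩ := Finset.mem_image.1 hx
        rw [Finset.mem_range] at hi
        rcases Finset.mem_union.1 hy with hy | hy
        · rcases Finset.mem_union.1 hy with hy | hy
          · obtain ⟨j, hj, rfl⟩ := Finset.mem_image.1 hy
            rw [Finset.mem_range] at hj
            have hij : i ≠ j := fun e => hxy (by rw [e])
            rcases lt_or_gt_of_ne hij with h1 | h1
            · exact cll i j h1 hj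
            · exact sw _ _ (cll j i h1 hi)
          · obtain ⟨j, hj, rfl⟩ := Finset.mem_image.1 hy
            rw [Finset.mem_range] at hj
            exact clv i j hi hj
        · obtain ⟨j, hj, rfl⟩ := Finset.mem_image.1 hy
          rw [Finset.mem_range] at hj
          exact clz i j hi hj
      · obtain ⟨i, hi, rfl⟩ := Finset.mem_image.1 hx
        rw [Finset.mem_range] at hi
        rcases Finset.mem_union.1 hy with hy | hy
        · rcases Finset.mem_union.1 hy with hy | hy
          · obtain ⟨j, hj, rfl⟩ := Finset.mem_image.1 hy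
            rw [Finset.mem_range] at hj
            exact sw _ _ (clv j i hj hi)
          · obtain ⟨j, hj, rfl⟩ := Finset.mem_image.1 hy
            rw [Finset.mem_range] at hj
            exact cvv i j hi hj (fun e => hxy (by rw [e]))
        · obtain ⟨j, hj, rfl⟩ := Finset.mem_image.1 hy
          rw [Finset.mem_range] at hj
          exact cvz i j hi hj
    · obtain ⟨i, hi, rfl⟩ := Finset.mem_image.1 hx
      rw [Finset.mem_range] at hi
      rcases Finset.mem_union.1 hy with hy | hy
      · rcases Finset.mem_union.1 hy with hy | hy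
        · obtain ⟨j, hj, rfl⟩ := Finset.mem_image.1 hy
          rw [Finset.mem_range] at hj
          exact sw _ _ (clz j i hj hi)
        · obtain ⟨j, hj, rfl⟩ := Finset.mem_image.1 hy
          rw [Finset.mem_range] at hj
          exact sw _ _ (cvz j i hj hi)
      · obtain ⟨j, hj, rfl⟩ := Finset.mem_image.1 hy
        rw [Finset.mem_range] at hj
        have hij : i ≠ j := fun e => hxy (by rw [e])
        rcases lt_or_gt_of_ne hij with h1 | h1
        · exact czz i j h1 hj
        · exact sw _ _ (czz j i h1 hi)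

end Pool.Agent.Lib.MP_293cc0_an.R
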