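import Pool.Agent.Lib.MP_293cc0_an.R.Spec
import Pool.Agent.Lib.MP_293cc0_an.R.Serv

/-!
# MP_293cc0_an, the reduction (R): halving

* `halve_one`: one function becomes comparable on halves of two sets;
* `halve`: the same for a finite family of functions;
* `const_on`: a finite family of predicates is constant on a subset of small cost.
-/

set_option autoImplicit false

namespace Pool.Agent.Lib.MP_293cc0_an.R

open Finset
open scoped Classical

/-- One halving step. -/
theorem halve_one {X : Type} (D : X → ℝ) (W V : Finset X) :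
    ∃ W' V', Cost 1 W' W ∧ Cost 1 V' V ∧
      ((∀ w ∈ W', ∀ x ∈ V', D x ≤ D w) ∨ (∀ w ∈ W', ∀ x ∈ V', D w ≤ D x)) := by
  obtain ⟨W', hW, V', hV, h1, h2, h3⟩ := halving D W V
  exact ⟨W', V', ⟨hW, by rw [pow_one]; exact h1⟩, ⟨hV, by rw [pow_one]; exact h2⟩, h3.symm⟩

/-- Halving for a family of functions. -/
theorem halve {X τ : Type} (T : Finset τ) (D : τ → X → ℝ) (W V : Finset X) :
    ∃ W' V', Cost T.card W' W ∧ Cost T.card V' V ∧
      ∀ e ∈ T, (∀ w ∈ W', ∀ x ∈ V', D e x ≤ D e w) ∨ (∀ w ∈ W', ∀ x ∈ V', D e w ≤ D e x) := by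
  induction T using Finset.induction_on with
  | empty => exact ⟨W, V, by simpa using Cost.refl W, by simpa using Cost.refl V, by simp⟩
  | insert a T ha ih =>
    obtain ⟨W₁, V₁, hW₁, hV₁, h₁⟩ := ih
    obtain ⟨W₂, V₂, hW₂, hV₂, h₂⟩ := halve_one (D a) W₁ V₁
    refine ⟨W₂, V₂, ?_, ?_, ?_⟩
    · rw [Finset.card_insert_of_notMem ha]; exact hW₁.trans hW₂
    · rw [Finset.card_insert_of_notMem ha]; exact hV₁.trans hV₂
    · intro e he
      rcases Finset.mem_insert.1 he with rfl | he
      · exact h₂
      · rcases h₁ e he with h | h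
        · exact Or.inl fun w hw x hx => h w (hW₂.1 hw) x (hV₂.1 hx)
        · exact Or.inr fun w hw x hx => h w (hW₂.1 hw) x (hV₂.1 hx)

/-- A family of predicates is constant on a subset. -/
theorem const_on {X τ : Type} (T : Finset τ) (P : τ → X → Prop) (V : Finset X) :
    ∃ V', Cost T.card V' V ∧ ∀ e ∈ T, (∀ x ∈ V', P e x) ∨ (∀ x ∈ V', ¬ P e x) := by
  induction T using Finset.induction_on with
  | empty => exact ⟨V, by simpa using Cost.refl V, by simp⟩
  | insert a T ha ih =>
    obtain ⟨V₁, hV₁, h₁⟩ := ih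
    have hsum : (V₁.filter (fun x => P a x)).card + (V₁.filter (fun x => ¬ P a x)).card = V₁.card :=
      Finset.card_filter_add_card_filter_not _
    rw [Finset.card_insert_of_notMem ha]
    by_cases hc : V₁.card ≤ 2 ^ 1 * (V₁.filter (fun x => P a x)).card
    · refine ⟨_, hV₁.trans ⟨Finset.filter_subset _ _, hc⟩, ?_⟩
      intro e he
      rcases Finset.mem_insert.1 he with rfl | he
      · exact Or.inl fun x hx => (Finset.mem_filter.1 hx).2
      · rcases h₁ e he with h | h
        · exact Or.inl fun x hx => h x (Finset.mem_of_mem_filter x hx)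
        · exact Or.inr fun x hx => h x (Finset.mem_of_mem_filter x hx)
    · have hc' : V₁.card ≤ 2 ^ 1 * (V₁.filter (fun x => ¬ P a x)).card := by
        rw [pow_one] at hc ⊢; omega
      refine ⟨_, hV₁.trans ⟨Finset.filter_subset _ _, hc'⟩, ?_⟩
      intro e he
      rcases Finset.mem_insert.1 he with rfl | he
      · exact Or.inr fun x hx => (Finset.mem_filter.1 hx).2
      · rcases h₁ e he with h | h
        · exact Or.inl fun x hx => h x (Finset.mem_of_mem_filter x hx)
        · exact Or.inr fun x hx => h x (Finset.mem_of_mem_filter x hx)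

end Pool.Agent.Lib.MP_293cc0_an.R
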