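import Pool.Agent.Lib.MP_293cc0_an.R.SpecC
import Pool.Agent.Lib.MP_293cc0_an.R.Halve

/-!
# MP_293cc0_an, the reduction: halving and refinement for finite families
-/

set_option autoImplicit false

namespace Pool.Agent.Lib.MP_293cc0_an.R

open Finset
open scoped Classical

theorem half : HalfStmt := by
  intro X k D W V
  obtain ⟨W', V', h1, h2, h3⟩ := halve (Finset.univ : Finset (Fin k)) D W V
  rw [Finset.card_univ, Fintype.card_fin] at h1 h2
  exact ⟨W', V', h1, h2, fun i => h3 i (Finset.mem_univ i)⟩

theorem refine_ : RefStmt := by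
  intro X k R V
  obtain ⟨V', h1, h2⟩ := const_on (Finset.univ : Finset (Fin k)) R V
  rw [Finset.card_univ, Fintype.card_fin] at h1
  refine ⟨V', h1, fun i x hx x' hx' => ?_⟩
  rcases h2 i (Finset.mem_univ i) with h | h
  · exact ⟨fun _ => h x' hx', fun _ => h x hx⟩
  · exact ⟨fun h' => absurd h' (h x hx), fun h' => absurd h' (h x' hx')⟩

end Pool.Agent.Lib.MP_293cc0_an.R
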