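import Pool.Agent.Lib.MP_293cc0_an.R.SpecC

/-!
# MP_293cc0_an, the reduction: stages of sign `hi` give savings (section 7.4, (A), hi)
-/

set_option autoImplicit false

namespace Pool.Agent.Lib.MP_293cc0_an.R

open Finset
open scoped Classical

/-- The first `p` elements of a finite set of natural numbers. -/
private theorem hi_enum (B : Finset ℕ) (p : ℕ) (hB : p ≤ B.card) :
    ∃ ls : ℕ → ℕ, (∀ i, i < p → ls i ∈ B) ∧ ∀ i j, i < j → j < p → ls i < ls j := by
  refine ⟨fun i => if h : i < p then B.orderEmbOfCardLe hB ⟨i, h⟩ else 0, ?_, ?_⟩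
  · intro i hi
    simp only [hi, dif_pos]
    exact Finset.orderEmbOfCardLe_mem B hB ⟨i, hi⟩
  · intro i j hij hj
    have hi : i < p := hij.trans hj
    simp only [hi, hj, dif_pos]
    exact (B.orderEmbOfCardLe hB).strictMono (Fin.mk_lt_mk.2 hij)

theorem hi (hP : PairsStmt) : HiStmt := by
  intro X _ E m L p P τ T col acc sg c b B hE hm hB hprop
  have hpos : ∀ k, k ≤ L → 0 < τ k := by
    intro k
    induction k with
    | zero => exact fun _ => hE.tau0
    | succ k ih =>
      intro hk
      have h1 := ih (by omega)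
      have h2 := hE.tau k (by omega)
      linarith
  have hmono : ∀ k k', k ≤ k' → k' ≤ L → τ k ≤ τ k' := by
    intro k k' hkk'
    induction hkk' with
    | refl => exact fun _ => le_refl _
    | step _ ih =>
      intro hk
      have h1 := ih (by omega)
      have h2 := hE.tau _ (Nat.lt_of_succ_le hk)
      have h3 := hpos _ (Nat.le_of_succ_le hk)
      rw [Nat.succ_eq_add_one]
      linarith
  obtain ⟨ls, hls, hlt⟩ := hi_enum B p hB
  -- the pairs of one stage
  have hpair : ∀ i, i < p → 3 * τ b < MG (P c) (T (ls i) 0) (T (ls i) 1) := by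
    intro i hi
    obtain ⟨h1, h2, _, h4, h5⟩ := hprop _ (hls i hi)
    have h6 := hE.pair (ls i) (by omega) h2 0 1 (by omega) (by omega)
    rw [h4, h5] at h6
    rcases h6 with ⟨_, h7⟩ | ⟨h7, _⟩
    · have h8 := hmono b (ls i - 1) (by omega) (by omega)
      linarith
    · exact absurd h7 (by decide)
  -- the pairs of different stages
  have hrow' : ∀ i j, i < j → j < p → ∀ x y, x < 2 → y < 2 →
      |MG (P c) (T (ls i) x) (T (ls j) y)| ≤ τ b := by
    intro i j hij hj x y hx hy
    obtain ⟨h1, h2, h3, h4, h5⟩ := hprop _ (hls i (hij.trans hj))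
    have h6 := hE.row (ls i) (ls j) (by omega) (hlt i j hij hj) (hprop _ (hls j hj)).2.1 x y
      (by omega) (by omega)
    rw [h4] at h6
    exact h6.1.trans (hmono _ _ h3 (by omega))
  have hrow : ∀ i j, i ≠ j → i < p → j < p → ∀ x y, x < 2 → y < 2 →
      |MG (P c) (T (ls i) x) (T (ls j) y)| ≤ τ b := by
    intro i j hij hi hj x y hx hy
    rcases lt_or_gt_of_ne hij with h | h
    · exact hrow' i j h hj x y hx hy
    · rw [MG.comm]
      exact hrow' j i h hi y x hy hx
  have hne : ∀ i j, i < j → j < p → ∀ x y, x < 2 → y < 2 → T (ls i) x ≠ T (ls j) y := by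
    intro i j hij hj x y hx hy
    have h1 := (hprop _ (hls i (hij.trans hj))).1
    exact hE.inj' (ls i) (ls j) x y (by omega) (hlt i j hij hj) (hprop _ (hls j hj)).2.1
      (by omega) (by omega)
  refine hP X p (fun i => T (ls i) 0) (fun i => T (ls i) 1)
    (fun i j hij hj => hne i j hij hj 0 0 (by omega) (by omega))
    (fun i j hij hj => hne i j hij hj 1 1 (by omega) (by omega)) ?_ ?_
  · intro i j hi hj
    rcases lt_trichotomy i j with h | h | h
    · exact hne i j h hj 0 1 (by omega) (by omega)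
    · rw [← h]
      have h1 := hprop _ (hls i hi)
      exact hE.inj (ls i) 0 1 (by omega) h1.2.1 (by omega) (by omega)
    · exact (hne j i h hi 1 0 (by omega) (by omega)).symm
  · intro l y z hl hyz hy hz
    obtain ⟨_, h2, _, _, _⟩ := hprop _ (hls l hl)
    have hθ : 0 < τ b := hpos b (by have := (hprop _ (hls l hl)).1; omega)
    have hll := hpair l hl
    refine MG.sum_le (g := P c) ?_
    -- the points `y`, `z`
    obtain ⟨k, x, hk, hkl, hx, rfl⟩ : ∃ k x, k < p ∧ k ≠ l ∧ x < 2 ∧ y = T (ls k) x := by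
      rcases hy with ⟨k, h1, h2, h3⟩ | ⟨k, h1, h3⟩
      · exact ⟨k, 0, h2, by omega, by omega, h3⟩
      · exact ⟨k, 1, by omega, by omega, by omega, h3⟩
    obtain ⟨k', x', hk', hkl', hx', rfl⟩ : ∃ k x, k < p ∧ k ≠ l ∧ x < 2 ∧ z = T (ls k) x := by
      rcases hz with ⟨k, h1, h2, h3⟩ | ⟨k, h1, h3⟩
      · exact ⟨k, 1, h2, by omega, by omega, h3⟩
      · exact ⟨k, 0, by omega, by omega, by omega, h3⟩
    have e1 := (abs_le.1 (hrow l k hkl.symm hl hk 0 x (by omega) hx)).2
    have e2 := (abs_le.1 (hrow l k' hkl'.symm hl hk' 1 x' (by omega) hx')).2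
    have e3 : -τ b ≤ MG (P c) (T (ls k) x) (T (ls k') x') := by
      by_cases hkk : k = k'
      · subst hkk
        have h3 := hpair k hk
        interval_cases x <;> interval_cases x'
        · exact absurd rfl hyz
        · linarith
        · rw [MG.comm]
          linarith
        · exact absurd rfl hyz
      · exact (abs_le.1 (hrow k k' hkk hk hk' x x' hx hx')).1
    linarith

end Pool.Agent.Lib.MP_293cc0_an.R
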