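import Pool.Agent.Lib.MP_293cc0_an.U.Main
import Pool.Agent.Lib.MP_293cc0_an.LG.Main
import Pool.Agent.Lib.MP_293cc0_an.F.Rules

/-!
# MP_293cc0_an, reduction: pure combs (S3)

An end-homogeneous sequence of points, in which for all `i < j < k < t` the sum `ij|kt` is at least (at most) both
other sums, gives savings.
-/

set_option autoImplicit false

namespace Pool.Agent.Lib.MP_293cc0_an.R

open Finset

variable {X : Type} [MetricSpace X]

/-- End-homogeneity of the sequence `x 0, …, x (N - 1)`: the truth of `ab|ct ≤ ac|bt` does not depend on `t > a, b, c`. -/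
def EndHom (x : ℕ → X) (N : ℕ) : Prop :=
  ∀ a b c s t, a < s → b < s → c < s → s < t → t < N → a ≠ b → a ≠ c → b ≠ c →
    (dist (x a) (x b) + dist (x c) (x s) ≤ dist (x a) (x c) + dist (x b) (x s) ↔
      dist (x a) (x b) + dist (x c) (x t) ≤ dist (x a) (x c) + dist (x b) (x t))

/-- The comb of an end-homogeneous sequence of `N + 1` points; its weights are the differences to the last point. -/
theorem EndHom.comb {x : ℕ → X} {N : ℕ} (inj : ∀ i j, i < N + 1 → j < N + 1 → x i = x j → i = j)
    (h : EndHom x (N + 1)) :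
    ∃ C : Comb X N, C.x = x ∧
      (∀ i j, C.e i j = dist (x i) (x j) - dist (x i) (x N) - dist (x j) (x N)) ∧ C.Iff := by
  refine ⟨⟨x, fun i j hi hj => inj i j (by omega) (by omega),
    fun i j => dist (x i) (x j) - dist (x i) (x N) - dist (x j) (x N), ?_, ?_⟩, rfl, fun _ _ => rfl, ?_⟩
  · intro i j
    rw [dist_comm (x i) (x j)]
    ring
  · intro a b c t ha hb hc ht hab hac hbc he
    rw [h a b c t N ha hb hc ht (by omega) hab hac hbc]
    have h3 : dist (x a) (x b) - dist (x a) (x N) - dist (x b) (x N) ≤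
      dist (x a) (x c) - dist (x a) (x N) - dist (x c) (x N) := he
    linarith
  · intro a b c t ha hb hc ht hab hac hbc he
    have he' : dist (x a) (x b) + dist (x c) (x t) ≤ dist (x a) (x c) + dist (x b) (x t) := he
    rw [h a b c t N ha hb hc ht (by omega) hab hac hbc] at he'
    show dist (x a) (x b) - dist (x a) (x N) - dist (x b) (x N) ≤
      dist (x a) (x c) - dist (x a) (x N) - dist (x c) (x N)
    linarith

/-- End-homogeneity passes to subsequences. -/
theorem EndHom.sub {x : ℕ → X} {N : ℕ} (h : EndHom x N) {M : ℕ} (q : ℕ → ℕ)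
    (hq : ∀ i j, i < j → j < M → q i < q j) (hN : ∀ i, i < M → q i < N) :
    EndHom (fun i => x (q i)) M := by
  intro a b c s t ha hb hc hst ht hab hac hbc
  have hne : ∀ i j, i < M → j < M → i ≠ j → q i ≠ q j := by
    intro i j hi hj hij h2
    rcases lt_trichotomy i j with h3 | h3 | h3
    · exact absurd h2 (ne_of_lt (hq i j h3 hj))
    · exact hij h3
    · exact absurd h2.symm (ne_of_lt (hq j i h3 hi))
  exact h (q a) (q b) (q c) (q s) (q t) (hq a s ha (by omega)) (hq b s hb (by omega))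
    (hq c s hc (by omega)) (hq s t hst ht) (hN t ht) (hne a b (by omega) (by omega) hab)
    (hne a c (by omega) (by omega) hac) (hne b c (by omega) (by omega) hbc)

/-- **(S3), U**: `ij|kt` is always the largest sum. -/
theorem sav_pureU {x : ℕ → X} {N : ℕ} (inj : ∀ i j, i < N + 1 → j < N + 1 → x i = x j → i = j)
    (h : EndHom x (N + 1))
    (hU : ∀ i j k t, i < j → j < k → k < t → t < N + 1 →
      dist (x i) (x k) + dist (x j) (x t) ≤ dist (x i) (x j) + dist (x k) (x t) ∧
      dist (x j) (x k) + dist (x i) (x t) ≤ dist (x i) (x j) + dist (x k) (x t))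
    (p : ℕ) (hp : 2 * p ^ 2 + 2 * p ≤ N) : Sav X p := by
  classical
  obtain ⟨C, -, he, -⟩ := h.comb inj
  refine U.U_main (C := C) ?_ p hp
  intro a b c hac hbc hcN hab
  rw [he, he]
  rcases lt_or_gt_of_ne hab with h1 | h1
  · have := (hU a b c N h1 hbc (by omega) (by omega)).1
    linarith
  · have := (hU b a c N h1 hac (by omega) (by omega)).2
    rw [dist_comm (x b) (x a)] at this
    linarith

/-- **(S3), L**: `ij|kt` is always the smallest sum. -/
theorem sav_pureL {x : ℕ → X} {N : ℕ} (inj : ∀ i j, i < N + 1 → j < N + 1 → x i = x j → i = j)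
    (h : EndHom x (N + 1))
    (hL : ∀ i j k t, i < j → j < k → k < t → t < N + 1 →
      dist (x i) (x j) + dist (x k) (x t) ≤ dist (x i) (x k) + dist (x j) (x t) ∧
      dist (x i) (x j) + dist (x k) (x t) ≤ dist (x j) (x k) + dist (x i) (x t))
    {p : ℕ} (hp1 : 1 ≤ p) (hp : 1024 * p ^ 10 ≤ N) : Sav X p := by
  obtain ⟨C, -, he, -⟩ := h.comb inj
  refine C.savL ?_ hp1 hp
  intro a b c hac hbc hcN hab
  rw [he, he]
  rcases lt_or_gt_of_ne hab with h1 | h1
  · have := (hL a b c N h1 hbc (by omega) (by omega)).1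
    linarith
  · have := (hL b a c N h1 hac (by omega) (by omega)).2
    rw [dist_comm (x b) (x a)] at this
    linarith

/-- All sums are equal. -/
theorem sav_flat {A : Finset X}
    (h : ∀ a ∈ A, ∀ b ∈ A, ∀ c ∈ A, ∀ d ∈ A, a ≠ b → a ≠ c → a ≠ d → b ≠ c → b ≠ d → c ≠ d →
      dist a b + dist c d = dist a c + dist b d)
    (p : ℕ) (hp : 2 * p ^ 2 + 2 * p + 1 ≤ A.card) : Sav X p := by
  classical
  obtain ⟨A', hA', hc⟩ := Finset.exists_subset_card_eq hp
  obtain ⟨f⟩ : Nonempty (Fin (2 * p ^ 2 + 2 * p + 1) ≃ A') := by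
    rw [← hc]
    exact ⟨A'.equivFin.symm⟩
  have hne : A'.Nonempty := by rw [← Finset.card_pos]; omega
  obtain ⟨x0, hx0⟩ := hne
  obtain ⟨x, hx⟩ : ∃ x : ℕ → X, x = fun i =>
      if h : i < 2 * p ^ 2 + 2 * p + 1 then (f ⟨i, h⟩ : X) else x0 := ⟨_, rfl⟩
  have hxi : ∀ i (hi : i < 2 * p ^ 2 + 2 * p + 1), x i = (f ⟨i, hi⟩ : X) := by
    intro i hi; rw [hx]; simp only; rw [dif_pos hi]
  have hxA : ∀ i, i < 2 * p ^ 2 + 2 * p + 1 → x i ∈ A := by
    intro i hi; rw [hxi i hi]; exact hA' (f ⟨i, hi⟩).2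
  have inj : ∀ i j, i < 2 * p ^ 2 + 2 * p + 1 → j < 2 * p ^ 2 + 2 * p + 1 → x i = x j → i = j := by
    intro i j hi hj hij
    rw [hxi i hi, hxi j hj] at hij
    have h1 := f.injective (Subtype.ext hij)
    simpa using h1
  have hd : ∀ a b c d, a < 2 * p ^ 2 + 2 * p + 1 → b < 2 * p ^ 2 + 2 * p + 1 →
      c < 2 * p ^ 2 + 2 * p + 1 → d < 2 * p ^ 2 + 2 * p + 1 → a ≠ b → a ≠ c → a ≠ d → b ≠ c →
      b ≠ d → c ≠ d → dist (x a) (x b) + dist (x c) (x d) = dist (x a) (x c) + dist (x b) (x d) := by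
    intro a b c d ha hb hc' hd' hab hac had hbc hbd hcd
    exact h _ (hxA a ha) _ (hxA b hb) _ (hxA c hc') _ (hxA d hd') (fun e => hab (inj a b ha hb e))
      (fun e => hac (inj a c ha hc' e)) (fun e => had (inj a d ha hd' e))
      (fun e => hbc (inj b c hb hc' e)) (fun e => hbd (inj b d hb hd' e))
      (fun e => hcd (inj c d hc' hd' e))
  refine sav_pureU (x := x) (N := 2 * p ^ 2 + 2 * p) inj ?_ ?_ p le_rfl
  · intro a b c s t ha hb hc' hst ht hab hac hbc
    rw [hd a b c s (by omega) (by omega) (by omega) (by omega) hab hac (by omega) hbc (by omega)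
      (by omega), hd a b c t (by omega) (by omega) (by omega) (by omega) hab hac (by omega) hbc
      (by omega) (by omega)]
    constructor <;> intro _ <;> exact le_rfl
  · intro i j k t hij hjk hkt ht
    constructor
    · rw [hd i j k t (by omega) (by omega) (by omega) (by omega) (by omega) (by omega) (by omega)
        (by omega) (by omega) (by omega)]
    · rw [dist_comm (x i) (x j), hd j i k t (by omega) (by omega) (by omega) (by omega) (by omega)
        (by omega) (by omega) (by omega) (by omega) (by omega)]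

end Pool.Agent.Lib.MP_293cc0_an.R
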