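import Pool.Agent.Lib.MP_293cc0_an.R.SpecC
import Pool.Agent.Lib.MP_293cc0_an.R.Pure

/-!
# MP_293cc0_an, the reduction (R): increasing accuracies give a pure comb (case (B) of 7.4)
-/

set_option autoImplicit false

namespace Pool.Agent.Lib.MP_293cc0_an.R

open Finset
open scoped Classical

/-- An increasing enumeration of `n` elements of a finite set of numbers. -/
theorem exists_enum_nat (K : Finset ℕ) {n : ℕ} (hn : n ≤ K.card) :
    ∃ k : ℕ → ℕ, (∀ a, a < n → k a ∈ K) ∧ ∀ a b, a < b → b < n → k a < k b := by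
  classical
  refine ⟨fun a => if h : a < K.card then K.orderEmbOfFin rfl ⟨a, h⟩ else 0, ?_, ?_⟩
  · intro a ha
    simp only
    rw [dif_pos (lt_of_lt_of_le ha hn)]
    exact Finset.orderEmbOfFin_mem _ _ _
  · intro a b hab hb
    simp only
    rw [dif_pos (lt_of_lt_of_le (lt_trans hab hb) hn), dif_pos (lt_of_lt_of_le hb hn)]
    exact (K.orderEmbOfFin rfl).strictMono (by simpa using hab)

/-- Tuple form of the inequalities: the row of the newest of three indices dominates. -/
theorem pure_of_rows {X : Type} [MetricSpace X] (g : X → ℝ) {x : ℕ → X} {N : ℕ}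
    (inj : ∀ i j, i < N + 1 → j < N + 1 → x i = x j → i = j) (h : EndHom x (N + 1))
    (hb : ∀ i k t u, i < k → k < t → t < N + 1 → i < u → u < N + 1 →
      3 * |MG g (x i) (x u)| ≤ |MG g (x k) (x t)|)
    (hs : (∀ i j, i < j → j < N + 1 → 0 < MG g (x i) (x j)) ∨
      ∀ i j, i < j → j < N + 1 → ¬ 0 < MG g (x i) (x j))
    {p : ℕ} (hp1 : 1 ≤ p) (hp : 1024 * p ^ 10 ≤ N) : Sav X p := by
  rcases hs with hs | hs
  · refine sav_pureU (N := N) inj h ?_ p ?_
    · intro i j k t hij hjk hkt ht
      have h1 := hb i k t j (by omega) hkt ht hij (by omega)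
      have h2 := hb i k t k (by omega) hkt ht (by omega) (by omega)
      have h3 := hb i k t t (by omega) hkt ht (by omega) ht
      have h4 := hb j k t k hjk hkt ht hjk (by omega)
      have h5 := hb j k t t hjk hkt ht (by omega) ht
      have h6 := hs k t hkt ht
      rw [abs_of_pos h6] at h1 h2 h3 h4 h5
      have a1 := abs_le.1 (le_refl |MG g (x i) (x j)|)
      have a2 := abs_le.1 (le_refl |MG g (x i) (x k)|)
      have a3 := abs_le.1 (le_refl |MG g (x i) (x t)|)
      have a4 := abs_le.1 (le_refl |MG g (x j) (x k)|)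
      have a5 := abs_le.1 (le_refl |MG g (x j) (x t)|)
      constructor
      · apply MG.sum_le (g := g)
        linarith [a1.1, a2.2, a5.2]
      · have : MG g (x j) (x k) + MG g (x i) (x t) ≤ MG g (x i) (x j) + MG g (x k) (x t) := by
          linarith [a1.1, a3.2, a4.2]
        unfold MG at this
        linarith
    · have h1 : p ^ 2 ≤ p ^ 10 := Nat.pow_le_pow_right hp1 (by norm_num)
      have h2 : p ≤ p ^ 2 := by nlinarith
      omega
  · refine sav_pureL (N := N) inj h ?_ hp1 hp
    intro i j k t hij hjk hkt ht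
    have h1 := hb i k t j (by omega) hkt ht hij (by omega)
    have h2 := hb i k t k (by omega) hkt ht (by omega) (by omega)
    have h3 := hb i k t t (by omega) hkt ht (by omega) ht
    have h4 := hb j k t k hjk hkt ht hjk (by omega)
    have h5 := hb j k t t hjk hkt ht (by omega) ht
    have h6 := not_lt.1 (hs k t hkt ht)
    rw [abs_of_nonpos h6] at h1 h2 h3 h4 h5
    have a1 := abs_le.1 (le_refl |MG g (x i) (x j)|)
    have a2 := abs_le.1 (le_refl |MG g (x i) (x k)|)
    have a3 := abs_le.1 (le_refl |MG g (x i) (x t)|)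
    have a4 := abs_le.1 (le_refl |MG g (x j) (x k)|)
    have a5 := abs_le.1 (le_refl |MG g (x j) (x t)|)
    constructor
    · have : MG g (x i) (x j) + MG g (x k) (x t) ≤ MG g (x i) (x k) + MG g (x j) (x t) := by
        linarith [a1.2, a2.1, a5.1]
      unfold MG at this
      linarith
    · have : MG g (x i) (x j) + MG g (x k) (x t) ≤ MG g (x j) (x k) + MG g (x i) (x t) := by
        linarith [a1.2, a3.1, a4.1]
      unfold MG at this
      linarith

/-- The thresholds are increasing. -/
theorem EndData.tau_mono {X : Type} [MetricSpace X] {E : Type} {m L : ℕ} {P : E → X → ℝ} {τ : ℕ → ℝ}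
    {T : ℕ → ℕ → X} {col : ℕ → E} {acc : ℕ → ℕ} {sg : ℕ → Bool} (h : EndData m L P τ T col acc sg) :
    ∀ a b, a ≤ b → b ≤ L → 0 < τ a ∧ τ a ≤ τ b := by
  have hpos : ∀ a, a ≤ L → 0 < τ a := by
    intro a
    induction a with
    | zero => intro _; exact h.tau0
    | succ a ih =>
      intro ha
      have h1 := ih (by omega)
      have h2 := h.tau a (by omega)
      linarith
  intro a b hab
  induction hab with
  | refl => intro hb; exact ⟨hpos a hb, le_rfl⟩
  | @step b hab ih =>
    intro hb
    have h1 := ih (by omega)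
    have h2 := h.tau b (by omega)
    have h3 := hpos b (by omega)
    exact ⟨h1.1, by linarith [h1.2]⟩

theorem EndData.tau_four {X : Type} [MetricSpace X] {E : Type} {m L : ℕ} {P : E → X → ℝ} {τ : ℕ → ℝ}
    {T : ℕ → ℕ → X} {col : ℕ → E} {acc : ℕ → ℕ} {sg : ℕ → Bool} (h : EndData m L P τ T col acc sg)
    {a b : ℕ} (hab : a < b) (hb : b ≤ L) : 4 * τ a ≤ τ b := by
  have h1 := h.tau a (by omega)
  have h2 := (h.tau_mono (a + 1) b hab hb).2
  linarith

/-- **(B)** Increasing accuracies: savings. -/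
theorem incr : IncrStmt := by
  intro X _ E m L p n P τ T col acc sg c q hD hm hp hn hq hinc
  -- the sequence `q` is strictly increasing
  have hqm : ∀ i j, i < j → j < n → q i < q j := by
    intro i j hij
    induction hij with
    | refl => intro hj; exact (hinc i hj).1
    | @step j hij ih =>
      intro hj
      exact lt_trans (ih (by omega)) (hinc j hj).1
  -- bounds of the rows
  have hup : ∀ i j, i < j → j < n → |MG (P c) (T (q i) 0) (T (q j) 0)| ≤ τ (q i) := by
    intro i j hij hj
    have h1 := hq i (by omega)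
    have h2 := hq j hj
    have h3 := (hD.row (q i) (q j) h1.1 (hqm i j hij hj) h2.2.1 0 0 (by omega) (by omega)).1
    rw [h1.2.2] at h3
    exact h3.trans (hD.tau_mono _ _ (hD.accle (q i) h1.1 h1.2.1) h1.2.1).2
  have hlo : ∀ i j, i + 1 < j → j < n → τ (q i) < |MG (P c) (T (q (i + 1)) 0) (T (q j) 0)| := by
    intro i j hij hj
    have h1 := hq (i + 1) (by omega)
    have h2 := hq j hj
    have h3 := hinc i (by omega)
    have h4 := (hD.row (q (i + 1)) (q j) h1.1 (hqm (i + 1) j hij hj) h2.2.1 0 0 (by omega) (by omega)).2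
      (by omega)
    rw [h1.2.2] at h4
    have h5 := hD.accle (q (i + 1)) h1.1 h1.2.1
    exact lt_of_le_of_lt (hD.tau_mono (q i) (acc (q (i + 1)) - 1) (by omega) (by omega)).2 h4
  -- the rows of the odd indices
  have hodd : ∀ i k t u, i < k → 2 * k + 1 < t → t < n → 2 * i + 1 < u → u < n →
      3 * |MG (P c) (T (q (2 * i + 1)) 0) (T (q u) 0)| ≤
        |MG (P c) (T (q (2 * k + 1)) 0) (T (q t) 0)| := by
    intro i k t u hik hkt ht hiu hu
    have h1 := hup (2 * i + 1) u hiu hu
    have h2 := hlo (2 * k) t hkt ht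
    have h3 := hD.tau_four (hqm (2 * i + 1) (2 * k) (by omega) (by omega)) (hq (2 * k) (by omega)).2.1
    have h4 := (hD.tau_mono (q (2 * i + 1)) (q (2 * i + 1)) le_rfl (hq (2 * i + 1) (by omega)).2.1).1
    linarith
  -- the sign of a row
  have hsgn : ∀ i j j', i < j → j < n → i < j' → j' < n →
      (0 < MG (P c) (T (q i) 0) (T (q j) 0) ↔ 0 < MG (P c) (T (q i) 0) (T (q j') 0)) := by
    intro i j j' hij hj hij' hj'
    have h1 := hq i (by omega)
    have h2 := hD.sign (q i) (q j) (q j') h1.1 (hqm i j hij hj) (hq j hj).2.1 (hqm i j' hij' hj')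
      (hq j' hj').2.1
    rw [h1.2.2] at h2
    exact h2
  -- `N + 1` odd indices of one sign
  obtain ⟨N, hN⟩ : ∃ N, N = 1024 * p ^ 10 := ⟨_, rfl⟩
  rw [← hN] at hn
  obtain ⟨K, hK, hKc, hKs⟩ : ∃ K : Finset ℕ, (∀ k ∈ K, k < 2 * (N + 4)) ∧ N + 1 ≤ K.card ∧
      ((∀ k ∈ K, 0 < MG (P c) (T (q (2 * k + 1)) 0) (T (q (n - 1)) 0)) ∨
        ∀ k ∈ K, ¬ 0 < MG (P c) (T (q (2 * k + 1)) 0) (T (q (n - 1)) 0)) := by
    have h0 := Finset.card_filter_add_card_filter_not (s := Finset.range (2 * (N + 4) - 1))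
      (fun k => 0 < MG (P c) (T (q (2 * k + 1)) 0) (T (q (n - 1)) 0))
    rw [Finset.card_range] at h0
    rcases le_or_gt (N + 1) ((Finset.range (2 * (N + 4) - 1)).filter
      (fun k => 0 < MG (P c) (T (q (2 * k + 1)) 0) (T (q (n - 1)) 0))).card with h1 | h1
    · refine ⟨_, ?_, h1, Or.inl fun k hk => (Finset.mem_filter.1 hk).2⟩
      intro k hk
      have := Finset.mem_range.1 (Finset.mem_filter.1 hk).1
      omega
    · refine ⟨(Finset.range (2 * (N + 4) - 1)).filter
        (fun k => ¬ 0 < MG (P c) (T (q (2 * k + 1)) 0) (T (q (n - 1)) 0)), ?_, by omega,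
        Or.inr fun k hk => (Finset.mem_filter.1 hk).2⟩
      intro k hk
      have := Finset.mem_range.1 (Finset.mem_filter.1 hk).1
      omega
  obtain ⟨k, hkK, hkm⟩ := exists_enum_nat K hKc
  -- the subsequence
  have hkn : ∀ a, a < N + 1 → 2 * k a + 1 < n := by
    intro a ha
    have := hK _ (hkK a ha)
    omega
  have hkl : ∀ a, a < N → 2 * k a + 1 < n - 1 := by
    intro a ha
    have h1 := hkm a N ha (by omega)
    have h2 := hK _ (hkK N (by omega))
    omega
  have hQ : ∀ a b, a < b → b < N + 1 → 2 * k a + 1 < 2 * k b + 1 := by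
    intro a b hab hb
    have := hkm a b hab hb
    omega
  refine pure_of_rows (P c) (x := fun a => T (q (2 * k a + 1)) 0) (N := N) ?_ ?_ ?_ ?_ hp hN.ge
  · intro i j hi hj hij
    rcases lt_trichotomy i j with h1 | h1 | h1
    · exact absurd hij (hD.inj' _ _ 0 0 (hq _ (hkn i hi)).1 (hqm _ _ (hQ i j h1 hj) (hkn j hj))
        (hq _ (hkn j hj)).2.1 (by omega) (by omega))
    · exact h1
    · exact absurd hij.symm (hD.inj' _ _ 0 0 (hq _ (hkn j hj)).1 (hqm _ _ (hQ j i h1 hi) (hkn i hi))
        (hq _ (hkn i hi)).2.1 (by omega) (by omega))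
  · intro a b d s t ha hb hd hst ht hab hac hbc
    have e1 : ∀ a b, a < b → b < N + 1 → q (2 * k a + 1) < q (2 * k b + 1) := fun a b h1 h2 =>
      hqm _ _ (hQ a b h1 h2) (hkn b h2)
    exact hD.hom _ _ _ _ _ (hq _ (hkn a (by omega))).1 (hq _ (hkn b (by omega))).1
      (hq _ (hkn d (by omega))).1 (e1 a s ha (by omega)) (e1 b s hb (by omega)) (e1 d s hd (by omega))
      (hq _ (hkn s (by omega))).2.1 (e1 a t (by omega) ht) (e1 b t (by omega) ht)
      (e1 d t (by omega) ht) (hq _ (hkn t ht)).2.1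
  · intro i k' t u hik hkt ht hiu hu
    exact hodd (k i) (k k') (2 * k t + 1) (2 * k u + 1) (hkm i k' hik (by omega)) (hQ k' t hkt ht)
      (hkn t ht) (hQ i u hiu hu) (hkn u hu)
  · rcases hKs with h | h
    · left
      intro i j hij hj
      have h1 := h _ (hkK i (by omega))
      exact (hsgn _ _ _ (hQ i j hij hj) (hkn j hj) (by
        have := hkl i (by omega)
        exact this) (by omega)).2 h1
    · right
      intro i j hij hj
      have h1 := h _ (hkK i (by omega))
      exact fun h2 => h1 ((hsgn _ _ _ (hQ i j hij hj) (hkn j hj) (by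
        have := hkl i (by omega)
        exact this) (by omega)).1 h2)

end Pool.Agent.Lib.MP_293cc0_an.R
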