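import Pool.Agent.Lib.MP_293cc0_an.R.SpecC

/-!
# MP_293cc0_an, the reduction: four stages of sign `lo`
-/

set_option autoImplicit false

namespace Pool.Agent.Lib.MP_293cc0_an.R

open Finset
open scoped Classical

section Tau

variable {X : Type} [MetricSpace X] {E : Type} {m L : ℕ} {P : E → X → ℝ} {τ : ℕ → ℝ} {T : ℕ → ℕ → X}
  {col : ℕ → E} {acc : ℕ → ℕ} {sg : ℕ → Bool}

theorem EndData.tau_pos_lo (h : EndData m L P τ T col acc sg) : ∀ l, l ≤ L → 0 < τ l := by
  intro l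
  induction l with
  | zero => intro _; exact h.tau0
  | succ l ih =>
    intro hl
    have h1 := ih (by omega)
    have h2 := h.tau l (by omega)
    linarith

theorem EndData.tau_mono_lo (h : EndData m L P τ T col acc sg) : ∀ i j, i ≤ j → j ≤ L → τ i ≤ τ j := by
  intro i j hij
  induction hij with
  | refl => intro _; exact le_rfl
  | @step j hij ih =>
    intro hj
    have h1 := ih (by omega)
    have h2 := h.tau j (by omega)
    have h3 := h.tau_pos_lo j (by omega)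
    linarith

theorem EndData.low_lo (h : EndData m L P τ T col acc sg) {l b : ℕ} (hb : b < l) (hl : l ≤ L) (hs : sg l = false)
    {i j : ℕ} (hi : i < m) (hj : j < m) (hij : i ≠ j) : MG (P (col l)) (T l i) (T l j) ≤ -(3 * τ b) := by
  have key : ∀ i j, i < j → j < m → MG (P (col l)) (T l i) (T l j) ≤ -(3 * τ b) := by
    intro i j hij hj
    have h1 := h.pair l (by omega) hl i j hij hj
    have h2 := h.tau_mono_lo b (l - 1) (by omega) (by omega)
    rcases h1 with h1 | h1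
    · rw [hs] at h1
      exact absurd h1.1 (by simp)
    · linarith [h1.2]
  rcases lt_or_gt_of_ne hij with h1 | h1
  · exact key i j h1 hj
  · rw [MG.comm]
    exact key j i h1 hi

theorem EndData.cross_lo (h : EndData m L P τ T col acc sg) {l l' b : ℕ} {c : E} (hl : 1 ≤ l) (hl' : 1 ≤ l')
    (hL : l ≤ L) (hL' : l' ≤ L) (hne : l ≠ l') (ha : acc l ≤ b) (ha' : acc l' ≤ b) (hb : b ≤ L) (hc : col l = c)
    (hc' : col l' = c) {i j : ℕ} (hi : i < m) (hj : j < m) : |MG (P c) (T l i) (T l' j)| ≤ τ b := by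
  rcases lt_or_gt_of_ne hne with h1 | h1
  · have h2 := (h.row l l' hl h1 hL' i j hi hj).1
    rw [hc] at h2
    exact h2.trans (h.tau_mono_lo _ _ ha hb)
  · have h2 := (h.row l' l hl' h1 hL j i hj hi).1
    rw [hc', MG.comm] at h2
    exact h2.trans (h.tau_mono_lo _ _ ha' hb)

end Tau

theorem lo : LoStmt := by
  intro X _ E L p P τ T col acc sg c b B h hp hB hBp
  obtain ⟨q, hq⟩ : ∃ q : Fin 4 ↪o ℕ, q = B.orderEmbOfCardLe hB := ⟨_, rfl⟩
  have hqB : ∀ i, q i ∈ B := by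
    intro i
    rw [hq]
    exact Finset.orderEmbOfCardLe_mem _ _ _
  have hq1 : ∀ i, b < q i ∧ q i ≤ L ∧ acc (q i) ≤ b ∧ col (q i) = c ∧ sg (q i) = false := fun i => hBp _ (hqB i)
  have hqlt : ∀ i j, i < j → q i < q j := fun i j hij => q.strictMono hij
  have hq0 : ∀ a : Fin 3, q 0 < q a.succ := fun a => hqlt _ _ (Fin.succ_pos a)
  have hqs : ∀ a c : Fin 3, a < c → q a.succ < q c.succ := fun a c hac => hqlt _ _ (Fin.succ_lt_succ_iff.2 hac)
  have hbL : b ≤ L := (hq1 0).1.le.trans (hq1 0).2.1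
  have hTinj : ∀ l, 1 ≤ l → l ≤ L → ∀ i j, i < 12 * p → j < 12 * p → T l i = T l j → i = j := by
    intro l h1 h2 i j hi hj hij
    rcases lt_trichotomy i j with h3 | h3 | h3
    · exact absurd hij (h.inj l i j h1 h2 h3 hj)
    · exact h3
    · exact absurd hij.symm (h.inj l j i h1 h2 h3 hi)
  have hser : ∀ a : Fin 3, ∃ u : ℕ → ℕ, (∀ i, i < 12 * p → u i < 12 * p) ∧
      (∀ i j, i < j → j < 12 * p → u i ≠ u j) ∧ ∀ i j, i < j → j < 12 * p → ∀ r, r < 12 * p →
        (∀ q', q' < i → r ≠ u q') → dist (T (q 0) r) (T (q a.succ) i) + dist (T (q 0) (u i)) (T (q a.succ) j) ≤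
          dist (T (q 0) (u i)) (T (q a.succ) i) + dist (T (q 0) r) (T (q a.succ) j) := fun a =>
    h.serv (q 0) (q a.succ) (by have := (hq1 0).1; omega) (hq0 a) (hq1 _).2.1
  choose u hu1 hu2 hu3 using hser
  have l0 : 1 ≤ q 0 := by have := (hq1 0).1; omega
  have l1 : ∀ i, 1 ≤ q i := fun i => by have := (hq1 i).1; omega
  obtain ⟨Ls, hLs⟩ : ∃ Ls : Finset X, Ls = (Finset.range (12 * p)).image (fun i => T (q 0) i) := ⟨_, rfl⟩
  have hLmem : ∀ x, x ∈ Ls ↔ ∃ r, r < 12 * p ∧ T (q 0) r = x := by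
    intro x
    rw [hLs, Finset.mem_image]
    simp only [Finset.mem_range]
  have hLcard : Ls.card = 12 * p := by
    rw [hLs, Finset.card_image_of_injOn, Finset.card_range]
    intro i hi j hj hij
    rw [Finset.coe_range, Set.mem_Iio] at hi hj
    exact hTinj (q 0) l0 (hq1 0).2.1 i j hi hj hij
  have hp7 : ∀ i, i < 7 * p → i < 12 * p := fun i hi => by omega
  have hp6 : ∀ i, i < 6 * p → i < 12 * p := fun i hi => by omega
  refine four_cell_gauge p hp (P c) (τ b) Ls hLcard (fun a i => T (q a.succ) i) (fun a k => T (q 0) (u a k))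
    ?_ ?_ ?_ ?_ ?_ ?_ ?_ ?_ ?_ ?_ ?_
  · intro a i j hi hj hij
    exact hTinj _ (l1 _) (hq1 _).2.1 i j (hp7 i hi) (hp7 j hj) hij
  · intro a i hi hmem
    obtain ⟨r, hr, hre⟩ := (hLmem _).1 hmem
    exact h.inj' (q 0) (q a.succ) r i l0 (hq0 a) (hq1 _).2.1 hr (hp7 i hi) hre
  · intro a d had i j hi hj hij
    rcases lt_or_gt_of_ne had with h1 | h1
    · exact h.inj' _ _ i j (l1 _) (hqs a d h1) (hq1 _).2.1 (hp7 i hi) (hp7 j hj) hij
    · exact h.inj' _ _ j i (l1 _) (hqs d a h1) (hq1 _).2.1 (hp7 j hj) (hp7 i hi) hij.symm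
  · intro a k hk
    exact (hLmem _).2 ⟨u a k, hu1 a k (hp6 k hk), rfl⟩
  · intro a i j hi hj hij
    have h1 := hTinj (q 0) l0 (hq1 0).2.1 _ _ (hu1 a i (hp6 i hi)) (hu1 a j (hp6 j hj)) hij
    rcases lt_trichotomy i j with h3 | h3 | h3
    · exact absurd h1 (hu2 a i j h3 (hp6 j hj))
    · exact h3
    · exact absurd h1.symm (hu2 a j i h3 (hp6 i hi))
  · intro a k t hk hkt ht l hl hlu
    obtain ⟨r, hr, rfl⟩ := (hLmem _).1 hl
    refine hu3 a k t hkt (hp7 t ht) r hr ?_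
    intro q' hq' hrq
    exact hlu q' hq' (by rw [hrq])
  · intro a d had x hx y hy
    obtain ⟨r, hr, rfl⟩ := (hLmem _).1 hx
    obtain ⟨s, hs, rfl⟩ := (hLmem _).1 hy
    rcases lt_or_gt_of_ne had with h1 | h1
    · rcases h.ord (q 0) (q a.succ) (q d.succ) l0 (hq0 a) (hqs a d h1) (hq1 _).2.1 r s hr hs with h2 | h2
      · left
        intro i hi j hj
        have h3 := h2 i j (hp7 i hi) (hp7 j hj)
        linarith
      · right
        intro i hi j hj
        have h3 := h2 i j (hp7 i hi) (hp7 j hj)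
        linarith
    · rcases h.ord (q 0) (q d.succ) (q a.succ) l0 (hq0 d) (hqs d a h1) (hq1 _).2.1 r s hr hs with h2 | h2
      · right
        intro i hi j hj
        have h3 := h2 j i (hp7 j hj) (hp7 i hi)
        linarith
      · left
        intro i hi j hj
        have h3 := h2 j i (hp7 j hj) (hp7 i hi)
        linarith
  · intro x hx y hy hxy
    obtain ⟨r, hr, rfl⟩ := (hLmem _).1 hx
    obtain ⟨s, hs, rfl⟩ := (hLmem _).1 hy
    have hrs : r ≠ s := fun e => hxy (by rw [e])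
    have h1 := h.low_lo (hq1 0).1 (hq1 0).2.1 (hq1 0).2.2.2.2 hr hs hrs
    rw [(hq1 0).2.2.2.1] at h1
    exact h1
  · intro a i j hi hj hij
    have h1 := h.low_lo (hq1 a.succ).1 (hq1 a.succ).2.1 (hq1 a.succ).2.2.2.2 (hp7 i hi) (hp7 j hj) hij
    rw [(hq1 a.succ).2.2.2.1] at h1
    exact h1
  · intro a i hi x hx
    obtain ⟨r, hr, rfl⟩ := (hLmem _).1 hx
    exact h.cross_lo l0 (l1 _) (hq1 0).2.1 (hq1 _).2.1 (hq0 a).ne (hq1 0).2.2.1 (hq1 _).2.2.1 hbL
      (hq1 0).2.2.2.1 (hq1 _).2.2.2.1 hr (hp7 i hi)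
  · intro a d had i j hi hj
    have hne : q a.succ ≠ q d.succ := by
      rcases lt_or_gt_of_ne had with h1 | h1
      · exact (hqs a d h1).ne
      · exact (hqs d a h1).ne'
    exact h.cross_lo (l1 _) (l1 _) (hq1 _).2.1 (hq1 _).2.1 hne (hq1 _).2.2.1 (hq1 _).2.2.1 hbL
      (hq1 _).2.2.2.1 (hq1 _).2.2.2.1 (hp7 i hi) (hp7 j hj)

end Pool.Agent.Lib.MP_293cc0_an.R
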