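import Pool.Agent.Lib.MP_293cc0_an.R.Defs

/-!
# MP_293cc0_an, reduction: cleaning of graphs of finite rank

* `exists_popular`: a popular colour;
* `Rk.clean_nat`, `Rk.clean`: if the graphs `G i` have rank `k i` on `A`, then there is a dense subset of `A` in which all degrees in
  all graphs are small (the cost is additive: `(∑ k i) * (μ + e)`, `m ≤ 2 ^ μ`, degrees `< 2 ^ (-e)`);
* `Rk.clean_level`: the same for the low graphs of several levels.
-/

set_option autoImplicit false

namespace Pool.Agent.Lib.MP_293cc0_an.R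

open Finset
open scoped Classical

variable {X : Type}

/-- A popular colour. -/
theorem exists_popular {C : Type} [Fintype C] [Nonempty C] (A : Finset X) (f : X → C) :
    ∃ c : C, ∃ B : Finset X, (∀ w, w ∈ B ↔ w ∈ A ∧ f w = c) ∧
      A.card ≤ Fintype.card C * B.card := by
  classical
  by_contra hno
  push Not at hno
  have hno' : ∀ c : C, Fintype.card C * (A.filter (fun w => f w = c)).card < A.card :=
    fun c => hno c _ (fun w => Finset.mem_filter)
  have h3 : A.card = ∑ c : C, (A.filter (fun w => f w = c)).card :=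
    Finset.card_eq_sum_card_fiberwise (f := f) (t := Finset.univ)
      (fun _ _ => Finset.mem_coe.2 (Finset.mem_univ _))
  have h4 : Fintype.card C * A.card =
      ∑ c : C, Fintype.card C * (A.filter (fun w => f w = c)).card := by
    rw [← Finset.mul_sum, ← h3]
  have h5 : ∑ c : C, Fintype.card C * (A.filter (fun w => f w = c)).card < ∑ _c : C, A.card :=
    Finset.sum_lt_sum_of_nonempty Finset.univ_nonempty (fun c _ => hno' c)
  rw [Finset.sum_const, Finset.card_univ, smul_eq_mul] at h5
  omega

/-- **Simultaneous cleaning.** -/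
theorem Rk.clean_nat {ι : Type} [Fintype ι] (m r : ℕ) (hm : 1 ≤ m) (hr : 1 ≤ r)
    (G : ι → X → X → Prop) :
    ∀ (n : ℕ) (k : ι → ℕ) (A : Finset X), ∑ i, k i = n → (∀ i, Rk (G i) m (k i) A) →
      ∃ A' ⊆ A, A.card ≤ (m * r) ^ n * A'.card ∧
        ∀ i, ∀ v ∈ A', r * (A'.filter (fun w => w ≠ v ∧ G i v w)).card < A'.card := by
  classical
  have hmr : 0 < m * r := Nat.mul_pos hm hr
  intro n
  induction n with
  | zero =>
    intro k A hk hA
    by_cases h : ∀ i, ∀ v ∈ A, r * (A.filter (fun w => w ≠ v ∧ G i v w)).card < A.card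
    · exact ⟨A, Finset.Subset.refl _, by simp, h⟩
    · push Not at h
      obtain ⟨i, v, hv, _⟩ := h
      have h1 : k i = 0 := by
        have := Finset.single_le_sum (f := k) (fun _ _ => Nat.zero_le _) (Finset.mem_univ i)
        omega
      have h2 := hA i
      rw [h1] at h2
      have h3 : A = ∅ := h2
      rw [h3] at hv
      exact absurd hv (Finset.notMem_empty _)
  | succ n ih =>
    intro k A hk hA
    by_cases h : ∀ i, ∀ v ∈ A, r * (A.filter (fun w => w ≠ v ∧ G i v w)).card < A.card
    · exact ⟨A, Finset.Subset.refl _, Nat.le_mul_of_pos_left _ (Nat.pow_pos hmr), h⟩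
    · push Not at h
      obtain ⟨i, v, hv, hd⟩ := h
      have hki : k i ≠ 0 := by
        intro h1
        have h2 := hA i
        rw [h1] at h2
        have h3 : A = ∅ := h2
        rw [h3] at hv
        exact absurd hv (Finset.notMem_empty _)
      obtain ⟨l, hl⟩ := Nat.exists_eq_succ_of_ne_zero hki
      have h2 := hA i
      rw [hl] at h2
      obtain ⟨f, hf⟩ := h2 v hv
      have : Nonempty (Fin m) := ⟨⟨0, hm⟩⟩
      -- a popular colour class
      obtain ⟨c, B, hB, hc⟩ := exists_popular (A.filter (fun w => w ≠ v ∧ G i v w)) f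
      rw [Fintype.card_fin] at hc
      have hBA : B ⊆ A := fun w hw => (Finset.mem_filter.1 ((hB w).1 hw).1).1
      have hBf : B ⊆ A.filter (fun w => w ≠ v ∧ G i v w ∧ f w = c) := by
        intro w hw
        obtain ⟨h8, h9⟩ := (hB w).1 hw
        rw [Finset.mem_filter] at h8 ⊢
        exact ⟨h8.1, h8.2.1, h8.2.2, h9⟩
      have hcard : A.card ≤ (m * r) * B.card := by
        calc A.card ≤ r * (A.filter (fun w => w ≠ v ∧ G i v w)).card := hd
          _ ≤ r * (m * B.card) := Nat.mul_le_mul_left _ hc
          _ = (m * r) * B.card := by ring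
      obtain ⟨A', hA', h6, h7⟩ := ih (Function.update k i l) B (by
        have h8 := Finset.sum_update_of_mem (Finset.mem_univ i) k l
        have h9 : ∑ j, k j = k i + ∑ j ∈ Finset.univ \ {i}, k j := by
          rw [Finset.sdiff_singleton_eq_erase, Finset.add_sum_erase _ _ (Finset.mem_univ i)]
        rw [h8]
        omega) (by
        intro j
        by_cases hj : j = i
        · subst hj
          rw [Function.update_self]
          exact (hf c).subset hBf
        · rw [Function.update_of_ne hj]
          exact (hA j).subset hBA)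
      refine ⟨A', hA'.trans hBA, ?_, h7⟩
      calc A.card ≤ (m * r) * B.card := hcard
        _ ≤ (m * r) * ((m * r) ^ n * A'.card) := Nat.mul_le_mul_left _ h6
        _ = (m * r) ^ (n + 1) * A'.card := by ring

/-- **Simultaneous cleaning**, costs as powers of two. All graphs have rank `≤ k`. -/
theorem Rk.clean {ι : Type} [Fintype ι] {m μ k e : ℕ} (hm : 1 ≤ m) (hμ : m ≤ 2 ^ μ)
    (G : ι → X → X → Prop) (A : Finset X) (hA : ∀ i, Rk (G i) m k A) :
    ∃ A', Cost (Fintype.card ι * k * (μ + e)) A' A ∧
      ∀ i, ∀ v ∈ A', 2 ^ e * (A'.filter (fun w => w ≠ v ∧ G i v w)).card < A'.card := by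
  obtain ⟨A', h1, h2, h3⟩ := Rk.clean_nat m (2 ^ e) hm Nat.one_le_two_pow G _ (fun _ => k) A rfl hA
  refine ⟨A', ⟨h1, h2.trans (Nat.mul_le_mul_right _ ?_)⟩, h3⟩
  rw [Finset.sum_const, Finset.card_univ, smul_eq_mul]
  calc (m * 2 ^ e) ^ (Fintype.card ι * k) ≤ (2 ^ μ * 2 ^ e) ^ (Fintype.card ι * k) :=
        Nat.pow_le_pow_left (Nat.mul_le_mul_right _ hμ) _
    _ = 2 ^ (Fintype.card ι * k * (μ + e)) := by rw [← pow_add, ← pow_mul, mul_comm]

end Pool.Agent.Lib.MP_293cc0_an.R
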