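import Pool.Agent.Lib.MP_293cc0_an.R.Spec
import Pool.Agent.Lib.MP_293cc0_an.R.Rank

/-!
# MP_293cc0_an, the reduction (R): tools for the process (section 9)

* `decide_loop`: pass to levels until every remaining pair is undecidable on the pool;
* `TU`, `TL`: the two types; a decided pair has constant type at a cleaned pick.
-/

set_option autoImplicit false

namespace Pool.Agent.Lib.MP_293cc0_an.R

open Finset
open scoped Classical

variable {X : Type} [MetricSpace X]

/-- The pair `a, b` is decided above `V` with the type `t`. -/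
def DecAt (m : ℕ) (a b : X) (t : Bool) (V : Finset X) : Prop :=
  ∃ (A : Finset X) (g : X → ℝ) (s : ℝ), V ⊆ A ∧ Level m A g s ∧ (t = true → DecU a b A g s) ∧
    (t = false → DecL a b A g s)

theorem DecAt.subset {m : ℕ} {a b : X} {t : Bool} {V V' : Finset X} (h : DecAt m a b t V) (hV : V' ⊆ V) :
    DecAt m a b t V' := by
  obtain ⟨A, g, s, h1, h2, h3, h4⟩ := h
  exact ⟨A, g, s, hV.trans h1, h2, h3, h4⟩

/-- Decide pairs as long as possible. -/
theorem decide_loop {κ : Type} (m : ℕ) (a b : κ → X) : ∀ (n : ℕ) (Q : Finset κ), Q.card = n → ∀ V : Finset X,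
    ∃ (V' : Finset X) (D : Finset κ) (ty : κ → Bool), D ⊆ Q ∧ Cost (5 * n) V' V ∧
      (∀ e ∈ D, DecAt m (a e) (b e) (ty e) V') ∧ (∀ e ∈ Q, e ∉ D → Und m (a e) (b e) V') := by
  classical
  intro n
  induction n with
  | zero =>
    intro Q hQ V
    have hQ' : Q = ∅ := Finset.card_eq_zero.1 hQ
    subst hQ'
    exact ⟨V, ∅, fun _ => true, Finset.Subset.refl _, Cost.refl V, by simp, by simp⟩
  | succ n ih =>
    intro Q hQ V
    by_cases hall : ∀ e ∈ Q, Und m (a e) (b e) V
    · exact ⟨V, ∅, fun _ => true, Finset.empty_subset _, (Cost.refl V).mono (Nat.zero_le _), by simp,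
        fun e he _ => hall e he⟩
    · push Not at hall
      obtain ⟨e, he, hne⟩ := hall
      unfold Und at hne
      push Not at hne
      obtain ⟨A, g, s, hA, hL, hD⟩ := hne
      obtain ⟨V', D, ty, h1, h2, h3, h4⟩ := ih (Q.erase e) (by rw [Finset.card_erase_of_mem he]; omega) A
      obtain ⟨t, ht⟩ : ∃ t : Bool, DecAt m (a e) (b e) t V' := by
        rcases hD with hD | hD
        · exact ⟨false, A, g, s, h2.1, hL, fun h => by simp at h, fun _ => hD⟩
        · exact ⟨true, A, g, s, h2.1, hL, fun _ => hD, fun h => by simp at h⟩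
      refine ⟨V', insert e D, Function.update ty e t, ?_, ?_, ?_, ?_⟩
      · intro x hx
        rcases Finset.mem_insert.1 hx with rfl | hx
        · exact he
        · exact Finset.mem_of_mem_erase (h1 hx)
      · exact (hA.trans h2).mono (by omega)
      · intro x hx
        by_cases hxe : x = e
        · subst hxe
          rw [Function.update_self]
          exact ht
        · rw [Function.update_of_ne hxe]
          rcases Finset.mem_insert.1 hx with h | h
          · exact absurd h hxe
          · exact h3 x h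
      · intro x hx hxD
        have hxe : x ≠ e := fun h => hxD (h ▸ Finset.mem_insert_self _ _)
        exact h4 x (Finset.mem_erase.2 ⟨hxe, hx⟩) (fun h => hxD (Finset.mem_insert_of_mem h))

/-- Type U of the pair `i, j` at `s, w`. -/
def TU (i j s w : X) : Prop :=
  dist i s + dist j w ≤ dist i j + dist s w ∧ dist j s + dist i w ≤ dist i j + dist s w

/-- Type L of the pair `i, j` at `s, w`. -/
def TL (i j s w : X) : Prop :=
  dist i j + dist s w ≤ dist i s + dist j w ∧ dist i j + dist s w ≤ dist j s + dist i w

/-- The type `t` at `s, w`. -/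
def TT (t : Bool) (i j s w : X) : Prop := (t = true → TU i j s w) ∧ (t = false → TL i j s w)

/-- A decided pair has constant type at a cleaned pick. -/
theorem type_of_dec {m : ℕ} {a b : X} {t : Bool} {A : Finset X} {g : X → ℝ} {s : ℝ} (hL : Level m A g s)
    (hU : t = true → DecU a b A g s) (hD : t = false → DecL a b A g s) {x w : X} (hx : x ∈ A) (hw : w ∈ A)
    (hne : x ≠ w) (hlow : ¬ Low g s x w) : TT t a b x w := by
  have hs := hL.pos
  have hM := hL.nonpos x hx w hw hne
  unfold Low MG at hlow
  unfold MG at hM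
  have hlow' := not_lt.1 hlow
  constructor
  · intro h
    have h1 := hU h x hx w hw
    have h2 := hU h w hw x hx
    constructor <;> linarith
  · intro h
    have h1 := hD h x hx w hw
    have h2 := hD h w hw x hx
    constructor <;> linarith

/-- The empty graph has rank at most `m`, if `1 ≤ m`. -/
theorem Rk.bot {Y : Type} {m : ℕ} (hm : 1 ≤ m) {G : Y → Y → Prop} (hG : ∀ v w, ¬ G v w) (A : Finset Y) :
    Rk G m m A := by
  obtain ⟨n, rfl⟩ : ∃ n, m = n + 1 := ⟨m - 1, by omega⟩
  intro v _
  refine ⟨fun _ => 0, fun c => ?_⟩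
  refine Rk.subset (A := ∅) ?_ (Rk.empty _ _ _)
  intro w hw
  exact absurd (Finset.mem_filter.1 hw).2.2.1 (hG _ _)

end Pool.Agent.Lib.MP_293cc0_an.R
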