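import Pool.Agent.Lib.MP_293cc0_an.R.Process
import Pool.Agent.Lib.MP_293cc0_an.R.End
import Pool.Agent.Lib.MP_293cc0_an.Final

/-!
# MP_293cc0_an, the reduction (R): the polylogarithmic lower bound

Assembly: `process` with `N = (4 (1024 p ^ 10) ^ 10 + 1) ^ 3` and `sav_of_picks`; then `lower_of_sav`.
-/

set_option autoImplicit false

namespace Pool.Agent.Lib.MP_293cc0_an.R

open Finset
open scoped Classical

theorem poly_bound {p k₁ : ℕ} (hp : 1 ≤ p) :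
    k₁ * (p + (4 * (1024 * p ^ 10) ^ 10 + 1) ^ 3) ^ k₁ ≤
      (k₁ * 2 ^ (400 * k₁) + 300 * k₁) * p ^ (k₁ * 2 ^ (400 * k₁) + 300 * k₁) := by
  have h0 : 1 ≤ p ^ 100 := Nat.one_le_pow _ _ hp
  have e1 : (1024 * p ^ 10) ^ 10 = 2 ^ 100 * p ^ 100 := by
    rw [mul_pow, ← pow_mul]; norm_num
  have h1 : 4 * (1024 * p ^ 10) ^ 10 + 1 ≤ 2 ^ 103 * p ^ 100 := by
    rw [e1]
    have : (2 : ℕ) ^ 103 * p ^ 100 = 4 * (2 ^ 100 * p ^ 100) + 4 * (2 ^ 100 * p ^ 100) := by ring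
    rw [this]
    have h2 : 1 ≤ 4 * (2 ^ 100 * p ^ 100) := by nlinarith
    omega
  have h2 : (4 * (1024 * p ^ 10) ^ 10 + 1) ^ 3 ≤ 2 ^ 309 * p ^ 300 := by
    calc (4 * (1024 * p ^ 10) ^ 10 + 1) ^ 3 ≤ (2 ^ 103 * p ^ 100) ^ 3 := Nat.pow_le_pow_left h1 3
      _ = 2 ^ 309 * p ^ 300 := by rw [mul_pow, ← pow_mul, ← pow_mul]
  have h3 : p ≤ 2 ^ 309 * p ^ 300 := by
    calc p = 1 * p ^ 1 := by rw [one_mul, pow_one]
      _ ≤ 2 ^ 309 * p ^ 300 := Nat.mul_le_mul (Nat.one_le_two_pow) (Nat.pow_le_pow_right hp (by norm_num))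
  have h4 : p + (4 * (1024 * p ^ 10) ^ 10 + 1) ^ 3 ≤ 2 ^ 310 * p ^ 300 := by
    have e2 : (2 : ℕ) ^ 310 = 2 * 2 ^ 309 := pow_succ' 2 309
    rw [e2, mul_assoc, two_mul]
    exact Nat.add_le_add h3 h2
  calc k₁ * (p + (4 * (1024 * p ^ 10) ^ 10 + 1) ^ 3) ^ k₁
      ≤ k₁ * (2 ^ 310 * p ^ 300) ^ k₁ := Nat.mul_le_mul_left _ (Nat.pow_le_pow_left h4 _)
    _ = k₁ * 2 ^ (310 * k₁) * p ^ (300 * k₁) := by
        rw [mul_pow, ← pow_mul, ← pow_mul]; ring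
    _ ≤ (k₁ * 2 ^ (400 * k₁) + 300 * k₁) * p ^ (k₁ * 2 ^ (400 * k₁) + 300 * k₁) := by
        refine Nat.mul_le_mul ?_ (Nat.pow_le_pow_right hp (Nat.le_add_left _ _))
        refine le_trans (Nat.mul_le_mul_left _ (Nat.pow_le_pow_right (by norm_num) ?_))
          (Nat.le_add_right _ _)
        omega

/-- **The reduction (R).** -/
theorem sav_poly : ∃ k : ℕ, 1 ≤ k ∧ ∀ (X : Type) [MetricSpace X] [Fintype X] (p : ℕ), 1 ≤ p →
    2 ^ (k * p ^ k) ≤ Fintype.card X → Sav X p := by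
  obtain ⟨k₁, hk₁, hproc⟩ := process
  refine ⟨k₁ * 2 ^ (400 * k₁) + 300 * k₁, by omega, ?_⟩
  intro X _ _ p hp hX
  by_contra hns
  obtain ⟨P⟩ := hproc X p ((4 * (1024 * p ^ 10) ^ 10 + 1) ^ 3) hp (Nat.one_le_pow _ _ (by omega)) hns
    Finset.univ (by
      rw [Finset.card_univ]
      exact (Nat.pow_le_pow_right (by norm_num) (poly_bound hp)).trans hX)
  exact hns (sav_of_picks hp P)

/-- **The lower bound**: `n - d(n) ≥ (log n) ^ c` for all large `n`, for some `c > 0`. -/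
theorem lower : ∃ c : ℝ, 0 < c ∧ ∀ᶠ n : ℕ in Filter.atTop, (Real.log n) ^ c ≤ (n : ℝ) - dmin n := by
  obtain ⟨k, hk, h⟩ := sav_poly
  exact ⟨1 / (2 * k : ℝ), by positivity, lower_of_sav k hk (fun X _ _ p hp hX => h X p hp hX)⟩

end Pool.Agent.Lib.MP_293cc0_an.R
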