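import Pool.Agent.Lib.MP_293cc0_an.R.Double

/-!
# MP_293cc0_an, reduction: pairs with constant rows

`p` pairs `a l, b l` such that the double star with the centre edge `a l, b l` and the later points `a k` and the earlier
points `b k` on one side, the later points `b k` and the earlier points `a k` on the other side, is a partial potential:
savings `p`. In particular this holds if the rows of `a l` and `b l` at all later pairs are in two windows and the pair
`a l, b l` is above both of them.
-/

set_option autoImplicit false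

namespace Pool.Agent.Lib.MP_293cc0_an.R

open Finset

variable {X : Type} [MetricSpace X]

theorem pairs_sav (p : ℕ) (a b : ℕ → X)
    (ha : ∀ i j, i < p → j < p → a i = a j → i = j)
    (hb : ∀ i j, i < p → j < p → b i = b j → i = j)
    (hab : ∀ i j, i < p → j < p → a i ≠ b j)
    (haa : ∀ l i j, l < p → i < p → j < p → l < i → l < j → dist (a i) (b l) + dist (a l) (b j) ≤
      dist (a l) (b l) + dist (a i) (b j))
    (hax : ∀ l i j, l < p → i < p → l < i → j < l → dist (a i) (b l) + dist (a l) (a j) ≤
      dist (a l) (b l) + dist (a i) (a j))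
    (hxb : ∀ l i j, l < p → j < p → i < l → l < j → dist (b i) (b l) + dist (a l) (b j) ≤
      dist (a l) (b l) + dist (b i) (b j))
    (hxx : ∀ l i j, l < p → i < l → j < l → dist (b i) (b l) + dist (a l) (a j) ≤
      dist (a l) (b l) + dist (b i) (a j)) : Sav X p := by
  classical
  have hF : ∀ l : Fin p, ∃ f : PF X,
      (∀ x ∈ insert (a l.1) ((Finset.Ioo l.1 p).image a ∪ (Finset.range l.1).image b), f.cov x (b l.1)) ∧
      ∀ y ∈ insert (b l.1) ((Finset.Ioo l.1 p).image b ∪ (Finset.range l.1).image a),
        f.cov (a l.1) y := by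
    intro l
    have hl := l.2
    refine double _ _ (Finset.mem_insert_self _ _) (Finset.mem_insert_self _ _) ?_ ?_
    · rw [Finset.disjoint_left]
      intro x hx hx'
      have h1 : (∃ i, l.1 ≤ i ∧ i < p ∧ a i = x) ∨ (∃ i, i < l.1 ∧ b i = x) := by
        rcases Finset.mem_insert.1 hx with rfl | hx
        · exact Or.inl ⟨l.1, le_rfl, hl, rfl⟩
        · rcases Finset.mem_union.1 hx with hx | hx
          · obtain ⟨i, hi, rfl⟩ := Finset.mem_image.1 hx
            rw [Finset.mem_Ioo] at hi
            exact Or.inl ⟨i, hi.1.le, hi.2, rfl⟩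
          · obtain ⟨i, hi, rfl⟩ := Finset.mem_image.1 hx
            exact Or.inr ⟨i, Finset.mem_range.1 hi, rfl⟩
      have h2 : (∃ i, l.1 ≤ i ∧ i < p ∧ b i = x) ∨ (∃ i, i < l.1 ∧ a i = x) := by
        rcases Finset.mem_insert.1 hx' with rfl | hx
        · exact Or.inl ⟨l.1, le_rfl, hl, rfl⟩
        · rcases Finset.mem_union.1 hx with hx | hx
          · obtain ⟨i, hi, rfl⟩ := Finset.mem_image.1 hx
            rw [Finset.mem_Ioo] at hi
            exact Or.inl ⟨i, hi.1.le, hi.2, rfl⟩
          · obtain ⟨i, hi, rfl⟩ := Finset.mem_image.1 hx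
            exact Or.inr ⟨i, Finset.mem_range.1 hi, rfl⟩
      rcases h1 with ⟨i, hi1, hi2, rfl⟩ | ⟨i, hi, rfl⟩
      · rcases h2 with ⟨j, hj1, hj2, h3⟩ | ⟨j, hj, h3⟩
        · exact hab i j hi2 hj2 h3.symm
        · have := ha j i (by omega) hi2 h3
          omega
      · rcases h2 with ⟨j, hj1, hj2, h3⟩ | ⟨j, hj, h3⟩
        · have := hb j i hj2 (by omega) h3
          omega
        · exact hab j i (by omega) (by omega) h3
    · intro x hx y hy
      rcases Finset.mem_insert.1 hx with rfl | hx
      · linarith
      · rcases Finset.mem_insert.1 hy with rfl | hy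
        · linarith
        · rcases Finset.mem_union.1 hx with hx | hx
          · obtain ⟨i, hi, rfl⟩ := Finset.mem_image.1 hx
            rw [Finset.mem_Ioo] at hi
            rcases Finset.mem_union.1 hy with hy | hy
            · obtain ⟨j, hj, rfl⟩ := Finset.mem_image.1 hy
              rw [Finset.mem_Ioo] at hj
              exact haa l.1 i j hl hi.2 hj.2 hi.1 hj.1
            · obtain ⟨j, hj, rfl⟩ := Finset.mem_image.1 hy
              rw [Finset.mem_range] at hj
              exact hax l.1 i j hl hi.2 hi.1 hj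
          · obtain ⟨i, hi, rfl⟩ := Finset.mem_image.1 hx
            rw [Finset.mem_range] at hi
            rcases Finset.mem_union.1 hy with hy | hy
            · obtain ⟨j, hj, rfl⟩ := Finset.mem_image.1 hy
              rw [Finset.mem_Ioo] at hj
              exact hxb l.1 i j hl hj.2 hi hj.1
            · obtain ⟨j, hj, rfl⟩ := Finset.mem_image.1 hy
              rw [Finset.mem_range] at hj
              exact hxx l.1 i j hl hi hj
  choose F hF1 hF2 using hF
  refine sav_of_pf_family ((Finset.range p).image a ∪ (Finset.range p).image b) (ι := Fin p) p ?_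
    F ?_
  · rw [Finset.card_union_of_disjoint, Finset.card_image_of_injOn, Finset.card_image_of_injOn]
    · simp only [Finset.card_range, Fintype.card_fin]
    · intro i hi j hj hij
      rw [Finset.coe_range, Set.mem_Iio] at hi hj
      exact hb i j hi hj hij
    · intro i hi j hj hij
      rw [Finset.coe_range, Set.mem_Iio] at hi hj
      exact ha i j hi hj hij
    · rw [Finset.disjoint_left]
      intro x hx hx'
      obtain ⟨i, hi, rfl⟩ := Finset.mem_image.1 hx
      obtain ⟨j, hj, h2⟩ := Finset.mem_image.1 hx'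
      exact hab _ _ (Finset.mem_range.1 hi) (Finset.mem_range.1 hj) h2.symm
  · have sw : ∀ x y, (∃ i, (F i).cov x y) → ∃ i, (F i).cov y x := by
      rintro x y ⟨i, hi⟩
      exact ⟨i, PF.cov_symm hi⟩
    have cab : ∀ i, i < p → ∃ l, (F l).cov (a i) (b i) := by
      intro i hi
      exact ⟨⟨i, hi⟩, hF1 ⟨i, hi⟩ _ (Finset.mem_insert_self _ _)⟩
    have caa : ∀ i j, i < j → j < p → ∃ l, (F l).cov (a i) (a j) := by
      intro i j hij hj
      refine sw _ _ ⟨⟨j, hj⟩, hF2 ⟨j, hj⟩ _ (Finset.mem_insert_of_mem (Finset.mem_union_right _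
        (Finset.mem_image_of_mem _ (Finset.mem_range.2 hij))))⟩
    have cbb : ∀ i j, i < j → j < p → ∃ l, (F l).cov (b i) (b j) := by
      intro i j hij hj
      refine ⟨⟨j, hj⟩, hF1 ⟨j, hj⟩ _ (Finset.mem_insert_of_mem (Finset.mem_union_right _
        (Finset.mem_image_of_mem _ (Finset.mem_range.2 hij))))⟩
    have cab' : ∀ i j, i < p → j < p → ∃ l, (F l).cov (a i) (b j) := by
      intro i j hi hj
      rcases lt_trichotomy i j with h | h | h
      · exact ⟨⟨i, hi⟩, hF2 ⟨i, hi⟩ _ (Finset.mem_insert_of_mem (Finset.mem_union_left _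
          (Finset.mem_image_of_mem _ (Finset.mem_Ioo.2 ⟨h, hj⟩))))⟩
      · subst h
        exact cab i hi
      · exact ⟨⟨j, hj⟩, hF1 ⟨j, hj⟩ _ (Finset.mem_insert_of_mem (Finset.mem_union_left _
          (Finset.mem_image_of_mem _ (Finset.mem_Ioo.2 ⟨h, hi⟩))))⟩
    intro x hx y hy hxy
    rcases Finset.mem_union.1 hx with hx | hx
    · obtain ⟨i, hi, rfl⟩ := Finset.mem_image.1 hx
      rw [Finset.mem_range] at hi
      rcases Finset.mem_union.1 hy with hy | hy
      · obtain ⟨j, hj, rfl⟩ := Finset.mem_image.1 hy
        rw [Finset.mem_range] at hj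
        have hij : i ≠ j := fun e => hxy (by rw [e])
        rcases lt_or_gt_of_ne hij with h1 | h1
        · exact caa i j h1 hj
        · exact sw _ _ (caa j i h1 hi)
      · obtain ⟨j, hj, rfl⟩ := Finset.mem_image.1 hy
        rw [Finset.mem_range] at hj
        exact cab' i j hi hj
    · obtain ⟨i, hi, rfl⟩ := Finset.mem_image.1 hx
      rw [Finset.mem_range] at hi
      rcases Finset.mem_union.1 hy with hy | hy
      · obtain ⟨j, hj, rfl⟩ := Finset.mem_image.1 hy
        rw [Finset.mem_range] at hj
        exact sw _ _ (cab' j i hj hi)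
      · obtain ⟨j, hj, rfl⟩ := Finset.mem_image.1 hy
        rw [Finset.mem_range] at hj
        have hij : i ≠ j := fun e => hxy (by rw [e])
        rcases lt_or_gt_of_ne hij with h1 | h1
        · exact cbb i j h1 hj
        · exact sw _ _ (cbb j i h1 hi)

/-- Pairs whose rows at all later pairs are in two fixed windows `[α - s, α]` and `[β - s, β]`, and which are themselves
above `max α β + s`. -/
theorem pairs_window (p : ℕ) (g : X → ℝ) (α β s : ℝ) (hs : 0 ≤ s) (a b : ℕ → X)
    (ne : ∀ i, i < p → a i ≠ b i)
    (hne : ∀ i j, i < j → j < p → a i ≠ a j ∧ a i ≠ b j ∧ b i ≠ a j ∧ b i ≠ b j)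
    (haa : ∀ i j, i < j → j < p → α - s ≤ dist (a i) (a j) - g (a i) - g (a j) ∧
      dist (a i) (a j) - g (a i) - g (a j) ≤ α)
    (hab : ∀ i j, i < j → j < p → α - s ≤ dist (a i) (b j) - g (a i) - g (b j) ∧
      dist (a i) (b j) - g (a i) - g (b j) ≤ α)
    (hba : ∀ i j, i < j → j < p → β - s ≤ dist (b i) (a j) - g (b i) - g (a j) ∧
      dist (b i) (a j) - g (b i) - g (a j) ≤ β)
    (hbb : ∀ i j, i < j → j < p → β - s ≤ dist (b i) (b j) - g (b i) - g (b j) ∧
      dist (b i) (b j) - g (b i) - g (b j) ≤ β)
    (hh : ∀ i, i < p → α + s ≤ dist (a i) (b i) - g (a i) - g (b i) ∧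
      β + s ≤ dist (a i) (b i) - g (a i) - g (b i)) : Sav X p := by
  have key1 : ∀ i j, i < p → j < p → (α - s ≤ dist (a i) (b j) - g (a i) - g (b j) ∨
      β - s ≤ dist (a i) (b j) - g (a i) - g (b j)) := by
    intro i j hi hj
    rcases lt_trichotomy i j with h | h | h
    · exact Or.inl (hab i j h hj).1
    · subst h
      left
      have := (hh i hi).1
      linarith
    · right
      have := (hba j i h hi).1
      rw [dist_comm (a i) (b j)]
      linarith
  apply pairs_sav p a b
  · intro i j hi hj h
    rcases lt_trichotomy i j with h1 | h1 | h1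
    · exact absurd h (hne i j h1 hj).1
    · exact h1
    · exact absurd h.symm (hne j i h1 hi).1
  · intro i j hi hj h
    rcases lt_trichotomy i j with h1 | h1 | h1
    · exact absurd h (hne i j h1 hj).2.2.2
    · exact h1
    · exact absurd h.symm (hne j i h1 hi).2.2.2
  · intro i j hi hj h
    rcases lt_trichotomy i j with h1 | h1 | h1
    · exact (hne i j h1 hj).2.1 h
    · subst h1
      exact ne i hi h
    · exact (hne j i h1 hi).2.2.1 h.symm
  · intro l i j hl hi hj hli hlj
    have h1 := (hba l i hli hi).2
    have h2 := (hab l j hlj hj).2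
    have h3 := hh l hl
    rw [dist_comm (b l) (a i)] at h1
    rcases key1 i j hi hj with h4 | h4
    · linarith
    · linarith
  · intro l i j hl hi hli hjl
    have h1 := (hba l i hli hi).2
    have h2 := (haa j l hjl hl).2
    have h3 := hh l hl
    have h4 := (haa j i (lt_trans hjl hli) hi).1
    rw [dist_comm (b l) (a i)] at h1
    rw [dist_comm (a j) (a l)] at h2
    rw [dist_comm (a j) (a i)] at h4
    linarith
  · intro l i j hl hj hil hlj
    have h1 := (hbb i l hil hl).2
    have h2 := (hab l j hlj hj).2
    have h3 := hh l hl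
    have h4 := (hbb i j (lt_trans hil hlj) hj).1
    linarith
  · intro l i j hl hil hjl
    have h1 := (hbb i l hil hl).2
    have h2 := (haa j l hjl hl).2
    have h3 := hh l hl
    rw [dist_comm (a j) (a l)] at h2
    rcases key1 j i (by omega) (by omega) with h4 | h4
    · rw [dist_comm (a j) (b i)] at h4
      linarith
    · rw [dist_comm (a j) (b i)] at h4
      linarith

end Pool.Agent.Lib.MP_293cc0_an.R
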