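import Pool.Agent.Lib.MP_293cc0_an.R.Greedy
import Pool.Agent.Lib.MP_293cc0_an.R.Pairs

/-!
# MP_293cc0_an, reduction: near-hyperbolicity

`Typ q g d U`: for every `v ∈ U` the pairs `v w` with `|MG g v w| > d` are rare in `U` (a fraction `≤ 2 ^ (-q)`).
`NH g ε s U`: for all `a ≠ b` in `U` the points `w ∈ U` with `MG g a b > max (MG g a w) (MG g b w) + 2 ε` are rare.
`exists_nh`: a typical set contains a near-hyperbolic set, or there are savings.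
-/

set_option autoImplicit false

namespace Pool.Agent.Lib.MP_293cc0_an.R

open Finset
open scoped Classical

variable {X : Type} [MetricSpace X]

/-- Typical pairs have `|MG g v w| ≤ d`. -/
def Typ (q : ℕ) (g : X → ℝ) (d : ℝ) (U : Finset X) : Prop :=
  ∀ v ∈ U, 2 ^ q * (U.filter (fun w => w ≠ v ∧ d < |MG g v w|)).card ≤ U.card

/-- The exceptional third points of a pair. -/
noncomputable def Exc (g : X → ℝ) (ε : ℝ) (U : Finset X) (a b : X) : Finset X :=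
  U.filter (fun w => w ≠ a ∧ w ≠ b ∧ MG g a w + 2 * ε < MG g a b ∧ MG g b w + 2 * ε < MG g a b)

/-- Near-hyperbolic sets. -/
def NH (g : X → ℝ) (ε : ℝ) (s : ℕ) (U : Finset X) : Prop :=
  ∀ a ∈ U, ∀ b ∈ U, a ≠ b → 2 ^ s * (Exc g ε U a b).card < U.card

/-- The window of a real number. -/
noncomputable def win (J : ℕ) (ε x : ℝ) : Fin (2 * J + 1) :=
  ⟨(⌊x / ε⌋ + J).toNat ⊓ (2 * J), by omega⟩

theorem win_spec {J : ℕ} {ε x d : ℝ} (hε : 0 < ε) (hd : d ≤ J * ε) (hx : |x| ≤ d) :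
    ((win J ε x : ℕ) : ℝ) * ε - J * ε ≤ x ∧ x ≤ ((win J ε x : ℕ) : ℝ) * ε - J * ε + ε := by
  have h1 : -(J : ℝ) * ε ≤ x := by
    have := neg_le_of_abs_le (hx.trans hd)
    linarith
  have h2 : x ≤ J * ε := le_of_abs_le (hx.trans hd)
  have h3 : -(J : ℤ) ≤ ⌊x / ε⌋ := by
    rw [Int.le_floor]
    push_cast
    rw [le_div_iff₀ hε]
    exact h1
  have h4 : ⌊x / ε⌋ ≤ (J : ℤ) := by
    have h5 : x / ε ≤ J := by rw [div_le_iff₀ hε]; exact h2
    have h6 : ((⌊x / ε⌋ : ℤ) : ℝ) ≤ J := (Int.floor_le _).trans h5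
    exact_mod_cast h6
  have h5 : ((win J ε x : ℕ) : ℤ) = ⌊x / ε⌋ + J := by
    unfold win
    simp only
    have h6 : (⌊x / ε⌋ + J).toNat ⊓ (2 * J) = (⌊x / ε⌋ + J).toNat := by
      apply min_eq_left
      omega
    rw [h6]
    omega
  have h6 : ((win J ε x : ℕ) : ℝ) = (⌊x / ε⌋ : ℝ) + J := by
    have : (((win J ε x : ℕ) : ℤ) : ℝ) = ((⌊x / ε⌋ + J : ℤ) : ℝ) := by rw [h5]
    push_cast at this
    exact this
  rw [h6]
  have h7 := Int.floor_le (x / ε)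
  have h8 := Int.lt_floor_add_one (x / ε)
  rw [le_div_iff₀ hε] at h7
  rw [div_lt_iff₀ hε] at h8
  constructor
  · nlinarith
  · nlinarith

theorem Typ.card_le {q K c : ℕ} {g : X → ℝ} {d : ℝ} {U A E : Finset X} (hT : Typ q g d U)
    (hA : Cost K A U) (hE : A.card ≤ 2 ^ c * E.card) {k : ℕ} (hq : K + c + k ≤ q) {v : X} (hv : v ∈ U) :
    2 ^ k * (U.filter (fun w => w ≠ v ∧ d < |MG g v w|)).card ≤ E.card := by
  have h1 := hT v hv
  have h2 : 2 ^ (K + c) * (2 ^ k * (U.filter (fun w => w ≠ v ∧ d < |MG g v w|)).card) ≤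
      2 ^ (K + c) * E.card := by
    calc 2 ^ (K + c) * (2 ^ k * (U.filter (fun w => w ≠ v ∧ d < |MG g v w|)).card)
        = 2 ^ (K + c + k) * (U.filter (fun w => w ≠ v ∧ d < |MG g v w|)).card := by
          rw [pow_add _ (K + c) k]; ring
      _ ≤ 2 ^ q * (U.filter (fun w => w ≠ v ∧ d < |MG g v w|)).card :=
          Nat.mul_le_mul_right _ (Nat.pow_le_pow_right (by norm_num) hq)
      _ ≤ U.card := h1
      _ ≤ 2 ^ K * A.card := hA.2
      _ ≤ 2 ^ K * (2 ^ c * E.card) := Nat.mul_le_mul_left _ hE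
      _ = 2 ^ (K + c) * E.card := by rw [pow_add]; ring
  exact Nat.le_of_mul_le_mul_left h2 (by positivity)

/-- **NH lemma.** -/
theorem exists_nh (p J W s q : ℕ) (hW : (2 * J + 1) ^ 2 ≤ 2 ^ W) {g : X → ℝ} {d ε : ℝ} (hε : 0 < ε)
    (hd : d ≤ J * ε) (U : Finset X) (hU : U.Nonempty) (hT : Typ q g d U)
    (hq : (2 * J + 1) ^ 2 * p * (s + 1 + W) + s + 2 ≤ q) :
    Sav X p ∨ ∃ U₁, Cost ((2 * J + 1) ^ 2 * p * (s + 1 + W)) U₁ U ∧ NH g ε s U₁ := by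
  classical
  have : Nonempty X := ⟨hU.choose⟩
  obtain ⟨K, hK⟩ : ∃ K, K = (2 * J + 1) ^ 2 * p * (s + 1 + W) := ⟨_, rfl⟩
  rw [← hK] at hq ⊢
  obtain ⟨P, hP⟩ : ∃ P : Fin (2 * J + 1) × Fin (2 * J + 1) → X → X → Prop, P = fun γ a b =>
    a ≠ b ∧ ((γ.1 : ℕ) : ℝ) * ε - J * ε + 2 * ε ≤ MG g a b ∧
      ((γ.2 : ℕ) : ℝ) * ε - J * ε + 2 * ε ≤ MG g a b := ⟨_, rfl⟩
  obtain ⟨R, hR⟩ : ∃ R : Fin (2 * J + 1) × Fin (2 * J + 1) → X → X → X → Prop, R = fun γ a b w =>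
    a ≠ w ∧ b ≠ w ∧ (((γ.1 : ℕ) : ℝ) * ε - J * ε ≤ MG g a w ∧
      MG g a w ≤ ((γ.1 : ℕ) : ℝ) * ε - J * ε + ε) ∧ (((γ.2 : ℕ) : ℝ) * ε - J * ε ≤ MG g b w ∧
      MG g b w ≤ ((γ.2 : ℕ) : ℝ) * ε - J * ε + ε) := ⟨_, rfl⟩
  have hstep : ∀ A, Cost K A U → ¬ NH g ε s A → ∃ a ∈ A, ∃ b ∈ A,
      ∃ γ : Fin (2 * J + 1) × Fin (2 * J + 1), P γ a b ∧ ∃ A', Cost (s + 1 + W) A' A ∧
      ∀ w ∈ A', R γ a b w := by
    intro A hA hN
    unfold NH at hN
    push Not at hN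
    obtain ⟨a, ha, b, hb, hab, hE⟩ := hN
    obtain ⟨E, hEd⟩ : ∃ E, E = Exc g ε A a b := ⟨_, rfl⟩
    rw [← hEd] at hE
    obtain ⟨Da, hDa⟩ : ∃ D, D = U.filter (fun w => w ≠ a ∧ d < |MG g a w|) := ⟨_, rfl⟩
    obtain ⟨Db, hDb⟩ : ∃ D, D = U.filter (fun w => w ≠ b ∧ d < |MG g b w|) := ⟨_, rfl⟩
    have h1 : 2 ^ 2 * Da.card ≤ E.card := by
      rw [hDa]; exact hT.card_le hA hE hq (hA.1 ha)
    have h2 : 2 ^ 2 * Db.card ≤ E.card := by
      rw [hDb]; exact hT.card_le hA hE hq (hA.1 hb)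
    have h3 : E.card ≤ 2 * (E \ (Da ∪ Db)).card := by
      have h4 := Finset.le_card_sdiff (Da ∪ Db) E
      have h5 := Finset.card_union_le Da Db
      omega
    obtain ⟨γ, B, hB, hBc⟩ := exists_popular (E \ (Da ∪ Db))
      (fun w => (win J ε (MG g a w), win J ε (MG g b w)))
    rw [Fintype.card_prod, Fintype.card_fin] at hBc
    have hBE : ∀ w ∈ B, w ∈ A ∧ w ≠ a ∧ w ≠ b ∧ MG g a w + 2 * ε < MG g a b ∧
        MG g b w + 2 * ε < MG g a b ∧ |MG g a w| ≤ d ∧ |MG g b w| ≤ d := by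
      intro w hw
      have h6 := ((hB w).1 hw).1
      rw [Finset.mem_sdiff, Finset.mem_union, hEd, hDa, hDb] at h6
      unfold Exc at h6
      simp only [Finset.mem_filter] at h6
      obtain ⟨⟨h7, h8, h9, h10, h11⟩, h12⟩ := h6
      have h13 := hA.1 h7
      refine ⟨h7, h8, h9, h10, h11, ?_, ?_⟩
      · by_contra h14
        push Not at h14
        exact h12 (Or.inl ⟨h13, h8, h14⟩)
      · by_contra h14
        push Not at h14
        exact h12 (Or.inr ⟨h13, h9, h14⟩)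
    have hcost : A.card ≤ 2 ^ (s + 1 + W) * B.card := by
      calc A.card ≤ 2 ^ s * E.card := hE
        _ ≤ 2 ^ s * (2 * (E \ (Da ∪ Db)).card) := Nat.mul_le_mul_left _ h3
        _ ≤ 2 ^ s * (2 * ((2 * J + 1) * (2 * J + 1) * B.card)) :=
            Nat.mul_le_mul_left _ (Nat.mul_le_mul_left _ hBc)
        _ = (2 * J + 1) ^ 2 * (2 ^ (s + 1) * B.card) := by rw [pow_succ]; ring
        _ ≤ 2 ^ W * (2 ^ (s + 1) * B.card) := Nat.mul_le_mul_right _ hW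
        _ = 2 ^ (s + 1 + W) * B.card := by rw [pow_add _ (s + 1) W]; ring
    have hwin : ∀ w ∈ B, (((γ.1 : ℕ) : ℝ) * ε - J * ε ≤ MG g a w ∧
      MG g a w ≤ ((γ.1 : ℕ) : ℝ) * ε - J * ε + ε) ∧ (((γ.2 : ℕ) : ℝ) * ε - J * ε ≤ MG g b w ∧
      MG g b w ≤ ((γ.2 : ℕ) : ℝ) * ε - J * ε + ε) := by
      intro w hw
      obtain ⟨_, _, _, _, _, h6, h7⟩ := hBE w hw
      have h8 := ((hB w).1 hw).2
      rw [← h8]
      exact ⟨win_spec hε hd h6, win_spec hε hd h7⟩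
    have hAc : 0 < A.card := Finset.card_pos.2 ⟨a, ha⟩
    have hBc' : 0 < B.card := by
      by_contra h6
      have h7 : B.card = 0 := by omega
      rw [h7] at hcost
      omega
    obtain ⟨w, hw⟩ := Finset.card_pos.1 hBc'
    refine ⟨a, ha, b, hb, γ, ?_, B, ⟨?_, hcost⟩, ?_⟩
    · rw [hP]
      obtain ⟨h6, h7⟩ := hwin w hw
      obtain ⟨_, _, _, h8, h9, _, _⟩ := hBE w hw
      exact ⟨hab, by linarith [h6.1], by linarith [h7.1]⟩
    · intro x hx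
      exact (hBE x hx).1
    · intro x hx
      rw [hR]
      obtain ⟨_, h8, h9, _⟩ := hBE x hx
      exact ⟨h8.symm, h9.symm, hwin x hx⟩
  rcases greedy_pairs P R (NH g ε s) (s + 1 + W) K U hstep ((2 * J + 1) ^ 2 * p) 0 U (Cost.refl U)
    (by rw [hK, Nat.zero_add]) with h | ⟨a, b, γ, h1, h2⟩
  · right
    rw [hK]
    exact h
  · left
    obtain ⟨c, r, hr1, hr2⟩ := exists_const_sub ((2 * J + 1) ^ 2 * p) p γ (by
      rw [Fintype.card_prod, Fintype.card_fin, sq])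
    rw [hP] at h1
    rw [hR] at h2
    have h3 : ∀ i j, i < j → j < p → a (r i) ≠ a (r j) ∧ b (r i) ≠ a (r j) ∧
        (((c.1 : ℕ) : ℝ) * ε - J * ε ≤ MG g (a (r i)) (a (r j)) ∧
          MG g (a (r i)) (a (r j)) ≤ ((c.1 : ℕ) : ℝ) * ε - J * ε + ε) ∧
        (((c.2 : ℕ) : ℝ) * ε - J * ε ≤ MG g (b (r i)) (a (r j)) ∧
          MG g (b (r i)) (a (r j)) ≤ ((c.2 : ℕ) : ℝ) * ε - J * ε + ε) := by
      intro i j hij hj
      have h4 := (h2 (r i) (r j) (hr1 i j hij hj) (hr2 j hj).1).1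
      rw [(hr2 i (lt_trans hij hj)).2] at h4
      exact h4
    have h3' : ∀ i j, i < j → j < p → a (r i) ≠ b (r j) ∧ b (r i) ≠ b (r j) ∧
        (((c.1 : ℕ) : ℝ) * ε - J * ε ≤ MG g (a (r i)) (b (r j)) ∧
          MG g (a (r i)) (b (r j)) ≤ ((c.1 : ℕ) : ℝ) * ε - J * ε + ε) ∧
        (((c.2 : ℕ) : ℝ) * ε - J * ε ≤ MG g (b (r i)) (b (r j)) ∧
          MG g (b (r i)) (b (r j)) ≤ ((c.2 : ℕ) : ℝ) * ε - J * ε + ε) := by
      intro i j hij hj
      have h4 := (h2 (r i) (r j) (hr1 i j hij hj) (hr2 j hj).1).2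
      rw [(hr2 i (lt_trans hij hj)).2] at h4
      exact h4
    refine pairs_window p g (((c.1 : ℕ) : ℝ) * ε - J * ε + ε) (((c.2 : ℕ) : ℝ) * ε - J * ε + ε) ε
      hε.le (fun i => a (r i)) (fun i => b (r i)) ?_ ?_ ?_ ?_ ?_ ?_ ?_
    · intro i hi
      exact (h1 (r i) (hr2 i hi).1).2.2.1
    · intro i j hij hj
      exact ⟨(h3 i j hij hj).1, (h3' i j hij hj).1, (h3 i j hij hj).2.1, (h3' i j hij hj).2.1⟩
    · intro i j hij hj
      obtain ⟨h5, h6⟩ := (h3 i j hij hj).2.2.1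
      unfold MG at h5 h6
      exact ⟨by linarith, h6⟩
    · intro i j hij hj
      obtain ⟨h5, h6⟩ := (h3' i j hij hj).2.2.1
      unfold MG at h5 h6
      exact ⟨by linarith, h6⟩
    · intro i j hij hj
      obtain ⟨h5, h6⟩ := (h3 i j hij hj).2.2.2
      unfold MG at h5 h6
      exact ⟨by linarith, h6⟩
    · intro i j hij hj
      obtain ⟨h5, h6⟩ := (h3' i j hij hj).2.2.2
      unfold MG at h5 h6
      exact ⟨by linarith, h6⟩
    · intro i hi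
      have h5 := (h1 (r i) (hr2 i hi).1).2.2.2
      rw [(hr2 i hi).2] at h5
      unfold MG at h5
      exact ⟨by linarith [h5.1], by linarith [h5.2]⟩

end Pool.Agent.Lib.MP_293cc0_an.R
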