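import Pool.Agent.Lib.MP_293cc0_an.R.Defs
import Pool.Agent.Lib.MP_293cc0_an.R.Pure

/-!
# MP_293cc0_an, reduction: levels of tiny scale, near-minimal levels (5.1, 5.2)
-/

set_option autoImplicit false

namespace Pool.Agent.Lib.MP_293cc0_an.R

open Finset
open scoped Classical

section Graph

variable {X : Type}

/-- Greedy independent sets. -/
theorem exists_indep_greedy {G : X → X → Prop} (hG : ∀ v w, G v w → G w v) {A : Finset X} {K : ℕ}
    (hA : ∀ v ∈ A, (A.filter (fun w => w ≠ v ∧ G v w)).card ≤ K) :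
    ∀ N : ℕ, N * (K + 1) ≤ A.card →
      ∃ S ⊆ A, S.card = N ∧ ∀ v ∈ S, ∀ w ∈ S, v ≠ w → ¬ G v w := by
  classical
  intro N
  induction N with
  | zero =>
    intro _
    exact ⟨∅, by simp, by simp, by simp⟩
  | succ N ih =>
    intro h
    have h0 : (N + 1) * (K + 1) = N * (K + 1) + (K + 1) := by ring
    obtain ⟨S, hSA, hSc, hS⟩ := ih (by omega)
    have h1 : (S.biUnion (fun v => insert v (A.filter (fun w => w ≠ v ∧ G v w)))).card ≤
        S.card * (K + 1) := by
      apply Finset.card_biUnion_le_card_mul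
      intro v hv
      refine (Finset.card_insert_le _ _).trans ?_
      have := hA v (hSA hv)
      omega
    obtain ⟨w, hwA, hw⟩ : ∃ w ∈ A, w ∉ S.biUnion (fun v => insert v (A.filter (fun w => w ≠ v ∧ G v w))) := by
      by_contra hcon
      push Not at hcon
      have := Finset.card_le_card (fun w hw => hcon w hw : A ⊆ _)
      rw [hSc] at h1
      omega
    have hw' : ∀ v ∈ S, w ≠ v ∧ ¬ G v w := by
      intro v hv
      have h2 : w ∉ insert v (A.filter (fun w => w ≠ v ∧ G v w)) := by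
        intro h3
        exact hw (Finset.mem_biUnion.2 ⟨v, hv, h3⟩)
      rw [Finset.mem_insert, Finset.mem_filter] at h2
      push Not at h2
      exact ⟨h2.1, fun h4 => h2.2 hwA h2.1 h4⟩
    have hwS : w ∉ S := fun h4 => (hw' w h4).1 rfl
    refine ⟨insert w S, ?_, ?_, ?_⟩
    · intro v hv
      rcases Finset.mem_insert.1 hv with rfl | hv
      · exact hwA
      · exact hSA hv
    · rw [Finset.card_insert_of_notMem hwS, hSc]
    · intro v hv v' hv' hne
      rw [Finset.mem_insert] at hv hv'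
      rcases hv with e | hv
      · rcases hv' with e' | hv'
        · exact absurd (e.trans e'.symm) hne
        · rw [e]
          exact fun h5 => (hw' v' hv').2 (hG _ _ h5)
      · rcases hv' with e' | hv'
        · rw [e']
          exact (hw' v hv).2
        · exact hS v hv v' hv' hne

/-- A set of bounded rank contains large independent sets. -/
theorem Rk.indep {G : X → X → Prop} (hG : ∀ v w, G v w → G w v) {m N : ℕ} (hN : 1 ≤ N) :
    ∀ {n : ℕ} {A : Finset X}, Rk G m n A → (N * (m + 1)) ^ n ≤ A.card →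
      ∃ S ⊆ A, S.card = N ∧ ∀ v ∈ S, ∀ w ∈ S, v ≠ w → ¬ G v w := by
  classical
  intro n
  induction n with
  | zero =>
    intro A hA h
    have hA' : A = ∅ := hA
    subst hA'
    simp at h
  | succ n ih =>
    intro A hA h
    have ht : 1 ≤ (N * (m + 1)) ^ n := Nat.one_le_pow _ _ (by positivity)
    by_cases hcase : ∀ v ∈ A, (A.filter (fun w => w ≠ v ∧ G v w)).card ≤ m * (N * (m + 1)) ^ n
    · refine exists_indep_greedy hG hcase N (le_trans ?_ h)
      rw [pow_succ]
      calc N * (m * (N * (m + 1)) ^ n + 1) ≤ N * (m * (N * (m + 1)) ^ n + (N * (m + 1)) ^ n) :=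
            Nat.mul_le_mul_left _ (Nat.add_le_add_left ht _)
        _ = (N * (m + 1)) ^ n * (N * (m + 1)) := by ring
    · push Not at hcase
      obtain ⟨v, hv, hvc⟩ := hcase
      obtain ⟨f, hf⟩ := hA v hv
      obtain ⟨c, -, hc⟩ : ∃ c ∈ (Finset.univ : Finset (Fin m)),
          (N * (m + 1)) ^ n < ((A.filter (fun w => w ≠ v ∧ G v w)).filter (fun w => f w = c)).card := by
        apply Finset.exists_lt_card_fiber_of_mul_lt_card_of_maps_to
        · intro w _
          exact Finset.mem_univ _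
        · rw [Finset.card_univ, Fintype.card_fin]
          exact hvc
      have heq : (A.filter (fun w => w ≠ v ∧ G v w)).filter (fun w => f w = c) =
          A.filter (fun w => w ≠ v ∧ G v w ∧ f w = c) := by
        ext w
        simp only [Finset.mem_filter, and_assoc]
      rw [heq] at hc
      obtain ⟨S, hS, hSc, hSi⟩ := ih (hf c) hc.le
      exact ⟨S, hS.trans (Finset.filter_subset _ _), hSc, hSi⟩

end Graph

section Metric

variable {X : Type} [MetricSpace X]

/-- The non-zero differences of two sums are bounded below. -/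
theorem exists_tiny (V : Finset X) : ∃ s0 : ℝ, 0 < s0 ∧ ∀ a ∈ V, ∀ b ∈ V, ∀ c ∈ V, ∀ d ∈ V,
    dist a b + dist c d ≠ dist a c + dist b d →
      2 * s0 < |dist a b + dist c d - (dist a c + dist b d)| := by
  classical
  obtain ⟨F, hF⟩ : ∃ F : Finset ℝ, F = ((V ×ˢ (V ×ˢ (V ×ˢ V))).image
      (fun q => |dist q.1 q.2.1 + dist q.2.2.1 q.2.2.2 - (dist q.1 q.2.2.1 + dist q.2.1 q.2.2.2)|)).filter
      (fun r => r ≠ 0) := ⟨_, rfl⟩
  have hmem : ∀ a ∈ V, ∀ b ∈ V, ∀ c ∈ V, ∀ d ∈ V, dist a b + dist c d ≠ dist a c + dist b d →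
      |dist a b + dist c d - (dist a c + dist b d)| ∈ F := by
    intro a ha b hb c hc d hd h
    rw [hF, Finset.mem_filter]
    refine ⟨Finset.mem_image.2 ⟨(a, b, c, d), ?_, rfl⟩, ?_⟩
    · simp only [Finset.mem_product]
      exact ⟨ha, hb, hc, hd⟩
    · rw [abs_ne_zero]
      exact sub_ne_zero.2 h
  by_cases hne : F.Nonempty
  · obtain ⟨r, hr, hmin⟩ := F.exists_min_image id hne
    have hpos : 0 < r := by
      rw [hF, Finset.mem_filter, Finset.mem_image] at hr
      obtain ⟨⟨q, -, hq⟩, h0⟩ := hr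
      have h0' : 0 ≤ r := by rw [← hq]; exact abs_nonneg _
      exact lt_of_le_of_ne h0' (Ne.symm h0)
    refine ⟨r / 3, by positivity, fun a ha b hb c hc d hd h => ?_⟩
    have h1 : r ≤ |dist a b + dist c d - (dist a c + dist b d)| := hmin _ (hmem a ha b hb c hc d hd h)
    linarith
  · refine ⟨1, one_pos, fun a ha b hb c hc d hd h => absurd ⟨_, hmem a ha b hb c hc d hd h⟩ hne⟩

/-- **(5.2)** A large level of tiny scale gives savings. -/
theorem sav_of_tiny {s0 : ℝ} {V : Finset X} (hs0 : ∀ a ∈ V, ∀ b ∈ V, ∀ c ∈ V, ∀ d ∈ V,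
      dist a b + dist c d ≠ dist a c + dist b d →
      2 * s0 < |dist a b + dist c d - (dist a c + dist b d)|) {m : ℕ} {A : Finset X} {g : X → ℝ}
    {s : ℝ} (hA : Level m A g s) (hAV : A ⊆ V) (hs : s ≤ s0) {p : ℕ}
    (hc : ((2 * p ^ 2 + 2 * p + 1) * (m + 1)) ^ m ≤ A.card) : Sav X p := by
  classical
  obtain ⟨S, hSA, hSc, hS⟩ := Rk.indep (G := Low g s) (fun v w h => Low.comm.1 h)
    (N := 2 * p ^ 2 + 2 * p + 1) (by omega) hA.rk hc
  have hM : ∀ v ∈ S, ∀ w ∈ S, v ≠ w → -s ≤ MG g v w ∧ MG g v w ≤ 0 := by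
    intro v hv w hw hvw
    refine ⟨?_, hA.nonpos v (hSA hv) w (hSA hw) hvw⟩
    have := hS v hv w hw hvw
    unfold Low at this
    linarith
  refine sav_flat (A := S) ?_ p hSc.ge
  intro a ha b hb c hc' d hd hab hac had hbc hbd hcd
  by_contra hne
  have h1 := hs0 a (hAV (hSA ha)) b (hAV (hSA hb)) c (hAV (hSA hc')) d (hAV (hSA hd)) hne
  have h2 := hM a ha b hb hab
  have h3 := hM c hc' d hd hcd
  have h4 := hM a ha c hc' hac
  have h5 := hM b hb d hd hbd
  unfold MG at h2 h3 h4 h5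
  have h6 : |dist a b + dist c d - (dist a c + dist b d)| ≤ 2 * s := by
    rw [abs_le]
    constructor <;> linarith
  linarith

/-- **Near-minimal levels.** If `V` is large and contains a level of cost `≤ P`, then we win, or there is a level of
cost `≤ P`, whose scale is less than twice the scale of every other level of cost `≤ P`. -/
theorem near_min {m p P : ℕ} {V : Finset X}
    (hV : 2 ^ P * ((2 * p ^ 2 + 2 * p + 1) * (m + 1)) ^ m ≤ V.card)
    (hex : ∃ A g s, Cost P A V ∧ Level m A g s) :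
    Sav X p ∨ ∃ A g s, Cost P A V ∧ Level m A g s ∧
      ∀ A' g' s', Cost P A' V → Level m A' g' s' → s < 2 * s' := by
  classical
  by_cases hsav : Sav X p
  · exact Or.inl hsav
  right
  obtain ⟨s0, hs0, hs0'⟩ := exists_tiny V
  have hbd : ∀ A g s, Cost P A V → Level m A g s → s0 < s := by
    intro A g s hc hl
    by_contra hle
    push Not at hle
    refine hsav (sav_of_tiny hs0' hl hc.1 hle ?_)
    exact Nat.le_of_mul_le_mul_left (hV.trans hc.2) (by positivity)
  obtain ⟨T, hT⟩ : ∃ T : Set ℝ, T = {s | ∃ A g, Cost P A V ∧ Level m A g s} := ⟨_, rfl⟩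
  have hTne : T.Nonempty := by
    obtain ⟨A, g, s, h1, h2⟩ := hex
    exact ⟨s, by rw [hT]; exact ⟨A, g, h1, h2⟩⟩
  have hTb : BddBelow T := ⟨s0, by
    intro s hs
    rw [hT] at hs
    obtain ⟨A, g, h1, h2⟩ := hs
    exact (hbd A g s h1 h2).le⟩
  have hinf : s0 ≤ sInf T := le_csInf hTne (by
    intro s hs
    rw [hT] at hs
    obtain ⟨A, g, h1, h2⟩ := hs
    exact (hbd A g s h1 h2).le)
  have h2 : sInf T < 2 * sInf T := by linarith
  obtain ⟨s, hsT, hs⟩ := exists_lt_of_csInf_lt hTne h2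
  rw [hT] at hsT
  obtain ⟨A, g, h3, h4⟩ := hsT
  refine ⟨A, g, s, h3, h4, fun A' g' s' h5 h6 => ?_⟩
  have : sInf T ≤ s' := csInf_le hTb (by rw [hT]; exact ⟨A', g', h5, h6⟩)
  linarith

/-- A bound of the diameter. -/
theorem exists_diam (V : Finset X) : ∃ d : ℝ, 0 < d ∧ ∀ v ∈ V, ∀ w ∈ V, dist v w ≤ d := by
  classical
  have h0 : ∀ v w : X, (0 : ℝ) ≤ dist v w := fun v w => dist_nonneg
  refine ⟨1 + ∑ v ∈ V, ∑ w ∈ V, dist v w, ?_, ?_⟩
  · have : 0 ≤ ∑ v ∈ V, ∑ w ∈ V, dist v w :=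
      Finset.sum_nonneg (fun v _ => Finset.sum_nonneg (fun w _ => h0 v w))
    linarith
  · intro v hv w hw
    have h1 : dist v w ≤ ∑ w ∈ V, dist v w :=
      Finset.single_le_sum (f := fun w => dist v w) (fun w _ => h0 v w) hw
    have h2 : ∑ w ∈ V, dist v w ≤ ∑ v ∈ V, ∑ w ∈ V, dist v w :=
      Finset.single_le_sum (f := fun v => ∑ w ∈ V, dist v w)
        (fun v _ => Finset.sum_nonneg (fun w _ => h0 v w)) hv
    linarith

/-- Numerical form of the size condition of `near_min` for `m = 12 p`. -/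
theorem tiny_size {p : ℕ} : ((2 * p ^ 2 + 2 * p + 1) * (12 * p + 1)) ^ (12 * p) ≤
    2 ^ (12 * p * (3 * p + 7)) := by
  rw [mul_comm (12 * p) (3 * p + 7), pow_mul 2]
  apply Nat.pow_le_pow_left
  rcases Nat.eq_zero_or_pos p with rfl | hp
  · norm_num
  have hp2 : p < 2 ^ p := Nat.lt_two_pow_self
  have h1 : 2 * p ^ 2 + 2 * p + 1 ≤ 5 * p ^ 2 := by nlinarith
  have h2 : 12 * p + 1 ≤ 13 * p := by omega
  calc (2 * p ^ 2 + 2 * p + 1) * (12 * p + 1) ≤ (5 * p ^ 2) * (13 * p) := Nat.mul_le_mul h1 h2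
    _ = 65 * p ^ 3 := by ring
    _ ≤ 2 ^ 7 * (2 ^ p) ^ 3 := Nat.mul_le_mul (by norm_num) (Nat.pow_le_pow_left hp2.le 3)
    _ = 2 ^ (3 * p + 7) := by rw [← pow_mul, ← pow_add]; congr 1; ring

end Metric

end Pool.Agent.Lib.MP_293cc0_an.R
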