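import Mathlib

/-!
# MP_293cc0_an, the reduction (R): polynomially bounded functions of two variables
-/

set_option autoImplicit false

namespace Pool.Agent.Lib.MP_293cc0_an.R

/-- `f p n` is bounded by a power of `p + n` (for `p, n ≥ 1`). -/
def PBd (f : ℕ → ℕ → ℕ) : Prop := ∃ k : ℕ, ∀ p n, 1 ≤ p → 1 ≤ n → f p n ≤ (p + n) ^ k

namespace PBd

variable {f g : ℕ → ℕ → ℕ}

theorem mono (hg : PBd g) (h : ∀ p n, 1 ≤ p → 1 ≤ n → f p n ≤ g p n) : PBd f := by
  obtain ⟨k, hk⟩ := hg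
  exact ⟨k, fun p n hp hn => (h p n hp hn).trans (hk p n hp hn)⟩

theorem const (c : ℕ) : PBd (fun _ _ => c) := by
  refine ⟨c, fun p n hp hn => ?_⟩
  exact (Nat.lt_two_pow_self).le.trans (Nat.pow_le_pow_left (by omega) c)

theorem fst : PBd (fun p _ => p) := ⟨1, fun p n _ _ => by rw [pow_one]; exact Nat.le_add_right p n⟩

theorem snd : PBd (fun _ n => n) := ⟨1, fun p n _ _ => by rw [pow_one]; exact Nat.le_add_left n p⟩

theorem add (hf : PBd f) (hg : PBd g) : PBd (fun p n => f p n + g p n) := by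
  obtain ⟨k, hk⟩ := hf
  obtain ⟨l, hl⟩ := hg
  refine ⟨max k l + 1, fun p n hp hn => ?_⟩
  have h1 : (p + n) ^ k ≤ (p + n) ^ max k l := Nat.pow_le_pow_right (by omega) (le_max_left _ _)
  have h2 : (p + n) ^ l ≤ (p + n) ^ max k l := Nat.pow_le_pow_right (by omega) (le_max_right _ _)
  have h3 : (p + n) ^ max k l * 2 ≤ (p + n) ^ max k l * (p + n) := Nat.mul_le_mul_left _ (by omega)
  rw [pow_succ]
  have h4 := hk p n hp hn
  have h5 := hl p n hp hn
  simp only
  omega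

theorem mul (hf : PBd f) (hg : PBd g) : PBd (fun p n => f p n * g p n) := by
  obtain ⟨k, hk⟩ := hf
  obtain ⟨l, hl⟩ := hg
  refine ⟨k + l, fun p n hp hn => ?_⟩
  rw [pow_add]
  exact Nat.mul_le_mul (hk p n hp hn) (hl p n hp hn)

theorem pow (hf : PBd f) (e : ℕ) : PBd (fun p n => f p n ^ e) := by
  obtain ⟨k, hk⟩ := hf
  refine ⟨k * e, fun p n hp hn => ?_⟩
  rw [pow_mul]
  exact Nat.pow_le_pow_left (hk p n hp hn) e

/-- Two polynomially bounded functions have a common bound `k * (p + n) ^ k`. -/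
theorem two (hf : PBd f) (hg : PBd g) : ∃ k : ℕ, 1 ≤ k ∧ ∀ p n, 1 ≤ p → 1 ≤ n →
    f p n ≤ k * (p + n) ^ k ∧ g p n ≤ k * (p + n) ^ k := by
  obtain ⟨k, hk⟩ := hf
  obtain ⟨l, hl⟩ := hg
  refine ⟨max k l + 1, by omega, fun p n hp hn => ?_⟩
  have h1 : (p + n) ^ k ≤ (p + n) ^ (max k l + 1) := Nat.pow_le_pow_right (by omega) (by omega)
  have h2 : (p + n) ^ l ≤ (p + n) ^ (max k l + 1) := Nat.pow_le_pow_right (by omega) (by omega)
  have h3 : (p + n) ^ (max k l + 1) ≤ (max k l + 1) * (p + n) ^ (max k l + 1) :=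
    Nat.le_mul_of_pos_left _ (by omega)
  exact ⟨(hk p n hp hn).trans (h1.trans h3), (hl p n hp hn).trans (h2.trans h3)⟩

end PBd

/-- The least power of `2` which is at least `n` is at most `2 * n`. -/
theorem two_pow_clog_le {n : ℕ} (hn : 1 ≤ n) : 2 ^ Nat.clog 2 n ≤ 2 * n := by
  rcases Nat.lt_or_ge 1 n with h | h
  · have h1 := Nat.pow_pred_clog_lt_self (b := 2) (by norm_num) h
    have h2 : 0 < Nat.clog 2 n := Nat.clog_pos (by norm_num) (by omega)
    have h3 : 2 ^ Nat.clog 2 n = 2 * 2 ^ (Nat.clog 2 n).pred := by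
      conv_lhs => rw [← Nat.succ_pred_eq_of_pos h2, pow_succ]
      ring
    rw [h3]
    omega
  · have : n = 1 := by omega
    subst this
    simp

end Pool.Agent.Lib.MP_293cc0_an.R
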