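import Pool.Agent.Lib.MP_293cc0_an.R.Loop
import Pool.Agent.Lib.MP_293cc0_an.R.Halve

/-!
# MP_293cc0_an, the reduction (R): one step of the process (section 9)
-/

set_option autoImplicit false

namespace Pool.Agent.Lib.MP_293cc0_an.R

open Finset
open scoped Classical

variable {X : Type} [MetricSpace X]

/-- The state after `n` picks. -/
structure PInv (m n : ℕ) (x : ℕ → X) (V : Finset X) (tm : ℕ → ℕ → ℕ) (ty : ℕ → ℕ → Bool) : Prop where
  inj : ∀ i j, i < j → j < n → x i ≠ x j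
  notin : ∀ i, i < n → x i ∉ V
  late : ∀ i j, i < j → j ≤ tm i j
  dec : ∀ i j, i < j → j < n → tm i j < n → DecAt m (x i) (x j) (ty i j) V
  typP : ∀ i j s t, i < j → tm i j < s → s < t → t < n → TT (ty i j) (x i) (x j) (x s) (x t)
  typV : ∀ i j s, i < j → tm i j < s → s < n → ∀ w ∈ V, TT (ty i j) (x i) (x j) (x s) w
  tri : ∀ i j l, i < j → j < l → l < n → tm i j ≤ l ∨ tm i l ≤ l ∨ tm j l ≤ l
  homP : ∀ i j l t, i < t → j < t → l < t → t < n → ∀ w ∈ V,
    (Rel (x i) (x j) (x l) (x t) ↔ Rel (x i) (x j) (x l) w)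
  homV : ∀ i j l, i < n → j < n → l < n → ∀ w ∈ V, ∀ w' ∈ V,
    (Rel (x i) (x j) (x l) w ↔ Rel (x i) (x j) (x l) w')

/-- Cleaning and a good pick. -/
theorem clean_pick {m μ N cP : ℕ} (hm : 1 ≤ m) (hμ : m ≤ 2 ^ μ)
    (hPick : ∀ S V : Finset X, S.card ≤ N → 2 ^ cP ≤ V.card →
      ∃ x ∈ V, ∃ V', Cost cP V' V ∧ x ∉ V' ∧ Good m S x V')
    {n : ℕ} (hn : n < N) {x : ℕ → X} {V : Finset X} {tm : ℕ → ℕ → ℕ} {ty : ℕ → ℕ → Bool}
    (hdec : ∀ i j, i < j → j < n → tm i j < n → DecAt m (x i) (x j) (ty i j) V)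
    (hV : 2 ^ (N ^ 2 * m * (μ + (cP + 2 * N + 1)) + cP) ≤ V.card) :
    ∃ y ∈ V, ∃ V₁ V₂, Cost (N ^ 2 * m * (μ + (cP + 2 * N + 1)) + cP) V₁ V ∧ Cost 1 V₂ V₁ ∧ y ∉ V₁ ∧
      Good m ((Finset.range n).image x) y V₁ ∧
      ∀ i j, i < j → j < n → tm i j < n → ∀ w ∈ V₂, TT (ty i j) (x i) (x j) y w := by
  classical
  have hch : ∀ e : Fin n × Fin n, ∃ (A : Finset X) (g : X → ℝ) (s : ℝ),
      e.1.1 < e.2.1 ∧ tm e.1.1 e.2.1 < n → V ⊆ A ∧ Level m A g s ∧
        (ty e.1.1 e.2.1 = true → DecU (x e.1.1) (x e.2.1) A g s) ∧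
        (ty e.1.1 e.2.1 = false → DecL (x e.1.1) (x e.2.1) A g s) := by
    intro e
    by_cases h : e.1.1 < e.2.1 ∧ tm e.1.1 e.2.1 < n
    · obtain ⟨A, g, s, h1⟩ := hdec _ _ h.1 e.2.2 h.2
      exact ⟨A, g, s, fun _ => h1⟩
    · exact ⟨∅, fun _ => 0, 0, fun h' => absurd h' h⟩
  choose A g s hgs using hch
  obtain ⟨G, hG⟩ : ∃ G : Fin n × Fin n → X → X → Prop, ∀ e v w, G e v w ↔
      (e.1.1 < e.2.1 ∧ tm e.1.1 e.2.1 < n) ∧ Low (g e) (s e) v w :=
    ⟨fun e v w => (e.1.1 < e.2.1 ∧ tm e.1.1 e.2.1 < n) ∧ Low (g e) (s e) v w, fun _ _ _ => Iff.rfl⟩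
  have hRk : ∀ e, Rk (G e) m m V := by
    intro e
    by_cases h : e.1.1 < e.2.1 ∧ tm e.1.1 e.2.1 < n
    · obtain ⟨h1, h2, _⟩ := hgs e h
      exact (h2.subset h1).rk.anti (fun v _ w _ _ hvw => ((hG e v w).1 hvw).2)
    · exact Rk.bot hm (fun v w hvw => h ((hG e v w).1 hvw).1) V
  obtain ⟨Va, hVa, hdeg⟩ := Rk.clean (e := cP + 2 * N + 1) hm hμ G V hRk
  have hcard : Fintype.card (Fin n × Fin n) = n * n := by
    rw [Fintype.card_prod, Fintype.card_fin]
  rw [hcard] at hVa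
  have hnn : n * n ≤ N ^ 2 := by rw [pow_two]; exact Nat.mul_le_mul hn.le hn.le
  have hVa' : Cost (N ^ 2 * m * (μ + (cP + 2 * N + 1))) Va V :=
    hVa.mono (Nat.mul_le_mul_right _ (Nat.mul_le_mul_right _ hnn))
  obtain ⟨y, hy, V₁, hV₁, hyV₁, hgood⟩ := hPick ((Finset.range n).image x) Va
    ((Finset.card_image_le.trans (by rw [Finset.card_range])).trans hn.le) (hVa'.large hV)
  refine ⟨y, hVa.1 hy, V₁, V₁.filter (fun w => ∀ e, ¬ G e y w), hVa'.trans hV₁,
    ⟨Finset.filter_subset _ _, ?_⟩, hyV₁, hgood, ?_⟩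
  · -- the removed points are few
    have h1 : V₁.filter (fun w => ¬ ∀ e, ¬ G e y w) ⊆
        Finset.univ.biUnion (fun e => Va.filter (fun w => w ≠ y ∧ G e y w)) := by
      intro w hw
      obtain ⟨hw1, hw2⟩ := Finset.mem_filter.1 hw
      push Not at hw2
      obtain ⟨e, he⟩ := hw2
      rw [Finset.mem_biUnion]
      exact ⟨e, Finset.mem_univ _, Finset.mem_filter.2 ⟨hV₁.1 hw1, fun h => hyV₁ (h ▸ hw1), he⟩⟩
    have h2 := (Finset.card_le_card h1).trans Finset.card_biUnion_le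
    have h3 : 2 ^ (cP + 2 * N + 1) * ∑ e : Fin n × Fin n, (Va.filter (fun w => w ≠ y ∧ G e y w)).card ≤
        n * n * Va.card := by
      rw [Finset.mul_sum]
      calc ∑ e : Fin n × Fin n, 2 ^ (cP + 2 * N + 1) * (Va.filter (fun w => w ≠ y ∧ G e y w)).card
          ≤ ∑ _e : Fin n × Fin n, Va.card := Finset.sum_le_sum fun e _ => (hdeg e y hy).le
        _ = n * n * Va.card := by
            rw [Finset.sum_const, Finset.card_univ, hcard, smul_eq_mul]
    have h4 : n * n ≤ 2 ^ (2 * N) := by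
      have : n ≤ 2 ^ N := hn.le.trans (Nat.lt_two_pow_self).le
      calc n * n ≤ 2 ^ N * 2 ^ N := Nat.mul_le_mul this this
        _ = 2 ^ (2 * N) := by rw [← pow_add]; congr 1; ring
    have h5 : 2 ^ (2 * N) * (2 ^ (cP + 1) *
        ∑ e : Fin n × Fin n, (Va.filter (fun w => w ≠ y ∧ G e y w)).card) ≤ 2 ^ (2 * N) * Va.card := by
      calc 2 ^ (2 * N) * (2 ^ (cP + 1) *
          ∑ e : Fin n × Fin n, (Va.filter (fun w => w ≠ y ∧ G e y w)).card)
          = 2 ^ (cP + 2 * N + 1) * ∑ e : Fin n × Fin n, (Va.filter (fun w => w ≠ y ∧ G e y w)).card := by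
            rw [← mul_assoc, ← pow_add]; congr 2; ring
        _ ≤ n * n * Va.card := h3
        _ ≤ 2 ^ (2 * N) * Va.card := Nat.mul_le_mul_right _ h4
    have h6 := Nat.le_of_mul_le_mul_left h5 (by positivity)
    have h7 : 2 ^ cP * (2 * ∑ e : Fin n × Fin n, (Va.filter (fun w => w ≠ y ∧ G e y w)).card) ≤
        2 ^ cP * V₁.card := by
      calc 2 ^ cP * (2 * ∑ e : Fin n × Fin n, (Va.filter (fun w => w ≠ y ∧ G e y w)).card)
          = 2 ^ (cP + 1) * ∑ e : Fin n × Fin n, (Va.filter (fun w => w ≠ y ∧ G e y w)).card := by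
            rw [pow_succ]; ring
        _ ≤ Va.card := h6
        _ ≤ 2 ^ cP * V₁.card := hV₁.2
    have h8 := Nat.le_of_mul_le_mul_left h7 (by positivity)
    have h9 : (V₁.filter (fun w => ∀ e, ¬ G e y w)).card + (V₁.filter (fun w => ¬ ∀ e, ¬ G e y w)).card =
        V₁.card := Finset.card_filter_add_card_filter_not _
    omega
  · intro i j hij hj htm w hw
    obtain ⟨hw1, hw2⟩ := Finset.mem_filter.1 hw
    have hw3 := hw2 (⟨i, by omega⟩, ⟨j, hj⟩)
    obtain ⟨k1, k2, k3, k4⟩ := hgs (⟨i, by omega⟩, ⟨j, hj⟩) ⟨hij, htm⟩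
    have hlow : ¬ Low (g (⟨i, by omega⟩, ⟨j, hj⟩)) (s (⟨i, by omega⟩, ⟨j, hj⟩)) y w := by
      intro hlow
      exact hw3 ((hG _ _ _).2 ⟨⟨hij, htm⟩, hlow⟩)
    exact type_of_dec k2 k3 k4 (k1 (hVa.1 hy)) (k1 (hVa.1 (hV₁.1 hw1))) (fun h => hyV₁ (h ▸ hw1)) hlow

/-- **One step of the process.** -/
theorem PInv.step {m μ N cP : ℕ} (hm : 1 ≤ m) (hμ : m ≤ 2 ^ μ)
    (hPick : ∀ S V : Finset X, S.card ≤ N → 2 ^ cP ≤ V.card →
      ∃ x ∈ V, ∃ V', Cost cP V' V ∧ x ∉ V' ∧ Good m S x V')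
    {n : ℕ} (hn : n < N) {x : ℕ → X} {V : Finset X} {tm : ℕ → ℕ → ℕ} {ty : ℕ → ℕ → Bool}
    (h : PInv m n x V tm ty) (hV : 2 ^ (N ^ 2 * m * (μ + (cP + 2 * N + 1)) + cP) ≤ V.card) :
    ∃ x' V' tm' ty', PInv m (n + 1) x' V' tm' ty' ∧
      Cost (N ^ 2 * m * (μ + (cP + 2 * N + 1)) + cP + 1 + N ^ 3 + 5 * N ^ 2) V' V := by
  classical
  obtain ⟨y, hy, V₁, V₂, hc1, hc2, hyV₁, hgood, htype⟩ := clean_pick hm hμ hPick hn h.dec hV
  obtain ⟨x', hx'⟩ : ∃ x' : ℕ → X, x' = Function.update x n y := ⟨_, rfl⟩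
  have hxn : x' n = y := by rw [hx', Function.update_self]
  have hxi : ∀ i, i ≠ n → x' i = x i := fun i hi => by rw [hx', Function.update_of_ne hi]
  obtain ⟨V₃, hc3, hhom⟩ := const_on
    (Finset.range (n + 1) ×ˢ Finset.range (n + 1) ×ˢ Finset.range (n + 1))
    (fun (e : ℕ × ℕ × ℕ) w => Rel (x' e.1) (x' e.2.1) (x' e.2.2) w) V₂
  obtain ⟨Q, hQ⟩ : ∃ Q : Finset (ℕ × ℕ), Q = (Finset.range (n + 1) ×ˢ Finset.range (n + 1)).filter
      (fun e => e.1 < e.2 ∧ n ≤ tm e.1 e.2) := ⟨_, rfl⟩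
  have hmQ : ∀ i j, (i, j) ∈ Q ↔ i < j ∧ j < n + 1 ∧ n ≤ tm i j := by
    intro i j
    rw [hQ, Finset.mem_filter, Finset.mem_product, Finset.mem_range, Finset.mem_range]
    constructor
    · rintro ⟨⟨_, h2⟩, h3, h4⟩; exact ⟨h3, h2, h4⟩
    · rintro ⟨h1, h2, h3⟩; exact ⟨⟨by simp only; omega, h2⟩, h1, h3⟩
  obtain ⟨V₄, D, tyD, hDQ, hc4, hD, hund⟩ := decide_loop m (fun e : ℕ × ℕ => x' e.1)
    (fun e => x' e.2) Q.card Q rfl V₃
  have hV21 : V₂ ⊆ V₁ := hc2.1
  have hV42 : V₄ ⊆ V₂ := hc4.1.trans hc3.1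
  have hV4V : V₄ ⊆ V := hV42.trans (hV21.trans hc1.1)
  obtain ⟨tm', htm'⟩ : ∃ tm' : ℕ → ℕ → ℕ, ∀ i j, tm' i j =
      if (i, j) ∈ Q then (if (i, j) ∈ D then n else N + 1) else tm i j := ⟨_, fun _ _ => rfl⟩
  obtain ⟨ty', hty'⟩ : ∃ ty' : ℕ → ℕ → Bool, ∀ i j, ty' i j =
      if (i, j) ∈ Q then tyD (i, j) else ty i j := ⟨_, fun _ _ => rfl⟩
  -- pairs of `Q` have late times, the others are unchanged
  have hQlate : ∀ i j, (i, j) ∈ Q → n ≤ tm' i j := by
    intro i j hij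
    rw [htm', if_pos hij]
    split_ifs
    · exact le_rfl
    · omega
  have hold : ∀ i j, i < j → tm' i j < n → tm' i j = tm i j ∧ ty' i j = ty i j ∧ j < n := by
    intro i j hij htm
    have hnQ : (i, j) ∉ Q := fun hq => by have := hQlate i j hq; omega
    rw [htm', hty', if_neg hnQ, if_neg hnQ]
    rw [htm', if_neg hnQ] at htm
    exact ⟨rfl, rfl, lt_of_le_of_lt (h.late i j hij) htm⟩
  refine ⟨x', V₄, tm', ty', ⟨?_, ?_, ?_, ?_, ?_, ?_, ?_, ?_, ?_⟩, ?_⟩
  · -- inj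
    intro i j hij hj
    rcases Nat.lt_succ_iff_lt_or_eq.1 hj with hj' | rfl
    · rw [hxi i (by omega), hxi j (by omega)]
      exact h.inj i j hij hj'
    · rw [hxn, hxi i (by omega)]
      exact fun e => h.notin i hij (e ▸ hy)
  · -- notin
    intro i hi hmem
    rcases Nat.lt_succ_iff_lt_or_eq.1 hi with hi' | rfl
    · rw [hxi i (by omega)] at hmem
      exact h.notin i hi' (hV4V hmem)
    · rw [hxn] at hmem
      exact hyV₁ (hV21 (hV42 hmem))
  · -- late
    intro i j hij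
    rw [htm']
    by_cases hq : (i, j) ∈ Q
    · rw [if_pos hq]
      have := (hmQ i j).1 hq
      split_ifs <;> omega
    · rw [if_neg hq]
      exact h.late i j hij
  · -- dec
    intro i j hij hj htm
    by_cases hq : (i, j) ∈ Q
    · have hd : (i, j) ∈ D := by
        by_contra hd
        rw [htm', if_pos hq, if_neg hd] at htm
        omega
      rw [hty', if_pos hq]
      exact hD (i, j) hd
    · rw [htm', if_neg hq] at htm
      have htm2 : tm i j < n := by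
        by_contra hcon
        exact hq ((hmQ i j).2 ⟨hij, hj, not_lt.1 hcon⟩)
      have hjn : j < n := lt_of_le_of_lt (h.late i j hij) htm2
      rw [hty', if_neg hq, hxi i (by omega), hxi j (by omega)]
      exact (h.dec i j hij hjn htm2).subset hV4V
  · -- typP
    intro i j s t hij htm hst ht
    obtain ⟨e1, e2, hjn⟩ := hold i j hij (by omega)
    rw [e1] at htm
    rw [e2, hxi i (by omega), hxi j (by omega), hxi s (by omega)]
    rcases Nat.lt_succ_iff_lt_or_eq.1 ht with ht' | rfl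
    · rw [hxi t (by omega)]
      exact h.typP i j s t hij htm hst ht'
    · rw [hxn]
      exact h.typV i j s hij htm hst y hy
  · -- typV
    intro i j s hij htm hs w hw
    rcases Nat.lt_succ_iff_lt_or_eq.1 hs with hs' | rfl
    · obtain ⟨e1, e2, hjn⟩ := hold i j hij (by omega)
      rw [e1] at htm
      rw [e2, hxi i (by omega), hxi j (by omega), hxi s (by omega)]
      exact h.typV i j s hij htm hs' w (hV4V hw)
    · obtain ⟨e1, e2, hjn⟩ := hold i j hij htm
      rw [e1] at htm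
      rw [e2, hxi i (by omega), hxi j (by omega), hxn]
      exact htype i j hij hjn htm w (hV42 hw)
  · -- tri
    intro i j l hij hjl hl
    rcases Nat.lt_succ_iff_lt_or_eq.1 hl with hl' | rfl
    · have key : ∀ a b, tm a b ≤ l → tm' a b ≤ l := by
        intro a b hab
        have hnQ : (a, b) ∉ Q := fun hq => by have := ((hmQ a b).1 hq).2.2; omega
        rw [htm', if_neg hnQ]
        exact hab
      rcases h.tri i j l hij hjl hl' with h1 | h1 | h1
      · exact Or.inl (key _ _ h1)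
      · exact Or.inr (Or.inl (key _ _ h1))
      · exact Or.inr (Or.inr (key _ _ h1))
    · -- the new triangle
      by_contra hcon
      push Not at hcon
      obtain ⟨c1, c2, c3⟩ := hcon
      have key : ∀ a b, a < b → b < l + 1 → l < tm' a b → Und m (x' a) (x' b) V₄ := by
        intro a b hab hb hlt
        have hq : (a, b) ∈ Q := by
          by_contra hq
          rw [htm', if_neg hq] at hlt
          exact hq ((hmQ a b).2 ⟨hab, hb, hlt.le⟩)
        have hd : (a, b) ∉ D := by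
          intro hd
          rw [htm', if_pos hq, if_pos hd] at hlt
          omega
        exact hund (a, b) hq hd
      have u1 := key i j hij (by omega) c1
      have u2 := key i l (by omega) (by omega) c2
      have u3 := key j l hjl (by omega) c3
      rw [hxn, hxi i (by omega)] at u2
      rw [hxn, hxi j (by omega)] at u3
      rw [hxi i (by omega), hxi j (by omega)] at u1
      exact hgood (x i) (Finset.mem_image.2 ⟨i, Finset.mem_range.2 (by omega), rfl⟩) (x j)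
        (Finset.mem_image.2 ⟨j, Finset.mem_range.2 hjl, rfl⟩) (h.inj i j hij hjl) V₄ (hV42.trans hV21)
        ⟨u1, u2, u3⟩
  · -- homP
    intro i j l t hi hj hl ht w hw
    rcases Nat.lt_succ_iff_lt_or_eq.1 ht with ht' | rfl
    · rw [hxi i (by omega), hxi j (by omega), hxi l (by omega), hxi t (by omega)]
      exact h.homP i j l t hi hj hl ht' w (hV4V hw)
    · rw [hxi i (by omega), hxi j (by omega), hxi l (by omega), hxn]
      exact h.homV i j l hi hj hl y hy w (hV4V hw)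
  · -- homV
    intro i j l hi hj hl w hw w' hw'
    have hmem : (i, j, l) ∈ Finset.range (n + 1) ×ˢ Finset.range (n + 1) ×ˢ Finset.range (n + 1) := by
      rw [Finset.mem_product, Finset.mem_product, Finset.mem_range, Finset.mem_range, Finset.mem_range]
      exact ⟨hi, hj, hl⟩
    rcases hhom (i, j, l) hmem with k | k
    · exact ⟨fun _ => k w' (hc4.1 hw'), fun _ => k w (hc4.1 hw)⟩
    · exact ⟨fun e => absurd e (k w (hc4.1 hw)), fun e => absurd e (k w' (hc4.1 hw'))⟩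
  · -- the cost
    have hT : (Finset.range (n + 1) ×ˢ Finset.range (n + 1) ×ˢ Finset.range (n + 1)).card ≤ N ^ 3 := by
      rw [Finset.card_product, Finset.card_product, Finset.card_range]
      calc (n + 1) * ((n + 1) * (n + 1)) ≤ N * (N * N) :=
            Nat.mul_le_mul hn (Nat.mul_le_mul hn hn)
        _ = N ^ 3 := by ring
    have hQc : Q.card ≤ N ^ 2 := by
      rw [hQ]
      refine (Finset.card_filter_le _ _).trans ?_
      rw [Finset.card_product, Finset.card_range]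
      calc (n + 1) * (n + 1) ≤ N * N := Nat.mul_le_mul hn hn
        _ = N ^ 2 := by ring
    have k1 := ((hc1.trans hc2).trans (hc3.mono hT)).trans (hc4.mono (Nat.mul_le_mul_left 5 hQc))
    exact k1

end Pool.Agent.Lib.MP_293cc0_an.R
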