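import Pool.Agent.Lib.MP_293cc0_an.R.SpecC

/-!
# MP_293cc0_an, the reduction: the popular class (double counting)
-/

set_option autoImplicit false

namespace Pool.Agent.Lib.MP_293cc0_an.R

open Finset
open scoped Classical

/-- pigeonhole -/
theorem Pop_pig {Γ : Type} [Fintype Γ] {n N : ℕ} (hΓ : Fintype.card Γ ≤ N) (D : Γ → ℕ) (hn : 0 < n)
    (h : n ≤ ∑ γ, D γ) : ∃ γ, n ≤ N * D γ := by
  by_contra hcon
  push Not at hcon
  rcases isEmpty_or_nonempty Γ with hE | hE
  · rw [Finset.univ_eq_empty, Finset.sum_empty] at h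
    omega
  · have h1 : ∑ γ : Γ, N * D γ < ∑ _γ : Γ, n :=
      Finset.sum_lt_sum_of_nonempty Finset.univ_nonempty (fun γ _ => hcon γ)
    rw [← Finset.mul_sum, Finset.sum_const, Finset.card_univ, smul_eq_mul] at h1
    have h2 : Fintype.card Γ * n ≤ N * n := Nat.mul_le_mul_right _ hΓ
    have h3 : N * n ≤ N * ∑ γ, D γ := Nat.mul_le_mul_left _ h
    omega

/-- every classified pair has a class -/
theorem Pop_cl {X : Type} [MetricSpace X] {E : Type} {P : E → X → ℝ} {τ : ℕ → ℝ} {l : ℕ} {e : E}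
    {w x : X} (h : |MG (P e) w x| ≤ τ l) : ∃ k, k ≤ l ∧ Cl P τ e k w x := by
  have hex : ∃ k, |MG (P e) w x| ≤ τ k := ⟨l, h⟩
  refine ⟨Nat.find hex, Nat.find_min' hex h, Nat.find_spec hex, fun h1 => ?_⟩
  have h2 := Nat.find_min hex (m := Nat.find hex - 1) (by omega)
  exact not_le.1 h2

theorem pop : PopStmt := by
  intro X _ E _ P τ l κ W V hV hW hE hun
  have hVpos : 0 < V.card := card_pos.2 hV
  -- the classes of the pairs
  have hΓ : Fintype.card (E × Fin (l + 1)) ≤ 2 ^ κ := by
    rw [Fintype.card_prod, Fintype.card_fin]; exact hE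
  let R : X → X → Prop := fun w x => x ≠ w ∧ ∃ γ : E × Fin (l + 1), Cl P τ γ.1 γ.2.val w x
  -- (1) for every x many w are classified
  have h1 : ∀ x ∈ V, 5 * W.card ≤ 8 * (W.filter (fun w => R w x)).card := by
    intro x hx
    have h2 := hun x hx
    have h3 : W ⊆ (W.filter (fun w => R w x) ∪
        W.filter (fun w => w ≠ x ∧ ∀ e, τ l < |MG (P e) w x|)) ∪ {x} := by
      intro w hw
      by_cases hwx : w = x
      · exact mem_union_right _ (by rw [hwx]; exact mem_singleton_self x)
      · apply mem_union_left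
        by_cases h4 : ∀ e, τ l < |MG (P e) w x|
        · exact mem_union_right _ (mem_filter.2 ⟨hw, hwx, h4⟩)
        · push Not at h4
          obtain ⟨e, he⟩ := h4
          obtain ⟨k, hk, hcl⟩ := Pop_cl he
          refine mem_union_left _ (mem_filter.2 ⟨hw, fun h => hwx h.symm, ?_⟩)
          exact ⟨(e, ⟨k, by omega⟩), hcl⟩
    have h4 := card_le_card h3
    have h5 := card_union_le (W.filter (fun w => R w x) ∪
        W.filter (fun w => w ≠ x ∧ ∀ e, τ l < |MG (P e) w x|)) {x}
    have h6 := card_union_le (W.filter (fun w => R w x))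
        (W.filter (fun w => w ≠ x ∧ ∀ e, τ l < |MG (P e) w x|))
    rw [card_singleton] at h5
    omega
  -- (2) double counting
  have h2 : ∑ x ∈ V, (W.filter (fun w => R w x)).card = ∑ w ∈ W, (V.filter (fun x => R w x)).card := by
    simp only [card_filter]
    exact sum_comm
  have h3 : 5 * W.card * V.card ≤ 8 * ∑ w ∈ W, (V.filter (fun x => R w x)).card := by
    rw [← h2, mul_sum]
    calc 5 * W.card * V.card = ∑ _x ∈ V, 5 * W.card := by rw [sum_const, smul_eq_mul, mul_comm]
      _ ≤ ∑ x ∈ V, 8 * (W.filter (fun w => R w x)).card := sum_le_sum h1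
  set W1 := W.filter (fun w => V.card ≤ 4 * (V.filter (fun x => R w x)).card) with hW1
  have h4 : ∑ w ∈ W, 4 * (V.filter (fun x => R w x)).card ≤
      W1.card * (4 * V.card) + (W.card - W1.card) * V.card := by
    have e1 : ∑ w ∈ W, 4 * (V.filter (fun x => R w x)).card =
        ∑ w ∈ W1, 4 * (V.filter (fun x => R w x)).card +
          ∑ w ∈ W.filter (fun w => ¬ V.card ≤ 4 * (V.filter (fun x => R w x)).card),
            4 * (V.filter (fun x => R w x)).card :=
      (sum_filter_add_sum_filter_not W _ _).symm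
    have e2 : ∑ w ∈ W1, 4 * (V.filter (fun x => R w x)).card ≤ W1.card * (4 * V.card) := by
      rw [← smul_eq_mul (a := W1.card), ← sum_const]
      exact sum_le_sum (fun w _ => Nat.mul_le_mul_left _ (card_filter_le _ _))
    have e3 : ∑ w ∈ W.filter (fun w => ¬ V.card ≤ 4 * (V.filter (fun x => R w x)).card),
            4 * (V.filter (fun x => R w x)).card ≤
        (W.filter (fun w => ¬ V.card ≤ 4 * (V.filter (fun x => R w x)).card)).card * V.card := by
      rw [← smul_eq_mul (a := (W.filter (fun w => ¬ V.card ≤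
        4 * (V.filter (fun x => R w x)).card)).card), ← sum_const]
      apply sum_le_sum
      intro w hw
      have := (mem_filter.1 hw).2
      omega
    have e4 : (W.filter (fun w => ¬ V.card ≤ 4 * (V.filter (fun x => R w x)).card)).card =
        W.card - W1.card := by
      have := card_filter_add_card_filter_not (s := W)
        (fun w => V.card ≤ 4 * (V.filter (fun x => R w x)).card)
      rw [← hW1] at this
      omega
    rw [e4] at e3
    omega
  have hW1le : W1.card ≤ W.card := card_filter_le _ _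
  have h5 : W.card ≤ 2 * W1.card := by
    rw [← mul_sum] at h4
    obtain ⟨d, hd⟩ := Nat.exists_eq_add_of_le hW1le
    have e1 : W.card - W1.card = d := by omega
    rw [e1] at h4
    rw [hd] at h3 ⊢
    have e2 : (5 * (W1.card + d)) * V.card ≤ (8 * W1.card + 2 * d) * V.card := by
      calc (5 * (W1.card + d)) * V.card ≤ 8 * ∑ w ∈ W, (V.filter (fun x => R w x)).card := h3
        _ = 2 * (4 * ∑ w ∈ W, (V.filter (fun x => R w x)).card) := by ring
        _ ≤ 2 * (W1.card * (4 * V.card) + d * V.card) := Nat.mul_le_mul_left _ h4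
        _ = (8 * W1.card + 2 * d) * V.card := by ring
    have e3 := Nat.le_of_mul_le_mul_right e2 hVpos
    omega
  -- (3) every w of W1 has a popular class
  let D : X → E × Fin (l + 1) → ℕ := fun w γ => (V.filter (fun x => x ≠ w ∧ Cl P τ γ.1 γ.2.val w x)).card
  have h6 : ∀ w ∈ W1, ∃ γ : E × Fin (l + 1), V.card ≤ 2 ^ (κ + 2) * D w γ := by
    intro w hw
    have h7 := (mem_filter.1 hw).2
    have h8 : (V.filter (fun x => R w x)).card ≤ ∑ γ : E × Fin (l + 1), D w γ := by
      have h9 : V.filter (fun x => R w x) ⊆ (Finset.univ : Finset (E × Fin (l + 1))).biUnion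
          (fun γ => V.filter (fun x => x ≠ w ∧ Cl P τ γ.1 γ.2.val w x)) := by
        intro x hx
        obtain ⟨hxV, hxw, γ, hγ⟩ := mem_filter.1 hx
        exact mem_biUnion.2 ⟨γ, mem_univ γ, mem_filter.2 ⟨hxV, hxw, hγ⟩⟩
      exact (card_le_card h9).trans card_biUnion_le
    obtain ⟨γ, hγ⟩ := Pop_pig hΓ (D w) (n := (V.filter (fun x => R w x)).card) (by omega) h8
    refine ⟨γ, h7.trans ?_⟩
    calc 4 * (V.filter (fun x => R w x)).card ≤ 4 * (2 ^ κ * D w γ) := Nat.mul_le_mul_left _ hγ
      _ = 2 ^ (κ + 2) * D w γ := by rw [pow_add]; ring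
  -- (4) one class for many w
  have h7 : W1.card ≤ ∑ γ : E × Fin (l + 1), (W.filter (fun w => V.card ≤ 2 ^ (κ + 2) * D w γ)).card := by
    have h9 : W1 ⊆ (Finset.univ : Finset (E × Fin (l + 1))).biUnion
        (fun γ => W.filter (fun w => V.card ≤ 2 ^ (κ + 2) * D w γ)) := by
      intro w hw
      obtain ⟨γ, hγ⟩ := h6 w hw
      exact mem_biUnion.2 ⟨γ, mem_univ γ, mem_filter.2 ⟨(mem_filter.1 hw).1, hγ⟩⟩
    exact (card_le_card h9).trans card_biUnion_le
  obtain ⟨γ, hγ⟩ := Pop_pig hΓ _ (n := W1.card) (by omega) h7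
  refine ⟨γ.1, γ.2.val, by have := γ.2.isLt; omega,
    W.filter (fun w => V.card ≤ 2 ^ (κ + 2) * D w γ), ⟨filter_subset _ _, ?_⟩, ?_⟩
  · calc W.card ≤ 2 * W1.card := h5
      _ ≤ 2 * (2 ^ κ * (W.filter (fun w => V.card ≤ 2 ^ (κ + 2) * D w γ)).card) :=
        Nat.mul_le_mul_left _ hγ
      _ ≤ 4 * (2 ^ κ * (W.filter (fun w => V.card ≤ 2 ^ (κ + 2) * D w γ)).card) :=
        Nat.mul_le_mul_right _ (by norm_num)
      _ = 2 ^ (κ + 2) * (W.filter (fun w => V.card ≤ 2 ^ (κ + 2) * D w γ)).card := by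
        rw [pow_add]; ring
  · intro w hw
    exact ⟨filter_subset _ _, (mem_filter.1 hw).2⟩

end Pool.Agent.Lib.MP_293cc0_an.R
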