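import Pool.Agent.Lib.MP_293cc0_an.R.SpecC

/-!
# MP_293cc0_an, section 7.3: selection
-/

set_option autoImplicit false

namespace Pool.Agent.Lib.MP_293cc0_an.R

open Finset
open scoped Classical

theorem sel (hP : PopStmt) (hE : ExtStmt) : SelStmt := by
  intro X _ E _ m μ P τ θ l κ r cW c1 T' W V hm hmμ hκ hU hD h1 h2 h3 h4
  obtain ⟨c, hc⟩ : ∃ c, c = κ + 2 + r + l * μ := ⟨_, rfl⟩
  obtain ⟨J, hJ⟩ : ∃ J, J = 2 ^ (κ + 1) * m := ⟨_, rfl⟩
  rw [← hc, ← hJ] at h1 h2 h3
  rw [← hJ] at h4 ⊢
  have hK : Fintype.card (E × Fin (l + 1) × Bool) ≤ 2 ^ (κ + 1) := by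
    rw [Fintype.card_prod, Fintype.card_prod, Fintype.card_fin, Fintype.card_bool, ← mul_assoc,
      pow_succ]
    exact Nat.mul_le_mul_right _ hκ
  -- one step
  have step : ∀ (j : ℕ) (n : E × Fin (l + 1) × Bool → ℕ) (T : E × Fin (l + 1) × Bool → ℕ → X)
      (u : E × Fin (l + 1) × Bool → ℕ → ℕ → ℕ) (W1 V1 : Finset X),
      Cost (j * c) W1 W → Cost (j * (κ + 2)) V1 V → (∀ q, n q < m) →
      (∀ q i, i < n q → T q i ∈ W) →
      (∀ q : E × Fin (l + 1) × Bool,
        PSeq m P τ θ l T' q.1 q.2.1 q.2.2 (n q) (T q) (u q) W1 V1) → j ≤ J →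
      (∀ q, n q < m → j + 1 ≤ J) →
      ∃ (q : E × Fin (l + 1) × Bool) (T1 : ℕ → X) (u1 : ℕ → ℕ → ℕ) (W4 V2 : Finset X),
        W4 ⊆ W1 ∧ V2 ⊆ V1 ∧ Cost ((j + 1) * c) W4 W ∧ Cost ((j + 1) * (κ + 2)) V2 V ∧
        (∀ i, i < n q + 1 → T1 i ∈ W) ∧
        PSeq m P τ θ l T' q.1 q.2.1 q.2.2 (n q + 1) T1 u1 W4 V2 := by
    intro j n T u W1 V1 hW1 hV1 hn hT hS hj hj1
    have hjc : j * c ≤ J * c := Nat.mul_le_mul_right _ hj
    have h8 : 8 ≤ W1.card := by
      have h5 : 2 ^ (j * c + 3) ≤ W.card :=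
        (Nat.pow_le_pow_right (by norm_num) (by omega)).trans h3
      have h6 := hW1.large h5
      norm_num at h6
      exact h6
    have hV1ne : V1.Nonempty := by
      have h5 : 2 ^ (j * (κ + 2) + 1) ≤ V.card :=
        (Nat.pow_le_pow_right (by norm_num)
          (Nat.add_le_add_right (Nat.mul_le_mul_right _ hj) 1)).trans h4
      have h6 := hV1.large h5
      rw [← Finset.card_pos]
      omega
    have hun : ∀ x ∈ V1, 4 * (W1.filter (fun w => w ≠ x ∧ ∀ e, τ l < |MG (P e) w x|)).card ≤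
        W1.card := by
      intro x hx
      have h5 := hU x (hV1.1 hx)
      have h6 : (W1.filter (fun w => w ≠ x ∧ ∀ e, τ l < |MG (P e) w x|)).card ≤
          (W.filter (fun w => w ≠ x ∧ ∀ e, τ l < |MG (P e) w x|)).card :=
        Finset.card_le_card (Finset.filter_subset_filter _ hW1.1)
      have h7 : 2 ^ (j * c) * (4 *
          (W1.filter (fun w => w ≠ x ∧ ∀ e, τ l < |MG (P e) w x|)).card) ≤
          2 ^ (j * c) * W1.card := by
        calc 2 ^ (j * c) * (4 *
              (W1.filter (fun w => w ≠ x ∧ ∀ e, τ l < |MG (P e) w x|)).card)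
            = 2 ^ (j * c + 2) *
              (W1.filter (fun w => w ≠ x ∧ ∀ e, τ l < |MG (P e) w x|)).card := by
              rw [pow_add]
              ring
          _ ≤ 2 ^ c1 * (W.filter (fun w => w ≠ x ∧ ∀ e, τ l < |MG (P e) w x|)).card :=
              Nat.mul_le_mul (Nat.pow_le_pow_right (by norm_num) (by omega)) h6
          _ ≤ W.card := h5
          _ ≤ 2 ^ (j * c) * W1.card := hW1.2
      exact Nat.le_of_mul_le_mul_left h7 (by positivity)
    obtain ⟨e, k, hk, W2, hW2, hcl⟩ := hP X E P τ l κ W1 V1 hV1ne h8 hκ hun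
    have hj2 : j + 1 ≤ J := hj1 (e, ⟨k, by omega⟩, true) (hn _)
    have hj3 : (j + 1) * c ≤ J * c := Nat.mul_le_mul_right _ hj2
    have hW2W : Cost (j * c + (κ + 2)) W2 W := hW1.trans hW2
    obtain ⟨σ, t, ht, hW3⟩ := hD W2 (hW2W.mono (by rw [add_mul, one_mul] at hj3; omega)) e
    have hq := hS (e, ⟨k, by omega⟩, σ)
    obtain ⟨W4, u1, hW4, hPS⟩ := hE X E m μ P τ θ l T' e k σ (n (e, ⟨k, by omega⟩, σ))
      (T (e, ⟨k, by omega⟩, σ)) (u (e, ⟨k, by omega⟩, σ)) W1 V1
      (W2.filter (fun w => w ≠ t ∧ Side σ θ (MG (P e) t w)))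
      (V1.filter (fun x => x ≠ t ∧ Cl P τ e k t x)) t hq (hn _) hmμ (hW2.1 ht)
      ((Finset.filter_subset _ _).trans hW2.1) (Finset.filter_subset _ _)
      (fun w hw => (Finset.mem_filter.1 hw).2) (fun x hx => (Finset.mem_filter.1 hx).2)
    refine ⟨(e, ⟨k, by omega⟩, σ), Function.update (T (e, ⟨k, by omega⟩, σ))
      (n (e, ⟨k, by omega⟩, σ)) t, u1, W4, V1.filter (fun x => x ≠ t ∧ Cl P τ e k t x),
      hW4.1.trans ((Finset.filter_subset _ _).trans hW2.1), Finset.filter_subset _ _, ?_, ?_, ?_,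
      hPS⟩
    · refine ((hW2W.trans hW3).trans hW4).mono ?_
      rw [hc]
      ring_nf
      exact le_refl _
    · refine (hV1.trans (hcl t ht)).mono ?_
      ring_nf
      exact le_refl _
    · intro i hi
      by_cases hin : i = n (e, ⟨k, by omega⟩, σ)
      · rw [hin, Function.update_self]
        exact hW1.1 (hW2.1 ht)
      · rw [Function.update_of_ne hin]
        exact hT _ i (by omega)
  -- the claim
  have claim : ∀ (s j : ℕ) (n : E × Fin (l + 1) × Bool → ℕ)
      (T : E × Fin (l + 1) × Bool → ℕ → X)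
      (u : E × Fin (l + 1) × Bool → ℕ → ℕ → ℕ) (W1 V1 : Finset X),
      Cost (j * c) W1 W → Cost (j * (κ + 2)) V1 V → (∀ q, n q < m) →
      (∀ q i, i < n q → T q i ∈ W) →
      (∀ q : E × Fin (l + 1) × Bool,
        PSeq m P τ θ l T' q.1 q.2.1 q.2.2 (n q) (T q) (u q) W1 V1) →
      ∑ q, (m - n q) ≤ s → j + s ≤ J →
      ∃ (e : E) (k : ℕ) (σ : Bool) (T : ℕ → X) (u : ℕ → ℕ → ℕ) (V1 : Finset X), k ≤ l ∧
        Cost (J * (κ + 2)) V1 V ∧ (∀ i, i < m → T i ∈ W) ∧
        PSeq m P τ θ l T' e k σ m T u ∅ V1 := by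
    intro s
    induction s with
    | zero =>
      intro j n T u W1 V1 hW1 hV1 hn hT hS hs hj
      have hno : ∀ q, n q < m → False := by
        intro q hq
        have h5 : m - n q ≤ ∑ q, (m - n q) :=
          Finset.single_le_sum (f := fun q => m - n q) (fun _ _ => Nat.zero_le _)
            (Finset.mem_univ q)
        omega
      obtain ⟨q, -⟩ := step j n T u W1 V1 hW1 hV1 hn hT hS (by omega)
        (fun q hq => (hno q hq).elim)
      exact (hno q (hn q)).elim
    | succ s ih =>
      intro j n T u W1 V1 hW1 hV1 hn hT hS hs hj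
      obtain ⟨q, T1, u1, W4, V2, hW41, hV21, hW4, hV2, hT1, hPS⟩ :=
        step j n T u W1 V1 hW1 hV1 hn hT hS (by omega) (fun q hq => by omega)
      by_cases hm1 : n q + 1 = m
      · rw [hm1] at hPS hT1
        exact ⟨q.1, q.2.1, q.2.2, T1, u1, V2, Nat.lt_succ_iff.1 q.2.1.2,
          hV2.mono (Nat.mul_le_mul_right _ (by omega)), hT1,
          hPS.mono (Finset.empty_subset _) (Finset.Subset.refl _)⟩
      · refine ih (j + 1) (Function.update n q (n q + 1)) (Function.update T q T1)
          (Function.update u q u1) W4 V2 hW4 hV2 ?_ ?_ ?_ ?_ (by omega)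
        · intro q'
          by_cases hq : q' = q
          · rw [hq, Function.update_self]
            have := hn q
            omega
          · rw [Function.update_of_ne hq]
            exact hn q'
        · intro q' i hi
          by_cases hq : q' = q
          · rw [hq, Function.update_self] at hi ⊢
            exact hT1 i hi
          · rw [Function.update_of_ne hq] at hi ⊢
            exact hT q' i hi
        · intro q'
          by_cases hq : q' = q
          · rw [hq, Function.update_self, Function.update_self, Function.update_self]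
            exact hPS
          · rw [Function.update_of_ne hq, Function.update_of_ne hq, Function.update_of_ne hq]
            exact (hS q').mono hW41 hV21
        · have h5 : ∑ q', (m - Function.update n q (n q + 1) q') < ∑ q', (m - n q') := by
            refine Finset.sum_lt_sum (fun q' _ => ?_) ⟨q, Finset.mem_univ q, ?_⟩
            · by_cases hq : q' = q
              · rw [hq, Function.update_self]
                omega
              · rw [Function.update_of_ne hq]
            · rw [Function.update_self]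
              have := hn q
              omega
          omega
  have hWne : W.Nonempty := by
    rw [← Finset.card_pos]
    exact lt_of_lt_of_le (by positivity) h3
  obtain ⟨x0, -⟩ := hWne
  refine claim (Fintype.card (E × Fin (l + 1) × Bool) * m) 0 (fun _ => 0) (fun _ _ => x0)
    (fun _ _ _ => 0) W V ?_ ?_ (fun _ => hm) ?_ (fun q => PSeq.zero _ _ _ _ _ _ _ _ _ _ _ _ _)
    ?_ ?_
  · rw [zero_mul]
    exact Cost.refl W
  · rw [zero_mul]
    exact Cost.refl V
  · intro q i hi
    omega
  · simp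
  · rw [zero_add, hJ]
    exact Nat.mul_le_mul_right _ hK

end Pool.Agent.Lib.MP_293cc0_an.R
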