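import Pool.Agent.Lib.MP_293cc0_an.R.SpecC

/-!
# MP_293cc0_an, the reduction: accuracy indices
-/

set_option autoImplicit false

namespace Pool.Agent.Lib.MP_293cc0_an.R

open Finset
open scoped Classical

theorem split_aux (acc : ℕ → ℕ) (t : ℕ) (ht : 1 ≤ t) : ∀ (n q0 : ℕ) (Λ : Finset ℕ), (∀ l ∈ Λ, q0 < l) →
    t * n ≤ Λ.card →
    (∃ (b : ℕ) (B : Finset ℕ), B ⊆ Λ ∧ t ≤ B.card ∧ ∀ l ∈ B, b < l ∧ acc l ≤ b) ∨
    (∃ q : ℕ → ℕ, q 0 = q0 ∧ (∀ i, 1 ≤ i → i ≤ n → q i ∈ Λ) ∧
      ∀ i, i < n → q i < q (i + 1) ∧ q i < acc (q (i + 1))) := by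
  intro n
  induction n with
  | zero =>
    intro q0 Λ _ _
    exact Or.inr ⟨fun _ => q0, rfl, fun i h1 h2 => by omega, fun i hi => by omega⟩
  | succ n ih =>
    intro q0 Λ hq hc
    by_cases hA : t ≤ (Λ.filter (fun l => acc l ≤ q0)).card
    · exact Or.inl ⟨q0, Λ.filter (fun l => acc l ≤ q0), Finset.filter_subset _ _, hA, fun l hl => by
        rw [Finset.mem_filter] at hl
        exact ⟨hq l hl.1, hl.2⟩⟩
    · have h0 : (Λ.filter (fun l => acc l ≤ q0)).card + (Λ.filter (fun l => ¬ acc l ≤ q0)).card = Λ.card :=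
        Finset.card_filter_add_card_filter_not (s := Λ) (fun l => acc l ≤ q0)
      have h1 : t * (n + 1) = t * n + t := by ring
      have hne : (Λ.filter (fun l => ¬ acc l ≤ q0)).Nonempty := by
        rw [← Finset.card_pos]
        omega
      obtain ⟨q1, hq1⟩ : ∃ q1, q1 = (Λ.filter (fun l => ¬ acc l ≤ q0)).min' hne := ⟨_, rfl⟩
      have hq1m : q1 ∈ Λ.filter (fun l => ¬ acc l ≤ q0) := hq1 ▸ Finset.min'_mem _ hne
      have hq1le : ∀ l ∈ Λ, ¬ acc l ≤ q0 → q1 ≤ l := fun l hl hl' =>
        hq1 ▸ Finset.min'_le _ l (Finset.mem_filter.2 ⟨hl, hl'⟩)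
      rw [Finset.mem_filter] at hq1m
      have hcard : t * n ≤ (Λ.filter (fun l => q1 < l)).card := by
        have h2 : (Λ.filter (fun l => q1 < l)).card + (Λ.filter (fun l => ¬ q1 < l)).card = Λ.card :=
          Finset.card_filter_add_card_filter_not (s := Λ) (fun l => q1 < l)
        have h3 : Λ.filter (fun l => ¬ q1 < l) ⊆ insert q1 (Λ.filter (fun l => acc l ≤ q0)) := by
          intro l hl
          rw [Finset.mem_filter] at hl
          rw [Finset.mem_insert, Finset.mem_filter]
          by_cases h4 : acc l ≤ q0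
          · exact Or.inr ⟨hl.1, h4⟩
          · have := hq1le l hl.1 h4
            left
            omega
        have h4 := Finset.card_le_card h3
        have h5 := Finset.card_insert_le q1 (Λ.filter (fun l => acc l ≤ q0))
        omega
      rcases ih q1 (Λ.filter (fun l => q1 < l)) (fun l hl => (Finset.mem_filter.1 hl).2) hcard with
        ⟨b, B, hB, hB1, hB2⟩ | ⟨q, hq0, hqm, hqs⟩
      · exact Or.inl ⟨b, B, hB.trans (Finset.filter_subset _ _), hB1, hB2⟩
      · refine Or.inr ⟨fun i => if i = 0 then q0 else q (i - 1), by simp, ?_, ?_⟩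
        · intro i hi1 hi2
          show (if i = 0 then q0 else q (i - 1)) ∈ Λ
          rw [if_neg (by omega)]
          by_cases hi : i = 1
          · subst hi
            show q 0 ∈ Λ
            rw [hq0]
            exact hq1m.1
          · exact (Finset.mem_filter.1 (hqm (i - 1) (by omega) (by omega))).1
        · intro i hi
          show (if i = 0 then q0 else q (i - 1)) < (if i + 1 = 0 then q0 else q (i + 1 - 1)) ∧
            (if i = 0 then q0 else q (i - 1)) < acc (if i + 1 = 0 then q0 else q (i + 1 - 1))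
          rw [if_neg (by omega : ¬ i + 1 = 0)]
          by_cases hi0 : i = 0
          · subst hi0
            rw [if_pos rfl]
            show q0 < q 0 ∧ q0 < acc (q 0)
            rw [hq0]
            exact ⟨hq q1 hq1m.1, not_le.1 hq1m.2⟩
          · rw [if_neg hi0]
            obtain ⟨j, rfl⟩ : ∃ j, i = j + 1 := ⟨i - 1, by omega⟩
            exact hqs j (by omega)

theorem split : SplitStmt := by
  intro Λ acc t n ht hc
  rcases Nat.eq_zero_or_pos n with hn | hn
  · subst hn
    exact Or.inr ⟨fun _ => 0, fun i hi => by omega, fun i hi => by omega⟩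
  · obtain ⟨k, rfl⟩ : ∃ k, n = k + 1 := ⟨n - 1, by omega⟩
    have h1 : t * (k + 1) = t * k + t := by ring
    have hne : Λ.Nonempty := by
      rw [← Finset.card_pos]
      omega
    obtain ⟨q0, hq0⟩ : ∃ q0, q0 = Λ.min' hne := ⟨_, rfl⟩
    have hq0m : q0 ∈ Λ := hq0 ▸ Finset.min'_mem _ hne
    have hq0le : ∀ l ∈ Λ, q0 ≤ l := fun l hl => hq0 ▸ Finset.min'_le _ l hl
    have hcard : t * k ≤ (Λ.filter (fun l => q0 < l)).card := by
      have h2 : (Λ.filter (fun l => q0 < l)).card + (Λ.filter (fun l => ¬ q0 < l)).card = Λ.card :=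
        Finset.card_filter_add_card_filter_not (s := Λ) (fun l => q0 < l)
      have h3 : Λ.filter (fun l => ¬ q0 < l) ⊆ {q0} := by
        intro l hl
        rw [Finset.mem_filter] at hl
        rw [Finset.mem_singleton]
        have := hq0le l hl.1
        omega
      have h4 := Finset.card_le_card h3
      rw [Finset.card_singleton] at h4
      omega
    rcases split_aux acc t ht k q0 (Λ.filter (fun l => q0 < l)) (fun l hl => (Finset.mem_filter.1 hl).2) hcard with
      ⟨b, B, hB, hB1, hB2⟩ | ⟨q, hq0', hqm, hqs⟩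
    · exact Or.inl ⟨b, B, hB.trans (Finset.filter_subset _ _), hB1, hB2⟩
    · refine Or.inr ⟨q, ?_, ?_⟩
      · intro i hi
        by_cases hi0 : i = 0
        · subst hi0
          rw [hq0']
          exact hq0m
        · exact (Finset.mem_filter.1 (hqm i (by omega) (by omega))).1
      · intro i hi
        exact hqs i (by omega)

end Pool.Agent.Lib.MP_293cc0_an.R
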