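import Pool.Agent.Lib.MP_293cc0_an.R.SpecC

/-!
# MP_293cc0_an, the reduction (R): stage analysis (section 7.1)

If no level of cost `≤ p0` in `V` has scale `< δ / 2`, then every dense part `V'` of `V` contains a dense part `V''` on which all
levels have scale `≥ 4 δ`.
-/

set_option autoImplicit false

namespace Pool.Agent.Lib.MP_293cc0_an.R

open Finset
open scoped Classical

section

variable {X : Type}

theorem Cost.card_pos {c : ℕ} {A A' : Finset X} (h : Cost c A' A) (hA : A.Nonempty) :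
    0 < A'.card := by
  by_contra h0
  have h1 := h.2
  have h2 : A'.card = 0 := by omega
  rw [h2] at h1
  have := Finset.card_pos.2 hA
  omega

theorem not_cost {c : ℕ} {A A' : Finset X} (hA : A' ⊆ A) (h : ¬ Cost c A' A) :
    2 ^ c * A'.card < A.card := by
  by_contra hcon
  exact h ⟨hA, not_lt.1 hcon⟩

variable [MetricSpace X]

theorem Inc.mono {m c c' : ℕ} {V : Finset X} {t : ℝ} (h : Inc m c' V t) (hc : c ≤ c') : Inc m c V t :=
  fun A g s hA hL => h A g s (hA.mono hc) hL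

/-- A good point of a level for two gauges and a point `x`. -/
theorem PinC.good {E : Type} {m : ℕ} {V₀ : Finset X} {P : E → X → ℝ} {cB : ℕ}
    (hP : PinC m P V₀ cB) {A : Finset X} {g : X → ℝ} {s : ℝ} (hA : A ⊆ V₀) (hL : Level m A g s)
    {c : ℕ} (hc : V₀.card ≤ 2 ^ c * A.card) (hcB : c + 2 ≤ cB) (e f : E)
    {x : X} (hx : x ∈ V₀) :
    ∃ w ∈ A, |P e w - g w| ≤ 5 / 2 * s ∧ |P f w - g w| ≤ 5 / 2 * s ∧
      (w ≠ x → ∃ e', |dist x w - g w - P e' x| ≤ 5 / 2 * s) := by
  have he' := hP.p1 A g s hA hL e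
  have hf' := hP.p1 A g s hA hL f
  have hx' := hP.p2 A g s hA hL x hx
  by_contra hcon
  push Not at hcon
  have hcov : A ⊆ (A.filter (fun w => 5 / 2 * s < |P e w - g w|)) ∪
      ((A.filter (fun w => 5 / 2 * s < |P f w - g w|)) ∪
        (A.filter (fun w => w ≠ x ∧ ∀ e, 5 / 2 * s < |dist x w - g w - P e x|))) := by
    intro w hw
    by_cases c1 : 5 / 2 * s < |P e w - g w|
    · exact Finset.mem_union_left _ (Finset.mem_filter.2 ⟨hw, c1⟩)
    by_cases c2 : 5 / 2 * s < |P f w - g w|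
    · exact Finset.mem_union_right _ (Finset.mem_union_left _ (Finset.mem_filter.2 ⟨hw, c2⟩))
    · exact Finset.mem_union_right _ (Finset.mem_union_right _ (Finset.mem_filter.2
        ⟨hw, hcon w hw (not_lt.1 c1) (not_lt.1 c2)⟩))
  have h3 := (Finset.card_le_card hcov).trans
    ((Finset.card_union_le _ _).trans (Nat.add_le_add_left (Finset.card_union_le _ _) _))
  have h4 : 2 ^ c * 4 ≤ 2 ^ cB := by
    calc 2 ^ c * 4 = 2 ^ (c + 2) := by rw [pow_add]; norm_num
      _ ≤ 2 ^ cB := Nat.pow_le_pow_right (by norm_num) hcB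
  have key : ∀ n : ℕ, 2 ^ cB * n < V₀.card → 4 * n < A.card := by
    intro n hn
    have h5 : 2 ^ c * (4 * n) < 2 ^ c * A.card := by
      calc 2 ^ c * (4 * n) = 2 ^ c * 4 * n := by ring
        _ ≤ 2 ^ cB * n := Nat.mul_le_mul_right _ h4
        _ < V₀.card := hn
        _ ≤ 2 ^ c * A.card := hc
    exact Nat.lt_of_mul_lt_mul_left h5
  have k1 := key _ he'
  have k2 := key _ hf'
  have k3 := key _ hx'
  omega

theorem PinC.of_empty {E : Type} (hE : E → False) {m : ℕ} {V₀ : Finset X} {P : E → X → ℝ} {cB : ℕ}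
    (hP : PinC m P V₀ cB) {A : Finset X} {g : X → ℝ} {s : ℝ} (hA : A ⊆ V₀) (hL : Level m A g s)
    {x : X} (hx : x ∈ V₀) : 2 ^ cB * (A.card - 1) < V₀.card := by
  refine lt_of_le_of_lt (Nat.mul_le_mul_left _ ?_) (hP.p2 A g s hA hL x hx)
  refine le_trans (Finset.pred_card_le_card_erase (a := x)) (Finset.card_le_card ?_)
  intro w hw
  rw [Finset.mem_erase] at hw
  exact Finset.mem_filter.2 ⟨hw.2, hw.1, fun e => (hE e).elim⟩

end

/-- **Stage analysis** (section 7.1). -/
theorem stage : StageStmt := by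
  intro X _ E _ m PD qD nD a cB cV cT cI p₀ P V₀ V V' δ hDrop hP hEc hδ hV hV' hV'c hmin hp₀ hcB hbig
  obtain ⟨cA, hcA⟩ : ∃ cA, cA = 2 * a + qD + 2 := ⟨_, rfl⟩
  rw [← hcA]
  have hV'V₀ : V' ⊆ V₀ := hV'c.1
  have hV'ne : V'.Nonempty := by
    rw [← Finset.card_pos]
    exact lt_of_lt_of_le (by positivity) hbig
  rcases isEmpty_or_nonempty E with hE | hE
  · refine ⟨V', (Cost.refl V').mono (Nat.zero_le _), ?_⟩
    intro A g s hA hL
    exfalso
    have hA2 : 2 ≤ A.card := by
      have h1 := hA.large (k := 1) ((Nat.pow_le_pow_right (by norm_num) (by omega)).trans hbig)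
      simpa using h1
    obtain ⟨x, hx⟩ := hV'ne
    have h1 := hP.of_empty (fun e => hE.elim e) (hA.1.trans hV'V₀) hL (hV'V₀ hx)
    have h5 : V₀.card ≤ 2 ^ (cV + cI) * A.card := by
      calc V₀.card ≤ 2 ^ cV * V'.card := hV'c.2
        _ ≤ 2 ^ cV * (2 ^ cI * A.card) := Nat.mul_le_mul_left _ hA.2
        _ = 2 ^ (cV + cI) * A.card := by rw [pow_add]; ring
    have h6 : 2 ^ (cV + cI) * 4 ≤ 2 ^ cB := by
      calc 2 ^ (cV + cI) * 4 = 2 ^ (cV + cI + 2) := by rw [pow_add _ _ 2]; norm_num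
        _ ≤ 2 ^ cB := Nat.pow_le_pow_right (by norm_num) (by omega)
    have h7 : 2 ^ (cV + cI) * (4 * (A.card - 1)) < 2 ^ (cV + cI) * A.card := by
      calc 2 ^ (cV + cI) * (4 * (A.card - 1)) = 2 ^ (cV + cI) * 4 * (A.card - 1) := by ring
        _ ≤ 2 ^ cB * (A.card - 1) := Nat.mul_le_mul_right _ h6
        _ < V₀.card := h1
        _ ≤ _ := h5
    have h8 := Nat.lt_of_mul_lt_mul_left h7
    omega
  -- good points of levels inside dense parts
  have good : ∀ (A B : Finset X) (g : X → ℝ) (s : ℝ), Cost cA B V' → Cost cI A B → Level m A g s →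
      ∀ e f, ∀ x ∈ V₀, ∃ w ∈ A, |P e w - g w| ≤ 5 / 2 * s ∧ |P f w - g w| ≤ 5 / 2 * s ∧
      (w ≠ x → ∃ e', |dist x w - g w - P e' x| ≤ 5 / 2 * s) := by
    intro A B g s hB hA hL e f x hx
    refine hP.good ((hA.1.trans hB.1).trans hV'V₀) hL (c := cV + cA + cI) ?_ (by omega) e f hx
    calc V₀.card ≤ 2 ^ cV * V'.card := hV'c.2
      _ ≤ 2 ^ cV * (2 ^ cA * (2 ^ cI * A.card)) :=
          Nat.mul_le_mul_left _ (hB.2.trans (Nat.mul_le_mul_left _ hA.2))
      _ = 2 ^ (cV + cA + cI) * A.card := by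
          rw [pow_add _ (cV + cA) cI, pow_add _ cV cA]; ring
  obtain ⟨x₀, hx₀⟩ := hV'ne
  by_cases hi : ∃ e f, Cost (2 * a + 2) (V'.filter (fun x => 20 * δ < |P e x - P f x|)) V'
  · -- case (i)
    obtain ⟨e, f, hef⟩ := hi
    refine ⟨_, hef.mono (by omega), ?_⟩
    intro A g s hA hL
    obtain ⟨w, hw, h1, h2, _⟩ := good A _ g s (hef.mono (by omega)) hA hL e f x₀ (hV'V₀ hx₀)
    have h3 := (Finset.mem_filter.1 (hA.1 hw)).2
    have h4 : |P e w - P f w| ≤ |P e w - g w| + |P f w - g w| := by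
      have : P e w - P f w = (P e w - g w) - (P f w - g w) := by ring
      rw [this]
      exact abs_sub _ _
    linarith
  push Not at hi
  -- `V₁`
  obtain ⟨V₁, hV₁⟩ : ∃ V₁ : Finset X, V₁ = V'.filter
      (fun x => ∀ e f, |P e x - P f x| ≤ 20 * δ) := ⟨_, rfl⟩
  have hV₁sub : V₁ ⊆ V' := by rw [hV₁]; exact Finset.filter_subset _ _
  have hV₁c : V'.card ≤ 2 * V₁.card := by
    have h1 : V'.filter (fun x => ¬ ∀ e f, |P e x - P f x| ≤ 20 * δ) ⊆
        (Finset.univ : Finset (E × E)).biUnion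
          (fun p => V'.filter (fun x => 20 * δ < |P p.1 x - P p.2 x|)) := by
      intro x hx
      rw [Finset.mem_filter] at hx
      obtain ⟨hxV, hx⟩ := hx
      push Not at hx
      obtain ⟨e, f, h⟩ := hx
      exact Finset.mem_biUnion.2 ⟨(e, f), Finset.mem_univ _, Finset.mem_filter.2 ⟨hxV, h⟩⟩
    have h2 : 2 ^ (2 * a + 2) * ((Finset.univ : Finset (E × E)).biUnion
        (fun p => V'.filter (fun x => 20 * δ < |P p.1 x - P p.2 x|))).card ≤
        2 ^ (2 * a) * V'.card := by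
      calc 2 ^ (2 * a + 2) * ((Finset.univ : Finset (E × E)).biUnion
            (fun p => V'.filter (fun x => 20 * δ < |P p.1 x - P p.2 x|))).card
          ≤ 2 ^ (2 * a + 2) * ∑ p : E × E, (V'.filter (fun x => 20 * δ < |P p.1 x - P p.2 x|)).card
            := Nat.mul_le_mul_left _ Finset.card_biUnion_le
        _ = ∑ p : E × E, 2 ^ (2 * a + 2) * (V'.filter (fun x => 20 * δ < |P p.1 x - P p.2 x|)).card
            := by rw [Finset.mul_sum]
        _ ≤ ∑ _p : E × E, V'.card :=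
            Finset.sum_le_sum (fun p _ => (not_cost (Finset.filter_subset _ _) (hi p.1 p.2)).le)
        _ = Fintype.card E * Fintype.card E * V'.card := by
            rw [Finset.sum_const, smul_eq_mul, Finset.card_univ, Fintype.card_prod]
        _ ≤ 2 ^ a * 2 ^ a * V'.card := Nat.mul_le_mul_right _ (Nat.mul_le_mul hEc hEc)
        _ = 2 ^ (2 * a) * V'.card := by rw [two_mul, pow_add]
    have h3 : 4 * ((Finset.univ : Finset (E × E)).biUnion
        (fun p => V'.filter (fun x => 20 * δ < |P p.1 x - P p.2 x|))).card ≤ V'.card := by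
      have h4 : 2 ^ (2 * a) * (4 * ((Finset.univ : Finset (E × E)).biUnion
        (fun p => V'.filter (fun x => 20 * δ < |P p.1 x - P p.2 x|))).card) ≤
        2 ^ (2 * a) * V'.card := by
        calc 2 ^ (2 * a) * (4 * ((Finset.univ : Finset (E × E)).biUnion
              (fun p => V'.filter (fun x => 20 * δ < |P p.1 x - P p.2 x|))).card)
            = 2 ^ (2 * a + 2) * ((Finset.univ : Finset (E × E)).biUnion
              (fun p => V'.filter (fun x => 20 * δ < |P p.1 x - P p.2 x|))).card := by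
              rw [pow_add]; ring
          _ ≤ _ := h2
      exact Nat.le_of_mul_le_mul_left h4 (by positivity)
    have h5 := Finset.card_le_card h1
    have h6 : V₁.card + (V'.filter (fun x => ¬ ∀ e f, |P e x - P f x| ≤ 20 * δ)).card
        = V'.card := by
      rw [hV₁]; exact Finset.card_filter_add_card_filter_not _
    omega
  have hV₁cost : Cost 1 V₁ V' := ⟨hV₁sub, by rw [pow_one]; exact hV₁c⟩
  by_cases hii : ∃ A, Cost qD A V₁ ∧ Inc m cI A (4 * δ)
  · obtain ⟨A, hA, hInc⟩ := hii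
    exact ⟨A, (hV₁cost.trans hA).mono (by omega), hInc⟩
  push Not at hii
  obtain ⟨e₀⟩ := hE
  -- all `B_x` are small
  have hB : ∀ x ∈ V₁, 2 ^ qD * (V₁.filter (fun w => w ≠ x ∧ 40 * δ < |MG (P e₀) x w|)).card ≤
      V₁.card := by
    intro x hx
    by_contra hcon
    have hBc : Cost qD (V₁.filter (fun w => w ≠ x ∧ 40 * δ < |MG (P e₀) x w|)) V₁ :=
      ⟨Finset.filter_subset _ _, (not_le.1 hcon).le⟩
    have hn := hii _ hBc
    unfold Inc at hn
    push Not at hn
    obtain ⟨A, g, s, hA, hL, hs⟩ := hn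
    obtain ⟨w, hw, h1, _, h2⟩ := good A _ g s ((hV₁cost.trans hBc).mono (by omega)) hA hL e₀
      e₀ x (hV'V₀ (hV₁sub hx))
    have h3 := (Finset.mem_filter.1 (hA.1 hw)).2
    obtain ⟨e, h4⟩ := h2 h3.1
    have h5 : |P e x - P e₀ x| ≤ 20 * δ := by
      rw [hV₁, Finset.mem_filter] at hx
      exact hx.2 e e₀
    have h6 : |MG (P e₀) x w| ≤ |dist x w - g w - P e x| + |P e x - P e₀ x| + |P e₀ w - g w| := by
      have : MG (P e₀) x w = (dist x w - g w - P e x) + (P e x - P e₀ x) - (P e₀ w - g w) := by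
        unfold MG; ring
      rw [this]
      refine (abs_sub _ _).trans ?_
      have := abs_add_le (dist x w - g w - P e x) (P e x - P e₀ x)
      linarith
    linarith [h3.2]
  obtain ⟨A, g', hA, hL⟩ := hDrop V₁ (P e₀) (40 * δ) (by linarith) (by
    have h1 : 2 ^ (nD + 1) ≤ V'.card := (Nat.pow_le_pow_right (by norm_num) (by omega)).trans hbig
    rw [pow_succ] at h1; omega) hB
  have h1 := hmin A g' _ (((hV'.trans hV₁cost).trans hA).mono hp₀) hL
  linarith

end Pool.Agent.Lib.MP_293cc0_an.R
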