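import Pool.Agent.Lib.MP_293cc0_an.R.SpecC

/-!
# MP_293cc0_an, the reduction: Theorem C with all parameters
-/

set_option autoImplicit false

namespace Pool.Agent.Lib.MP_293cc0_an.R

open Finset
open scoped Classical

theorem thmC (hChain : ChainStmt) (hEndOf : EndOfStmt) (hEnd : EndStmt) : ThmCStmt := by
  intro X _ E _ p PD qD nD nZ a Lm κ μ cT cW p0 cI cS cV cB nW P V0 hp par hLm hD hN hpin hE hbig
  obtain ⟨f, -, h1, -, h3⟩ := hChain X E (12 * p) PD qD nD nZ a Lm κ μ cT cW p0 cI cS cV cB nW P V0 par hD hN hpin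
    hE hbig Lm le_rfl
  have h4 := hEndOf X E (12 * p) cS cI Lm P f (by omega) h1 h3
  exact hEnd X E Lm p a P _ _ _ _ _ h4 hp hE hLm

end Pool.Agent.Lib.MP_293cc0_an.R
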