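import Pool.Agent.Lib.MP_293cc0_an.R.Defs
import Pool.Agent.Lib.MP_293cc0_an.R.FourCell

/-!
# MP_293cc0_an, the reduction: specification of section 7 (Theorem C, the increase chain) and section 8 (pick lemma)

Text: notes 2107 / 2108 of the crowd C5. Every `...Stmt` below is the exact statement of one module; the complete proof is in the
docstring. All modules are independent (a module may assume the statements of other modules as hypotheses only where this is said).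
`m` is always the rank parameter (`m = 12 p`). `P : E → X → ℝ` is a finite family of gauges (colours).
-/

set_option autoImplicit false

namespace Pool.Agent.Lib.MP_293cc0_an.R

open Finset
open scoped Classical

section Definitions

variable {X : Type} [MetricSpace X] {E : Type}

/-- `Side true θ x`: `θ < x`; `Side false θ x`: `x < -θ`. -/
def Side (σ : Bool) (θ x : ℝ) : Prop := (σ = true ∧ θ < x) ∨ (σ = false ∧ x < -θ)

/-- The pair `x, y` has colour `e` and accuracy index `a` (for the thresholds `τ 0 < τ 1 < ...`). -/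
def Cl (P : E → X → ℝ) (τ : ℕ → ℝ) (e : E) (a : ℕ) (x y : X) : Prop :=
  |MG (P e) x y| ≤ τ a ∧ (1 ≤ a → τ (a - 1) < |MG (P e) x y|)

/-- `INC`: all levels of cost `≤ c` in `V` have scale `≥ t`. -/
def Inc (m c : ℕ) (V : Finset X) (t : ℝ) : Prop :=
  ∀ (A : Finset X) (g : X → ℝ) (s : ℝ), Cost c A V → Level m A g s → t ≤ s

/-- `PINNED`. -/
structure PinC (m : ℕ) (P : E → X → ℝ) (V0 : Finset X) (c : ℕ) : Prop where
  p1 : ∀ (A : Finset X) (g : X → ℝ) (s : ℝ), A ⊆ V0 → Level m A g s → ∀ e,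
    2 ^ c * (A.filter (fun w => 5 / 2 * s < |P e w - g w|)).card < V0.card
  p2 : ∀ (A : Finset X) (g : X → ℝ) (s : ℝ), A ⊆ V0 → Level m A g s → ∀ x ∈ V0,
    2 ^ c * (A.filter (fun w => w ≠ x ∧ ∀ e, 5 / 2 * s < |dist x w - g w - P e x|)).card < V0.card

/-- The drop lemma, in a space without savings. -/
def DropH (X : Type) [MetricSpace X] (m PD qD nD : ℕ) : Prop :=
  ∀ (U : Finset X) (g : X → ℝ) (d : ℝ), 0 < d → 2 ^ nD ≤ U.card →
    (∀ v ∈ U, 2 ^ qD * (U.filter (fun w => w ≠ v ∧ d < |MG g v w|)).card ≤ U.card) →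
    ∃ (A : Finset X) (g' : X → ℝ), Cost PD A U ∧ Level m A g' (d / 128)

/-- A level of cost `≤ c` in `V` whose scale is minimal up to a factor `2`. -/
def NearMinC (m c : ℕ) (V A : Finset X) (g : X → ℝ) (s : ℝ) : Prop :=
  Cost c A V ∧ Level m A g s ∧
    ∀ (A' : Finset X) (g' : X → ℝ) (s' : ℝ), Cost c A' V → Level m A' g' s' → s / 2 ≤ s'

/-- Near-minimal levels exist, in a space without savings (sections 5.1, 5.2). -/
def NearH (X : Type) [MetricSpace X] (m PD nZ : ℕ) : Prop :=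
  ∀ (c : ℕ) (V : Finset X), PD ≤ c → 2 ^ (c + nZ) ≤ V.card → ∃ A g s, NearMinC m c V A g s

/-- The relation of the first pass. -/
def Rel (a b c x : X) : Prop := dist a b + dist c x ≤ dist a c + dist b x

end Definitions

/-! ## 7.1 Stage analysis -/

/-- **(7.1)** Stage analysis.
PROOF. `E` empty: take `V'' = V'`. A level `(A, g, s)` of cost `≤ cI` in `V'` has at least `2 ^ 5` points; `(p2)` for some
`x ∈ V'` says `2 ^ cB * (card A - 1) < card V0 ≤ 2 ^ (cV + cI) * card A`, impossible; so `Inc` holds vacuously.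
`E` non-empty. (i) Suppose that for some `e f` the set `A = {x ∈ V' : 20 δ < |P e x - P f x|}` has `card V' ≤ 2 ^ (2 a + 2) * card A`:
take `V'' = A`. For a level `(A', g, s)` with `Cost cI A' A` the sets `{5/2 s < |P e - g|}`, `{5/2 s < |P f - g|}` of `(p1)` have
less than `card A' / 4` points each (`card V0 ≤ 2 ^ (cV + 2 a + 2 + cI) * card A'`), so some `w ∈ A'` is outside both,
`20 δ < |P e w - P f w| ≤ 5 s`.
(ii) Otherwise `V1 = {x ∈ V' : ∀ e f, |P e x - P f x| ≤ 20 δ}` has at least `3/4 card V'` points (there are `≤ 2 ^ (2 a)` pairs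
`e, f`). If some `A ⊆ V1` with `Cost qD A V1` satisfies `Inc m cI A (4 δ)`: `V'' = A` (cost `qD + 1` in `V'`).
(iii) Otherwise let `e0 : E`, `g = P e0`. CLAIM: for `x ∈ V1`: `2 ^ qD * card {w ∈ V1 : w ≠ x ∧ 40 δ < |MG g x w|} ≤ card V1`. If
not, this set `B` has `Cost qD B V1`, so `Inc m cI B (4 δ)` fails: there is a level `(A, g', s)`, `Cost cI A B`, `s < 4 δ`. By
`(p1)` for `e0` and `(p2)` for `x` some `w ∈ A` (so `w ≠ x`) has `|P e0 w - g' w| ≤ 5/2 s` and `|dist x w - g' w - P e x| ≤ 5/2 s`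
for some `e`. Then `|MG g x w| ≤ 5/2 s + |P e x - P e0 x| + 5/2 s ≤ 5 s + 20 δ ≤ 40 δ`, contradiction. Now `DropH` (with
`d = 40 δ`, `U = V1`) gives a level of scale `40 δ / 128 < δ / 2` and cost `PD` in `V1`, hence cost `≤ cT + 1 + PD ≤ p0` in `V`:
contradiction to the hypothesis on `V`. -/
def StageStmt : Prop :=
  ∀ (X : Type) [MetricSpace X] (E : Type) [Fintype E] (m PD qD nD a cB cV cT cI p0 : ℕ) (P : E → X → ℝ)
    (V0 V V' : Finset X) (δ : ℝ),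
    DropH X m PD qD nD → PinC m P V0 cB → Fintype.card E ≤ 2 ^ a → 0 < δ → V ⊆ V0 →
    Cost cT V' V → Cost cV V' V0 →
    (∀ (A : Finset X) (g : X → ℝ) (s : ℝ), Cost p0 A V → Level m A g s → δ / 2 ≤ s) →
    cT + 1 + PD ≤ p0 → cV + cI + 2 * a + qD + 5 ≤ cB → 2 ^ (nD + cI + qD + 2 * a + 5) ≤ V'.card →
    ∃ V'' : Finset X, Cost (2 * a + qD + 2) V'' V' ∧ Inc m cI V'' (4 * δ)

/-! ## 7.3 Selection -/

/-- **(Dic)** PROOF. Otherwise for all `x ∈ A` and both signs `σ` the set of `w` with `Side σ θ (MG f x w)` has less than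
`card A / 2 ^ (qD + 1)` points; `{θ < |MG f x w|}` is the union of the two, so `DropH` applies to `A, f, θ` and gives a level of
scale `θ / 128` and cost `≤ cD + PD ≤ cI` in `V`, so `t ≤ θ / 128`, a contradiction. -/
def DicStmt : Prop :=
  ∀ (X : Type) [MetricSpace X] (m PD qD nD cD cI : ℕ) (V A : Finset X) (t θ : ℝ) (f : X → ℝ),
    DropH X m PD qD nD → Inc m cI V t → 0 < θ → θ / 128 < t → Cost cD A V → cD + PD ≤ cI → 2 ^ nD ≤ A.card →
    ∃ σ : Bool, ∃ x ∈ A, Cost (qD + 1) (A.filter (fun w => w ≠ x ∧ Side σ θ (MG f x w))) A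

/-- Unclassified points are rare (from `PINNED`).
PROOF. If `w ≠ x` and `5 δ < |MG (P e) w x|` for all `e`, then either `5/2 δ < |dist x w - g w - P e x|` for all `e` (the set of
`(p2)`), or for some `e` this number is `≤ 5/2 δ`, and then `5/2 δ < |P e w - g w|` (the set of `(p1)` for `e`). So the set has less than
`(card E + 1) * card V0 / 2 ^ cB` points. -/
def ClsStmt : Prop :=
  ∀ (X : Type) [MetricSpace X] (E : Type) [Fintype E] (m a c cB cV : ℕ) (P : E → X → ℝ)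
    (V0 W W' : Finset X) (g : X → ℝ) (δ : ℝ),
    PinC m P V0 cB → Fintype.card E ≤ 2 ^ a → W ⊆ V0 → Level m W g δ → W' ⊆ W → Cost cV W' V0 →
    cV + c + a + 1 ≤ cB →
    ∀ x ∈ V0, 2 ^ c * (W'.filter (fun w => w ≠ x ∧ ∀ e, 5 * δ < |MG (P e) w x|)).card ≤ W'.card

/-- **Popular class.**
PROOF. A pair `w ≠ x` with `|MG (P e) w x| ≤ τ l` for some `e` has `Cl P τ e k w x` for some `k ≤ l` (`k` minimal with
`|MG (P e) w x| ≤ τ k`). For every `x ∈ V` at least `card W - card W / 4 - 1 ≥ 5/8 card W` of the `w` are classified. Double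
counting: `W1 = {w ∈ W : at least card V / 4 of the x are classified}` has at least `3/8 card W` points. For `w ∈ W1` one of the
`card E * (l + 1) ≤ 2 ^ κ` classes `(e, k)` has at least `card V / 2 ^ (κ + 2)` points `x`; by pigeonhole this class is the same for
at least `card W1 / 2 ^ κ ≥ card W / 2 ^ (κ + 2)` of the `w`. -/
def PopStmt : Prop :=
  ∀ (X : Type) [MetricSpace X] (E : Type) [Fintype E] (P : E → X → ℝ) (τ : ℕ → ℝ) (l κ : ℕ) (W V : Finset X),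
    V.Nonempty → 8 ≤ W.card → Fintype.card E * (l + 1) ≤ 2 ^ κ →
    (∀ x ∈ V, 4 * (W.filter (fun w => w ≠ x ∧ ∀ e, τ l < |MG (P e) w x|)).card ≤ W.card) →
    ∃ (e : E) (k : ℕ), k ≤ l ∧ ∃ W' : Finset X, Cost (κ + 2) W' W ∧
      ∀ w ∈ W', Cost (κ + 2) (V.filter (fun x => x ≠ w ∧ Cl P τ e k w x)) V

/-- A partial sequence `T 0, ..., T (n-1)` of the class `(e, k, σ)`, with tops `u l' i` for the previous cliques `T' l'`,
`1 ≤ l' < l`, inner pool `W`, outer pool `V`. -/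
structure PSeq {X : Type} [MetricSpace X] {E : Type} (m : ℕ) (P : E → X → ℝ) (τ : ℕ → ℝ) (θ : ℝ) (l : ℕ)
    (T' : ℕ → ℕ → X) (e : E) (k : ℕ) (σ : Bool) (n : ℕ) (T : ℕ → X) (u : ℕ → ℕ → ℕ) (W V : Finset X) : Prop where
  inj : ∀ i j, i < j → j < n → T i ≠ T j
  notW : ∀ i, i < n → T i ∉ W
  notV : ∀ i, i < n → T i ∉ V
  side : ∀ i j, i < j → j < n → Side σ θ (MG (P e) (T i) (T j))
  sideW : ∀ i, i < n → ∀ w ∈ W, Side σ θ (MG (P e) (T i) w)
  cl : ∀ i, i < n → ∀ x ∈ V, Cl P τ e k (T i) x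
  ult : ∀ l', 1 ≤ l' → l' < l → ∀ i, i < n → u l' i < m
  uinj : ∀ l', 1 ≤ l' → l' < l → ∀ i j, i < j → j < n → u l' i ≠ u l' j
  serv : ∀ l', 1 ≤ l' → l' < l → ∀ i j, i < j → j < n → ∀ r, r < m → (∀ q, q < i → r ≠ u l' q) →
    dist (T' l' r) (T i) + dist (T' l' (u l' i)) (T j) ≤ dist (T' l' (u l' i)) (T i) + dist (T' l' r) (T j)
  servW : ∀ l', 1 ≤ l' → l' < l → ∀ i, i < n → ∀ w ∈ W, ∀ r, r < m → (∀ q, q < i → r ≠ u l' q) →
    dist (T' l' r) (T i) + dist (T' l' (u l' i)) w ≤ dist (T' l' (u l' i)) (T i) + dist (T' l' r) w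

theorem PSeq.mono {X : Type} [MetricSpace X] {E : Type} {m : ℕ} {P : E → X → ℝ} {τ : ℕ → ℝ} {θ : ℝ} {l : ℕ}
    {T' : ℕ → ℕ → X} {e : E} {k : ℕ} {σ : Bool} {n : ℕ} {T : ℕ → X} {u : ℕ → ℕ → ℕ} {W V W1 V1 : Finset X}
    (h : PSeq m P τ θ l T' e k σ n T u W V) (hW : W1 ⊆ W) (hV : V1 ⊆ V) :
    PSeq m P τ θ l T' e k σ n T u W1 V1 :=
  ⟨h.inj, fun i hi hm => h.notW i hi (hW hm), fun i hi hm => h.notV i hi (hV hm), h.side,
    fun i hi w hw => h.sideW i hi w (hW hw), fun i hi x hx => h.cl i hi x (hV hx), h.ult, h.uinj, h.serv,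
    fun l' h1 h2 i hi w hw => h.servW l' h1 h2 i hi w (hW hw)⟩

theorem PSeq.zero {X : Type} [MetricSpace X] {E : Type} (m : ℕ) (P : E → X → ℝ) (τ : ℕ → ℝ) (θ : ℝ) (l : ℕ)
    (T' : ℕ → ℕ → X) (e : E) (k : ℕ) (σ : Bool) (T : ℕ → X) (u : ℕ → ℕ → ℕ) (W V : Finset X) :
    PSeq m P τ θ l T' e k σ 0 T u W V :=
  ⟨by intro i j _ h; omega, by intro i h; omega, by intro i h; omega, by intro i j _ h; omega, by intro i h; omega,
    by intro i h; omega, by intro _ _ _ i h; omega, by intro _ _ _ i j _ h; omega, by intro _ _ _ i j _ h; omega,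
    by intro _ _ _ i h; omega⟩

/-- **Extension of a partial sequence by one point.**
PROOF. Put `T1 = Function.update T n t`. For one `l'` and a set `W1`: let `Q = {r < m : ∀ q < n, r ≠ u l' q}` (non-empty because
`n < m`); every `w ∈ W1` has some `r0 ∈ Q` which maximises `dist (T' l' r) t - dist (T' l' r) w` over `r ∈ Q`; take the most popular
`r0` (at most `m ≤ 2 ^ μ` values): cost `μ`; put `u' l' n = r0`, `u' l' q = u l' q` for `q < n`. Do this for `l' = 1, ..., l - 1` one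
after the other (induction on the bound of `l'`; the inequalities for the earlier `l'` are inherited by subsets of `W1`). -/
def ExtStmt : Prop :=
  ∀ (X : Type) [MetricSpace X] (E : Type) (m μ : ℕ) (P : E → X → ℝ) (τ : ℕ → ℝ) (θ : ℝ) (l : ℕ)
    (T' : ℕ → ℕ → X) (e : E) (k : ℕ) (σ : Bool) (n : ℕ) (T : ℕ → X) (u : ℕ → ℕ → ℕ) (W V W1 V1 : Finset X) (t : X),
    PSeq m P τ θ l T' e k σ n T u W V → n < m → m ≤ 2 ^ μ → t ∈ W → W1 ⊆ W → V1 ⊆ V →
    (∀ w ∈ W1, w ≠ t ∧ Side σ θ (MG (P e) t w)) → (∀ x ∈ V1, x ≠ t ∧ Cl P τ e k t x) →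
    ∃ (W2 : Finset X) (u' : ℕ → ℕ → ℕ), Cost (l * μ) W2 W1 ∧
      PSeq m P τ θ l T' e k σ (n + 1) (Function.update T n t) u' W2 V1

/-- **(7.3) Selection.** Here `c = κ + 2 + r + l * μ` is the cost of one step for the inner pool `W` and `κ + 2` for the outer pool.
PROOF (uses `PopStmt`, `ExtStmt`). The classes are the elements of `K = E × Fin (l + 1) × Bool`, `card K ≤ 2 ^ (κ + 1)`. A STATE of
potential `s` and with used steps `j`: functions `n : K → ℕ`, `T : K → ℕ → X`, `u : K → ℕ → ℕ → ℕ` and pools `W1, V1` with `Cost (j * c) W1 W`,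
`Cost (j * (κ + 2)) V1 V`, `n q < m`, `T q i ∈ W` for `i < n q`, and `PSeq m P τ θ l T' q.1 q.2.1 q.2.2 (n q) (T q) (u q) W1 V1` for all `q`, and
`∑ q, (m - n q) ≤ s`. CLAIM by induction on `s`: a state of potential `s` with `j + s ≤ 2 ^ (κ + 1) * m` gives the conclusion. STEP: `PopStmt` for
`W1, V1` (unclassified: `2 ^ c1 * card ≤ card W ≤ 2 ^ (j c) * card W1`, and `j c + 2 ≤ c1`; `8 ≤ card W1`) gives a class `(e, k)` and
`W2`, `Cost (κ + 2) W2 W1`; the hypothesis (Dic) for `A = W2` (cost `≤ j c + κ + 2 ≤ cW` in `W`) and `e` gives `σ`, `t ∈ W2` and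
`W3 = {w ∈ W2 : w ≠ t ∧ Side ..}` with `Cost r W3 W2`; `V2 = {x ∈ V1 : x ≠ t ∧ Cl ..}`, `Cost (κ + 2) V2 V1`; `ExtStmt` for the class
`q = (e, k, σ)` (with `W = W1`, `V = V1`, `W1 = W3`, `V1 = V2`) gives `W4`, `Cost (l μ) W4 W3`, and a sequence of length `n q + 1`. If `n q + 1 = m`:
conclusion (with `PSeq.mono`, `W = ∅`). Otherwise update `n, T, u` at `q` (`PSeq.mono` for the other classes): potential `s - 1`.
Initial state: `n = 0`, potential `card K * m ≤ 2 ^ (κ + 1) * m`. -/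
def SelStmt : Prop :=
  ∀ (X : Type) [MetricSpace X] (E : Type) [Fintype E] (m μ : ℕ) (P : E → X → ℝ) (τ : ℕ → ℝ) (θ : ℝ)
    (l κ r cW c1 : ℕ) (T' : ℕ → ℕ → X) (W V : Finset X),
    1 ≤ m → m ≤ 2 ^ μ → Fintype.card E * (l + 1) ≤ 2 ^ κ →
    (∀ x ∈ V, 2 ^ c1 * (W.filter (fun w => w ≠ x ∧ ∀ e, τ l < |MG (P e) w x|)).card ≤ W.card) →
    (∀ A : Finset X, Cost cW A W → ∀ e : E, ∃ σ : Bool, ∃ t ∈ A,
      Cost r (A.filter (fun w => w ≠ t ∧ Side σ θ (MG (P e) t w))) A) →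
    2 ^ (κ + 1) * m * (κ + 2 + r + l * μ) + 2 ≤ c1 → 2 ^ (κ + 1) * m * (κ + 2 + r + l * μ) ≤ cW →
    2 ^ (2 ^ (κ + 1) * m * (κ + 2 + r + l * μ) + 3) ≤ W.card → 2 ^ (2 ^ (κ + 1) * m * (κ + 2) + 1) ≤ V.card →
    ∃ (e : E) (k : ℕ) (σ : Bool) (T : ℕ → X) (u : ℕ → ℕ → ℕ) (V1 : Finset X), k ≤ l ∧
      Cost (2 ^ (κ + 1) * m * (κ + 2)) V1 V ∧ (∀ i, i < m → T i ∈ W) ∧
      PSeq m P τ θ l T' e k σ m T u ∅ V1

/-- **Halving for finitely many functions and two cells.** (From `halving` of helper43: for one `D` there are halves.) -/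
def HalfStmt : Prop :=
  ∀ (X : Type) (k : ℕ) (D : Fin k → X → ℝ) (W V : Finset X), ∃ W' V' : Finset X, Cost k W' W ∧ Cost k V' V ∧
    ∀ i, (∀ w ∈ W', ∀ x ∈ V', D i x ≤ D i w) ∨ (∀ w ∈ W', ∀ x ∈ V', D i w ≤ D i x)

/-- **Refinement**: finitely many predicates are made constant. -/
def RefStmt : Prop :=
  ∀ (X : Type) (k : ℕ) (R : Fin k → X → Prop) (V : Finset X), ∃ V' : Finset X, Cost k V' V ∧
    ∀ i, ∀ x ∈ V', ∀ x' ∈ V', (R i x ↔ R i x')

/-! ## 7.2 The chain -/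

/-- The data of one stage; `V` is the pool AFTER the stage. -/
structure St (X E : Type) where
  V : Finset X
  T : ℕ → X
  col : E
  acc : ℕ
  sg : Bool
  τ : ℝ

/-- Stage `l ≥ 1` of the chain is correct (depends only on `f 0, ..., f l`). -/
structure StOK {X : Type} [MetricSpace X] {E : Type} (m cS cI : ℕ) (P : E → X → ℝ) (f : ℕ → St X E) (l : ℕ) : Prop where
  cost : Cost cS (f l).V (f (l - 1)).V
  inc : Inc m cI (f l).V (4 / 5 * (f l).τ)
  tau : 4 * (f (l - 1)).τ ≤ (f l).τ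
  memT : ∀ i, i < m → (f l).T i ∈ (f (l - 1)).V
  injT : ∀ i j, i < j → j < m → (f l).T i ≠ (f l).T j
  notV : ∀ i, i < m → (f l).T i ∉ (f l).V
  acc : (f l).acc ≤ l
  pair : ∀ i j, i < j → j < m → Side (f l).sg (3 * (f (l - 1)).τ) (MG (P (f l).col) ((f l).T i) ((f l).T j))
  row : ∀ i, i < m → ∀ x ∈ (f l).V, Cl P (fun k => (f k).τ) (f l).col (f l).acc ((f l).T i) x
  serv : ∀ l', 1 ≤ l' → l' < l → ∃ u : ℕ → ℕ, (∀ i, i < m → u i < m) ∧ (∀ i j, i < j → j < m → u i ≠ u j) ∧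
    ∀ i j, i < j → j < m → ∀ r, r < m → (∀ q, q < i → r ≠ u q) →
      dist ((f l').T r) ((f l).T i) + dist ((f l').T (u i)) ((f l).T j) ≤
        dist ((f l').T (u i)) ((f l).T i) + dist ((f l').T r) ((f l).T j)
  ord : ∀ l', 1 ≤ l' → l' < l → ∀ r y, r < m → y < m →
    (∀ i, i < m → ∀ x ∈ (f l).V, dist ((f l').T r) x - dist ((f l').T y) x ≤
      dist ((f l').T r) ((f l).T i) - dist ((f l').T y) ((f l).T i)) ∨
    (∀ i, i < m → ∀ x ∈ (f l).V, dist ((f l').T r) ((f l).T i) - dist ((f l').T y) ((f l).T i) ≤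
      dist ((f l').T r) x - dist ((f l').T y) x)
  hom : ∀ i j k, 1 ≤ i → i ≤ l → 1 ≤ j → j ≤ l → 1 ≤ k → k ≤ l → ∀ x ∈ (f l).V, ∀ x' ∈ (f l).V,
    (Rel ((f i).T 0) ((f j).T 0) ((f k).T 0) x ↔ Rel ((f i).T 0) ((f j).T 0) ((f k).T 0) x')
  sign : ∀ x ∈ (f l).V, ∀ x' ∈ (f l).V, (0 < MG (P (f l).col) ((f l).T 0) x ↔ 0 < MG (P (f l).col) ((f l).T 0) x')

/-- The parameters of the chain: all inequalities between the costs which are used.
`a`: `card E ≤ 2 ^ a`; `Lm`: bound for the number of stages; `κ`: classes; `μ`: `m ≤ 2 ^ μ`; `J = 2 ^ (κ + 1) * m` steps of selection;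
`cT`: cost of (halving, selection, refinement) for the outer pool; `cW`: cost of the inner pool of the selection in `W`;
`p0`: cost of the near-minimal levels; `cI`: cost in `Inc`; `cS`: cost of a stage; `cV`: total cost; `nW`: all sets of cost `≤ cV + cI` in `V0` have at
least `2 ^ nW` points. -/
structure Par (m PD qD nD nZ a Lm κ μ cT cW p0 cI cS cV cB nW : ℕ) : Prop where
  m1 : 1 ≤ m
  mμ : m ≤ 2 ^ μ
  κ1 : 2 ^ a * (Lm + 1) ≤ 2 ^ κ
  hT : Lm * (m * m) + 2 ^ (κ + 1) * m * (κ + 2) + ((Lm + 1) * (Lm + 1) * (Lm + 1) + 1) ≤ cT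
  hp0 : cT + 1 + PD ≤ p0
  hW : 2 ^ (κ + 1) * m * (κ + 2 + (qD + 1) + Lm * μ) ≤ cW
  hI : p0 + Lm * (m * m) + cW + PD ≤ cI
  hS : cT + (2 * a + qD + 2) ≤ cS
  hV : (Lm + 2) * cS ≤ cV
  hB : cV + cI + 2 * a + qD + 5 ≤ cB
  hn : nD + cI + qD + 2 * a + 5 + nZ + cT ≤ nW

/-- **One stage.** Hypotheses: the stages `0, ..., l - 1` are correct, `1 ≤ l ≤ Lm`.
PROOF. `V = (f (l-1)).V`, `δ' = (f (l-1)).τ / 5`, `Inc m cI V (4 δ')`. `NearH` (with `c = p0`) gives `NearMinC m p0 V W g δ`; `δ ≥ 4 δ'` (`p0 ≤ cI`).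
`HalfStmt` for the functions `dist (T l' r) · - dist (T l' y) ·`, `l' < l`, `r, y < m` (at most `Lm * (m * m)` of them) gives `Wh ⊆ W`,
`Vh ⊆ V`. `τ' = fun k => if k = l then 5 δ else (f k).τ`. `SelStmt` for `Wh, Vh`, `θ = 3 (f (l-1)).τ = 15 δ'`, `r = qD + 1`, `T' l' = (f l').T`: the
hypothesis on unclassified points is `ClsStmt` (level `(W, g, δ)`, `W' = Wh`, cost in `V0` at most `(l+1) cS + p0 + Lm m^2`), the hypothesis (Dic) is `DicStmt`
(`t = 4 δ'`, `θ / 128 < t`; a set `A` with `Cost cW A Wh` has cost `≤ p0 + Lm (m * m) + cW` in `V`, and this `+ PD ≤ cI`). Result: `e, k, σ, T, u, V1`. `RefStmt`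
for the predicates `Rel (T_i 0) (T_j 0) (T_k 0) ·` (`1 ≤ i, j, k ≤ l`, where `T_l = T`) and `0 < MG (P e) (T 0) ·` gives `V2`. `Cost cT V2 V`.
`StageStmt` with `V' = V2` gives `V''`, `Cost cS V'' V`, `Inc m cI V'' (4 δ)`. New stage: `⟨V'', T, e, k, σ, 5 δ⟩`. All fields of `StOK` are
inherited by `V'' ⊆ V2 ⊆ V1 ⊆ Vh ⊆ V`. -/
def StepStmt : Prop :=
  ∀ (X : Type) [MetricSpace X] (E : Type) [Fintype E] (m PD qD nD nZ a Lm κ μ cT cW p0 cI cS cV cB nW : ℕ)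
    (P : E → X → ℝ) (V0 : Finset X) (f : ℕ → St X E) (l : ℕ),
    Par m PD qD nD nZ a Lm κ μ cT cW p0 cI cS cV cB nW → DropH X m PD qD nD → NearH X m PD nZ → PinC m P V0 cB →
    Fintype.card E ≤ 2 ^ a → 2 ^ (cV + cI + nW) ≤ V0.card → 1 ≤ l → l ≤ Lm →
    Cost (l * cS) (f (l - 1)).V V0 → 0 < (f (l - 1)).τ → Inc m cI (f (l - 1)).V (4 / 5 * (f (l - 1)).τ) →
    ∃ s : St X E, StOK m cS cI P (Function.update f l s) l

/-- **The chain.** PROOF: induction on `L`. Stage `0`: `NearH` for `V0` gives `NearMinC m p0 V0 W g δ`, `StageStmt` with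
`V = V' = V0`, `cT = 0`, `cV = 0` gives `V''`; `f 0 = ⟨V'', _, _, 0, true, 5 δ⟩` (`E` is non-empty: otherwise `(p2)` for `W` is impossible; `T` is arbitrary,
`V0` is non-empty). Step: `StepStmt`, `f ↦ Function.update f (L + 1) s` (`StOK` at `l ≤ L` depends only on `f 0, ..., f l`). -/
def ChainStmt : Prop :=
  ∀ (X : Type) [MetricSpace X] (E : Type) [Fintype E] (m PD qD nD nZ a Lm κ μ cT cW p0 cI cS cV cB nW : ℕ)
    (P : E → X → ℝ) (V0 : Finset X),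
    Par m PD qD nD nZ a Lm κ μ cT cW p0 cI cS cV cB nW → DropH X m PD qD nD → NearH X m PD nZ → PinC m P V0 cB →
    Fintype.card E ≤ 2 ^ a → 2 ^ (cV + cI + nW) ≤ V0.card →
    ∀ L, L ≤ Lm → ∃ f : ℕ → St X E, Cost cS (f 0).V V0 ∧ 0 < (f 0).τ ∧ Inc m cI (f 0).V (4 / 5 * (f 0).τ) ∧
      ∀ l, 1 ≤ l → l ≤ L → StOK m cS cI P f l

/-! ## 7.4 The end of the chain -/

/-- The static data of a chain of `L` stages (only the chosen points `T l i`, `1 ≤ l ≤ L`, `i < m`). -/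
structure EndData {X : Type} [MetricSpace X] {E : Type} (m L : ℕ) (P : E → X → ℝ) (τ : ℕ → ℝ) (T : ℕ → ℕ → X)
    (col : ℕ → E) (acc : ℕ → ℕ) (sg : ℕ → Bool) : Prop where
  tau0 : 0 < τ 0
  tau : ∀ l, l < L → 4 * τ l ≤ τ (l + 1)
  inj : ∀ l i j, 1 ≤ l → l ≤ L → i < j → j < m → T l i ≠ T l j
  inj' : ∀ l l' i j, 1 ≤ l → l < l' → l' ≤ L → i < m → j < m → T l i ≠ T l' j
  accle : ∀ l, 1 ≤ l → l ≤ L → acc l ≤ l
  pair : ∀ l, 1 ≤ l → l ≤ L → ∀ i j, i < j → j < m → Side (sg l) (3 * τ (l - 1)) (MG (P (col l)) (T l i) (T l j))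
  row : ∀ l l', 1 ≤ l → l < l' → l' ≤ L → ∀ i j, i < m → j < m → Cl P τ (col l) (acc l) (T l i) (T l' j)
  serv : ∀ l' l, 1 ≤ l' → l' < l → l ≤ L → ∃ u : ℕ → ℕ, (∀ i, i < m → u i < m) ∧
    (∀ i j, i < j → j < m → u i ≠ u j) ∧ ∀ i j, i < j → j < m → ∀ r, r < m → (∀ q, q < i → r ≠ u q) →
      dist (T l' r) (T l i) + dist (T l' (u i)) (T l j) ≤ dist (T l' (u i)) (T l i) + dist (T l' r) (T l j)
  ord : ∀ l0 l l', 1 ≤ l0 → l0 < l → l < l' → l' ≤ L → ∀ r y, r < m → y < m →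
    (∀ i j, i < m → j < m → dist (T l0 r) (T l' j) - dist (T l0 y) (T l' j) ≤
      dist (T l0 r) (T l i) - dist (T l0 y) (T l i)) ∨
    (∀ i j, i < m → j < m → dist (T l0 r) (T l i) - dist (T l0 y) (T l i) ≤
      dist (T l0 r) (T l' j) - dist (T l0 y) (T l' j))
  hom : ∀ i j k t t', 1 ≤ i → 1 ≤ j → 1 ≤ k → i < t → j < t → k < t → t ≤ L → i < t' → j < t' → k < t' → t' ≤ L →
    (Rel (T i 0) (T j 0) (T k 0) (T t 0) ↔ Rel (T i 0) (T j 0) (T k 0) (T t' 0))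
  sign : ∀ l t t', 1 ≤ l → l < t → t ≤ L → l < t' → t' ≤ L →
    (0 < MG (P (col l)) (T l 0) (T t 0) ↔ 0 < MG (P (col l)) (T l 0) (T t' 0))

/-- **From the chain to the static data.** PROOF: `T l i = (f l).T i` etc. The pools are decreasing, `T l' j ∈ (f (l' - 1)).V ⊆ (f l).V` for
`l < l'`, so `row`, `ord`, `hom`, `sign`, `inj'` are the fields `row`, `ord`, `hom` (for the largest of `i, j, k`), `sign`, `notV` of `StOK`. -/
def EndOfStmt : Prop :=
  ∀ (X : Type) [MetricSpace X] (E : Type) (m cS cI L : ℕ) (P : E → X → ℝ) (f : ℕ → St X E), 1 ≤ m →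
    0 < (f 0).τ → (∀ l, 1 ≤ l → l ≤ L → StOK m cS cI P f l) →
    EndData m L P (fun l => (f l).τ) (fun l i => (f l).T i) (fun l => (f l).col) (fun l => (f l).acc)
      (fun l => (f l).sg)

/-- **Accuracy indices.** PROOF. Suppose that for every `b` less than `t` indices `l ∈ Λ`, `b < l`, have `acc l ≤ b`. Choose
`q 0 = min Λ` and `q (i+1)` = the least `l ∈ Λ` with `q i < l` and `q i < acc l`; between `q i` and `q (i+1)` there are at most `t - 1`
elements of `Λ` (each of them has `acc l ≤ q i`), so `n` steps are possible. (Induction on `n` with the part of `Λ` above `q i`.) -/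
def SplitStmt : Prop :=
  ∀ (Λ : Finset ℕ) (acc : ℕ → ℕ) (t n : ℕ), 1 ≤ t → t * n ≤ Λ.card →
    (∃ (b : ℕ) (B : Finset ℕ), B ⊆ Λ ∧ t ≤ B.card ∧ ∀ l ∈ B, b < l ∧ acc l ≤ b) ∨
    (∃ q : ℕ → ℕ, (∀ i, i < n → q i ∈ Λ) ∧ ∀ i, i + 1 < n → q i < q (i + 1) ∧ q i < acc (q (i + 1)))

/-- **Heavy pairs, static form (S2)** (helper35 has it in `R/Pairs.lean`). -/
def PairsStmt : Prop :=
  ∀ (X : Type) [MetricSpace X] (p : ℕ) (a b : ℕ → X),
    (∀ i j, i < j → j < p → a i ≠ a j) → (∀ i j, i < j → j < p → b i ≠ b j) →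
    (∀ i j, i < p → j < p → a i ≠ b j) →
    (∀ l y z, l < p → y ≠ z →
      ((∃ k, l < k ∧ k < p ∧ y = a k) ∨ (∃ k, k < l ∧ y = b k)) →
      ((∃ k, l < k ∧ k < p ∧ z = b k) ∨ (∃ k, k < l ∧ z = a k)) →
      dist (a l) y + dist (b l) z ≤ dist (a l) (b l) + dist y z) → Sav X p

/-- **(A), hi.** `p` stages of sign `hi`, one colour, `b < l`, `acc l ≤ b`: savings.
PROOF (uses `PairsStmt`). `B = {l_0 < ... < l_(p-1)}` (a subset with `p` elements), `a i = T (l_i) 0`, `b i = T (l_i) 1`. With `g = P c`, `τ b = θ`: `MG g (a i) (b i) > 3 τ (l_i - 1) ≥ 3 θ`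
(`τ` is increasing and `b ≤ l_i - 1`), all other pairs have `|MG g| ≤ τ (acc) ≤ θ`. So
`MG (a l) y + MG (b l) z ≤ 2 θ ≤ MG (a l) (b l) + MG y z` (`MG y z ≥ - θ`). -/
def HiStmt : Prop :=
  ∀ (X : Type) [MetricSpace X] (E : Type) (m L p : ℕ) (P : E → X → ℝ) (τ : ℕ → ℝ) (T : ℕ → ℕ → X)
    (col : ℕ → E) (acc : ℕ → ℕ) (sg : ℕ → Bool) (c : E) (b : ℕ) (B : Finset ℕ),
    EndData m L P τ T col acc sg → 2 ≤ m → p ≤ B.card →
    (∀ l ∈ B, b < l ∧ l ≤ L ∧ acc l ≤ b ∧ col l = c ∧ sg l = true) → Sav X p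

/-- **(A), lo.** Four stages of sign `lo`: savings.
PROOF: `four_cell_gauge` with `g = P c`, `d = τ b`, `L = {T l0 i : i < 12 p}`, `V a i = T (l_(a+1)) i`, `u a k = T l0 (u_k)` (`serv`), `lowL`, `lowV`: `pair`
(`MG < - 3 τ (l - 1) ≤ - 3 τ b`), `crL`, `crV`: `row`, `hO`: `ord` (and its reverse). -/
def LoStmt : Prop :=
  ∀ (X : Type) [MetricSpace X] (E : Type) (L p : ℕ) (P : E → X → ℝ) (τ : ℕ → ℝ) (T : ℕ → ℕ → X)
    (col : ℕ → E) (acc : ℕ → ℕ) (sg : ℕ → Bool) (c : E) (b : ℕ) (B : Finset ℕ),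
    EndData (12 * p) L P τ T col acc sg → 1 ≤ p → 4 ≤ B.card →
    (∀ l ∈ B, b < l ∧ l ≤ L ∧ acc l ≤ b ∧ col l = c ∧ sg l = false) → Sav X p

/-- **Pure combs (S3).** PROOF. `N = n - 1`, comb `x 0, ..., x (N - 1)` with `e a b = dist (x a) (x b) - dist (x a) (x (n-1)) - dist (x b) (x (n-1))` for
`a ≠ b` (`key`: `e a b ≤ e a c` means `Rel a b c (n - 1)`, so `Rel a b c t`). In the first case `UAt a b c` for all `a < b < c`, `c + 1 < N` (if
`e a b < e a c`, then `Rel a b c t` for `t = c + 1` contradicts the strict inequality): `Comb.sav_of_UAt`; in the second case `Comb.sav_of_LAt`. -/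
def PureStmt : Prop :=
  ∀ (X : Type) [MetricSpace X] (p : ℕ) (x : ℕ → X) (n : ℕ), 1 ≤ p → 1024 * p ^ 10 + 4 ≤ n →
    (∀ i j, i < j → j < n → x i ≠ x j) →
    (∀ a b c t t', a < t → b < t → c < t → t < n → a < t' → b < t' → c < t' → t' < n →
      (Rel (x a) (x b) (x c) (x t) ↔ Rel (x a) (x b) (x c) (x t'))) →
    ((∀ i j k t, i < j → j < k → k < t → t < n →
        dist (x i) (x k) + dist (x j) (x t) < dist (x i) (x j) + dist (x k) (x t) ∧
        dist (x i) (x t) + dist (x j) (x k) < dist (x i) (x j) + dist (x k) (x t)) ∨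
      (∀ i j k t, i < j → j < k → k < t → t < n →
        dist (x i) (x j) + dist (x k) (x t) < dist (x i) (x k) + dist (x j) (x t) ∧
        dist (x i) (x j) + dist (x k) (x t) < dist (x i) (x t) + dist (x j) (x k))) → Sav X p

/-- **(B)** Increasing accuracies: savings.
PROOF (uses `PureStmt`). `q 0 < q 1 < ...` with `q i < acc (q (i+1))`. Let `r i = T (q i) 0`, `g = P c`. For `1 ≤ i < j`:
`|MG g (r i) (r j)| ≤ τ (acc (q i)) ≤ τ (q i)` and `τ (q (i-1)) ≤ τ (acc (q i) - 1) < |MG g (r i) (r j)|`. By `sign` the sign of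
`MG g (r i) (r j)`, `j > i`, depends only on `i`. Among the odd indices `i < n` (at least `2 (1024 p ^ 10 + 4)` of them) choose `1024 p ^ 10 + 4` of the same
sign: `x 0, x 1, ...`. For `i < j < k < t` in this subsequence: `|MG (x k) (x t)| > τ (q (k' - 1)) ≥ 4 τ (q (k' - 2)) ≥ 4 τ (q j')` (`k', j'` the
indices in the full sequence, `j' ≤ k' - 2`), and all values `MG (x i) ·`, `MG (x j) ·` are `≤ τ (q j')` in absolute value: the sum `ij|kt` is
strictly larger (positive sign) or strictly smaller than both other sums. `hom` gives the end-homogeneity. -/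
def IncrStmt : Prop :=
  ∀ (X : Type) [MetricSpace X] (E : Type) (m L p n : ℕ) (P : E → X → ℝ) (τ : ℕ → ℝ) (T : ℕ → ℕ → X)
    (col : ℕ → E) (acc : ℕ → ℕ) (sg : ℕ → Bool) (c : E) (q : ℕ → ℕ),
    EndData m L P τ T col acc sg → 1 ≤ m → 1 ≤ p → 4 * (1024 * p ^ 10 + 4) + 1 ≤ n →
    (∀ i, i < n → 1 ≤ q i ∧ q i ≤ L ∧ col (q i) = c) →
    (∀ i, i + 1 < n → q i < q (i + 1) ∧ q i < acc (q (i + 1))) → Sav X p

/-- **The end of the chain.** PROOF (from `SplitStmt`, `HiStmt`, `LoStmt`, `IncrStmt`): pigeonhole on the colour: `Λ ⊆ [1, L]`,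
`(p + 3) * (4 (1024 p^10 + 4) + 1) ≤ card Λ`, one colour `c`; `SplitStmt` with `t = p + 3`; in the first case `p` of the `p + 3` indices are `hi` or `4` are
`lo`. -/
def EndStmt : Prop :=
  ∀ (X : Type) [MetricSpace X] (E : Type) [Fintype E] (L p a : ℕ) (P : E → X → ℝ) (τ : ℕ → ℝ) (T : ℕ → ℕ → X)
    (col : ℕ → E) (acc : ℕ → ℕ) (sg : ℕ → Bool),
    EndData (12 * p) L P τ T col acc sg → 1 ≤ p → Fintype.card E ≤ 2 ^ a →
    2 ^ a * ((p + 3) * (4 * (1024 * p ^ 10 + 4) + 1)) ≤ L → Sav X p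

/-- **Theorem C.** PROOF: `ChainStmt` with `L = Lm`, `EndOfStmt`, `EndStmt`. -/
def ThmCStmt : Prop :=
  ∀ (X : Type) [MetricSpace X] (E : Type) [Fintype E] (p PD qD nD nZ a Lm κ μ cT cW p0 cI cS cV cB nW : ℕ)
    (P : E → X → ℝ) (V0 : Finset X), 1 ≤ p →
    Par (12 * p) PD qD nD nZ a Lm κ μ cT cW p0 cI cS cV cB nW →
    2 ^ a * ((p + 3) * (4 * (1024 * p ^ 10 + 4) + 1)) ≤ Lm →
    DropH X (12 * p) PD qD nD → NearH X (12 * p) PD nZ → PinC (12 * p) P V0 cB → Fintype.card E ≤ 2 ^ a →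
    2 ^ (cV + cI + nW) ≤ V0.card → Sav X p

end Pool.Agent.Lib.MP_293cc0_an.R
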