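import Pool.Agent.Lib.MP_293cc0_an.R.Near
import Pool.Agent.Lib.MP_293cc0_an.R.SpecC

/-!
# MP_293cc0_an, the reduction (R): near-minimal levels, section 5.1, 5.2

INITIAL LEVEL: `g = 0`, `d > 0` with `dist ≤ d` on `V`: all degrees are `0`; `Drop` gives a
level of cost `≤ D ≤ c`. TINY SCALES and NEAR-MINIMAL: `R/Near.lean`.
-/

set_option autoImplicit false

namespace Pool.Agent.Lib.MP_293cc0_an.R

open Finset
open scoped Classical

variable {X : Type} [MetricSpace X]

/-- The size needed for near-minimal levels of cost `≤ c` is `2 ^ (c + nTiny p D)`. -/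
def nTiny (p D : ℕ) : ℕ := D + 12 * p * (2 * p ^ 2 + 14 * p + 4) + 2 * p ^ 2 + 2 * p + 2

/-- Near-minimal levels exist in a space without savings. -/
theorem nearH' {p PD qD nD nZ : ℕ} (hns : ¬ Sav X p)
    (hD : DropH X (12 * p) PD qD nD) (h1 : nD ≤ nZ) (h2 : 12 * p * (3 * p + 7) ≤ nZ) :
    NearH X (12 * p) PD nZ := by
  intro c V hc hV
  obtain ⟨d, hd, hdV⟩ := exists_diam V
  obtain ⟨A, g', hA, hL⟩ := hD V (fun _ => 0) d hd ((Nat.pow_le_pow_right (by norm_num) (by
    omega)).trans hV) (by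
      intro v hv
      have h0 : V.filter (fun w => w ≠ v ∧ d < |MG (fun _ => (0 : ℝ)) v w|) = ∅ := by
        rw [Finset.filter_eq_empty_iff]
        rintro w hw ⟨-, h⟩
        have h1 := hdV v hv w hw
        unfold MG at h
        rw [sub_zero, sub_zero, abs_of_nonneg dist_nonneg] at h
        linarith
      rw [h0]
      simp)
  rcases near_min (p := p) (m := 12 * p) (P := c) (V := V) (by
      refine le_trans ?_ hV
      refine (Nat.mul_le_mul_left _ tiny_size).trans ?_
      rw [← pow_add]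
      apply Nat.pow_le_pow_right (by norm_num)
      omega) ⟨A, g', _, hA.mono hc, hL⟩ with h | ⟨W, g, δ, h1, h2, h3⟩
  · exact absurd h hns
  · exact ⟨W, g, δ, h1, h2, fun A g' s hA hL => by
      have := h3 A g' s hA hL
      linarith⟩

/-- **Near-minimal levels exist.** -/
theorem nearH {p D : ℕ} (hp : 1 ≤ p) (hns : ¬ Sav X p) (hD : DropH X (12 * p) D D D) :
    NearH X (12 * p) D (nTiny p D) := by
  refine nearH' hns hD (by unfold nTiny; omega) ?_
  unfold nTiny
  have h1 : 12 * p * (3 * p + 7) ≤ 12 * p * (2 * p ^ 2 + 14 * p + 4) := by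
    apply Nat.mul_le_mul_left
    nlinarith
  omega

end Pool.Agent.Lib.MP_293cc0_an.R
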