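import Pool.Agent.Lib.MP_293cc0_an.R.Drop
import Pool.Agent.Lib.MP_293cc0_an.R.Tiny
import Pool.Agent.Lib.MP_293cc0_an.R.PBd
import Pool.Agent.Lib.MP_293cc0_an.R.Stage
import Pool.Agent.Lib.MP_293cc0_an.R.Dic
import Pool.Agent.Lib.MP_293cc0_an.R.Cls
import Pool.Agent.Lib.MP_293cc0_an.R.Pop
import Pool.Agent.Lib.MP_293cc0_an.R.Sel
import Pool.Agent.Lib.MP_293cc0_an.R.Ext
import Pool.Agent.Lib.MP_293cc0_an.R.HalfRef
import Pool.Agent.Lib.MP_293cc0_an.R.Step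
import Pool.Agent.Lib.MP_293cc0_an.R.Chain
import Pool.Agent.Lib.MP_293cc0_an.R.EndOf
import Pool.Agent.Lib.MP_293cc0_an.R.Split
import Pool.Agent.Lib.MP_293cc0_an.R.Hi
import Pool.Agent.Lib.MP_293cc0_an.R.Lo
import Pool.Agent.Lib.MP_293cc0_an.R.Incr
import Pool.Agent.Lib.MP_293cc0_an.R.EndC
import Pool.Agent.Lib.MP_293cc0_an.R.ThmC
import Pool.Agent.Lib.MP_293cc0_an.R.Pairs

/-!
# MP_293cc0_an, the reduction (R): Theorem C, section 7

Assembly of `ThmCStmt` (SpecC.lean) with polynomial parameters. Given `p, n`: `a = clog n`,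
`Lm = 2 ^ a * ((p + 3) * (4 * (1024 * p ^ 10 + 4) + 1))`, `κ = clog (2 ^ a (Lm + 1))`, `μ = 12 p`; `PD = qD = nD` from
`drop`, `nZ` from Tiny.lean, the other parameters by the equalities in `Par`; all of them are polynomials in `p + n`.
-/

set_option autoImplicit false

namespace Pool.Agent.Lib.MP_293cc0_an.R

open Finset
open scoped Classical

/-- `PairsStmt` from `pairs_sav`: the order of the pairs is reversed. -/
theorem pairs_ : PairsStmt := by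
  intro X _ p a b ha hb hab H
  have key : ∀ i j, i < j → j < p → p - 1 - j < p - 1 - i := by intro i j hij hj; omega
  refine pairs_sav p (fun i => a (p - 1 - i)) (fun i => b (p - 1 - i)) ?_ ?_ ?_ ?_ ?_ ?_ ?_
  · intro i j hi hj hij
    rcases lt_trichotomy i j with h | h | h
    · exact absurd hij.symm (ha _ _ (key i j h hj) (by omega))
    · exact h
    · exact absurd hij (ha _ _ (key j i h hi) (by omega))
  · intro i j hi hj hij
    rcases lt_trichotomy i j with h | h | h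
    · exact absurd hij.symm (hb _ _ (key i j h hj) (by omega))
    · exact h
    · exact absurd hij (hb _ _ (key j i h hi) (by omega))
  · intro i j hi hj
    exact hab _ _ (by omega) (by omega)
  · intro l i j hl hi hj hli hlj
    have := H (p - 1 - l) (b (p - 1 - j)) (a (p - 1 - i)) (by omega)
      (fun e => hab _ _ (by omega) (by omega) e.symm) (Or.inr ⟨_, key l j hlj hj, rfl⟩)
      (Or.inr ⟨_, key l i hli hi, rfl⟩)
    rw [dist_comm (b (p - 1 - l)), dist_comm (b (p - 1 - j)) (a (p - 1 - i))] at this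
    linarith
  · intro l i j hl hi hli hjl
    have := H (p - 1 - l) (a (p - 1 - j)) (a (p - 1 - i)) (by omega)
      (fun e => ha _ _ (key j i (by omega) hi) (by omega) e.symm)
      (Or.inl ⟨_, key j l hjl hl, by omega, rfl⟩) (Or.inr ⟨_, key l i hli hi, rfl⟩)
    rw [dist_comm (b (p - 1 - l)), dist_comm (a (p - 1 - j)) (a (p - 1 - i))] at this
    linarith
  · intro l i j hl hj hil hlj
    have := H (p - 1 - l) (b (p - 1 - j)) (b (p - 1 - i)) (by omega)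
      (fun e => hb _ _ (key i j (by omega) hj) (by omega) e)
      (Or.inr ⟨_, key l j hlj hj, rfl⟩) (Or.inl ⟨_, key i l hil hl, by omega, rfl⟩)
    rw [dist_comm (b (p - 1 - l)), dist_comm (b (p - 1 - j)) (b (p - 1 - i))] at this
    linarith
  · intro l i j hl hil hjl
    have := H (p - 1 - l) (a (p - 1 - j)) (b (p - 1 - i)) (by omega)
      (hab _ _ (by omega) (by omega))
      (Or.inl ⟨_, key j l hjl hl, by omega, rfl⟩) (Or.inl ⟨_, key i l hil hl, by omega, rfl⟩)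
    rw [dist_comm (b (p - 1 - l)), dist_comm (a (p - 1 - j)) (b (p - 1 - i))] at this
    linarith

/-- `ThmCStmt`. -/
theorem thmC_all : ThmCStmt :=
  thmC (chain stage (step stage dic cls (sel pop ext) half refine_)) endOf
    (end_ split (hi pairs_) lo incr)

theorem PinC.anti {X : Type} [MetricSpace X] {E : Type} {m c c' : ℕ} {P : E → X → ℝ} {V0 : Finset X}
    (h : PinC m P V0 c') (hc : c ≤ c') : PinC m P V0 c :=
  ⟨fun A g s hA hL e => lt_of_le_of_lt (Nat.mul_le_mul_right _ (Nat.pow_le_pow_right (by norm_num) hc))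
      (h.p1 A g s hA hL e),
    fun A g s hA hL x hx => lt_of_le_of_lt
      (Nat.mul_le_mul_right _ (Nat.pow_le_pow_right (by norm_num) hc)) (h.p2 A g s hA hL x hx)⟩

/-- The parameters of the chain exist and are polynomially bounded. -/
theorem exists_par (k0 : ℕ) : ∃ k : ℕ, 1 ≤ k ∧ ∀ p n, 1 ≤ p → 1 ≤ n →
    ∃ a Lm κ μ cT cW p0 cI cS cV cB nW : ℕ,
      Par (12 * p) (k0 * p ^ k0) (k0 * p ^ k0) (k0 * p ^ k0) (nTiny p (k0 * p ^ k0)) a Lm κ μ cT cW p0 cI cS cV cB nW ∧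
      2 ^ a * ((p + 3) * (4 * (1024 * p ^ 10 + 4) + 1)) ≤ Lm ∧ n ≤ 2 ^ a ∧
      cB ≤ k * (p + n) ^ k ∧ cV + cI + nW ≤ k * (p + n) ^ k := by
  -- the parameters as functions
  obtain ⟨D, hD⟩ : ∃ D : ℕ → ℕ → ℕ, D = fun p _ => k0 * p ^ k0 := ⟨_, rfl⟩
  obtain ⟨Z, hZ⟩ : ∃ Z : ℕ → ℕ → ℕ, Z = fun p n =>
    D p n + 12 * p * (2 * p ^ 2 + 14 * p + 4) + 2 * p ^ 2 + 2 * p + 2 := ⟨_, rfl⟩
  obtain ⟨A, hA⟩ : ∃ A : ℕ → ℕ → ℕ, A = fun _ n => 2 ^ Nat.clog 2 n := ⟨_, rfl⟩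
  obtain ⟨Lm, hLm⟩ : ∃ L : ℕ → ℕ → ℕ, L = fun p n =>
    A p n * ((p + 3) * (4 * (1024 * p ^ 10 + 4) + 1)) := ⟨_, rfl⟩
  obtain ⟨κ, hκ⟩ : ∃ κ : ℕ → ℕ → ℕ, κ = fun p n => Nat.clog 2 (A p n * (Lm p n + 1)) := ⟨_, rfl⟩
  obtain ⟨B, hB⟩ : ∃ B : ℕ → ℕ → ℕ, B = fun p n => 2 ^ (κ p n + 1) := ⟨_, rfl⟩
  have pD : PBd D := by rw [hD]; exact (PBd.const _).mul (PBd.fst.pow _)
  have pZ : PBd Z := by
    rw [hZ]
    exact (((pD.add (((PBd.const 12).mul PBd.fst).mul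
      ((((PBd.const 2).mul (PBd.fst.pow 2)).add ((PBd.const 14).mul PBd.fst)).add (PBd.const 4)))).add
      ((PBd.const 2).mul (PBd.fst.pow 2))).add ((PBd.const 2).mul PBd.fst)).add (PBd.const 2)
  have pA : PBd A := by
    rw [hA]
    exact ((PBd.const 2).mul PBd.snd).mono (fun p n _ hn => two_pow_clog_le hn)
  have pL : PBd Lm := by
    rw [hLm]
    exact pA.mul ((PBd.fst.add (PBd.const 3)).mul (((PBd.const 4).mul
      (((PBd.const 1024).mul (PBd.fst.pow 10)).add (PBd.const 4))).add (PBd.const 1)))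
  have hA1 : ∀ p n, 1 ≤ A p n := by intro p n; rw [hA]; exact Nat.one_le_two_pow
  have pB : PBd B := by
    refine (((PBd.const 4).mul (pA.mul (pL.add (PBd.const 1))))).mono (fun p n _ _ => ?_)
    have h1 : 1 ≤ A p n * (Lm p n + 1) := Nat.mul_pos (hA1 p n) (by omega)
    have h2 := two_pow_clog_le h1
    rw [hB, hκ]
    simp only
    rw [pow_succ]
    omega
  have pκ : PBd κ := pB.mono (fun p n _ _ => by
    rw [hB]
    simp only
    have h1 : κ p n < 2 ^ κ p n := Nat.lt_two_pow_self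
    rw [pow_succ]
    omega)
  have pa : PBd (fun _ n => Nat.clog 2 n) := pA.mono (fun p n _ _ => by
    rw [hA]
    exact (Nat.lt_two_pow_self).le)
  obtain ⟨cT, hcT⟩ : ∃ c : ℕ → ℕ → ℕ, c = fun p n => Lm p n * (12 * p * (12 * p)) +
    B p n * (12 * p) * (κ p n + 2) + ((Lm p n + 1) * (Lm p n + 1) * (Lm p n + 1) + 1) := ⟨_, rfl⟩
  have p12 : PBd (fun p _ => 12 * p) := (PBd.const 12).mul PBd.fst
  have pL1 : PBd (fun p n => Lm p n + 1) := pL.add (PBd.const 1)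
  have pcT : PBd cT := by
    rw [hcT]
    exact ((pL.mul (p12.mul p12)).add ((pB.mul p12).mul (pκ.add (PBd.const 2)))).add
      (((pL1.mul pL1).mul pL1).add (PBd.const 1))
  obtain ⟨p0, hp0⟩ : ∃ c : ℕ → ℕ → ℕ, c = fun p n => cT p n + 1 + D p n := ⟨_, rfl⟩
  have pp0 : PBd p0 := by rw [hp0]; exact (pcT.add (PBd.const 1)).add pD
  obtain ⟨cW, hcW⟩ : ∃ c : ℕ → ℕ → ℕ, c = fun p n =>
    B p n * (12 * p) * (κ p n + 2 + (D p n + 1) + Lm p n * (12 * p)) := ⟨_, rfl⟩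
  have pcW : PBd cW := by
    rw [hcW]
    exact (pB.mul p12).mul (((pκ.add (PBd.const 2)).add (pD.add (PBd.const 1))).add (pL.mul p12))
  obtain ⟨cI, hcI⟩ : ∃ c : ℕ → ℕ → ℕ, c = fun p n =>
    p0 p n + Lm p n * (12 * p * (12 * p)) + cW p n + D p n := ⟨_, rfl⟩
  have pcI : PBd cI := by
    rw [hcI]
    exact ((pp0.add (pL.mul (p12.mul p12))).add pcW).add pD
  obtain ⟨cS, hcS⟩ : ∃ c : ℕ → ℕ → ℕ, c = fun p n =>
    cT p n + (2 * Nat.clog 2 n + D p n + 2) := ⟨_, rfl⟩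
  have pcS : PBd cS := by
    rw [hcS]
    exact pcT.add ((((PBd.const 2).mul pa).add pD).add (PBd.const 2))
  obtain ⟨cV, hcV⟩ : ∃ c : ℕ → ℕ → ℕ, c = fun p n => (Lm p n + 2) * cS p n := ⟨_, rfl⟩
  have pcV : PBd cV := by rw [hcV]; exact (pL.add (PBd.const 2)).mul pcS
  obtain ⟨cB, hcB⟩ : ∃ c : ℕ → ℕ → ℕ, c = fun p n =>
    cV p n + cI p n + 2 * Nat.clog 2 n + D p n + 5 := ⟨_, rfl⟩
  have pcB : PBd cB := by
    rw [hcB]
    exact (((pcV.add pcI).add ((PBd.const 2).mul pa)).add pD).add (PBd.const 5)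
  obtain ⟨nW, hnW⟩ : ∃ c : ℕ → ℕ → ℕ, c = fun p n =>
    D p n + cI p n + D p n + 2 * Nat.clog 2 n + 5 + Z p n + cT p n := ⟨_, rfl⟩
  have pnW : PBd nW := by
    rw [hnW]
    exact (((((pD.add pcI).add pD).add ((PBd.const 2).mul pa)).add (PBd.const 5)).add pZ).add pcT
  obtain ⟨k, hk1, hk⟩ := pcB.two ((pcV.add pcI).add pnW)
  refine ⟨k, hk1, fun p n hp hn => ?_⟩
  obtain ⟨h1, h2⟩ := hk p n hp hn
  refine ⟨Nat.clog 2 n, Lm p n, κ p n, 12 * p, cT p n, cW p n, p0 p n, cI p n, cS p n, cV p n, cB p n,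
    nW p n, ?_, ?_, Nat.le_pow_clog (by norm_num) n, h1, h2⟩
  · have eA : A p n = 2 ^ Nat.clog 2 n := by rw [hA]
    have eD : D p n = k0 * p ^ k0 := by rw [hD]
    have eB : B p n = 2 ^ (κ p n + 1) := by rw [hB]
    have eZ : Z p n = nTiny p (k0 * p ^ k0) := by
      rw [hZ]
      unfold nTiny
      simp only
      rw [eD]
    rw [← eD]
    refine ⟨by omega, (Nat.lt_two_pow_self).le, ?_, ?_, ?_, ?_, ?_, ?_, ?_, ?_, ?_⟩
    · rw [← eA]
      have : κ p n = Nat.clog 2 (A p n * (Lm p n + 1)) := by rw [hκ]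
      rw [this]
      exact Nat.le_pow_clog (by norm_num) _
    · rw [← eB, hcT]
    · rw [hp0]
    · rw [← eB, hcW]
    · rw [hcI]
    · rw [hcS]
    · rw [hcV]
    · rw [hcB]
    · rw [hnW, eD, ← eZ]
      simp only
      rw [eD]
  · rw [hLm, hA]

/-- **Theorem C**, with one polynomial parameter. -/
theorem theoremC : ∃ k : ℕ, 1 ≤ k ∧ ∀ (X : Type) [MetricSpace X] (p n : ℕ), 1 ≤ p → 1 ≤ n → ¬ Sav X p →
    ∀ (E : Type) [Fintype E] (P : E → X → ℝ) (V₀ : Finset X), Fintype.card E ≤ n →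
      2 ^ (2 * (k * (p + n) ^ k)) ≤ V₀.card → ¬ PinC (12 * p) P V₀ (k * (p + n) ^ k) := by
  obtain ⟨k0, hk0, hdrop⟩ := drop
  obtain ⟨k, hk, hpar⟩ := exists_par k0
  refine ⟨k, hk, ?_⟩
  intro X _ p n hp hn hns E _ P V₀ hE hV hpin
  obtain ⟨a, Lm, κ, μ, cT, cW, p0, cI, cS, cV, cB, nW, h1, h2, h3, h4, h5⟩ := hpar p n hp hn
  have hD := hdrop X p hp hns
  refine hns (thmC_all X E p _ _ _ _ a Lm κ μ cT cW p0 cI cS cV cB nW P V₀ hp h1 h2 hD
    (nearH hp hns hD) (PinC.anti hpin h4) (hE.trans h3) ?_)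
  exact (Nat.pow_le_pow_right (by norm_num) (by omega)).trans hV

end Pool.Agent.Lib.MP_293cc0_an.R
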