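import Pool.Agent.Lib.MP_293cc0_an.R.T
import Pool.Agent.Lib.MP_293cc0_an.R.TheoremC

/-!
# MP_293cc0_an, the reduction (R): the pick lemma, section 8

Note 2108, section 8. `E(V) = {(i, j) ∈ S × S : i ≠ j, ∃ x ∈ V, ∃ V'' ⊆ V \ {x}, Und i j V'' ∧ Und i x V'' ∧ Und j x V''}` (monotone in
`V`), induction on `card E(V)`. If some `A ⊆ V` of cost `≤ c_B` has `E(A) ≠ E(V)`: induction. Otherwise, if there is no good
pick of cost `≤ c_B` in `V`: `PinC (12 p) P V c_B` with the type `{e // e ∈ E(V)}`: contradiction by Theorem C. `c_B = k (p + N²)^k` from Theorem C.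
-/

set_option autoImplicit false

namespace Pool.Agent.Lib.MP_293cc0_an.R

open Finset
open scoped Classical

section

variable {X : Type} [MetricSpace X]

/-- The pairs of `S` which are in an undecidable triangle inside `V`. -/
noncomputable def EPick (m : ℕ) (S V : Finset X) : Finset (X × X) :=
  (S ×ˢ S).filter (fun e => e.1 ≠ e.2 ∧ ∃ x ∈ V, ∃ V'' ⊆ V, x ∉ V'' ∧ Und m e.1 e.2 V'' ∧
    Und m e.1 x V'' ∧ Und m e.2 x V'')

theorem EPick.mono {m : ℕ} {S A V : Finset X} (h : A ⊆ V) : EPick m S A ⊆ EPick m S V := by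
  intro e he
  unfold EPick at he ⊢
  rw [Finset.mem_filter] at he ⊢
  obtain ⟨h1, h2, x, hx, V'', hV'', h3⟩ := he
  exact ⟨h1, h2, x, h hx, V'', hV''.trans h, h3⟩

/-- `PinC` without filters. -/
theorem pinC_of {E : Type} {m cB : ℕ} {P : E → X → ℝ} {V : Finset X}
    (h1 : ∀ (A : Finset X) (g : X → ℝ) (s : ℝ), A ⊆ V → Level m A g s → ∀ e, ∀ A₀ ⊆ A,
      (∀ w ∈ A₀, 5 / 2 * s < |P e w - g w|) → Cost cB A₀ V → False)
    (h2 : ∀ (A : Finset X) (g : X → ℝ) (s : ℝ), A ⊆ V → Level m A g s → ∀ x ∈ V, ∀ A₀ ⊆ A, x ∉ A₀ →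
      (∀ w ∈ A₀, ∀ e, 5 / 2 * s < |dist x w - g w - P e x|) → Cost cB A₀ V → False) :
    PinC m P V cB := by
  constructor
  · intro A g s hA hL e
    by_contra hcon
    exact h1 A g s hA hL e _ (Finset.filter_subset _ _) (fun w hw => (Finset.mem_filter.1 hw).2)
      ⟨(Finset.filter_subset _ _).trans hA, not_lt.1 hcon⟩
  · intro A g s hA hL x hx
    by_contra hcon
    exact h2 A g s hA hL x hx _ (Finset.filter_subset _ _)
      (fun h => (Finset.mem_filter.1 h).2.1 rfl) (fun w hw => (Finset.mem_filter.1 hw).2.2)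
      ⟨(Finset.filter_subset _ _).trans hA, not_lt.1 hcon⟩

/-- If the set of pairs is constant on the dense parts and there is no good pick, then the gauges are pinned. -/
theorem pinned_of_no_pick {m cB : ℕ} {S V : Finset X}
    (hconst : ∀ A, Cost cB A V → EPick m S A = EPick m S V)
    (hno : ∀ x ∈ V, ∀ V', Cost cB V' V → x ∉ V' → ¬ Good m S x V') :
    PinC m (fun (e : {e // e ∈ EPick m S V}) => Pot e.1.1 e.1.2) V cB := by
  apply pinC_of
  · rintro A g s hA hL ⟨e, he⟩ A₀ hA₀ hbad hc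
    rw [← hconst _ hc] at he
    unfold EPick at he
    rw [Finset.mem_filter] at he
    obtain ⟨_, _, x, _, V'', hV'', _, h1, h2, h3⟩ := he
    obtain ⟨w, hw, h4, _⟩ := lemmaT hL (hV''.trans hA₀) h1 h2 h3
    exact absurd h4 (not_le.2 (hbad w (hV'' hw)))
  · intro A g s hA hL x hx A₀ hA₀ hxn hbad hc
    have hng := hno x hx _ hc hxn
    unfold Good at hng
    push Not at hng
    obtain ⟨i, hi, j, hj, hij, V'', hV'', h1, h2, h3⟩ := hng
    obtain ⟨w, hw, _, h4⟩ := lemmaT hL (hV''.trans hA₀) h1 h2 h3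
    have h5 := hbad w (hV'' hw) ⟨(i, j), by
      unfold EPick
      rw [Finset.mem_filter]
      exact ⟨Finset.mem_product.2 ⟨hi, hj⟩, hij, x, hx, V'', hV''.trans hc.1,
        fun h => hxn (hV'' h), h1, h2, h3⟩⟩
    exact absurd h4 (not_le.2 h5)

/-- The pick lemma with a parameter `cB`. -/
theorem pick_core (m N cB : ℕ) (S : Finset X) (hS : S.card ≤ N)
    (hC : ∀ (E : Finset (X × X)) (P : {e // e ∈ E} → X → ℝ) (V₀ : Finset X), E.card ≤ N ^ 2 →
      2 ^ (2 * cB) ≤ V₀.card → ¬ PinC m P V₀ cB) :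
    ∀ (n : ℕ) (V : Finset X), (EPick m S V).card ≤ n → 2 ^ ((n + 2) * cB) ≤ V.card →
      ∃ x ∈ V, ∃ V', Cost ((n + 1) * cB) V' V ∧ x ∉ V' ∧ Good m S x V' := by
  intro n
  induction n using Nat.strong_induction_on with
  | _ n ih =>
    intro V hE hV
    by_cases hA : ∃ A, Cost cB A V ∧ EPick m S A ≠ EPick m S V
    · obtain ⟨A, hA, hne⟩ := hA
      have hlt : (EPick m S A).card < (EPick m S V).card :=
        Finset.card_lt_card (Finset.ssubset_iff_subset_ne.2 ⟨EPick.mono hA.1, hne⟩)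
      obtain ⟨n', rfl⟩ : ∃ n', n = n' + 1 := ⟨n - 1, by omega⟩
      obtain ⟨x, hx, V', hV', hxV, hG⟩ := ih n' (by omega) A (by omega)
        (hA.large (k := (n' + 2) * cB) (by
          have : cB + (n' + 2) * cB = (n' + 1 + 2) * cB := by ring
          rw [this]; exact hV))
      refine ⟨x, hA.1 hx, V', ?_, hxV, hG⟩
      have := hA.trans hV'
      exact this.mono (le_of_eq (by ring))
    · push Not at hA
      by_contra hcon
      push Not at hcon
      refine hC (EPick m S V) (fun e => Pot e.1.1 e.1.2) V ?_ ?_ (pinned_of_no_pick hA ?_)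
      · refine (Finset.card_filter_le _ _).trans ?_
        rw [Finset.card_product, sq]
        exact Nat.mul_le_mul hS hS
      · refine (Nat.pow_le_pow_right (by norm_num) ?_).trans hV
        exact Nat.mul_le_mul_right _ (by omega)
      · intro x hx V' hV' hxV
        exact hcon x hx V' (hV'.mono (by nlinarith)) hxV

end

/-- **Pick lemma.** -/
theorem pick : ∃ k : ℕ, 1 ≤ k ∧ ∀ (X : Type) [MetricSpace X] (p N : ℕ), 1 ≤ p → 1 ≤ N → ¬ Sav X p →
    ∀ S V : Finset X, S.card ≤ N → 2 ^ (k * (p + N) ^ k) ≤ V.card →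
      ∃ x ∈ V, ∃ V', Cost (k * (p + N) ^ k) V' V ∧ x ∉ V' ∧ Good (12 * p) S x V' := by
  obtain ⟨k₀, hk₀, hC⟩ := theoremC
  refine ⟨2 * k₀ + 2, by omega, ?_⟩
  intro X _ p N hp hN hns S V hS hV
  obtain ⟨cB, hcB⟩ : ∃ cB, cB = k₀ * (p + N ^ 2) ^ k₀ := ⟨_, rfl⟩
  have hN2 : 1 ≤ N ^ 2 := Nat.one_le_pow _ _ hN
  have hcost : (N ^ 2 + 2) * cB ≤ (2 * k₀ + 2) * (p + N) ^ (2 * k₀ + 2) := by
    have h1 : p + N ^ 2 ≤ (p + N) ^ 2 := by nlinarith
    have h2 : N ^ 2 + 2 ≤ (p + N) ^ 2 := by nlinarith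
    have h3 : (p + N ^ 2) ^ k₀ ≤ (p + N) ^ (2 * k₀) := by
      calc (p + N ^ 2) ^ k₀ ≤ ((p + N) ^ 2) ^ k₀ := Nat.pow_le_pow_left h1 _
        _ = (p + N) ^ (2 * k₀) := by rw [pow_mul]
    calc (N ^ 2 + 2) * cB ≤ (p + N) ^ 2 * (k₀ * (p + N) ^ (2 * k₀)) := by
          rw [hcB]
          exact Nat.mul_le_mul h2 (Nat.mul_le_mul_left _ h3)
      _ = k₀ * (p + N) ^ (2 * k₀ + 2) := by rw [pow_add]; ring
      _ ≤ (2 * k₀ + 2) * (p + N) ^ (2 * k₀ + 2) := Nat.mul_le_mul_right _ (by omega)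
  have hE : (EPick (12 * p) S V).card ≤ N ^ 2 := by
    refine (Finset.card_filter_le _ _).trans ?_
    rw [Finset.card_product, sq]
    exact Nat.mul_le_mul hS hS
  obtain ⟨x, hx, V', hV', hxV, hG⟩ := pick_core (12 * p) N cB S hS (by
    intro E P V₀ hEc hV₀
    rw [hcB]
    rw [hcB] at hV₀
    exact hC X p (N ^ 2) hp hN2 hns {e // e ∈ E} P V₀ (by rw [Fintype.card_coe]; exact hEc) hV₀)
    (N ^ 2) V hE
    ((Nat.pow_le_pow_right (by norm_num) hcost).trans hV)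
  exact ⟨x, hx, V', hV'.mono ((Nat.mul_le_mul_right _ (by omega)).trans hcost), hxV, hG⟩

end Pool.Agent.Lib.MP_293cc0_an.R
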