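import Mathlib

/-!
# MP_293cc0_an, the reduction (R): polynomially bounded functions
-/

set_option autoImplicit false

namespace Pool.Agent.Lib.MP_293cc0_an.R

/-- `f q ≤ k q ^ k` for `q ≥ 1`. -/
def PB (f : ℕ → ℕ) : Prop := ∃ k : ℕ, ∀ q, 1 ≤ q → f q ≤ k * q ^ k

theorem PB.const (c : ℕ) : PB (fun _ => c) :=
  ⟨c, fun q hq => Nat.le_mul_of_pos_right c (Nat.pow_pos hq)⟩

theorem PB.id : PB (fun q => q) := ⟨1, fun q _ => by simp⟩

theorem PB.mono {f g : ℕ → ℕ} (h : PB g) (hfg : ∀ q, 1 ≤ q → f q ≤ g q) : PB f := by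
  obtain ⟨k, hk⟩ := h
  exact ⟨k, fun q hq => (hfg q hq).trans (hk q hq)⟩

theorem PB.le_pow {k l q : ℕ} (hq : 1 ≤ q) (h : k ≤ l) : k * q ^ k ≤ l * q ^ l :=
  Nat.mul_le_mul h (Nat.pow_le_pow_right hq h)

theorem PB.add {f g : ℕ → ℕ} (hf : PB f) (hg : PB g) : PB (fun q => f q + g q) := by
  obtain ⟨k, hk⟩ := hf
  obtain ⟨l, hl⟩ := hg
  refine ⟨k + l, fun q hq => ?_⟩
  calc f q + g q ≤ k * q ^ k + l * q ^ l := Nat.add_le_add (hk q hq) (hl q hq)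
    _ ≤ k * q ^ (k + l) + l * q ^ (k + l) := Nat.add_le_add
        (Nat.mul_le_mul_left _ (Nat.pow_le_pow_right hq (by omega)))
        (Nat.mul_le_mul_left _ (Nat.pow_le_pow_right hq (by omega)))
    _ = (k + l) * q ^ (k + l) := by ring

theorem PB.mul {f g : ℕ → ℕ} (hf : PB f) (hg : PB g) : PB (fun q => f q * g q) := by
  obtain ⟨k, hk⟩ := hf
  obtain ⟨l, hl⟩ := hg
  refine ⟨k * l + k + l, fun q hq => ?_⟩
  calc f q * g q ≤ (k * q ^ k) * (l * q ^ l) := Nat.mul_le_mul (hk q hq) (hl q hq)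
    _ = (k * l) * q ^ (k + l) := by ring
    _ ≤ (k * l + k + l) * q ^ (k * l + k + l) :=
        Nat.mul_le_mul (by omega) (Nat.pow_le_pow_right hq (by omega))

theorem PB.pow {f : ℕ → ℕ} (hf : PB f) (n : ℕ) : PB (fun q => f q ^ n) := by
  induction n with
  | zero => exact (PB.const 1).mono (fun q _ => by simp)
  | succ n ih => exact (ih.mul hf).mono (fun q _ => by rw [pow_succ])

/-- Composition with a polynomially bounded function. -/
theorem PB.comp {f g : ℕ → ℕ} (hf : PB f) (hg : PB g) (hg1 : ∀ q, 1 ≤ q → 1 ≤ g q) :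
    PB (fun q => f (g q)) := by
  obtain ⟨k, hk⟩ := hf
  exact ((PB.const k).mul (hg.pow k)).mono (fun q hq => hk (g q) (hg1 q hq))

/-- A bound with a positive parameter. -/
theorem PB.pos {f : ℕ → ℕ} (hf : PB f) : ∃ k : ℕ, 1 ≤ k ∧ ∀ q, 1 ≤ q → f q ≤ k * q ^ k := by
  obtain ⟨k, hk⟩ := hf
  exact ⟨k + 1, by omega, fun q hq => (hk q hq).trans (PB.le_pow hq (by omega))⟩

/-- Two bounds with one parameter. -/
theorem PB.pos₂ {f g : ℕ → ℕ} (hf : PB f) (hg : PB g) :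
    ∃ k : ℕ, 1 ≤ k ∧ ∀ q, 1 ≤ q → f q ≤ k * q ^ k ∧ g q ≤ k * q ^ k := by
  obtain ⟨k, hk1, hk⟩ := (hf.add hg).pos
  exact ⟨k, hk1, fun q hq => ⟨(Nat.le_add_right _ _).trans (hk q hq), (Nat.le_add_left _ _).trans (hk q hq)⟩⟩

end Pool.Agent.Lib.MP_293cc0_an.R
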