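import Pool.Agent.Lib.MP_293cc0_an.R.Pick
import Pool.Agent.Lib.MP_293cc0_an.R.PStep
import Pool.Agent.Lib.MP_293cc0_an.R.Poly

/-!
# MP_293cc0_an, the reduction (R): the process, section 9
-/

set_option autoImplicit false

namespace Pool.Agent.Lib.MP_293cc0_an.R

open Finset
open scoped Classical

/-- The cost of one step. -/
def cStep (m μ N cP : ℕ) : ℕ := N ^ 2 * m * (μ + (cP + 2 * N + 1)) + cP + 1 + N ^ 3 + 5 * N ^ 2

/-- The state after `n` steps. -/
theorem exists_pinv {X : Type} [MetricSpace X] {m μ N cP : ℕ} (hm : 1 ≤ m) (hμ : m ≤ 2 ^ μ)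
    (hPick : ∀ S V : Finset X, S.card ≤ N → 2 ^ cP ≤ V.card →
      ∃ x ∈ V, ∃ V', Cost cP V' V ∧ x ∉ V' ∧ Good m S x V')
    (V₀ : Finset X) (hV₀ : 2 ^ (N * cStep m μ N cP) ≤ V₀.card) :
    ∀ n, n ≤ N → ∃ x V tm ty, PInv m n x V tm ty ∧ Cost (n * cStep m μ N cP) V V₀ := by
  classical
  intro n
  induction n with
  | zero =>
    intro _
    have hne : V₀.Nonempty := Finset.card_pos.1 (lt_of_lt_of_le (by positivity) hV₀)
    obtain ⟨x0, _⟩ := hne
    refine ⟨fun _ => x0, V₀, fun _ j => j, fun _ _ => true, ⟨?_, ?_, ?_, ?_, ?_, ?_, ?_, ?_, ?_⟩, ?_⟩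
    · intro i j _ hj; omega
    · intro i hi; omega
    · intro i j _; exact le_rfl
    · intro i j _ hj; omega
    · intro i j s t _ _ _ ht; omega
    · intro i j s _ _ hs; omega
    · intro i j l _ _ hl; omega
    · intro i j l t _ _ _ ht; omega
    · intro i j l hi; omega
    · rw [Nat.zero_mul]; exact Cost.refl _
  | succ n ih =>
    intro hn
    obtain ⟨x, V, tm, ty, hinv, hc⟩ := ih (by omega)
    have hV : 2 ^ cStep m μ N cP ≤ V.card := by
      refine hc.large ((Nat.pow_le_pow_right (by norm_num) ?_).trans hV₀)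
      calc n * cStep m μ N cP + cStep m μ N cP = (n + 1) * cStep m μ N cP := by ring
        _ ≤ N * cStep m μ N cP := Nat.mul_le_mul_right _ hn
    obtain ⟨x', V', tm', ty', hinv', hc'⟩ := hinv.step hm hμ hPick (by omega)
      ((Nat.pow_le_pow_right (by norm_num) (by unfold cStep; omega)).trans hV)
    refine ⟨x', V', tm', ty', hinv', ?_⟩
    have h1 := hc.trans hc'
    have h2 : (n + 1) * cStep m μ N cP = n * cStep m μ N cP +
        (N ^ 2 * m * (μ + (cP + 2 * N + 1)) + cP + 1 + N ^ 3 + 5 * N ^ 2) := by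
      unfold cStep; ring
    rw [h2]
    exact h1

/-- From the final state to `Picks`. -/
theorem picks_of_pinv {X : Type} [MetricSpace X] {m N : ℕ} {x : ℕ → X} {V : Finset X} {tm : ℕ → ℕ → ℕ}
    {ty : ℕ → ℕ → Bool} (h : PInv m N x V tm ty) (hV : V.Nonempty) : Nonempty (Picks X N) := by
  obtain ⟨w, hw⟩ := hV
  refine ⟨⟨x, ?_, tm, ty, ?_, ?_, h.late, h.tri, ?_⟩⟩
  · intro i j hi hj hij
    rcases lt_trichotomy i j with h1 | h1 | h1
    · exact absurd hij (h.inj i j h1 hj)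
    · exact h1
    · exact absurd hij.symm (h.inj j i h1 hi)
  · intro i j s t hij hs ht hsN htN hst hty
    rcases lt_or_gt_of_ne hst with h1 | h1
    · exact ((h.typP i j s t hij hs h1 htN).1 hty).1
    · have h2 := ((h.typP i j t s hij ht h1 hsN).1 hty).2
      rw [dist_comm (x s) (x t)]
      linarith
  · intro i j s t hij hs ht hsN htN hst hty
    rcases lt_or_gt_of_ne hst with h1 | h1
    · exact ((h.typP i j s t hij hs h1 htN).2 hty).1
    · have h2 := ((h.typP i j t s hij ht h1 hsN).2 hty).2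
      rw [dist_comm (x s) (x t)]
      linarith
  · intro i j l t t' hi hj hl hi' hj' hl' ht ht'
    exact (h.homP i j l t hi hj hl ht w hw).trans (h.homP i j l t' hi' hj' hl' ht' w hw).symm

/-- **The process.** -/
theorem process : ∃ k : ℕ, 1 ≤ k ∧ ∀ (X : Type) [MetricSpace X] (p N : ℕ), 1 ≤ p → 1 ≤ N → ¬ Sav X p →
    ∀ V : Finset X, 2 ^ (k * (p + N) ^ k) ≤ V.card → Nonempty (Picks X N) := by
  obtain ⟨k₀, _, hpick⟩ := pick
  have hPB : PB (fun q => q * (q ^ 2 * (12 * q) * (12 * q + (k₀ * q ^ k₀ + 2 * q + 1)) + k₀ * q ^ k₀ + 1 +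
      q ^ 3 + 5 * q ^ 2)) := by
    have h12 : PB (fun q => 12 * q) := (PB.const 12).mul PB.id
    have hk : PB (fun q => k₀ * q ^ k₀) := (PB.const k₀).mul (PB.id.pow k₀)
    exact PB.id.mul ((((((PB.id.pow 2).mul h12).mul (h12.add ((hk.add ((PB.const 2).mul PB.id)).add
      (PB.const 1)))).add hk).add (PB.const 1)).add (PB.id.pow 3) |>.add ((PB.const 5).mul (PB.id.pow 2)))
  obtain ⟨k, hk1, hk⟩ := hPB.pos
  refine ⟨k, hk1, ?_⟩
  intro X _ p N hp hN hns V hV
  have hq : 1 ≤ p + N := by omega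
  have h12p : 12 * p ≤ 2 ^ (12 * p) := (Nat.lt_two_pow_self).le
  have hbound : N * cStep (12 * p) (12 * p) N (k₀ * (p + N) ^ k₀) ≤ k * (p + N) ^ k := by
    refine le_trans ?_ (hk (p + N) hq)
    unfold cStep
    have e1 : N ≤ p + N := by omega
    have e2 : p ≤ p + N := by omega
    gcongr
  obtain ⟨x, V', tm, ty, hinv, hc⟩ := exists_pinv (N := N) (by omega) h12p
    (fun S V hS hV => hpick X p N hp hN hns S V hS hV) V
    ((Nat.pow_le_pow_right (by norm_num) hbound).trans hV) N le_rfl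
  refine picks_of_pinv hinv ?_
  rw [← Finset.card_pos]
  have h1 : 2 ^ (N * cStep (12 * p) (12 * p) N (k₀ * (p + N) ^ k₀) + 0) ≤ V.card := by
    rw [Nat.add_zero]
    exact (Nat.pow_le_pow_right (by norm_num) hbound).trans hV
  have := hc.large h1
  simpa using this

end Pool.Agent.Lib.MP_293cc0_an.R
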