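import Pool.Agent.Lib.MP_293cc0_an.R.SpecC

/-!
# MP_293cc0_an, the reduction: one stage of the chain
-/

set_option autoImplicit false

namespace Pool.Agent.Lib.MP_293cc0_an.R

open Finset
open scoped Classical

theorem step (hStage : StageStmt) (hDic : DicStmt) (hCls : ClsStmt) (hSel : SelStmt) (hHalf : HalfStmt)
    (hRef : RefStmt) : StepStmt := by
  intro X _ E _ m PD qD nD nZ a Lm κ μ cT cW p0 cI cS cV cB nW P V0 f l par hD hN hpin hE hbig hl1 hlL hcost htau hinc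
  obtain ⟨V, hV⟩ : ∃ V, V = (f (l - 1)).V := ⟨_, rfl⟩
  obtain ⟨t0, ht0⟩ : ∃ t0, t0 = (f (l - 1)).τ := ⟨_, rfl⟩
  rw [← hV] at hcost hinc
  rw [← ht0] at htau hinc
  have p1 := par.m1
  have p2 := par.mμ
  have p3 := par.κ1
  have p4 := par.hT
  have p5 := par.hp0
  have p6 := par.hW
  have p7 := par.hI
  have p8 := par.hS
  have p9 := par.hV
  have p10 := par.hB
  have p11 := par.hn
  have hlcS : l * cS ≤ cV := le_trans (Nat.mul_le_mul_right _ (by omega)) p9
  have hl1cS : l * cS + cS ≤ cV := by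
    have : (l + 1) * cS ≤ (Lm + 2) * cS := Nat.mul_le_mul_right _ (by omega)
    have h2 : (l + 1) * cS = l * cS + cS := by ring
    omega
  -- sizes
  have hVlarge : 2 ^ (cI + nW) ≤ V.card := by
    refine hcost.large (le_trans (Nat.pow_le_pow_right (by norm_num) ?_) hbig)
    omega
  -- near minimal level
  obtain ⟨W, g, δ, hWc, hWl, hmin⟩ := hN p0 V (by omega)
    (le_trans (Nat.pow_le_pow_right (by norm_num) (by omega)) hVlarge)
  have hδ : 4 / 5 * t0 ≤ δ := hinc W g δ (hWc.mono (by omega)) hWl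
  have hδ0 : 0 < δ := hWl.pos
  -- halving
  obtain ⟨D, hDdef⟩ : ∃ D : Fin Lm × Fin m × Fin m → X → ℝ, D = fun q x =>
      dist ((f (q.1 + 1)).T q.2.1) x - dist ((f (q.1 + 1)).T q.2.2) x := ⟨_, rfl⟩
  have hcard1 : Fintype.card (Fin Lm × Fin m × Fin m) = Lm * (m * m) := by
    simp only [Fintype.card_prod, Fintype.card_fin]
  obtain ⟨Wh, Vh, hWh, hVh, hord⟩ := hHalf X (Lm * (m * m))
    (fun i => D ((Fintype.equivFinOfCardEq hcard1).symm i)) W V
  have hord' : ∀ q, (∀ w ∈ Wh, ∀ x ∈ Vh, D q x ≤ D q w) ∨ (∀ w ∈ Wh, ∀ x ∈ Vh, D q w ≤ D q x) := by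
    intro q
    have := hord (Fintype.equivFinOfCardEq hcard1 q)
    simpa using this
  have hWhV : Cost (p0 + Lm * (m * m)) Wh V := hWc.trans hWh
  have hWhV0 : Cost (l * cS + (p0 + Lm * (m * m))) Wh V0 := hcost.trans hWhV
  have hVhV0 : Cost (l * cS + Lm * (m * m)) Vh V0 := hcost.trans hVh
  -- thresholds
  obtain ⟨τ, hτ⟩ : ∃ τ : ℕ → ℝ, τ = fun k => if k = l then 5 * δ else (f k).τ := ⟨_, rfl⟩
  have hτl : τ l = 5 * δ := by rw [hτ]; simp
  obtain ⟨J, hJ⟩ : ∃ J, J = 2 ^ (κ + 1) * m := ⟨_, rfl⟩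
  rw [← hJ] at p4 p6
  have hc : J * (κ + 2 + (qD + 1) + l * μ) ≤ cW := by
    refine le_trans (Nat.mul_le_mul_left _ ?_) p6
    have : l * μ ≤ Lm * μ := Nat.mul_le_mul_right _ hlL
    omega
  have hκ : Fintype.card E * (l + 1) ≤ 2 ^ κ :=
    le_trans (Nat.mul_le_mul hE (by omega)) p3
  have hVhlarge : 2 ^ (J * (κ + 2) + 1) ≤ Vh.card := by
    refine hVhV0.large (le_trans (Nat.pow_le_pow_right (by norm_num) ?_) hbig)
    omega
  have hWhlarge : ∀ c, c ≤ cW + nD + 3 → 2 ^ c ≤ Wh.card := by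
    intro c hc'
    refine hWhV0.large (le_trans (Nat.pow_le_pow_right (by norm_num) ?_) hbig)
    omega
  have hDVh : Vh ⊆ V0 := hVhV0.1
  obtain ⟨e, k, σ, T, u, V1, hkl, hV1, hTW, hps⟩ := hSel X E m μ P τ (3 * t0) l κ (qD + 1)
    (J * (κ + 2 + (qD + 1) + l * μ)) (J * (κ + 2 + (qD + 1) + l * μ) + 2) (fun l' => (f l').T) Wh Vh
    p1 p2 hκ
    (by
      intro x hx
      rw [hτl]
      refine hCls X E m a _ cB (l * cS + (p0 + Lm * (m * m))) P V0 W Wh g δ hpin hE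
        (hWc.1.trans hcost.1) hWl hWh.1 hWhV0 ?_ x (hDVh hx)
      omega)
    (by
      intro A hA e
      have hAV : Cost (p0 + Lm * (m * m) + J * (κ + 2 + (qD + 1) + l * μ)) A V := hWhV.trans hA
      refine hDic X m PD qD nD _ cI V A (4 / 5 * t0) (3 * t0) (P e) hD hinc (by linarith) (by linarith) hAV
        (by omega) ?_
      refine (hA.mono hc).large (hWhlarge _ ?_)
      omega)
    (by rw [← hJ]) (by rw [← hJ]) (by rw [← hJ]; exact hWhlarge _ (by omega)) (by rw [← hJ]; exact hVhlarge)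
  rw [← hJ] at hV1
  -- refinement
  obtain ⟨T2, hT2⟩ : ∃ T2 : ℕ → X, T2 = fun i => if i = l then T 0 else (f i).T 0 := ⟨_, rfl⟩
  obtain ⟨R, hRdef⟩ : ∃ R : Option (Fin (Lm + 1) × Fin (Lm + 1) × Fin (Lm + 1)) → X → Prop,
      R = fun q x => match q with
        | none => 0 < MG (P e) (T 0) x
        | some q => Rel (T2 q.1) (T2 q.2.1) (T2 q.2.2) x := ⟨_, rfl⟩
  have hcard2 : Fintype.card (Option (Fin (Lm + 1) × Fin (Lm + 1) × Fin (Lm + 1))) =
      (Lm + 1) * (Lm + 1) * (Lm + 1) + 1 := by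
    simp only [Fintype.card_option, Fintype.card_prod, Fintype.card_fin]
    ring
  obtain ⟨V2, hV2, hR⟩ := hRef X ((Lm + 1) * (Lm + 1) * (Lm + 1) + 1)
    (fun i => R ((Fintype.equivFinOfCardEq hcard2).symm i)) V1
  have hR' : ∀ q, ∀ x ∈ V2, ∀ x' ∈ V2, (R q x ↔ R q x') := by
    intro q
    have := hR (Fintype.equivFinOfCardEq hcard2 q)
    simpa using this
  have hV2V : Cost cT V2 V := ((hVh.trans hV1).trans hV2).mono (by omega)
  have hV2V0 : Cost cV V2 V0 := (hcost.trans hV2V).mono (by omega)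
  -- stage analysis
  obtain ⟨V3, hV3, hinc3⟩ := hStage X E m PD qD nD a cB cV cT cI p0 P V0 V V2 δ hD hpin hE hδ0 hcost.1 hV2V hV2V0
    hmin p5 p10 (by
      have h1 : 2 ^ (nD + cI + qD + 2 * a + 5 + cT) ≤ V.card :=
        le_trans (Nat.pow_le_pow_right (by norm_num) (by omega)) hVlarge
      rw [add_comm] at h1
      exact hV2V.large h1)
  have s32 : V3 ⊆ V2 := hV3.1
  have s21 : V2 ⊆ V1 := hV2.1
  have s1h : V1 ⊆ Vh := hV1.1
  refine ⟨⟨V3, T, e, k, σ, 5 * δ⟩, ?_⟩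
  suffices h : ∀ f' : ℕ → St X E, f' l = ⟨V3, T, e, k, σ, 5 * δ⟩ → (∀ i, i ≠ l → f' i = f i) →
      StOK m cS cI P f' l from
    h _ (Function.update_self _ _ _) (fun i hi => Function.update_of_ne hi _ _)
  intro f' h1 h2
  have hl0 : l - 1 ≠ l := by omega
  have h3 : f' (l - 1) = f (l - 1) := h2 _ hl0
  have hτf : (fun i => (f' i).τ) = τ := by
    funext i
    rw [hτ]
    by_cases hi : i = l
    · simp only [hi, h1, if_true]
    · simp only [h2 i hi, if_neg hi]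
  have hT2f : ∀ i, (f' i).T 0 = T2 i := by
    intro i
    rw [hT2]
    by_cases hi : i = l
    · simp only [hi, h1, if_true]
    · simp only [h2 i hi, if_neg hi]
  constructor
  · rw [h3, h1, ← hV]
    exact (hV2V.trans hV3).mono p8
  · rw [h1]
    have : 4 / 5 * (5 * δ) = 4 * δ := by ring
    simp only [this]
    exact hinc3
  · rw [h3, h1, ← ht0]
    simp only
    linarith
  · intro i hi
    rw [h3, h1, ← hV]
    exact hWhV.1 (hTW i hi)
  · intro i j hij hj
    rw [h1]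
    exact hps.inj i j hij hj
  · intro i hi hmem
    rw [h1] at hmem
    exact hps.notV i hi (s21 (s32 hmem))
  · rw [h1]
    exact hkl
  · intro i j hij hj
    rw [h3, h1, ← ht0]
    exact hps.side i j hij hj
  · intro i hi x hx
    rw [hτf]
    rw [h1] at hx ⊢
    exact hps.cl i hi x (s21 (s32 hx))
  · intro l' hl' hl'l
    have h4 : f' l' = f l' := h2 l' (by omega)
    refine ⟨u l', hps.ult l' hl' hl'l, hps.uinj l' hl' hl'l, ?_⟩
    rw [h1, h4]
    exact hps.serv l' hl' hl'l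
  · intro l' hl' hl'l r y hr hy
    have h4 : f' l' = f l' := h2 l' (by omega)
    have h5 := hord' (⟨l' - 1, by omega⟩, ⟨r, hr⟩, ⟨y, hy⟩)
    have h6 : l' - 1 + 1 = l' := by omega
    rw [hDdef] at h5
    simp only [h6] at h5
    rw [h1, h4]
    rcases h5 with h5 | h5
    · left
      intro i hi x hx
      exact h5 (T i) (hTW i hi) x (s1h (s21 (s32 hx)))
    · right
      intro i hi x hx
      exact h5 (T i) (hTW i hi) x (s1h (s21 (s32 hx)))
  · intro i j q hi1 hi2 hj1 hj2 hq1 hq2 x hx x' hx'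
    rw [h1] at hx hx'
    rw [hT2f, hT2f, hT2f]
    have h5 := hR' (some (⟨i, by omega⟩, ⟨j, by omega⟩, ⟨q, by omega⟩)) x (s32 hx) x' (s32 hx')
    rw [hRdef] at h5
    exact h5
  · intro x hx x' hx'
    rw [h1] at hx hx' ⊢
    have h5 := hR' none x (s32 hx) x' (s32 hx')
    rw [hRdef] at h5
    exact h5

end Pool.Agent.Lib.MP_293cc0_an.R
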