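import Pool.Agent.Lib.MP_293cc0_an.R.Spec

/-!
# MP_293cc0_an, the reduction (R): Lemma T, section 6

Three points `i, j, x` which are pairwise undecidable on `V` (a subset of a level `(W, g, s)`): for some `w ∈ V` the three
functions `f_i = dist i · - g` etc. are near to the median values `c_i`, `c_j`, `c_x`.
-/

set_option autoImplicit false

namespace Pool.Agent.Lib.MP_293cc0_an.R

open Finset
open scoped Classical

variable {X : Type} [MetricSpace X]

/-- A subset with at least `1/32` of the points is not decided. -/
theorem Und.small {m : ℕ} {W V : Finset X} {g : X → ℝ} {s : ℝ} (hW : Level m W g s) (hV : V ⊆ W) {i j : X}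
    (h : Und m i j V) (A : Finset X) (hA : A ⊆ V) (hD : DecL i j A g s ∨ DecU i j A g s) :
    32 * A.card < V.card := by
  by_contra hcon
  exact h ⟨A, g, s, ⟨hA, by norm_num; omega⟩, hW.subset (hA.trans hV), hD⟩

/-- The two exceptional sets of one function. `a, b, c` are the median values of `i, j, x`. -/
theorem Und.side {m : ℕ} {W V : Finset X} {g : X → ℝ} {s : ℝ} (hW : Level m W g s) (hV : V ⊆ W) {i j x : X}
    (hij : Und m i j V) (hix : Und m i x V) (hjx : Und m j x V) {a b c : ℝ}
    (hab : a + b = dist i j) (hac : a + c = dist i x) (hbc : b + c = dist j x) :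
    8 * (V.filter (fun v => a + 5 / 2 * s < dist i v - g v)).card < V.card ∧
      8 * (V.filter (fun v => dist i v - g v < a - 5 / 2 * s)).card < V.card := by
  classical
  have hs := hW.pos
  constructor
  · set A := V.filter (fun v => a + 5 / 2 * s < dist i v - g v) with hAdef
    have hAV : A ⊆ V := Finset.filter_subset _ _
    have h1 : 32 * (A.filter (fun v => b - s ≤ dist j v - g v)).card < V.card := by
      refine hij.small hW hV _ ((Finset.filter_subset _ _).trans hAV) (Or.inl ?_)
      intro v hv w hw
      have e1 := (Finset.mem_filter.1 (Finset.mem_of_mem_filter v hv)).2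
      have e2 := (Finset.mem_filter.1 hw).2
      linarith
    have h2 : 32 * (A.filter (fun v => c - s ≤ dist x v - g v)).card < V.card := by
      refine hix.small hW hV _ ((Finset.filter_subset _ _).trans hAV) (Or.inl ?_)
      intro v hv w hw
      have e1 := (Finset.mem_filter.1 (Finset.mem_of_mem_filter v hv)).2
      have e2 := (Finset.mem_filter.1 hw).2
      linarith
    have h3 : 32 * (A.filter (fun v => dist j v - g v < b - s ∧ dist x v - g v < c - s)).card < V.card := by
      refine hjx.small hW hV _ ((Finset.filter_subset _ _).trans hAV) (Or.inr ?_)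
      intro v hv w hw
      have e1 := (Finset.mem_filter.1 hv).2.1
      have e2 := (Finset.mem_filter.1 hw).2.2
      linarith
    have h4 : A ⊆ A.filter (fun v => b - s ≤ dist j v - g v) ∪ (A.filter (fun v => c - s ≤ dist x v - g v) ∪
        A.filter (fun v => dist j v - g v < b - s ∧ dist x v - g v < c - s)) := by
      intro v hv
      by_cases e1 : b - s ≤ dist j v - g v
      · exact Finset.mem_union_left _ (Finset.mem_filter.2 ⟨hv, e1⟩)
      · by_cases e2 : c - s ≤ dist x v - g v
        · exact Finset.mem_union_right _ (Finset.mem_union_left _ (Finset.mem_filter.2 ⟨hv, e2⟩))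
        · exact Finset.mem_union_right _ (Finset.mem_union_right _
            (Finset.mem_filter.2 ⟨hv, lt_of_not_ge e1, lt_of_not_ge e2⟩))
    have h5 := (Finset.card_le_card h4).trans ((Finset.card_union_le _ _).trans
      (Nat.add_le_add_left (Finset.card_union_le _ _) _))
    omega
  · set A := V.filter (fun v => dist i v - g v < a - 5 / 2 * s) with hAdef
    have hAV : A ⊆ V := Finset.filter_subset _ _
    have h1 : 32 * (A.filter (fun v => dist j v - g v ≤ b + s / 2)).card < V.card := by
      refine hij.small hW hV _ ((Finset.filter_subset _ _).trans hAV) (Or.inr ?_)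
      intro v hv w hw
      have e1 := (Finset.mem_filter.1 (Finset.mem_of_mem_filter v hv)).2
      have e2 := (Finset.mem_filter.1 hw).2
      linarith
    have h2 : 32 * (A.filter (fun v => dist x v - g v ≤ c + s / 2)).card < V.card := by
      refine hix.small hW hV _ ((Finset.filter_subset _ _).trans hAV) (Or.inr ?_)
      intro v hv w hw
      have e1 := (Finset.mem_filter.1 (Finset.mem_of_mem_filter v hv)).2
      have e2 := (Finset.mem_filter.1 hw).2
      linarith
    have h3 : 32 * (A.filter (fun v => b + s / 2 < dist j v - g v ∧ c + s / 2 < dist x v - g v)).card <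
        V.card := by
      refine hjx.small hW hV _ ((Finset.filter_subset _ _).trans hAV) (Or.inl ?_)
      intro v hv w hw
      have e1 := (Finset.mem_filter.1 hv).2.1
      have e2 := (Finset.mem_filter.1 hw).2.2
      linarith
    have h4 : A ⊆ A.filter (fun v => dist j v - g v ≤ b + s / 2) ∪ (A.filter (fun v => dist x v - g v ≤ c + s / 2) ∪
        A.filter (fun v => b + s / 2 < dist j v - g v ∧ c + s / 2 < dist x v - g v)) := by
      intro v hv
      by_cases e1 : dist j v - g v ≤ b + s / 2
      · exact Finset.mem_union_left _ (Finset.mem_filter.2 ⟨hv, e1⟩)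
      · by_cases e2 : dist x v - g v ≤ c + s / 2
        · exact Finset.mem_union_right _ (Finset.mem_union_left _ (Finset.mem_filter.2 ⟨hv, e2⟩))
        · exact Finset.mem_union_right _ (Finset.mem_union_right _
            (Finset.mem_filter.2 ⟨hv, lt_of_not_ge e1, lt_of_not_ge e2⟩))
    have h5 := (Finset.card_le_card h4).trans ((Finset.card_union_le _ _).trans
      (Nat.add_le_add_left (Finset.card_union_le _ _) _))
    omega

/-- **Lemma T.** -/
theorem lemmaT {m : ℕ} {W V : Finset X} {g : X → ℝ} {s : ℝ} (hW : Level m W g s) (hV : V ⊆ W) {i j x : X}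
    (hij : Und m i j V) (hix : Und m i x V) (hjx : Und m j x V) :
    ∃ w ∈ V, |Pot i j w - g w| ≤ 5 / 2 * s ∧ |dist x w - g w - Pot i j x| ≤ 5 / 2 * s := by
  classical
  have hV0 := hij.nonempty.card_pos
  obtain ⟨a, ha⟩ : ∃ a, a = (dist i j + dist i x - dist j x) / 2 := ⟨_, rfl⟩
  obtain ⟨b, hb⟩ : ∃ b, b = (dist i j + dist j x - dist i x) / 2 := ⟨_, rfl⟩
  obtain ⟨c, hc⟩ : ∃ c, c = (dist i x + dist j x - dist i j) / 2 := ⟨_, rfl⟩
  have hxi : dist x i = dist i x := dist_comm _ _
  have hxj : dist x j = dist j x := dist_comm _ _
  have hji : dist j i = dist i j := dist_comm _ _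
  have k1 := Und.side hW hV hij hix hjx (a := a) (b := b) (c := c) (by linarith) (by linarith) (by linarith)
  have k2 := Und.side hW hV hij.comm hjx hix (a := b) (b := a) (c := c) (by linarith) (by linarith) (by linarith)
  have k3 := Und.side hW hV hix.comm hjx.comm hij (a := c) (b := a) (c := b) (by linarith) (by linarith)
    (by linarith)
  obtain ⟨w, hw, hw'⟩ : ∃ w ∈ V, |dist i w - g w - a| ≤ 5 / 2 * s ∧ |dist j w - g w - b| ≤ 5 / 2 * s ∧
      |dist x w - g w - c| ≤ 5 / 2 * s := by
    by_contra hcon
    push Not at hcon
    have hsub : V ⊆ (V.filter (fun v => a + 5 / 2 * s < dist i v - g v) ∪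
        V.filter (fun v => dist i v - g v < a - 5 / 2 * s)) ∪
        ((V.filter (fun v => b + 5 / 2 * s < dist j v - g v) ∪
        V.filter (fun v => dist j v - g v < b - 5 / 2 * s)) ∪
        (V.filter (fun v => c + 5 / 2 * s < dist x v - g v) ∪
        V.filter (fun v => dist x v - g v < c - 5 / 2 * s))) := by
      intro v hv
      simp only [Finset.mem_union, Finset.mem_filter]
      by_cases e1 : |dist i v - g v - a| ≤ 5 / 2 * s
      · by_cases e2 : |dist j v - g v - b| ≤ 5 / 2 * s
        · have e3 := hcon v hv e1 e2
          rcases lt_abs.1 e3 with e | e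
          · right; right; left; exact ⟨hv, by linarith⟩
          · right; right; right; exact ⟨hv, by linarith⟩
        · rcases lt_abs.1 (lt_of_not_ge e2) with e | e
          · right; left; left; exact ⟨hv, by linarith⟩
          · right; left; right; exact ⟨hv, by linarith⟩
      · rcases lt_abs.1 (lt_of_not_ge e1) with e | e
        · left; left; exact ⟨hv, by linarith⟩
        · left; right; exact ⟨hv, by linarith⟩
    have h1 := Finset.card_le_card hsub
    have h2 := Finset.card_union_le (V.filter (fun v => a + 5 / 2 * s < dist i v - g v) ∪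
        V.filter (fun v => dist i v - g v < a - 5 / 2 * s))
        ((V.filter (fun v => b + 5 / 2 * s < dist j v - g v) ∪
        V.filter (fun v => dist j v - g v < b - 5 / 2 * s)) ∪
        (V.filter (fun v => c + 5 / 2 * s < dist x v - g v) ∪
        V.filter (fun v => dist x v - g v < c - 5 / 2 * s)))
    have h3 := Finset.card_union_le (V.filter (fun v => b + 5 / 2 * s < dist j v - g v) ∪
        V.filter (fun v => dist j v - g v < b - 5 / 2 * s))
        (V.filter (fun v => c + 5 / 2 * s < dist x v - g v) ∪
        V.filter (fun v => dist x v - g v < c - 5 / 2 * s))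
    have h4 := Finset.card_union_le (V.filter (fun v => a + 5 / 2 * s < dist i v - g v))
        (V.filter (fun v => dist i v - g v < a - 5 / 2 * s))
    have h5 := Finset.card_union_le (V.filter (fun v => b + 5 / 2 * s < dist j v - g v))
        (V.filter (fun v => dist j v - g v < b - 5 / 2 * s))
    have h6 := Finset.card_union_le (V.filter (fun v => c + 5 / 2 * s < dist x v - g v))
        (V.filter (fun v => dist x v - g v < c - 5 / 2 * s))
    omega
  obtain ⟨h1, h2, h3⟩ := hw'
  refine ⟨w, hw, ?_, ?_⟩
  · rw [abs_le] at h1 h2 ⊢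
    unfold Pot
    constructor <;> linarith [h1.1, h1.2, h2.1, h2.2]
  · have e : Pot i j x = c := by rw [hc]; unfold Pot; rfl
    rw [e]
    exact h3

end Pool.Agent.Lib.MP_293cc0_an.R
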